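import Pool.Agent.Lib.MP_9bef39_co.Defs

open Finset
open scoped Classical

namespace Pool.Agent.Lib.MP_9bef39_co

theorem asm_thr0 (B : BG) (k : ℕ) (e : B.E) : thr B k e 0 = Sum.inr (Sum.inr false) := by
  simp [thr]

theorem asm_thr1 (B : BG) (k : ℕ) (e : B.E) : thr B k e 1 = Sum.inl (B.lo e) := by
  simp [thr]

theorem asm_thrk1 (B : BG) {k : ℕ} (hk : 1 ≤ k) (e : B.E) :
    thr B k e (k + 1) = Sum.inl (B.hi e) := by
  unfold thr
  rw [if_neg (by omega), if_neg (by omega), dif_neg (by omega), if_pos rfl]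

theorem asm_thrk2 (B : BG) (k : ℕ) (e : B.E) : thr B k e (k + 2) = Sum.inr (Sum.inr true) := by
  unfold thr
  rw [if_neg (by omega), if_neg (by omega), dif_neg (by omega), if_neg (by omega)]

theorem asm_thrm (B : BG) {k : ℕ} (e : B.E) {n : ℕ} (h : 2 ≤ n ∧ n ≤ k) :
    thr B k e n = Sum.inr (Sum.inl (e, ⟨n - 2, by omega⟩)) := by
  unfold thr
  rw [if_neg (by omega), if_neg (by omega), dif_pos h]

/-- The assembled map. -/
def asmMap (B : BG) (k : ℕ) {V : Type} (y : Bool → V) (ψ : B.W → V) (π : B.E → ℕ → V) :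
    LW B k → V :=
  Sum.elim ψ (Sum.elim (fun p => π p.1 (p.2.1 + 2)) y)

theorem asm_phi (B : BG) {k : ℕ} (hk : 1 ≤ k) {V : Type} {G : SimpleGraph V}
    {c : Sym2 V → Sym2 V → Prop} {y : Bool → V} {ψ : B.W → V}
    {π : B.E → ℕ → V} (h : Data B k G c y ψ π) (e : B.E) {n : ℕ} (hn : n ≤ k + 2) :
    asmMap B k y ψ π (thr B k e n) = π e n := by
  rcases (by omega : n = 0 ∨ n = 1 ∨ (2 ≤ n ∧ n ≤ k) ∨ n = k + 1 ∨ n = k + 2) with
    h1 | h1 | h1 | h1 | h1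
  · rw [h1, asm_thr0, h.p0]; rfl
  · rw [h1, asm_thr1, h.p1]; rfl
  · rw [asm_thrm B e h1]
    show π e (n - 2 + 2) = π e n
    rw [Nat.sub_add_cancel h1.1]
  · rw [h1, asm_thrk1 B hk, h.pk1]; rfl
  · rw [h1, asm_thrk2, h.pk2]; rfl

theorem asm_near (B : BG) (k : ℕ) (e : B.E) {n m : ℕ} (hn : n ≤ k + 2) (hm : m ≤ k + 2)
    (h1 : m ≤ n + 1) (h2 : n ≤ m + 1) : Near (LG B k) (thr B k e n) (thr B k e m) := by
  by_cases h : thr B k e n = thr B k e m
  · exact Or.inl h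
  right
  unfold LG
  rw [SimpleGraph.fromRel_adj]
  refine ⟨h, ?_⟩
  rcases (by omega : n = m ∨ m = n + 1 ∨ n = m + 1) with h3 | h3 | h3
  · exact absurd (by rw [h3]) h
  · exact Or.inl ⟨e, n, by omega, rfl, by rw [h3]⟩
  · exact Or.inr ⟨e, m, by omega, rfl, by rw [h3]⟩

theorem asm_vertex (B : BG) {k : ℕ} (hk : 1 ≤ k) (a : LW B k) :
    ∃ e n, n ≤ k + 2 ∧ a = thr B k e n := by
  rcases a with w | ⟨e, i⟩ | b
  · obtain ⟨e, h | h⟩ := B.inc w
    · exact ⟨e, 1, by omega, by rw [asm_thr1, h]⟩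
    · exact ⟨e, k + 1, by omega, by rw [asm_thrk1 B hk, h]⟩
  · have hi := i.2
    refine ⟨e, i.1 + 2, by omega, ?_⟩
    rw [asm_thrm B e (n := i.1 + 2) ⟨by omega, by omega⟩]
    rfl
  · obtain ⟨e⟩ := B.ne
    cases b
    · exact ⟨e, 0, by omega, by rw [asm_thr0]⟩
    · exact ⟨e, k + 2, le_rfl, by rw [asm_thrk2]⟩

theorem asm_cases (B : BG) {k : ℕ} (hk : 1 ≤ k) {a b : LW B k} (h : Near (LG B k) a b) :
    ∃ e n n', n ≤ n' ∧ n' ≤ n + 1 ∧ n' ≤ k + 2 ∧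
      ((a = thr B k e n ∧ b = thr B k e n') ∨ (a = thr B k e n' ∧ b = thr B k e n)) := by
  rcases h with h | h
  · obtain ⟨e, n, hn, ha⟩ := asm_vertex B hk a
    exact ⟨e, n, n, le_rfl, by omega, hn, Or.inl ⟨ha, h ▸ ha⟩⟩
  · unfold LG at h
    rw [SimpleGraph.fromRel_adj] at h
    rcases h.2 with ⟨e, n, hn, h1, h2⟩ | ⟨e, n, hn, h1, h2⟩
    · exact ⟨e, n, n + 1, by omega, le_rfl, by omega, Or.inl ⟨h1, h2⟩⟩
    · exact ⟨e, n, n + 1, by omega, le_rfl, by omega, Or.inr ⟨h2, h1⟩⟩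

theorem asm_class (B : BG) {k : ℕ} (hk : 1 ≤ k) {V : Type} {G : SimpleGraph V}
    {c : Sym2 V → Sym2 V → Prop} {y : Bool → V} {ψ : B.W → V}
    {π : B.E → ℕ → V} (h : Data B k G c y ψ π) (e : B.E) {n n' : ℕ} (h1 : n ≤ n')
    (h2 : n' ≤ n + 1) (h3 : n' ≤ k + 2) :
    (∀ f, thr B k f n = thr B k e n ∧ thr B k f n' = thr B k e n') ∨
    (∃ w, (w = B.lo e ∨ w = B.hi e) ∧ s(π e n, π e n') ∈ st (y (B.col w)) (ψ w) ∧
      ∀ f, (w = B.lo f ∨ w = B.hi f) →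
        thr B k f n = thr B k e n ∧ thr B k f n' = thr B k e n') ∨
    s(π e n, π e n') ∈ inner k (win 1 k (π e)) := by
  have hlo : ∀ f, (B.lo e = B.lo f ∨ B.lo e = B.hi f) → B.lo f = B.lo e := by
    rintro f (h | h)
    · exact h.symm
    · have a1 := B.col_lo e
      have a2 := B.col_hi f
      rw [h, a2] at a1
      exact absurd a1 (by simp)
  have hhi : ∀ f, (B.hi e = B.lo f ∨ B.hi e = B.hi f) → B.hi f = B.hi e := by
    rintro f (h | h)
    · have a1 := B.col_hi e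
      have a2 := B.col_lo f
      rw [h, a2] at a1
      exact absurd a1 (by simp)
    · exact h.symm
  rcases (by omega : (n = 0 ∧ n' = 0) ∨ (n = k + 2 ∧ n' = k + 2) ∨ (n = 0 ∧ n' = 1) ∨
      (n = 1 ∧ n' = 1) ∨ (n = k + 1 ∧ n' = k + 1) ∨ (n = k + 1 ∧ n' = k + 2) ∨
      (2 ≤ n ∧ n ≤ k ∧ n' = n) ∨ (1 ≤ n ∧ n ≤ k ∧ n' = n + 1)) with
    ⟨a, b⟩ | ⟨a, b⟩ | ⟨a, b⟩ | ⟨a, b⟩ | ⟨a, b⟩ | ⟨a, b⟩ | ⟨a, b, d⟩ | ⟨a, b, d⟩
  · left; intro f; rw [a, b]; simp only [asm_thr0, and_self]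
  · left; intro f; rw [a, b]; simp only [asm_thrk2, and_self]
  · right; left
    refine ⟨B.lo e, Or.inl rfl, ?_, fun f hf => ?_⟩
    · rw [a, b, h.p0, h.p1, B.col_lo]; simp [st]
    · rw [a, b]; simp only [asm_thr0, asm_thr1, hlo f hf, and_self]
  · right; left
    refine ⟨B.lo e, Or.inl rfl, ?_, fun f hf => ?_⟩
    · rw [a, b, h.p1]; simp [st]
    · rw [a, b]; simp only [asm_thr1, hlo f hf, and_self]
  · right; left
    refine ⟨B.hi e, Or.inr rfl, ?_, fun f hf => ?_⟩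
    · rw [a, b, h.pk1]; simp [st]
    · rw [a, b]; simp only [asm_thrk1 B hk, hhi f hf, and_self]
  · right; left
    refine ⟨B.hi e, Or.inr rfl, ?_, fun f hf => ?_⟩
    · rw [a, b, h.pk1, h.pk2, B.col_hi, Sym2.eq_swap]; simp [st]
    · rw [a, b]; simp only [asm_thrk1 B hk, asm_thrk2, hhi f hf, and_self]
  · right; right
    unfold inner
    refine mem_union_left _ (mem_image.2 ⟨n - 1, mem_Ioo.2 ⟨by omega, by omega⟩, ?_⟩)
    have : 1 + min (n - 1) k = n := by omega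
    simp only [win, this, d]
  · right; right
    unfold inner
    refine mem_union_right _ (mem_image.2 ⟨n - 1, mem_range.2 (by omega), ?_⟩)
    have e1 : 1 + min (n - 1) k = n := by omega
    have e2 : 1 + min (n - 1 + 1) k = n + 1 := by omega
    simp only [win, e1, e2, d]

theorem asm_key (B : BG) {k : ℕ} (hk : 1 ≤ k) {V : Type} {G : SimpleGraph V}
    {c : Sym2 V → Sym2 V → Prop} {s : ℕ} (hc : Conf s c) {y : Bool → V} {ψ : B.W → V}
    {π : B.E → ℕ → V} (h : Data B k G c y ψ π) (e e' : B.E) {n n' m m' : ℕ} (h1 : n ≤ n')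
    (h2 : n' ≤ n + 1) (h3 : n' ≤ k + 2) (g1 : m ≤ m') (g2 : m' ≤ m + 1) (g3 : m' ≤ k + 2)
    (hcc : c s(π e n, π e n') s(π e' m, π e' m')) :
    Near (LG B k) (thr B k e n) (thr B k e' m) ∧ Near (LG B k) (thr B k e n) (thr B k e' m') ∧
    Near (LG B k) (thr B k e n') (thr B k e' m) ∧
      Near (LG B k) (thr B k e n') (thr B k e' m') := by
  have common : (∃ f, (thr B k f n = thr B k e n ∧ thr B k f n' = thr B k e n') ∧
      (thr B k f m = thr B k e' m ∧ thr B k f m' = thr B k e' m')) := by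
    rcases asm_class B hk h e h1 h2 h3 with a | ⟨w, w1, w2, w3⟩ | a
    · exact ⟨e', a e', rfl, rfl⟩
    · rcases asm_class B hk h e' g1 g2 g3 with b | ⟨v, v1, v2, v3⟩ | b
      · exact ⟨e, ⟨rfl, rfl⟩, b e⟩
      · by_cases hwv : w = v
        · exact ⟨e, ⟨rfl, rfl⟩, v3 e (hwv ▸ w1)⟩
        by_cases hadj : B.graph.Adj w v
        · obtain ⟨f, ⟨f1, f2⟩ | ⟨f1, f2⟩⟩ := hadj
          · exact ⟨f, w3 f (Or.inl f1), v3 f (Or.inr f2)⟩
          · exact ⟨f, w3 f (Or.inr f1), v3 f (Or.inl f2)⟩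
        · exact absurd hcc (h.vv w v hwv hadj _ w2 _ v2)
      · by_cases hw : w = B.lo e' ∨ w = B.hi e'
        · exact ⟨e', w3 e' hw, rfl, rfl⟩
        · rw [not_or] at hw
          exact absurd hcc (h.ve w e' hw.1 hw.2 _ w2 _ b)
    · rcases asm_class B hk h e' g1 g2 g3 with b | ⟨v, v1, v2, v3⟩ | b
      · exact ⟨e, ⟨rfl, rfl⟩, b e⟩
      · by_cases hw : v = B.lo e ∨ v = B.hi e
        · exact ⟨e, ⟨rfl, rfl⟩, v3 e hw⟩
        · rw [not_or] at hw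
          exact absurd (hc.symm _ _ hcc) (h.ve v e hw.1 hw.2 _ v2 _ a)
      · by_cases hee : e = e'
        · exact ⟨e, ⟨rfl, rfl⟩, by rw [hee], by rw [hee]⟩
        · exact absurd hcc (h.ee e e' hee _ a _ b)
  obtain ⟨f, ⟨a1, a2⟩, b1, b2⟩ := common
  have p1 : π e n = π f n := by
    rw [← asm_phi B hk h e (by omega : n ≤ k + 2), ← a1, asm_phi B hk h f (by omega)]
  have p2 : π e n' = π f n' := by rw [← asm_phi B hk h e h3, ← a2, asm_phi B hk h f h3]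
  have p3 : π e' m = π f m := by
    rw [← asm_phi B hk h e' (by omega : m ≤ k + 2), ← b1, asm_phi B hk h f (by omega)]
  have p4 : π e' m' = π f m' := by rw [← asm_phi B hk h e' g3, ← b2, asm_phi B hk h f g3]
  rw [p1, p2, p3, p4] at hcc
  obtain ⟨c1, c2⟩ := h.clean f n n' m m' h1 h2 h3 g1 g2 g3 hcc
  rw [← a1, ← a2, ← b1, ← b2]
  exact ⟨asm_near B k f (by omega) (by omega) (by omega) (by omega),
    asm_near B k f (by omega) (by omega) (by omega) (by omega),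
    asm_near B k f (by omega) (by omega) (by omega) (by omega),
    asm_near B k f (by omega) (by omega) (by omega) (by omega)⟩

theorem asm (B : BG) {k : ℕ} (hk : 1 ≤ k) {V : Type} {G : SimpleGraph V}
    {c : Sym2 V → Sym2 V → Prop} {s : ℕ} (hc : Conf s c) {y : Bool → V} {ψ : B.W → V}
    {π : B.E → ℕ → V} (h : Data B k G c y ψ π) : ∃ φ, CleanHom (LG B k) G c φ := by
  refine ⟨asmMap B k y ψ π, ⟨?_, ?_⟩⟩
  · intro a b hab
    unfold LG at hab
    rw [SimpleGraph.fromRel_adj] at hab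
    rcases hab.2 with ⟨e, n, hn, h1, h2⟩ | ⟨e, n, hn, h1, h2⟩
    · rw [h1, h2, asm_phi B hk h e (by omega), asm_phi B hk h e (by omega)]
      exact h.adj e n hn
    · rw [h1, h2, asm_phi B hk h e (by omega), asm_phi B hk h e (by omega)]
      exact (h.adj e n hn).symm
  · intro a b a' b' hab hab' hcc
    obtain ⟨e, n, n', h1, h2, h3, h4⟩ := asm_cases B hk hab
    obtain ⟨e', m, m', g1, g2, g3, g4⟩ := asm_cases B hk hab'
    have q1 := asm_phi B hk h e (by omega : n ≤ k + 2)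
    have q2 := asm_phi B hk h e h3
    have q3 := asm_phi B hk h e' (by omega : m ≤ k + 2)
    have q4 := asm_phi B hk h e' g3
    have key : c s(π e n, π e n') s(π e' m, π e' m') := by
      rcases h4 with ⟨rfl, rfl⟩ | ⟨rfl, rfl⟩ <;> rcases g4 with ⟨rfl, rfl⟩ | ⟨rfl, rfl⟩ <;>
        rw [q1, q2, q3, q4] at hcc
      · exact hcc
      · rwa [Sym2.eq_swap (a := π e' m')] at hcc
      · rwa [Sym2.eq_swap (a := π e n')] at hcc
      · rwa [Sym2.eq_swap (a := π e n'), Sym2.eq_swap (a := π e' m')] at hcc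
    obtain ⟨k1, k2, k3, k4⟩ := asm_key B hk hc h e e' h1 h2 h3 g1 g2 g3 key
    rcases h4 with ⟨rfl, rfl⟩ | ⟨rfl, rfl⟩ <;> rcases g4 with ⟨rfl, rfl⟩ | ⟨rfl, rfl⟩
    · exact ⟨k1, k2, k3, k4⟩
    · exact ⟨k2, k1, k4, k3⟩
    · exact ⟨k3, k4, k1, k2⟩
    · exact ⟨k4, k3, k2, k1⟩

end Pool.Agent.Lib.MP_9bef39_co
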