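import Pool.Agent.Lib.MP_9bef39_co.Free

open Finset
open scoped Classical

namespace Pool.Agent.Lib.MP_9bef39_co

/-- Position of a vertex of `L_k(B)` on the threads through it. -/
def bglPos (B : BG) (k : ℕ) : LW B k → ℕ
  | Sum.inl w => if B.col w then k + 1 else 1
  | Sum.inr (Sum.inl p) => (p.2 : ℕ) + 2
  | Sum.inr (Sum.inr b) => if b then k + 2 else 0

/-- The lower end of an edge of `L_k(B)`. -/
def bglA (B : BG) (k : ℕ) : (B.E × Fin k) ⊕ B.W → LW B k
  | Sum.inl p => thr B k p.1 (p.2 + 1)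
  | Sum.inr w => if B.col w then Sum.inl w else Sum.inr (Sum.inr false)

/-- The upper end of an edge of `L_k(B)`. -/
def bglB (B : BG) (k : ℕ) : (B.E × Fin k) ⊕ B.W → LW B k
  | Sum.inl p => thr B k p.1 (p.2 + 2)
  | Sum.inr w => if B.col w then Sum.inr (Sum.inr true) else Sum.inl w

section

variable {B : BG} {k : ℕ}

theorem bgl_thr0 (e : B.E) : thr B k e 0 = Sum.inr (Sum.inr false) := by simp [thr]

theorem bgl_thr1 (e : B.E) : thr B k e 1 = Sum.inl (B.lo e) := by simp [thr]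

theorem bgl_thr_mid (e : B.E) {n : ℕ} (h1 : 2 ≤ n) (h2 : n ≤ k) :
    thr B k e n = Sum.inr (Sum.inl (e, ⟨n - 2, by omega⟩)) := by
  unfold thr
  rw [if_neg (by omega), if_neg (by omega), dif_pos ⟨h1, h2⟩]

theorem bgl_thrk1 (hk : 1 ≤ k) (e : B.E) : thr B k e (k + 1) = Sum.inl (B.hi e) := by
  unfold thr
  rw [if_neg (by omega), if_neg (by omega), dif_neg (by omega), if_pos rfl]

theorem bgl_thrk2 (e : B.E) : thr B k e (k + 2) = Sum.inr (Sum.inr true) := by
  unfold thr
  rw [if_neg (by omega), if_neg (by omega), dif_neg (by omega), if_neg (by omega)]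

theorem bgl_pos_thr (hk : 1 ≤ k) (e : B.E) {n : ℕ} (hn : n ≤ k + 2) :
    bglPos B k (thr B k e n) = n := by
  by_cases h0 : n = 0
  · subst h0; simp [bgl_thr0, bglPos]
  by_cases h1 : n = 1
  · subst h1; simp [bgl_thr1, bglPos, B.col_lo]
  by_cases h2 : n ≤ k
  · rw [bgl_thr_mid e (by omega) h2]
    simp only [bglPos]
    omega
  by_cases h3 : n = k + 1
  · subst h3; simp [bgl_thrk1 hk, bglPos, B.col_hi]
  · obtain rfl : n = k + 2 := by omega
    simp [bgl_thrk2, bglPos]

theorem bgl_step (hk : 1 ≤ k) (e : B.E) {n : ℕ} (hn : n < k + 2) :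
    ∃ f, bglA B k f = thr B k e n ∧ bglB B k f = thr B k e (n + 1) := by
  by_cases h0 : n = 0
  · subst h0
    exact ⟨Sum.inr (B.lo e), by simp [bglA, B.col_lo, bgl_thr0],
      by simp [bglB, B.col_lo, bgl_thr1]⟩
  by_cases h3 : n = k + 1
  · subst h3
    exact ⟨Sum.inr (B.hi e), by simp [bglA, B.col_hi, bgl_thrk1 hk],
      by simp [bglB, B.col_hi, bgl_thrk2]⟩
  · refine ⟨Sum.inl (e, ⟨n - 1, by omega⟩), ?_, ?_⟩
    · simp only [bglA]; congr 1; omega
    · simp only [bglB]; congr 1; omega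

theorem bgl_back (hk : 1 ≤ k) (f : (B.E × Fin k) ⊕ B.W) :
    ∃ e n, n < k + 2 ∧ bglA B k f = thr B k e n ∧ bglB B k f = thr B k e (n + 1) := by
  rcases f with ⟨e, i⟩ | w
  · exact ⟨e, i + 1, by omega, rfl, rfl⟩
  · obtain ⟨e, rfl | rfl⟩ := B.inc w
    · exact ⟨e, 0, by omega, by simp [bglA, B.col_lo, bgl_thr0],
        by simp [bglB, B.col_lo, bgl_thr1]⟩
    · exact ⟨e, k + 1, by omega, by simp [bglA, B.col_hi, bgl_thrk1 hk],
        by simp [bglB, B.col_hi, bgl_thrk2]⟩

theorem bgl_cover (hk : 1 ≤ k) (v : LW B k) : ∃ e n, n ≤ k + 2 ∧ v = thr B k e n := by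
  rcases v with w | ⟨e, i⟩ | b
  · obtain ⟨e, rfl | rfl⟩ := B.inc w
    · exact ⟨e, 1, by omega, (bgl_thr1 e).symm⟩
    · exact ⟨e, k + 1, by omega, (bgl_thrk1 hk e).symm⟩
  · refine ⟨e, i + 2, by omega, ?_⟩
    rw [bgl_thr_mid e (by omega) (by omega)]
    rfl
  · obtain ⟨e⟩ := B.ne
    cases b
    · exact ⟨e, 0, by omega, (bgl_thr0 e).symm⟩
    · exact ⟨e, k + 2, le_rfl, (bgl_thrk2 e).symm⟩

theorem bgl_pos_succ (hk : 1 ≤ k) (f : (B.E × Fin k) ⊕ B.W) :
    bglPos B k (bglB B k f) = bglPos B k (bglA B k f) + 1 := by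
  obtain ⟨e, n, hn, h1, h2⟩ := bgl_back hk f
  rw [h1, h2, bgl_pos_thr hk e (by omega), bgl_pos_thr hk e (by omega)]

theorem bgl_inj (hk : 1 ≤ k) (f f' : (B.E × Fin k) ⊕ B.W) (h1 : bglA B k f = bglA B k f')
    (h2 : bglB B k f = bglB B k f') : f = f' := by
  have hp := congrArg (bglPos B k) h1
  rcases f with ⟨e, i⟩ | w <;> rcases f' with ⟨e', i'⟩ | w'
  · simp only [bglA, bglB] at h1 h2 hp
    rw [bgl_pos_thr hk e (by omega), bgl_pos_thr hk e' (by omega)] at hp
    obtain rfl : i = i' := Fin.ext (by omega)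
    suffices e = e' by rw [this]
    by_cases hi : (i : ℕ) = 0
    · rw [hi] at h1 h2
      rw [zero_add, bgl_thr1, bgl_thr1] at h1
      by_cases hk2 : 2 ≤ k
      · rw [bgl_thr_mid e (by omega) (by omega), bgl_thr_mid e' (by omega) (by omega)] at h2
        simpa using h2
      · have e1 : 0 + 2 = k + 1 := by omega
        rw [e1, bgl_thrk1 hk, bgl_thrk1 hk] at h2
        exact B.inj e e' (Sum.inl.inj h1) (Sum.inl.inj h2)
    · rw [bgl_thr_mid e (by omega) (by omega), bgl_thr_mid e' (by omega) (by omega)] at h1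
      simpa using h1
  · exfalso
    simp only [bglA] at hp
    rw [bgl_pos_thr hk e (by omega)] at hp
    cases hc : B.col w' <;> simp [hc, bglPos] at hp
    omega
  · exfalso
    simp only [bglA] at hp
    rw [bgl_pos_thr hk e' (by omega)] at hp
    cases hc : B.col w <;> simp [hc, bglPos] at hp
    omega
  · simp only [bglA, bglB] at h1 h2
    cases hc : B.col w <;> cases hc' : B.col w' <;> simp_all

/-- The colour of a vertex of `L_k(B)`. -/
def bglCol (B : BG) (k : ℕ) (v : LW B k) : Bool := decide (bglPos B k v % 2 = 1)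

theorem bgl_col_ne (hk : 1 ≤ k) (f : (B.E × Fin k) ⊕ B.W) :
    bglCol B k (bglB B k f) = !bglCol B k (bglA B k f) := by
  unfold bglCol
  rw [bgl_pos_succ hk]
  by_cases h : bglPos B k (bglA B k f) % 2 = 1
  · have : ¬ (bglPos B k (bglA B k f) + 1) % 2 = 1 := by omega
    simp [h, this]
  · have : (bglPos B k (bglA B k f) + 1) % 2 = 1 := by omega
    simp [h, this]

def bglLo (B : BG) (k : ℕ) (f : (B.E × Fin k) ⊕ B.W) : LW B k :=
  if bglCol B k (bglA B k f) then bglB B k f else bglA B k f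

def bglHi (B : BG) (k : ℕ) (f : (B.E × Fin k) ⊕ B.W) : LW B k :=
  if bglCol B k (bglA B k f) then bglA B k f else bglB B k f

theorem bgl_ends (f : (B.E × Fin k) ⊕ B.W) :
    (bglLo B k f = bglA B k f ∧ bglHi B k f = bglB B k f) ∨
      (bglLo B k f = bglB B k f ∧ bglHi B k f = bglA B k f) := by
  unfold bglLo bglHi
  split_ifs
  · exact Or.inr ⟨rfl, rfl⟩
  · exact Or.inl ⟨rfl, rfl⟩

/-- `L_k(B)` with its bipartite structure. -/
noncomputable def bglL (B : BG) (k : ℕ) (hk : 1 ≤ k) : BG where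
  W := LW B k
  E := (B.E × Fin k) ⊕ B.W
  fW := inferInstance
  fE := inferInstance
  lo := bglLo B k
  hi := bglHi B k
  col := bglCol B k
  col_lo f := by
    unfold bglLo
    split_ifs with h
    · rw [bgl_col_ne hk, h]; rfl
    · simpa using h
  col_hi f := by
    unfold bglHi
    split_ifs with h
    · exact h
    · rw [bgl_col_ne hk]; simpa using h
  inj f f' h1 h2 := by
    have p1 := bgl_pos_succ hk f
    have p2 := bgl_pos_succ hk f'
    rcases bgl_ends f with ⟨a1, a2⟩ | ⟨a1, a2⟩ <;> rcases bgl_ends f' with ⟨b1, b2⟩ | ⟨b1, b2⟩ <;>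
      rw [a1, b1] at h1 <;> rw [a2, b2] at h2
    · exact bgl_inj hk f f' h1 h2
    · rw [h1, h2] at p1; omega
    · rw [h1, h2] at p1; omega
    · exact bgl_inj hk f f' h2 h1
  inc v := by
    obtain ⟨e, n, hn, rfl⟩ := bgl_cover hk v
    by_cases h : n < k + 2
    · obtain ⟨f, h1, -⟩ := bgl_step hk e h
      refine ⟨f, ?_⟩
      rcases bgl_ends f with ⟨a1, a2⟩ | ⟨a1, a2⟩
      · exact Or.inl (by rw [a1, h1])
      · exact Or.inr (by rw [a2, h1])
    · obtain rfl : n = k + 1 + 1 := by omega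
      obtain ⟨f, -, h2⟩ := bgl_step hk e (n := k + 1) (by omega)
      refine ⟨f, ?_⟩
      rcases bgl_ends f with ⟨a1, a2⟩ | ⟨a1, a2⟩
      · exact Or.inr (by rw [a2, h2])
      · exact Or.inl (by rw [a1, h2])
  ne := by
    obtain ⟨e⟩ := B.ne
    exact ⟨Sum.inr (B.lo e)⟩
  conn P hP a b ha := by
    have key : ∀ e n, n ≤ k + 2 → (P (thr B k e n) ↔ P (Sum.inr (Sum.inr false))) := by
      intro e n
      induction n with
      | zero => intro _; rw [bgl_thr0]
      | succ n ih =>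
        intro hn
        obtain ⟨f, h1, h2⟩ := bgl_step hk e (n := n) (by omega)
        rw [← ih (by omega), ← h1, ← h2]
        have := hP f
        rcases bgl_ends f with ⟨a1, a2⟩ | ⟨a1, a2⟩ <;> rw [a1, a2] at this
        · exact this.symm
        · exact this
    obtain ⟨e, n, hn, rfl⟩ := bgl_cover hk a
    obtain ⟨e', n', hn', rfl⟩ := bgl_cover hk b
    exact (key e' n' hn').2 ((key e n hn).1 ha)

theorem bgl_graph (hk : 1 ≤ k) : (bglL B k hk).graph = LG B k := by
  ext a b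
  have h1 : (bglL B k hk).graph.Adj a b ↔ ∃ f, (a = bglA B k f ∧ b = bglB B k f) ∨
      (a = bglB B k f ∧ b = bglA B k f) := by
    refine exists_congr fun f => ?_
    change (a = bglLo B k f ∧ b = bglHi B k f) ∨ (a = bglHi B k f ∧ b = bglLo B k f) ↔ _
    rcases bgl_ends f with ⟨a1, a2⟩ | ⟨a1, a2⟩ <;> rw [a1, a2]
    exact or_comm
  constructor
  · intro h
    have hne := h.ne
    obtain ⟨f, hf⟩ := h1.1 h
    obtain ⟨e, n, hn, e1, e2⟩ := bgl_back hk f
    rw [e1, e2] at hf
    refine (SimpleGraph.fromRel_adj _ _ _).2 ⟨hne, ?_⟩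
    rcases hf with hf | hf
    · exact Or.inl ⟨e, n, hn, hf.1, hf.2⟩
    · exact Or.inr ⟨e, n, hn, hf.2, hf.1⟩
  · intro h
    obtain ⟨-, h | h⟩ := (SimpleGraph.fromRel_adj _ _ _).1 h
    · obtain ⟨e, n, hn, e1, e2⟩ := h
      obtain ⟨f, f1, f2⟩ := bgl_step hk e hn
      exact h1.2 ⟨f, Or.inl ⟨e1.trans f1.symm, e2.trans f2.symm⟩⟩
    · obtain ⟨e, n, hn, e1, e2⟩ := h
      obtain ⟨f, f1, f2⟩ := bgl_step hk e hn
      exact h1.2 ⟨f, Or.inr ⟨e2.trans f2.symm, e1.trans f1.symm⟩⟩

theorem bgl_card_congr {α : Type} (i1 i2 : Fintype α) (p : α → Prop) (d1 d2 : DecidablePred p) :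
    (@filter α p d1 (@univ α i1)).card = (@filter α p d2 (@univ α i2)).card := by
  rw [Subsingleton.elim i1 i2, Subsingleton.elim d1 d2]

theorem bgl_card_sum {α β γ : Type} [Fintype α] [Fintype β] [DecidableEq γ] (p : α ⊕ β → γ)
    (o : γ) :
    (univ.filter fun x => p x = o).card = (univ.filter fun a => p (Sum.inl a) = o).card +
      (univ.filter fun b => p (Sum.inr b) = o).card := by
  simp only [card_filter, Fintype.sum_sum_type]

theorem bgl_card_prod {α γ : Type} [Fintype α] [DecidableEq γ] (m : ℕ) (p : α → γ) (o : γ) :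
    (univ.filter fun x : α × Fin m => p x.1 = o).card =
      m * (univ.filter fun a => p a = o).card := by
  rw [card_filter, card_filter, Fintype.sum_prod_type, mul_sum]
  refine sum_congr rfl fun a _ => ?_
  by_cases h : p a = o <;> simp [h]

variable {P : ℕ}

def bglBeta (k : ℕ) (β : B.W → Option (Fin P)) (γ : B.E → Option (Fin P)) :
    LW B k → Option (Fin P)
  | Sum.inl w => β w
  | Sum.inr (Sum.inl p) => γ p.1
  | Sum.inr (Sum.inr _) => none

def bglGamma (k : ℕ) (β : B.W → Option (Fin P)) (γ : B.E → Option (Fin P)) :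
    (B.E × Fin k) ⊕ B.W → Option (Fin P)
  | Sum.inl p => γ p.1
  | Sum.inr w => β w

theorem bgl_beta_thr {r u e : ℕ} {β : B.W → Option (Fin P)} {γ : B.E → Option (Fin P)}
    (h : Pow B P r u e β γ) (f : B.E) (n : ℕ) :
    bglBeta k β γ (thr B k f n) = none ∨ bglBeta k β γ (thr B k f n) = γ f := by
  unfold thr
  split_ifs
  · exact Or.inl rfl
  · exact h.lo_ok f
  · exact Or.inr rfl
  · exact h.hi_ok f
  · exact Or.inl rfl

theorem bgl_beta_ends {r u e : ℕ} {β : B.W → Option (Fin P)} {γ : B.E → Option (Fin P)}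
    (h : Pow B P r u e β γ) (f : (B.E × Fin k) ⊕ B.W) :
    (bglBeta k β γ (bglA B k f) = none ∨ bglBeta k β γ (bglA B k f) = bglGamma k β γ f) ∧
      (bglBeta k β γ (bglB B k f) = none ∨ bglBeta k β γ (bglB B k f) = bglGamma k β γ f) := by
  rcases f with ⟨f, i⟩ | w
  · exact ⟨bgl_beta_thr h f _, bgl_beta_thr h f _⟩
  · simp only [bglA, bglB]
    split_ifs
    · exact ⟨Or.inr rfl, Or.inl rfl⟩
    · exact ⟨Or.inl rfl, Or.inr rfl⟩

theorem bgl_cardW (β : B.W → Option (Fin P)) (γ : B.E → Option (Fin P)) (o : Option (Fin P)) :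
    (univ.filter fun v : LW B k => bglBeta k β γ v = o).card =
      (univ.filter fun w => β w = o).card + ((k - 1) * (univ.filter fun f => γ f = o).card +
        (univ.filter fun _ : Bool => none = o).card) := by
  rw [bgl_card_sum (bglBeta k β γ) o,
    bgl_card_sum (fun v : (B.E × Fin (k - 1)) ⊕ Bool => bglBeta k β γ (Sum.inr v)) o,
    ← bgl_card_prod (k - 1) γ o]
  rfl

theorem bgl_cardE (β : B.W → Option (Fin P)) (γ : B.E → Option (Fin P)) (o : Option (Fin P)) :
    (univ.filter fun f : (B.E × Fin k) ⊕ B.W => bglGamma k β γ f = o).card =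
      k * (univ.filter fun f => γ f = o).card + (univ.filter fun w => β w = o).card := by
  rw [bgl_card_sum (bglGamma k β γ) o, ← bgl_card_prod k γ o]
  rfl

end

/-- `L_k(B)` is again a connected bipartite graph and inherits a power structure. -/
theorem exists_L (B : BG) (k : ℕ) (hk : 1 ≤ k) : ∃ B' : BG,
    (∀ α, Rob (LG B k) α → Rob B'.graph α) ∧
    ∀ P r u e β γ, Pow B P r u e β γ →
      ∃ β' γ', Pow B' P ((k + 1) * r + 2) (u + (k - 1) * e) (k * e + u) β' γ' := by
  refine ⟨bglL B k hk, fun α h => by rw [bgl_graph hk]; exact h, fun P r u e β γ h => ?_⟩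
  refine ⟨bglBeta k β γ, bglGamma k β γ, ?_, ?_, fun i => ?_, fun i => ?_, fun f => ?_,
    fun f => ?_⟩
  · have h1 := bgl_cardW (k := k) β γ none
    have h2 := h.roots
    have h3 : (k - 1) * (univ.filter fun f => γ f = none).card ≤ k * r :=
      Nat.mul_le_mul (Nat.sub_le _ _) h.rootE
    have h4 : (univ.filter fun _ : Bool => (none : Option (Fin P)) = none).card ≤ 2 :=
      (card_filter_le _ _).trans (by simp)
    have h5 : (univ.filter fun v : LW B k => bglBeta k β γ v = none).card ≤ (k + 1) * r + 2 := by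
      rw [h1, add_mul, one_mul]; omega
    exact (bgl_card_congr _ _ _ _ _).trans_le h5
  · have h1 := bgl_cardE (k := k) β γ none
    have h2 := h.roots
    have h3 : k * (univ.filter fun f => γ f = none).card ≤ k * r :=
      Nat.mul_le_mul_left _ h.rootE
    have h5 : (univ.filter fun f : (B.E × Fin k) ⊕ B.W => bglGamma k β γ f = none).card ≤
        (k + 1) * r + 2 := by
      rw [h1, add_mul, one_mul]; omega
    exact (bgl_card_congr _ _ _ _ _).trans_le h5
  · have h1 := bgl_cardW (k := k) β γ (some i)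
    rw [h.cardW i, h.cardE i] at h1
    simp only [reduceCtorEq, filter_false, card_empty, add_zero] at h1
    exact (bgl_card_congr _ _ _ _ _).trans h1
  · have h1 := bgl_cardE (k := k) β γ (some i)
    rw [h.cardW i, h.cardE i] at h1
    exact (bgl_card_congr _ _ _ _ _).trans h1
  · change bglBeta k β γ (bglLo B k f) = none ∨ bglBeta k β γ (bglLo B k f) = bglGamma k β γ f
    rcases bgl_ends f with ⟨a1, -⟩ | ⟨a1, -⟩ <;> rw [a1]
    · exact (bgl_beta_ends h f).1
    · exact (bgl_beta_ends h f).2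
  · change bglBeta k β γ (bglHi B k f) = none ∨ bglBeta k β γ (bglHi B k f) = bglGamma k β γ f
    rcases bgl_ends f with ⟨-, a1⟩ | ⟨-, a1⟩ <;> rw [a1]
    · exact (bgl_beta_ends h f).2
    · exact (bgl_beta_ends h f).1

/-- The star as a bipartite graph. -/
def bglStar (P : ℕ) (hP : 1 ≤ P) : BG where
  W := Option (Fin P)
  E := Fin P
  fW := inferInstance
  fE := inferInstance
  lo _ := none
  hi i := some i
  col := Option.isSome
  col_lo _ := rfl
  col_hi _ := rfl
  inj _ _ _ h := Option.some.inj h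
  inc w := by
    rcases w with _ | i
    · exact ⟨⟨0, hP⟩, Or.inl rfl⟩
    · exact ⟨i, Or.inr rfl⟩
  ne := ⟨⟨0, hP⟩⟩
  conn Q hQ a b ha := by
    have key : ∀ w, Q w ↔ Q none := by
      intro w
      rcases w with _ | i
      · rfl
      · exact (hQ i).symm
    exact (key b).2 ((key a).1 ha)

theorem bgl_nd_sum {V : Type} [Fintype V] (G : SimpleGraph V) :
    nd G = ∑ x, (nb G x).card := by
  simp only [nd, nb, card_filter, Fintype.sum_prod_type]

theorem bgl_star_near {P : ℕ} (hP : 1 ≤ P) (a b : Option (Fin P)) :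
    Near (bglStar P hP).graph a b ↔ ∀ i j, a = some i → b = some j → i = j := by
  constructor
  · rintro (rfl | ⟨e, ⟨h, -⟩ | ⟨-, h⟩⟩) i j hi hj
    · exact Option.some.inj (hi.symm.trans hj)
    · exact absurd (hi.symm.trans h) (by simp [bglStar])
    · exact absurd (hj.symm.trans h) (by simp [bglStar])
  · intro h
    rcases a with _ | i <;> rcases b with _ | j
    · exact Or.inl rfl
    · exact Or.inr ⟨j, Or.inl ⟨rfl, rfl⟩⟩
    · exact Or.inr ⟨i, Or.inr ⟨rfl, rfl⟩⟩
    · exact Or.inl (by rw [h i j rfl rfl])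

theorem bgl_star_rob {P : ℕ} (hP : 1 ≤ P) : Rob (bglStar P hP).graph 0 := by
  intro s
  obtain ⟨s', hs'⟩ := free_st2 s
  obtain ⟨L, hL⟩ := sel s' P
  refine ⟨L, fun V _ _ G c hc hn => ?_⟩
  rw [add_zero, Real.rpow_one, bgl_nd_sum] at hn
  have hn' : ∑ _x : V, L ≤ ∑ x, (nb G x).card := by
    rw [sum_const, card_univ, smul_eq_mul, mul_comm]
    exact_mod_cast hn
  obtain ⟨x, -, hx⟩ := exists_le_of_sum_le univ_nonempty hn'
  obtain ⟨f, hf, hbad⟩ := hL (ι := Fin P) (fun _ => nb G x)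
    (fun _ v _ v' => ∃ z ∈ st x v, ∃ z' ∈ st x v', c z z') (by simp) (fun _ => hx)
    (fun _ _ _ => hs' c x x hc.free)
  have hadj : ∀ i, G.Adj x (f i) := fun i => (mem_filter.1 (hf i)).2
  let φ : Option (Fin P) → V := fun w => w.elim x f
  have hst : ∀ a b : Option (Fin P), Near (bglStar P hP).graph a b → ∀ i,
      (a = some i ∨ b = some i) → s(φ a, φ b) ∈ st x (f i) := by
    intro a b hab i hi
    rw [bgl_star_near] at hab
    rcases a with _ | j <;> rcases b with _ | j'
    · simp at hi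
    · obtain rfl : j' = i := by simpa using hi
      simp [st, φ]
    · obtain rfl : j = i := by simpa using hi
      simp [st, φ]
    · obtain rfl := hab j j' rfl rfl
      obtain rfl : j = i := by simpa using hi
      simp [st, φ]
  refine ⟨φ, fun a b hab => ?_, fun a b a' b' h1 h2 hcc => ?_⟩
  · obtain ⟨e, ⟨rfl, rfl⟩ | ⟨rfl, rfl⟩⟩ := hab
    · exact hadj e
    · exact (hadj e).symm
  · have key : ∀ i j, (a = some i ∨ b = some i) → (a' = some j ∨ b' = some j) → i = j := by
      intro i j hi hj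
      by_contra hij
      exact hbad i j hij ⟨_, hst a b h1 i hi, _, hst a' b' h2 j hj, hcc⟩
    exact ⟨(bgl_star_near hP _ _).2 fun i j hi hj => key i j (Or.inl hi) (Or.inl hj),
      (bgl_star_near hP _ _).2 fun i j hi hj => key i j (Or.inl hi) (Or.inr hj),
      (bgl_star_near hP _ _).2 fun i j hi hj => key i j (Or.inr hi) (Or.inl hj),
      (bgl_star_near hP _ _).2 fun i j hi hj => key i j (Or.inr hi) (Or.inr hj)⟩

/-- The star with `P` leaves. -/
theorem exists_star (P : ℕ) (hP : 1 ≤ P) :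
    ∃ (B : BG) (β : B.W → Option (Fin P)) (γ : B.E → Option (Fin P)),
      Pow B P 1 1 1 β γ ∧ Rob B.graph 0 := by
  refine ⟨bglStar P hP, fun w => w, fun i => some i, ⟨?_, ?_, fun i => ?_, fun i => ?_,
    fun _ => Or.inl rfl, fun _ => Or.inr rfl⟩, bgl_star_rob hP⟩
  · exact card_le_one.2 fun a ha b hb => (mem_filter.1 ha).2.trans (mem_filter.1 hb).2.symm
  · exact card_le_one.2 fun a ha b hb => absurd (mem_filter.1 ha).2 (by simp)
  · refine card_eq_one.2 ⟨some i, eq_singleton_iff_unique_mem.2 ⟨?_, fun w hw => ?_⟩⟩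
    · exact mem_filter.2 ⟨mem_univ _, rfl⟩
    · exact (mem_filter.1 hw).2
  · refine card_eq_one.2 ⟨i, eq_singleton_iff_unique_mem.2 ⟨?_, fun w hw => ?_⟩⟩
    · exact mem_filter.2 ⟨mem_univ _, rfl⟩
    · exact Option.some.inj (mem_filter.1 hw).2

end Pool.Agent.Lib.MP_9bef39_co
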