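import Pool.Agent.Lib.MP_9bef39_co.Free

open Finset
open scoped Classical

namespace Pool.Agent.Lib.MP_9bef39_co

/-- The element of the embedded tree at node `a`: the vertex, or the edge to the parent. -/
def el {V ν : Type} (φ : ν → V) (par : ν → ν) (a : ν) (f : Bool) : Sym2 V :=
  if f then s(φ (par a), φ a) else s(φ a, φ a)

namespace TreeX

/-- The end of a pair that lies on level `i`. -/
def ed {V : Type} (i : ℕ) (p : V × V) : V := if Even i then p.1 else p.2

theorem ed_ext {V : Type} {i : ℕ} {p p' : V × V} (h1 : ed i p = ed i p')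
    (h2 : ed (i + 1) p = ed (i + 1) p') : p = p' := by
  unfold ed at h1 h2
  by_cases hi : Even i
  · have hi' : ¬ Even (i + 1) := by rw [Nat.even_add_one]; exact fun h => h hi
    rw [if_pos hi, if_pos hi] at h1
    rw [if_neg hi', if_neg hi'] at h2
    exact Prod.ext h1 h2
  · have hi' : Even (i + 1) := by rw [Nat.even_add_one]; exact hi
    rw [if_neg hi, if_neg hi] at h1
    rw [if_pos hi', if_pos hi'] at h2
    exact Prod.ext h2 h1

theorem ed_mem {V : Type} {J : Finset (V × V)} {D E : Finset V}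
    (hJ : ∀ p ∈ J, p.1 ∈ D ∧ p.2 ∈ E) (i : ℕ) {p : V × V} (hp : p ∈ J) : ed i p ∈ D ∪ E := by
  unfold ed
  split_ifs
  · exact mem_union_left _ (hJ p hp).1
  · exact mem_union_right _ (hJ p hp).2

/-- `z` is forbidden for `y`, or conflicts with one of the elements that `y` carries below `x`. -/
def trr {V : Type} (c : Sym2 V → Sym2 V → Prop) (Fb : V → Finset (Sym2 V)) (x : V)
    (z : Sym2 V) (y : V) : Prop :=
  z ∈ Fb y ∨ ∃ z' ∈ st x y, c z z'

/-- The admissible children of `x`. -/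
noncomputable def tnb {V : Type} [Fintype V] (J : Finset (V × V)) (i : ℕ) (Gd : V → Prop)
    (Fb : V → Finset (Sym2 V)) (x : V) : Finset V :=
  univ.filter (fun y => Gd y ∧ (∃ p ∈ J, ed i p = y ∧ ed (i + 1) p = x) ∧ s(x, x) ∉ Fb y ∧
    s(x, y) ∉ Fb y)

/-- Good vertices and forbidden sets of all levels. -/
noncomputable def layer {V : Type} [Fintype V] (c : Sym2 V → Sym2 V → Prop) (J : Finset (V × V))
    (F0 : V → Finset (Sym2 V)) (L : ℕ → ℕ) (q : ℕ) : ℕ → (V → Prop) × (V → Finset (Sym2 V))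
  | 0 => (fun _ => True, F0)
  | i + 1 =>
    (fun x => L i ≤ (tnb J i (layer c J F0 L q i).1 (layer c J F0 L q i).2 x).card,
      fun x => univ.filter (fun z =>
        L i ≤ (tnb J i (layer c J F0 L q i).1 (layer c J F0 L q i).2 x).card ∧
        Popular (trr c (layer c J F0 L q i).2 x) q
          (tnb J i (layer c J F0 L q i).1 (layer c J F0 L q i).2 x) z))

/-- The constants of one level. -/
def StepSpec (s N q M M' L : ℕ) : Prop :=
  1 ≤ L ∧ ∀ (V : Type) [Fintype V] (c : Sym2 V → Sym2 V → Prop) (Fb : V → Finset (Sym2 V)),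
    Conf s c → (∀ y, (Fb y).card ≤ M) →
    (∀ (x : V) (I : Finset V), L ≤ I.card → ∀ Z : Finset (Sym2 V),
      (∀ z ∈ Z, Popular (trr c Fb x) q I z) → Z.card ≤ M') ∧
    ∀ (ι : Type) [Fintype ι] (x : ι → V) (A : ι → Finset V), Fintype.card ι ≤ N →
      (∀ a, L ≤ 2 * (A a).card) → ∃ f : ι → V, (∀ a, f a ∈ A a) ∧
        ∀ a b, a ≠ b → ∀ z' ∈ st (x b) (f b), z' ∉ Fb (f a) ∧ ∀ z ∈ st (x a) (f a), ¬ c z z'

theorem step_const (s N q M : ℕ) : ∃ M' L : ℕ, StepSpec s N q M M' L := by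
  obtain ⟨s1, h1⟩ := free_st s
  obtain ⟨s2, h2⟩ := free_or (M + 1) s1
  obtain ⟨M', L1, h3⟩ := pop s2 q
  obtain ⟨s3, h4⟩ := free_st2 s
  obtain ⟨s4, h5⟩ := free_st (M + 1)
  obtain ⟨s5, h6⟩ := free_or s3 s4
  obtain ⟨L2, h7⟩ := sel s5 N
  refine ⟨M', L1 + 2 * L2 + 1, by omega, ?_⟩
  intro V _ c Fb hc hFb
  refine ⟨?_, ?_⟩
  · intro x I hI Z hZ
    have hf : Free s2 (trr c Fb x) :=
      h2 (fun z y => z ∈ Fb y) (fun z y => ∃ z' ∈ st x y, c z z') (free_mem Fb hFb)
        (h1 c x hc.free)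
    exact h3 _ hf I (by omega) Z hZ
  · intro ι _ x A hι hA
    obtain ⟨f, hf1, hf2⟩ := h7 A (fun a y b y' => (∃ z ∈ st (x a) y, ∃ z' ∈ st (x b) y', c z z') ∨
      ∃ z' ∈ st (x b) y', z' ∈ Fb y) hι (fun a => by have := hA a; omega)
      (fun a b _ => h6 _ _ (h4 c (x a) (x b) hc.free)
        (h5 (fun (y : V) (z : Sym2 V) => z ∈ Fb y) (x b) (free_mem Fb hFb).swap))
    refine ⟨f, hf1, fun a b hab z' hz' => ⟨fun h => hf2 a b hab (Or.inr ⟨z', hz', h⟩),
      fun z hz h => hf2 a b hab (Or.inl ⟨z, hz, z', hz', h⟩)⟩⟩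

theorem card_forb_le {V : Type} [Fintype V] {c : Sym2 V → Sym2 V → Prop} {J : Finset (V × V)}
    {F0 : V → Finset (Sym2 V)} {L Ms : ℕ → ℕ} {s N q : ℕ} (hc : Conf s c)
    (hs : ∀ i, StepSpec s N q (Ms i) (Ms (i + 1)) (L i)) (h0 : ∀ y, (F0 y).card ≤ Ms 0) (i : ℕ) :
    ∀ y, ((layer c J F0 L q i).2 y).card ≤ Ms i := by
  induction i with
  | zero => exact h0
  | succ i ih =>
    intro y
    by_cases hy : L i ≤ (tnb J i (layer c J F0 L q i).1 (layer c J F0 L q i).2 y).card
    · refine ((hs i).2 V c _ hc ih).1 y _ hy _ ?_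
      intro z hz
      exact (mem_filter.1 hz).2.2
    · have : (layer c J F0 L q (i + 1)).2 y = ∅ := by
        refine Finset.eq_empty_of_forall_notMem fun z hz => hy ?_
        exact (mem_filter.1 hz).2.1
      rw [this]
      simp

theorem diag_inj {V : Type} {x x' : V} (h : s(x, x) = s(x', x')) : x = x' := by
  rcases Sym2.eq_iff.1 h with h | h <;> exact h.1

theorem left_inj {V : Type} {x x' y : V} (h : s(x, y) = s(x', y)) : x = x' := by
  rcases Sym2.eq_iff.1 h with h | h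
  · exact h.1
  · exact h.1.trans h.2

/-- One step of the counting bound. -/
theorem bad_step {V : Type} [Fintype V] {J : Finset (V × V)} {D E : Finset V}
    (hJ : ∀ p ∈ J, p.1 ∈ D ∧ p.2 ∈ E) (i M L : ℕ) (Gd : V → Prop) (Fb : V → Finset (Sym2 V))
    (hFb : ∀ y, (Fb y).card ≤ M) :
    (J.filter (fun p => ¬ L ≤ (tnb J i Gd Fb (ed (i + 1) p)).card)).card ≤
      (J.filter (fun p => ¬ Gd (ed i p))).card + (2 * M + L) * (D.card + E.card) := by
  have hDE : (D ∪ E).card ≤ D.card + E.card := card_union_le _ _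
  have b1 : (J.filter (fun p => s(ed (i + 1) p, ed (i + 1) p) ∈ Fb (ed i p))).card ≤
      M * (D ∪ E).card := by
    refine card_le_mul_card_image_of_maps_to (f := ed i)
      (fun p hp => ed_mem hJ i (mem_filter.1 hp).1) M fun y _ => ?_
    refine le_trans (card_le_card_of_injOn (fun p => s(ed (i + 1) p, ed (i + 1) p)) ?_ ?_) (hFb y)
    · intro p hp
      have hp' := mem_filter.1 (mem_coe.1 hp)
      have := (mem_filter.1 hp'.1).2
      rw [hp'.2] at this
      exact mem_coe.2 this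
    · intro p hp p' hp' h
      have a1 := (mem_filter.1 (mem_coe.1 hp)).2
      have a2 := (mem_filter.1 (mem_coe.1 hp')).2
      exact ed_ext (a1.trans a2.symm) (diag_inj h)
  have b2 : (J.filter (fun p => s(ed (i + 1) p, ed i p) ∈ Fb (ed i p))).card ≤
      M * (D ∪ E).card := by
    refine card_le_mul_card_image_of_maps_to (f := ed i)
      (fun p hp => ed_mem hJ i (mem_filter.1 hp).1) M fun y _ => ?_
    refine le_trans (card_le_card_of_injOn (fun p => s(ed (i + 1) p, y)) ?_ ?_) (hFb y)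
    · intro p hp
      have hp' := mem_filter.1 (mem_coe.1 hp)
      have := (mem_filter.1 hp'.1).2
      rw [hp'.2] at this
      exact mem_coe.2 this
    · intro p hp p' hp' h
      have a1 := (mem_filter.1 (mem_coe.1 hp)).2
      have a2 := (mem_filter.1 (mem_coe.1 hp')).2
      exact ed_ext (a1.trans a2.symm) (left_inj h)
  have b3 : (J.filter (fun p => ¬ L ≤ (tnb J i Gd Fb (ed (i + 1) p)).card ∧
      ed i p ∈ tnb J i Gd Fb (ed (i + 1) p))).card ≤ L * (D ∪ E).card := by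
    refine card_le_mul_card_image_of_maps_to (f := ed (i + 1))
      (fun p hp => ed_mem hJ (i + 1) (mem_filter.1 hp).1) L fun x _ => ?_
    by_cases hx : L ≤ (tnb J i Gd Fb x).card
    · refine le_trans (le_of_eq (card_eq_zero.2 ?_)) (Nat.zero_le _)
      refine Finset.eq_empty_of_forall_notMem fun p hp => ?_
      have hp' := mem_filter.1 hp
      have := (mem_filter.1 hp'.1).2.1
      rw [hp'.2] at this
      exact this hx
    · refine le_trans (card_le_card_of_injOn (t := tnb J i Gd Fb x) (ed i) ?_ ?_) (by omega)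
      · intro p hp
        have hp' := mem_filter.1 (mem_coe.1 hp)
        have := (mem_filter.1 hp'.1).2.2
        rw [hp'.2] at this
        exact mem_coe.2 this
      · intro p hp p' hp' h
        have a1 := (mem_filter.1 (mem_coe.1 hp)).2
        have a2 := (mem_filter.1 (mem_coe.1 hp')).2
        exact ed_ext h (a1.trans a2.symm)
  have hsub : J.filter (fun p => ¬ L ≤ (tnb J i Gd Fb (ed (i + 1) p)).card) ⊆
      J.filter (fun p => ¬ Gd (ed i p)) ∪
      (J.filter (fun p => s(ed (i + 1) p, ed (i + 1) p) ∈ Fb (ed i p)) ∪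
      (J.filter (fun p => s(ed (i + 1) p, ed i p) ∈ Fb (ed i p)) ∪
      J.filter (fun p => ¬ L ≤ (tnb J i Gd Fb (ed (i + 1) p)).card ∧
        ed i p ∈ tnb J i Gd Fb (ed (i + 1) p)))) := by
    intro p hp
    obtain ⟨hpJ, hp⟩ := mem_filter.1 hp
    by_cases c0 : Gd (ed i p)
    · by_cases c1 : s(ed (i + 1) p, ed (i + 1) p) ∈ Fb (ed i p)
      · exact mem_union_right _ (mem_union_left _ (mem_filter.2 ⟨hpJ, c1⟩))
      · by_cases c2 : s(ed (i + 1) p, ed i p) ∈ Fb (ed i p)
        · exact mem_union_right _ (mem_union_right _ (mem_union_left _ (mem_filter.2 ⟨hpJ, c2⟩)))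
        · refine mem_union_right _ (mem_union_right _ (mem_union_right _
            (mem_filter.2 ⟨hpJ, hp, ?_⟩)))
          exact mem_filter.2 ⟨mem_univ _, c0, ⟨p, hpJ, rfl, rfl⟩, c1, c2⟩
    · exact mem_union_left _ (mem_filter.2 ⟨hpJ, c0⟩)
  have t1 := (card_le_card hsub).trans (card_union_le _ _)
  have t2 := card_union_le (J.filter (fun p => s(ed (i + 1) p, ed (i + 1) p) ∈ Fb (ed i p)))
      (J.filter (fun p => s(ed (i + 1) p, ed i p) ∈ Fb (ed i p)) ∪
      J.filter (fun p => ¬ L ≤ (tnb J i Gd Fb (ed (i + 1) p)).card ∧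
        ed i p ∈ tnb J i Gd Fb (ed (i + 1) p)))
  have t3 := card_union_le (J.filter (fun p => s(ed (i + 1) p, ed i p) ∈ Fb (ed i p)))
      (J.filter (fun p => ¬ L ≤ (tnb J i Gd Fb (ed (i + 1) p)).card ∧
        ed i p ∈ tnb J i Gd Fb (ed (i + 1) p)))
  have t4 : M * (D ∪ E).card ≤ M * (D.card + E.card) := Nat.mul_le_mul_left _ hDE
  have t5 : L * (D ∪ E).card ≤ L * (D.card + E.card) := Nat.mul_le_mul_left _ hDE
  have t6 : (2 * M + L) * (D.card + E.card) =
      M * (D.card + E.card) + M * (D.card + E.card) + L * (D.card + E.card) := by ring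
  omega

theorem bad_le {V : Type} [Fintype V] {c : Sym2 V → Sym2 V → Prop} {J : Finset (V × V)}
    {D E : Finset V} {F0 : V → Finset (Sym2 V)} {L Ms : ℕ → ℕ} {q : ℕ}
    (hJ : ∀ p ∈ J, p.1 ∈ D ∧ p.2 ∈ E) (hM : ∀ i y, ((layer c J F0 L q i).2 y).card ≤ Ms i)
    (i : ℕ) : (J.filter (fun p => ¬ (layer c J F0 L q i).1 (ed i p))).card ≤
      (∑ n ∈ range i, (2 * Ms n + L n)) * (D.card + E.card) := by
  induction i with
  | zero =>
    refine le_trans (le_of_eq (card_eq_zero.2 ?_)) (Nat.zero_le _)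
    refine Finset.eq_empty_of_forall_notMem fun p hp => ?_
    exact (mem_filter.1 hp).2 trivial
  | succ i ih =>
    have h := bad_step hJ i (Ms i) (L i) (layer c J F0 L q i).1 (layer c J F0 L q i).2 (hM i)
    have e : J.filter (fun p => ¬ (layer c J F0 L q (i + 1)).1 (ed (i + 1) p)) =
        J.filter (fun p => ¬ L i ≤ (tnb J i (layer c J F0 L q i).1 (layer c J F0 L q i).2
          (ed (i + 1) p)).card) := by
      ext p
      simp only [mem_filter]
      exact Iff.rfl
    rw [e, sum_range_succ, add_mul]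
    omega

/-- Removing the members related to one of few unpopular elements leaves at least half. -/
theorem half_left {α β : Type} (r : α → β → Prop) (n : ℕ) (I : Finset β) (O : Finset α)
    (hO : O.card ≤ n) (h : ∀ z ∈ O, ¬ Popular r (2 * n) I z) :
    ∃ I' : Finset β, I.card ≤ 2 * I'.card ∧ ∀ y ∈ I', y ∈ I ∧ ∀ z ∈ O, ¬ r z y := by
  refine ⟨I.filter (fun y => ∀ z ∈ O, ¬ r z y), ?_, fun y hy => mem_filter.1 hy⟩
  have h1 : (I.filter (fun y => ¬ ∀ z ∈ O, ¬ r z y)) ⊆ O.biUnion (fun z => I.filter (r z)) := by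
    intro y hy
    obtain ⟨hyI, hy⟩ := mem_filter.1 hy
    push Not at hy
    obtain ⟨z, hz, hr⟩ := hy
    exact mem_biUnion.2 ⟨z, hz, mem_filter.2 ⟨hyI, hr⟩⟩
  have h2 := (card_le_card h1).trans card_biUnion_le
  have h3 : 2 * n * ∑ z ∈ O, (I.filter (r z)).card ≤ O.card * I.card := by
    rw [mul_sum]
    refine le_trans (sum_le_sum (g := fun _ => I.card) fun z hz => ?_) (by simp)
    have := h z hz
    unfold Popular at this
    exact le_of_lt (not_le.1 this)
  have h4 := card_filter_add_card_filter_not (s := I) (fun y => ∀ z ∈ O, ¬ r z y)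
  rcases Nat.eq_zero_or_pos n with hn | hn
  · subst hn
    have : O = ∅ := card_eq_zero.1 (Nat.le_zero.1 hO)
    subst this
    simp only [sum_empty] at h2
    omega
  · have h5 : O.card * I.card ≤ n * I.card := Nat.mul_le_mul_right _ hO
    have h6 : n * (2 * ∑ z ∈ O, (I.filter (r z)).card) ≤ n * I.card := by
      calc n * (2 * ∑ z ∈ O, (I.filter (r z)).card)
          = 2 * n * ∑ z ∈ O, (I.filter (r z)).card := by ring
        _ ≤ _ := h3.trans h5
    have h7 := Nat.le_of_mul_le_mul_left h6 hn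
    omega

/-- The invariant of the top-down embedding. -/
structure Inv {V ν : Type} (c : Sym2 V → Sym2 V → Prop) (J : Finset (V × V))
    (Gd : ℕ → V → Prop) (Fb : ℕ → V → Finset (Sym2 V)) (h : ℕ) (lev : ν → ℕ) (par : ν → ν)
    (l : ℕ) (φ : ν → V) : Prop where
  adj : ∀ a, l ≤ lev a → lev a < h →
    ∃ p ∈ J, ed (lev a) p = φ a ∧ ed (lev a + 1) p = φ (par a)
  conf : ∀ a b fa fb, l ≤ lev a → l ≤ lev b → (fa = true → lev a < h) → (fb = true → lev b < h) →
    c (el φ par a fa) (el φ par b fb) →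
    a = b ∨ (fa = false ∧ lev b < h ∧ a = par b) ∨ (fb = false ∧ lev a < h ∧ b = par a)
  good : ∀ a, l ≤ lev a → Gd (lev a) (φ a)
  forb : ∀ a b fb, lev a = l → l ≤ lev b → (fb = true → lev b < h) → ¬ (b = a ∧ fb = false) →
    el φ par b fb ∉ Fb l (φ a)

theorem inv_step {V ν : Type} [Fintype V] [Fintype ν] {c : Sym2 V → Sym2 V → Prop}
    {J : Finset (V × V)} {F0 : V → Finset (Sym2 V)} {L Ms : ℕ → ℕ} {s N h : ℕ} {lev : ν → ℕ}
    {par : ν → ν} (hc : Conf s c) (hν : Fintype.card ν ≤ N)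
    (hs : ∀ i, StepSpec s N (2 * (2 * N)) (Ms i) (Ms (i + 1)) (L i))
    (hM : ∀ i y, ((layer c J F0 L (2 * (2 * N)) i).2 y).card ≤ Ms i)
    (hpar : ∀ a, lev a < h → lev (par a) = lev a + 1) {l : ℕ} (hl : l < h) {φ : ν → V}
    (H : Inv c J (fun i => (layer c J F0 L (2 * (2 * N)) i).1)
      (fun i => (layer c J F0 L (2 * (2 * N)) i).2) h lev par (l + 1) φ) :
    ∃ φ', Inv c J (fun i => (layer c J F0 L (2 * (2 * N)) i).1)
      (fun i => (layer c J F0 L (2 * (2 * N)) i).2) h lev par l φ' := by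
  obtain ⟨Gd, hGd⟩ : ∃ Gd, Gd = (layer c J F0 L (2 * (2 * N)) l).1 := ⟨_, rfl⟩
  obtain ⟨Fb, hFb⟩ : ∃ Fb, Fb = (layer c J F0 L (2 * (2 * N)) l).2 := ⟨_, rfl⟩
  have hFbM : ∀ y, (Fb y).card ≤ Ms l := by rw [hFb]; exact hM l
  have hG1 : ∀ x, (layer c J F0 L (2 * (2 * N)) (l + 1)).1 x → L l ≤ (tnb J l Gd Fb x).card := by
    intro x hx
    rw [hGd, hFb]
    exact hx
  have hF1 : ∀ x z, L l ≤ (tnb J l Gd Fb x).card →
      z ∉ (layer c J F0 L (2 * (2 * N)) (l + 1)).2 x →
      ¬ Popular (trr c Fb x) (2 * (2 * N)) (tnb J l Gd Fb x) z := by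
    intro x z hx hz hp
    apply hz
    rw [hGd, hFb] at hx hp
    exact mem_filter.2 ⟨mem_univ _, hx, hp⟩
  -- old elements seen from the parent of `a`
  obtain ⟨O, hO⟩ : ∃ O : ν → Finset (Sym2 V), ∀ a, O a =
      ((univ : Finset (ν × Bool)).filter (fun t => l + 1 ≤ lev t.1 ∧ (t.2 = true → lev t.1 < h) ∧
        ¬ (t.1 = par a ∧ t.2 = false))).image (fun t => el φ par t.1 t.2) := ⟨_, fun _ => rfl⟩
  have hOc : ∀ a, (O a).card ≤ 2 * N := by
    intro a
    rw [hO]
    refine card_image_le.trans ((card_filter_le _ _).trans ?_)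
    rw [card_univ, Fintype.card_prod, Fintype.card_bool]
    omega
  have hOm : ∀ a b fb, l + 1 ≤ lev b → (fb = true → lev b < h) → ¬ (b = par a ∧ fb = false) →
      el φ par b fb ∈ O a := by
    intro a b fb h1 h2 h3
    rw [hO]
    exact mem_image.2 ⟨(b, fb), mem_filter.2 ⟨mem_univ _, h1, h2, h3⟩, rfl⟩
  have hlp : ∀ a, lev a = l → lev (par a) = l + 1 := fun a ha => by
    rw [hpar a (by omega), ha]
  have hbig : ∀ a, lev a = l → L l ≤ (tnb J l Gd Fb (φ (par a))).card := by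
    intro a ha
    apply hG1
    have := H.good (par a) (by rw [hlp a ha])
    rw [hlp a ha] at this
    exact this
  have hA : ∀ a : {a : ν // lev a = l}, ∃ I' : Finset V,
      (tnb J l Gd Fb (φ (par a.1))).card ≤ 2 * I'.card ∧
      ∀ y ∈ I', y ∈ tnb J l Gd Fb (φ (par a.1)) ∧ ∀ z ∈ O a.1, ¬ trr c Fb (φ (par a.1)) z y := by
    intro a
    refine half_left (trr c Fb (φ (par a.1))) (2 * N) _ _ (hOc a.1) ?_
    intro z hz
    refine hF1 _ _ (hbig a.1 a.2) ?_
    rw [hO] at hz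
    obtain ⟨t, ht, rfl⟩ := mem_image.1 hz
    obtain ⟨_, t1, t2, t3⟩ := mem_filter.1 ht
    exact H.forb (par a.1) t.1 t.2 (hlp a.1 a.2) t1 t2 t3
  choose A hA1 hA2 using hA
  obtain ⟨f, hf1, hf2⟩ := ((hs l).2 V c Fb hc hFbM).2 {a : ν // lev a = l}
    (fun a => φ (par a.1)) A ((Fintype.card_subtype_le _).trans hν)
    (fun a => (hbig a.1 a.2).trans (hA1 a))
  obtain ⟨φ', hφ'⟩ : ∃ φ' : ν → V, ∀ a, φ' a = if ha : lev a = l then f ⟨a, ha⟩ else φ a :=
    ⟨_, fun _ => rfl⟩
  have e1 : ∀ a (ha : lev a = l), φ' a = f ⟨a, ha⟩ := fun a ha => by rw [hφ', dif_pos ha]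
  have e2 : ∀ a, l + 1 ≤ lev a → φ' a = φ a := fun a ha => by rw [hφ', dif_neg (by omega)]
  have e3 : ∀ b fb, l + 1 ≤ lev b → (fb = true → lev b < h) → el φ' par b fb = el φ par b fb := by
    intro b fb hb hfb
    unfold el
    cases fb with
    | false => simp [e2 b hb]
    | true =>
      have := hpar b (hfb rfl)
      simp [e2 b hb, e2 (par b) (by omega)]
  have e4 : ∀ a (ha : lev a = l) fa, el φ' par a fa ∈ st (φ (par a)) (f ⟨a, ha⟩) := by
    intro a ha fa
    unfold el st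
    cases fa with
    | false => simp [e1 a ha]
    | true => simp [e1 a ha, e2 (par a) (by rw [hlp a ha])]
  have m1 : ∀ a (ha : lev a = l), f ⟨a, ha⟩ ∈ tnb J l Gd Fb (φ (par a)) :=
    fun a ha => (hA2 ⟨a, ha⟩ _ (hf1 ⟨a, ha⟩)).1
  have m2 : ∀ a (ha : lev a = l), ∀ z ∈ O a, ¬ trr c Fb (φ (par a)) z (f ⟨a, ha⟩) :=
    fun a ha => (hA2 ⟨a, ha⟩ _ (hf1 ⟨a, ha⟩)).2
  have mixed : ∀ a b fa fb, lev a = l → l + 1 ≤ lev b → (fb = true → lev b < h) →
      c (el φ' par b fb) (el φ' par a fa) → fb = false ∧ lev a < h ∧ b = par a := by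
    intro a b fa fb ha hb hfb hcc
    by_contra hne
    have hmem := hOm a b fb hb hfb (fun hh => hne ⟨hh.2, by omega, hh.1⟩)
    rw [e3 b fb hb hfb] at hcc
    exact m2 a ha _ hmem (Or.inr ⟨_, e4 a ha fa, hcc⟩)
  refine ⟨φ', ?_, ?_, ?_, ?_⟩
  · intro a ha hah
    rcases Nat.eq_or_lt_of_le ha with ha' | ha'
    · obtain ⟨p, hp, p1, p2⟩ := (mem_filter.1 (m1 a ha'.symm)).2.2.1
      refine ⟨p, hp, ?_, ?_⟩
      · rw [← ha', e1 a ha'.symm]; exact p1
      · rw [e2 (par a) (by rw [hlp a ha'.symm]), ← ha']; exact p2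
    · obtain ⟨p, hp, p1, p2⟩ := H.adj a ha' hah
      refine ⟨p, hp, ?_, ?_⟩
      · rw [e2 a ha']; exact p1
      · rw [e2 (par a) (by rw [hpar a hah]; omega)]; exact p2
  · intro a b fa fb ha hb hfa hfb hcc
    rcases Nat.eq_or_lt_of_le ha with ha' | ha'
    · rcases Nat.eq_or_lt_of_le hb with hb' | hb'
      · left
        by_contra hab
        have := (hf2 ⟨a, ha'.symm⟩ ⟨b, hb'.symm⟩ (fun h => hab (congrArg Subtype.val h)) _
          (e4 b hb'.symm fb)).2 _ (e4 a ha'.symm fa)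
        exact this hcc
      · exact Or.inr (Or.inr (mixed a b fa fb ha'.symm hb' hfb (hc.symm _ _ hcc)))
    · rcases Nat.eq_or_lt_of_le hb with hb' | hb'
      · exact Or.inr (Or.inl (mixed b a fb fa hb'.symm ha' hfa hcc))
      · rw [e3 a fa ha' hfa, e3 b fb hb' hfb] at hcc
        exact H.conf a b fa fb ha' hb' hfa hfb hcc
  · intro a ha
    rcases Nat.eq_or_lt_of_le ha with ha' | ha'
    · have := (mem_filter.1 (m1 a ha'.symm)).2.1
      rw [← ha', e1 a ha'.symm]
      rw [hGd] at this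
      exact this
    · rw [e2 a ha']
      exact H.good a ha'
  · intro a b fb ha hb hfb hne
    show el φ' par b fb ∉ (layer c J F0 L (2 * (2 * N)) l).2 (φ' a)
    rw [← hFb, e1 a ha]
    rcases Nat.eq_or_lt_of_le hb with hb' | hb'
    · by_cases hab : b = a
      · subst hab
        have hft : fb = true := by
          cases fb with
          | false => exact absurd ⟨rfl, rfl⟩ hne
          | true => rfl
        subst hft
        have := (mem_filter.1 (m1 b ha)).2.2.2.2
        unfold el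
        simpa [e1 b ha, e2 (par b) (by rw [hlp b ha])] using this
      · exact (hf2 ⟨a, ha⟩ ⟨b, hb'.symm⟩ (fun h => hab (congrArg Subtype.val h).symm) _
          (e4 b hb'.symm fb)).1
    · rw [e3 b fb hb' hfb]
      by_cases hp : b = par a ∧ fb = false
      · obtain ⟨rfl, rfl⟩ := hp
        have := (mem_filter.1 (m1 a ha)).2.2.2.1
        unfold el
        simpa using this
      · exact fun hz => m2 a ha _ (hOm a b fb hb' hfb hp) (Or.inl hz)

end TreeX

open TreeX in
theorem tree (s M h N : ℕ) (hh : 1 ≤ h) : ∃ μ : ℕ, ∀ {V ν : Type} [Fintype V] [Fintype ν]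
    (c : Sym2 V → Sym2 V → Prop) (J : Finset (V × V)) (D E : Finset V)
    (Forb : V → Finset (Sym2 V)) (lev : ν → ℕ) (par : ν → ν), Conf s c →
    Fintype.card ν ≤ N → (∀ p ∈ J, p.1 ∈ D ∧ p.2 ∈ E) → μ * (D.card + E.card) < J.card →
    (∀ w, (Forb w).card ≤ M) → (∀ a, lev a ≤ h) → (∀ a b, lev a = h → lev b = h → a = b) →
    (∀ a, lev a < h → lev (par a) = lev a + 1) →
    ∃ φ : ν → V,
      (∀ a, lev a < h → Even (lev a) → (φ a, φ (par a)) ∈ J) ∧
      (∀ a, lev a < h → ¬ Even (lev a) → (φ (par a), φ a) ∈ J) ∧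
      (∀ a, ∃ p ∈ J, φ a = p.1 ∨ φ a = p.2) ∧
      (∀ a b fa fb, (fa = true → lev a < h) → (fb = true → lev b < h) →
        c (el φ par a fa) (el φ par b fb) →
        a = b ∨ (fa = false ∧ lev b < h ∧ a = par b) ∨ (fb = false ∧ lev a < h ∧ b = par a)) ∧
      (∀ a b fb, lev a = 0 → (fb = true → lev b < h) → ¬ (b = a ∧ fb = false) →
        el φ par b fb ∉ Forb (φ a)) := by
  choose Mf Lf hML using step_const s N (2 * (2 * N))
  obtain ⟨Ms, hMs0, hMs⟩ : ∃ Ms : ℕ → ℕ, Ms 0 = M ∧ ∀ i, Ms (i + 1) = Mf (Ms i) :=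
    ⟨fun i => Mf^[i] M, rfl, fun i => Function.iterate_succ_apply' Mf i M⟩
  obtain ⟨L, hL⟩ : ∃ L : ℕ → ℕ, ∀ i, L i = Lf (Ms i) := ⟨_, fun _ => rfl⟩
  have hs : ∀ i, StepSpec s N (2 * (2 * N)) (Ms i) (Ms (i + 1)) (L i) := fun i => by
    rw [hMs, hL]; exact hML _
  refine ⟨∑ n ∈ range h, (2 * Ms n + L n), ?_⟩
  intro V ν _ _ c J D E Forb lev par hc hν hJ hbig hF hlev huniq hpar
  have hM := card_forb_le (J := J) (F0 := Forb) hc hs (by rw [hMs0]; exact hF)
  have hb := bad_le (D := D) (E := E) hJ hM h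
  obtain ⟨p0, hp0, hp0g⟩ : ∃ p ∈ J, (layer c J Forb L (2 * (2 * N)) h).1 (ed h p) := by
    by_contra hcon
    have : J.filter (fun p => ¬ (layer c J Forb L (2 * (2 * N)) h).1 (ed h p)) = J :=
      filter_true_of_mem fun p hp hg => hcon ⟨p, hp, hg⟩
    rw [this] at hb
    omega
  have key : ∀ d, d ≤ h → ∃ φ : ν → V, Inv c J (fun i => (layer c J Forb L (2 * (2 * N)) i).1)
      (fun i => (layer c J Forb L (2 * (2 * N)) i).2) h lev par (h - d) φ ∧
      ∀ a, lev a = h → (layer c J Forb L (2 * (2 * N)) h).1 (φ a) := by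
    intro d
    induction d with
    | zero =>
      intro _
      refine ⟨fun _ => ed h p0, ⟨?_, ?_, ?_, ?_⟩, fun _ _ => hp0g⟩
      · intro a h1 h2; omega
      · intro a b fa fb h1 h2 _ _ _
        exact Or.inl (huniq a b (by have := hlev a; omega) (by have := hlev b; omega))
      · intro a h1
        have : lev a = h := by have := hlev a; omega
        rw [this]
        exact hp0g
      · intro a b fb h1 h2 h3 h4
        exfalso
        have hb : lev b = h := by have := hlev b; omega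
        apply h4
        refine ⟨huniq b a hb (by omega), ?_⟩
        cases fb with
        | false => rfl
        | true => have := h3 rfl; omega
    | succ d ih =>
      intro hd
      obtain ⟨φ, H, _⟩ := ih (by omega)
      have e : h - d = h - (d + 1) + 1 := by omega
      rw [e] at H
      obtain ⟨φ', H'⟩ := inv_step hc hν hs hM hpar (by omega) H
      refine ⟨φ', H', fun a ha => ?_⟩
      have := H'.good a (by omega)
      rw [ha] at this
      exact this
  obtain ⟨φ, H, hroot⟩ := key h le_rfl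
  rw [Nat.sub_self] at H
  refine ⟨φ, ?_, ?_, ?_, ?_, ?_⟩
  · intro a ha he
    obtain ⟨p, hp, p1, p2⟩ := H.adj a (Nat.zero_le _) ha
    have he' : ¬ Even (lev a + 1) := by rw [Nat.even_add_one]; exact fun h => h he
    unfold ed at p1 p2
    rw [if_pos he] at p1
    rw [if_neg he'] at p2
    rw [← p1, ← p2]
    exact hp
  · intro a ha he
    obtain ⟨p, hp, p1, p2⟩ := H.adj a (Nat.zero_le _) ha
    have he' : Even (lev a + 1) := by rw [Nat.even_add_one]; exact he
    unfold ed at p1 p2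
    rw [if_neg he] at p1
    rw [if_pos he'] at p2
    rw [← p1, ← p2]
    exact hp
  · intro a
    have hed : ∀ i (p : V × V), ed i p = p.1 ∨ ed i p = p.2 := by
      intro i p
      unfold ed
      split_ifs
      · exact Or.inl rfl
      · exact Or.inr rfl
    rcases Nat.eq_or_lt_of_le (hlev a) with ha | ha
    · obtain ⟨k, rfl⟩ : ∃ k, h = k + 1 := ⟨h - 1, by omega⟩
      have hg : L k ≤ (tnb J k (layer c J Forb L (2 * (2 * N)) k).1
          (layer c J Forb L (2 * (2 * N)) k).2 (φ a)).card := hroot a ha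
      have h1 := (hs k).1
      obtain ⟨y, hy⟩ := card_pos.1 (lt_of_lt_of_le h1 hg)
      obtain ⟨p, hp, _, p2⟩ := (mem_filter.1 hy).2.2.1
      exact ⟨p, hp, by rw [← p2]; exact hed _ p⟩
    · obtain ⟨p, hp, p1, _⟩ := H.adj a (Nat.zero_le _) ha
      exact ⟨p, hp, by rw [← p1]; exact hed _ p⟩
  · intro a b fa fb h1 h2 h3
    exact H.conf a b fa fb (Nat.zero_le _) (Nat.zero_le _) h1 h2 h3
  · intro a b fb h1 h2 h3
    exact H.forb a b fb h1 (Nat.zero_le _) h2 h3

end Pool.Agent.Lib.MP_9bef39_co
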