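import Pool.Agent.Lib.MP_9bef39_co.Walk
import Pool.Agent.Lib.MP_9bef39_co.Tree

open Finset
open scoped Classical

namespace Pool.Agent.Lib.MP_9bef39_co

theorem bd_half {α β : Type} (r : α → β → Prop) (q : ℕ) (I : Finset β) (Z : Finset α)
    (hq : 2 * Z.card ≤ q) (hZ : ∀ z ∈ Z, ¬ Popular r q I z) :
    I.card ≤ 2 * (I.filter (fun b => ∀ z ∈ Z, ¬ r z b)).card := by
  have h1 : I.card ≤ (I.filter (fun b => ∀ z ∈ Z, ¬ r z b)).card
      + ∑ z ∈ Z, (I.filter (fun b => r z b)).card := by
    refine le_trans (Finset.card_le_card (t := I.filter (fun b => ∀ z ∈ Z, ¬ r z b) ∪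
      Z.biUnion (fun z => I.filter (fun b => r z b))) ?_) ?_
    · intro b hb
      by_cases h : ∀ z ∈ Z, ¬ r z b
      · exact Finset.mem_union_left _ (Finset.mem_filter.2 ⟨hb, h⟩)
      · push Not at h
        obtain ⟨z, hz, hr⟩ := h
        exact Finset.mem_union_right _
          (Finset.mem_biUnion.2 ⟨z, hz, Finset.mem_filter.2 ⟨hb, hr⟩⟩)
    · exact le_trans (Finset.card_union_le _ _) (Nat.add_le_add_left Finset.card_biUnion_le _)
  have h2 : q * ∑ z ∈ Z, (I.filter (fun b => r z b)).card ≤ Z.card * I.card := by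
    rw [Finset.mul_sum]
    calc ∑ z ∈ Z, q * (I.filter (fun b => r z b)).card ≤ ∑ _z ∈ Z, I.card :=
          Finset.sum_le_sum (fun z hz => le_of_lt (not_le.1 (hZ z hz)))
      _ = Z.card * I.card := by simp
  rcases Nat.eq_zero_or_pos Z.card with h0 | h0
  · rw [Finset.card_eq_zero] at h0
    subst h0
    simp only [Finset.sum_empty] at h1
    omega
  · have h3 : Z.card * (2 * ∑ z ∈ Z, (I.filter (fun b => r z b)).card) ≤ Z.card * I.card := by
      calc Z.card * (2 * ∑ z ∈ Z, (I.filter (fun b => r z b)).card)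
          = (2 * Z.card) * ∑ z ∈ Z, (I.filter (fun b => r z b)).card := by ring
        _ ≤ q * ∑ z ∈ Z, (I.filter (fun b => r z b)).card := Nat.mul_le_mul_right _ hq
        _ ≤ _ := h2
    have h4 := Nat.le_of_mul_le_mul_left h3 h0
    omega

/-- Nodes of the tree: a root, one node for each vertex of `B`, a path of `d` nodes for each
edge. -/
abbrev BdN (B : BG) (d : ℕ) : Type := Unit ⊕ B.W ⊕ (B.E × Fin d)

/-- The node at depth `n` on the branch of the edge `e`. -/
def bdNode (B : BG) (d : ℕ) (e : B.E) (n : ℕ) : BdN B d :=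
  if n = 0 then Sum.inl ()
  else if n = 1 then Sum.inr (Sum.inl (B.lo e))
  else if h : n - 2 < d then Sum.inr (Sum.inr (e, ⟨n - 2, h⟩)) else Sum.inl ()

def bdLev (B : BG) (d : ℕ) : BdN B d → ℕ
  | Sum.inl _ => d + 1
  | Sum.inr (Sum.inl _) => d
  | Sum.inr (Sum.inr p) => d - 1 - p.2.val

def bdPar (B : BG) (d : ℕ) : BdN B d → BdN B d
  | Sum.inl _ => Sum.inl ()
  | Sum.inr (Sum.inl _) => Sum.inl ()
  | Sum.inr (Sum.inr p) => bdNode B d p.1 (p.2.val + 1)

variable {B : BG} {d : ℕ}

theorem bdNode_zero (e : B.E) : bdNode B d e 0 = Sum.inl () := by simp [bdNode]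

theorem bdNode_one (e : B.E) : bdNode B d e 1 = Sum.inr (Sum.inl (B.lo e)) := by simp [bdNode]

theorem bdNode_two (e : B.E) {n : ℕ} (h2 : 2 ≤ n) (hn : n ≤ d + 1) :
    bdNode B d e n = Sum.inr (Sum.inr (e, ⟨n - 2, by omega⟩)) := by
  have h0 : n ≠ 0 := by omega
  have h1 : n ≠ 1 := by omega
  have h3 : n - 2 < d := by omega
  simp [bdNode, h0, h1, h3]

theorem bdLev_node (e : B.E) {n : ℕ} (hn : n ≤ d + 1) :
    bdLev B d (bdNode B d e n) = d + 1 - n := by
  rcases Nat.lt_or_ge n 2 with h | h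
  · interval_cases n
    · simp [bdNode_zero, bdLev]
    · simp [bdNode_one, bdLev]
  · rw [bdNode_two e h hn]
    simp only [bdLev]
    omega

theorem bdPar_node (e : B.E) {n : ℕ} (hn : n + 1 ≤ d + 1) :
    bdPar B d (bdNode B d e (n + 1)) = bdNode B d e n := by
  rcases Nat.eq_zero_or_pos n with h | h
  · subst h
    simp [bdNode_one, bdNode_zero, bdPar]
  · rw [bdNode_two e (by omega) hn]
    simp only [bdPar]
    congr 1
    omega

theorem bdLev_le (x : BdN B d) : bdLev B d x ≤ d + 1 := by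
  rcases x with _ | _ | p <;> simp only [bdLev] <;> omega

theorem bdLev_top (x : BdN B d) (h : bdLev B d x = d + 1) : x = Sum.inl () := by
  rcases x with _ | _ | p
  · rfl
  · simp only [bdLev] at h; omega
  · simp only [bdLev] at h; omega

theorem bdLev_par (x : BdN B d) (h : bdLev B d x < d + 1) :
    bdLev B d (bdPar B d x) = bdLev B d x + 1 := by
  rcases x with _ | _ | p
  · simp only [bdLev] at h; omega
  · simp only [bdLev, bdPar]
  · have := p.2.isLt
    simp only [bdPar]
    rw [bdLev_node _ (by omega)]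
    simp only [bdLev]
    omega

theorem bdNode_eq_old {e : B.E} {n : ℕ} (hn : n ≤ d + 1) {w : B.W}
    (h : bdNode B d e n = Sum.inr (Sum.inl w)) : w = B.lo e := by
  rcases Nat.lt_or_ge n 2 with h2 | h2
  · interval_cases n
    · rw [bdNode_zero] at h; cases h
    · rw [bdNode_one] at h
      simp only [Sum.inr.injEq, Sum.inl.injEq] at h
      exact h.symm
  · rw [bdNode_two e h2 hn] at h
    simp at h

theorem bdNode_ne_root {e : B.E} {n : ℕ} (h1 : 1 ≤ n) (hn : n ≤ d + 1) :
    bdNode B d e n ≠ Sum.inl () := by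
  intro h
  have := bdLev_node e hn
  rw [h] at this
  simp only [bdLev] at this
  omega

theorem bdNode_eq_edge {e e' : B.E} {n n' : ℕ} (h2 : 2 ≤ n) (hn : n ≤ d + 1) (hn' : n' ≤ d + 1)
    (h : bdNode B d e n = bdNode B d e' n') : e = e' := by
  have hl : n = n' := by
    have a1 := bdLev_node e hn
    have a2 := bdLev_node e' hn'
    rw [h] at a1
    omega
  subst hl
  rw [bdNode_two e h2 hn, bdNode_two e' h2 hn] at h
  simp only [Sum.inr.injEq, Prod.mk.injEq] at h
  exact h.1

/-- The extended path of the edge `e`. -/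
def bdPi (B : BG) (d j : ℕ) {V : Type} (φ : BdN B d → V) (alt : B.E → ℕ → V) (a : V) (e : B.E)
    (n : ℕ) : V :=
  if n ≤ d + 1 then φ (bdNode B d e n) else if n ≤ j + d + 1 then alt e (j + d + 1 - n) else a

/-- Everything the assembly needs to know on the tree and on the chosen walks. -/
structure BdHyp (B : BG) (d j : ℕ) {V : Type} (G : SimpleGraph V) (c : Sym2 V → Sym2 V → Prop)
    (a : V) (v : B.W → V) (φ : BdN B d → V) (alt : B.E → ℕ → V) : Prop where
  symm : ∀ z z', c z z' → c z' z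
  adjv : ∀ m, G.Adj a (v m)
  star : ∀ m m', m ≠ m' → ∀ z ∈ st a (v m), ∀ z' ∈ st a (v m'), ¬ c z z'
  tadj : ∀ x, bdLev B d x < d + 1 → G.Adj (φ (bdPar B d x)) (φ x)
  tt : ∀ x y fx fy, (fx = true → bdLev B d x < d + 1) → (fy = true → bdLev B d y < d + 1) →
    c (el φ (bdPar B d) x fx) (el φ (bdPar B d) y fy) →
    x = y ∨ (fx = false ∧ bdLev B d y < d + 1 ∧ x = bdPar B d y) ∨
      (fy = false ∧ bdLev B d x < d + 1 ∧ y = bdPar B d x)
  apex : ∀ x fx, (fx = true → bdLev B d x < d + 1) → ¬ c s(a, a) (el φ (bdPar B d) x fx)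
  cross : ∀ x fx, (fx = true → bdLev B d x < d + 1) → ∀ m, ∀ z ∈ st a (v m),
    ¬ c z (el φ (bdPar B d) x fx)
  alt0 : ∀ e, alt e 0 = v (B.hi e)
  altj : ∀ e, alt e j = φ (bdNode B d e (d + 1))
  altw : ∀ e, IsWalk G j (alt e)
  altc : ∀ e, CleanW c j (alt e)
  aa : ∀ e, ¬ Hit c j s(a, a) (alt e)
  av : ∀ e, ¬ Hit c j s(a, v (B.hi e)) (alt e)
  ta : ∀ e x fx, (fx = true → bdLev B d x < d + 1) →
    ¬ (x = bdNode B d e (d + 1) ∧ fx = false) → ¬ Hit c j (el φ (bdPar B d) x fx) (alt e)
  sa : ∀ e m, m ≠ B.hi e → ∀ z ∈ st a (v m), ¬ Hit c j z (alt e)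
  alts : ∀ e e', e ≠ e' → ∀ z ∈ inner j (alt e), ¬ Hit c j z (alt e')

section Asm

variable {j : ℕ} {V : Type} {G : SimpleGraph V} {c : Sym2 V → Sym2 V → Prop} {a : V}
  {v : B.W → V} {φ : BdN B d → V} {alt : B.E → ℕ → V}

theorem bdPi_tree (e : B.E) {n : ℕ} (hn : n ≤ d + 1) :
    bdPi B d j φ alt a e n = φ (bdNode B d e n) := by
  simp [bdPi, hn]

theorem bdPi_alt (H : BdHyp B d j G c a v φ alt) (e : B.E) {n : ℕ} (h1 : d + 1 ≤ n)
    (h2 : n ≤ j + d + 1) : bdPi B d j φ alt a e n = alt e (j + d + 1 - n) := by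
  rcases Nat.eq_or_lt_of_le h1 with h | h
  · subst h
    rw [bdPi_tree e le_rfl, ← H.altj]
    congr 1
    omega
  · have : ¬ n ≤ d + 1 := by omega
    simp [bdPi, this, h2]

theorem bdPi_last (e : B.E) : bdPi B d j φ alt a e (j + d + 2) = a := by
  have h1 : ¬ j + d + 2 ≤ d + 1 := by omega
  have h2 : ¬ j + d + 2 ≤ j + d + 1 := by omega
  simp only [bdPi, if_neg h1, if_neg h2]

theorem bdPi_hi (H : BdHyp B d j G c a v φ alt) (e : B.E) :
    bdPi B d j φ alt a e (j + d + 1) = v (B.hi e) := by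
  rw [bdPi_alt H e (by omega) le_rfl, Nat.sub_self, H.alt0]

/-- An element at positions at most `d + 1` is a tree element. -/
theorem bd_elT (e : B.E) {n n' : ℕ} (h1 : n ≤ n') (h2 : n' ≤ n + 1) (h3 : n' ≤ d + 1) :
    ∃ f : Bool, (f = true → bdLev B d (bdNode B d e n') < d + 1) ∧ (f = false → n = n') ∧
      s(bdPi B d j φ alt a e n, bdPi B d j φ alt a e n') =
        el φ (bdPar B d) (bdNode B d e n') f := by
  rcases Nat.eq_or_lt_of_le h1 with h | h
  · subst h
    refine ⟨false, by simp, fun _ => rfl, ?_⟩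
    rw [bdPi_tree e h3]
    simp [el]
  · have hn : n' = n + 1 := by omega
    subst hn
    refine ⟨true, fun _ => ?_, by simp, ?_⟩
    · rw [bdLev_node e h3]; omega
    · rw [bdPi_tree e h3, bdPi_tree e (by omega)]
      simp [el, bdPar_node e h3]

/-- The other elements before the vertex `v (hi e)` are inner elements of the chosen walk. -/
theorem bd_elI (H : BdHyp B d j G c a v φ alt) (e : B.E) {n n' : ℕ} (h1 : n ≤ n')
    (h2 : n' ≤ n + 1) (h3 : d + 1 < n') (h4 : n' ≤ j + d + 1) (h5 : n < j + d + 1) :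
    s(bdPi B d j φ alt a e n, bdPi B d j φ alt a e n') ∈ inner j (alt e) := by
  rw [bdPi_alt H e (by omega) (by omega), bdPi_alt H e (by omega) h4]
  unfold inner
  rcases Nat.eq_or_lt_of_le h1 with h | h
  · subst h
    refine Finset.mem_union_left _ (Finset.mem_image.2 ⟨j + d + 1 - n, ?_, rfl⟩)
    rw [Finset.mem_Ioo]
    omega
  · refine Finset.mem_union_right _ (Finset.mem_image.2 ⟨j + d + 1 - n', ?_, ?_⟩)
    · rw [Finset.mem_range]
      omega
    · have : j + d + 1 - n' + 1 = j + d + 1 - n := by omega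
      rw [this, Sym2.eq_swap]

/-- An element that ends at the last position is the apex or the edge from the apex. -/
theorem bd_elS (H : BdHyp B d j G c a v φ alt) (e : B.E) {n : ℕ} (h1 : n ≤ j + d + 2)
    (h2 : j + d + 2 ≤ n + 1) :
    s(bdPi B d j φ alt a e n, bdPi B d j φ alt a e (j + d + 2)) = s(a, a) ∨
      s(bdPi B d j φ alt a e n, bdPi B d j φ alt a e (j + d + 2)) = s(a, v (B.hi e)) := by
  rcases Nat.eq_or_lt_of_le h1 with h | h
  · left
    rw [h, bdPi_last]
  · right
    have : n = j + d + 1 := by omega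
    rw [this, bdPi_last, bdPi_hi H, Sym2.eq_swap]

theorem bd_mem_st_vv (a v : V) : s(v, v) ∈ st a v := by simp [st]

theorem bd_mem_st_av (a v : V) : s(a, v) ∈ st a v := by simp [st]

/-- One half of the cleanliness of an extended path. -/
theorem bd_clean_half (H : BdHyp B d j G c a v φ alt) (e : B.E) {n n' m m' : ℕ}
    (hn1 : n ≤ n') (hn2 : n' ≤ n + 1) (hm1 : m ≤ m') (hm2 : m' ≤ m + 1) (hm3 : m' ≤ j + d + 2)
    (hc : c s(bdPi B d j φ alt a e n, bdPi B d j φ alt a e n')
      s(bdPi B d j φ alt a e m, bdPi B d j φ alt a e m')) : m' ≤ n + 1 := by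
  by_contra hlt
  have hlt' : n + 2 ≤ m' := by omega
  by_cases hT : n' ≤ d + 1
  · obtain ⟨f, hf1, hf2, hf3⟩ := bd_elT (j := j) (φ := φ) (alt := alt) (a := a) e hn1 hn2 hT
    by_cases hT' : m' ≤ d + 1
    · obtain ⟨g, hg1, hg2, hg3⟩ := bd_elT (j := j) (φ := φ) (alt := alt) (a := a) e hm1 hm2 hT'
      rw [hf3, hg3] at hc
      have l1 := bdLev_node e hT
      have l2 := bdLev_node e hT'
      rcases H.tt _ _ _ _ hf1 hg1 hc with h | ⟨h, h', h''⟩ | ⟨h, h', h''⟩
      · rw [h] at l1; omega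
      · have l3 := bdLev_par _ h'
        rw [← h''] at l3
        have := hf2 h
        omega
      · have l3 := bdLev_par _ h'
        rw [← h''] at l3
        omega
    · by_cases hS : m' = j + d + 2
      · subst hS
        rw [hf3] at hc
        rcases bd_elS H e hm1 hm2 with h | h
        · rw [h] at hc
          exact H.apex _ _ hf1 (H.symm _ _ hc)
        · rw [h] at hc
          exact H.cross _ _ hf1 _ _ (bd_mem_st_av a _) (H.symm _ _ hc)
      · by_cases hV : m = j + d + 1
        · have hV' : m' = j + d + 1 := by omega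
          rw [hV, hV', bdPi_hi H, hf3] at hc
          exact H.cross _ _ hf1 _ _ (bd_mem_st_vv a _) (H.symm _ _ hc)
        · have hI := bd_elI H e hm1 hm2 (by omega) (by omega) (by omega)
          by_cases hL : n = d + 1
          · rw [bdPi_alt H e (n := n) (by omega) (by omega),
              bdPi_alt H e (n := n') (by omega) (by omega),
              bdPi_alt H e (n := m) (by omega) (by omega),
              bdPi_alt H e (n := m') (by omega) (by omega), Sym2.eq_swap,
              Sym2.eq_swap (a := alt e (j + d + 1 - m))] at hc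
            have := H.altc e _ _ _ _ (by omega) (by omega) (by omega) (by omega) (by omega)
              (by omega) hc
            omega
          · refine H.ta e _ f hf1 ?_ ⟨_, hI, hf3 ▸ hc⟩
            rintro ⟨h1, h2⟩
            have l1 := bdLev_node e hT
            have l2 := bdLev_node (d := d) e (n := d + 1) le_rfl
            rw [h1] at l1
            have := hf2 h2
            omega
  · by_cases hS : m' = j + d + 2
    · subst hS
      have hI := bd_elI H e hn1 hn2 (by omega) (by omega) (by omega)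
      rcases bd_elS H e hm1 hm2 with h | h
      · rw [h] at hc
        exact H.aa e ⟨_, hI, H.symm _ _ hc⟩
      · rw [h] at hc
        exact H.av e ⟨_, hI, H.symm _ _ hc⟩
    · rw [bdPi_alt H e (n := n) (by omega) (by omega),
        bdPi_alt H e (n := n') (by omega) (by omega),
        bdPi_alt H e (n := m) (by omega) (by omega),
        bdPi_alt H e (n := m') (by omega) (by omega), Sym2.eq_swap,
        Sym2.eq_swap (a := alt e (j + d + 1 - m))] at hc
      have := H.altc e _ _ _ _ (by omega) (by omega) (by omega) (by omega) (by omega)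
        (by omega) hc
      omega

/-- Classification of the inner elements of the middle window. -/
theorem bd_inner (H : BdHyp B d j G c a v φ alt) (e : B.E) {z : Sym2 V}
    (hz : z ∈ inner (j + d) (win 1 (j + d) (bdPi B d j φ alt a e))) :
    (∃ n f, 2 ≤ n ∧ n ≤ d + 1 ∧ z = el φ (bdPar B d) (bdNode B d e n) f) ∨
      z ∈ inner j (alt e) := by
  have key : ∃ n n', n ≤ n' ∧ n' ≤ n + 1 ∧ 2 ≤ n' ∧ n' ≤ j + d + 1 ∧ n < j + d + 1 ∧
      z = s(bdPi B d j φ alt a e n, bdPi B d j φ alt a e n') := by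
    unfold inner at hz
    rcases Finset.mem_union.1 hz with h | h
    · obtain ⟨n, hn, rfl⟩ := Finset.mem_image.1 h
      rw [Finset.mem_Ioo] at hn
      refine ⟨1 + n, 1 + n, le_rfl, by omega, by omega, by omega, by omega, ?_⟩
      simp only [win]
      rw [min_eq_left (by omega)]
    · obtain ⟨n, hn, rfl⟩ := Finset.mem_image.1 h
      rw [Finset.mem_range] at hn
      refine ⟨1 + n, 1 + (n + 1), by omega, by omega, by omega, by omega, by omega, ?_⟩
      simp only [win]
      rw [min_eq_left (by omega), min_eq_left (by omega)]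
  obtain ⟨n, n', h1, h2, h3, h4, h5, rfl⟩ := key
  by_cases hT : n' ≤ d + 1
  · obtain ⟨f, -, -, hf⟩ := bd_elT (j := j) (φ := φ) (alt := alt) (a := a) e h1 h2 hT
    exact Or.inl ⟨n', f, h3, hT, hf⟩
  · exact Or.inr (bd_elI H e h1 h2 (by omega) h4 h5)

/-- The two elements of an old vertex: tree elements or star elements. -/
theorem bd_st (w : B.W) {z : Sym2 V}
    (hz : z ∈ st ((fun b : Bool => if b then a else φ (Sum.inl ())) (B.col w))
      (if B.col w then v w else φ (Sum.inr (Sum.inl w)))) :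
    (∃ f, z = el φ (bdPar B d) (Sum.inr (Sum.inl w)) f) ∨ z ∈ st a (v w) := by
  cases hw : B.col w
  · left
    simp only [hw, st, Finset.mem_insert, Finset.mem_singleton] at hz
    rcases hz with h | h
    · exact ⟨false, by simpa [el] using h⟩
    · exact ⟨true, by simpa [el, bdPar] using h⟩
  · right
    simpa [hw] using hz

theorem bd_assemble (H : BdHyp B d j G c a v φ alt) :
    Data B (j + d) G c (fun b : Bool => if b then a else φ (Sum.inl ()))
      (fun w => if B.col w then v w else φ (Sum.inr (Sum.inl w))) (bdPi B d j φ alt a) := by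
  have hold : ∀ (w : B.W) (f : Bool), f = true → bdLev B d (Sum.inr (Sum.inl w)) < d + 1 :=
    fun w f _ => by simp [bdLev]
  have hnode : ∀ (e : B.E) (n : ℕ) (f : Bool), 2 ≤ n → n ≤ d + 1 → f = true →
      bdLev B d (bdNode B d e n) < d + 1 := fun e n f h1 h2 _ => by
    rw [bdLev_node e h2]; omega
  have hparn : ∀ (e : B.E) (n : ℕ), 2 ≤ n → n ≤ d + 1 →
      bdPar B d (bdNode B d e n) = bdNode B d e (n - 1) := fun e n h1 h2 => by
    obtain ⟨m, rfl⟩ : ∃ m, n = m + 1 := ⟨n - 1, by omega⟩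
    rw [bdPar_node e h2, Nat.add_sub_cancel]
  refine ⟨?_, ?_, ?_, ?_, ?_, ?_, ?_, ?_, ?_⟩
  · intro e
    rw [bdPi_tree e (by omega), bdNode_zero]
    simp
  · intro e
    rw [bdPi_tree e (by omega), bdNode_one]
    simp [B.col_lo]
  · intro e
    rw [bdPi_hi H]
    simp [B.col_hi]
  · intro e
    rw [bdPi_last]
    simp
  · intro e n hn
    by_cases h1 : n + 1 ≤ d + 1
    · rw [bdPi_tree e h1, bdPi_tree e (by omega), ← bdPar_node e h1]
      refine H.tadj _ ?_
      rw [bdLev_node e h1]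
      omega
    · by_cases h2 : n + 1 ≤ j + d + 1
      · rw [bdPi_alt H e (by omega) (by omega), bdPi_alt H e (by omega) h2]
        have h3 := (H.altw e).adj (j + d + 1 - (n + 1)) (by omega)
        have h4 : j + d + 1 - (n + 1) + 1 = j + d + 1 - n := by omega
        rw [h4] at h3
        exact h3.symm
      · have h3 : n = j + d + 1 := by omega
        subst h3
        rw [bdPi_hi H, show j + d + 1 + 1 = j + d + 2 from rfl, bdPi_last]
        exact (H.adjv _).symm
  · intro e n n' m m' h1 h2 h3 h4 h5 h6 hc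
    exact ⟨bd_clean_half H e h1 h2 h4 h5 h6 hc, bd_clean_half H e h4 h5 h1 h2 h3 (H.symm _ _ hc)⟩
  · intro w w' hne _ z hz z' hz' hc
    rcases bd_st w hz with ⟨f, rfl⟩ | h <;> rcases bd_st w' hz' with ⟨f', rfl⟩ | h'
    · rcases H.tt _ _ _ _ (hold w f) (hold w' f') hc with h | ⟨-, -, h⟩ | ⟨-, -, h⟩
      · simp only [Sum.inr.injEq, Sum.inl.injEq] at h
        exact hne h
      · simp [bdPar] at h
      · simp [bdPar] at h
    · exact H.cross _ _ (hold w f) _ _ h' (H.symm _ _ hc)
    · exact H.cross _ _ (hold w' f') _ _ h hc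
    · exact H.star _ _ hne _ h _ h' hc
  · intro w e hlo hhi z hz z' hz' hc
    rcases bd_st w hz with ⟨f, rfl⟩ | h <;>
      rcases bd_inner H e hz' with ⟨n, f', h1, h2, rfl⟩ | h'
    · rcases H.tt _ _ _ _ (hold w f) (hnode e n f' h1 h2) hc with h | ⟨-, -, h⟩ | ⟨-, -, h⟩
      · exact hlo (bdNode_eq_old h2 h.symm)
      · rw [hparn e n h1 h2] at h
        exact hlo (bdNode_eq_old (by omega) h.symm)
      · exact bdNode_ne_root (by omega) h2 h
    · refine H.ta e _ f (hold w f) ?_ ⟨_, h', hc⟩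
      rintro ⟨h, -⟩
      exact hlo (bdNode_eq_old le_rfl h.symm)
    · exact H.cross _ _ (hnode e n f' h1 h2) _ _ h hc
    · exact H.sa e w hhi _ h ⟨_, h', hc⟩
  · intro e e' hne z hz z' hz' hc
    rcases bd_inner H e hz with ⟨n, f, h1, h2, rfl⟩ | h <;>
      rcases bd_inner H e' hz' with ⟨n', f', h1', h2', rfl⟩ | h'
    · rcases H.tt _ _ _ _ (hnode e n f h1 h2) (hnode e' n' f' h1' h2') hc with
        h | ⟨-, -, h⟩ | ⟨-, -, h⟩
      · exact hne (bdNode_eq_edge h1 h2 h2' h)
      · rw [hparn e' n' h1' h2'] at h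
        exact hne (bdNode_eq_edge h1 h2 (by omega) h)
      · rw [hparn e n h1 h2] at h
        exact hne (bdNode_eq_edge h1' h2' (by omega) h).symm
    · refine H.ta e' _ f (hnode e n f h1 h2) ?_ ⟨_, h', hc⟩
      rintro ⟨h, -⟩
      exact hne (bdNode_eq_edge h1 h2 le_rfl h)
    · refine H.ta e _ f' (hnode e' n' f' h1' h2') ?_ ⟨_, h, H.symm _ _ hc⟩
      rintro ⟨h, -⟩
      exact hne (bdNode_eq_edge h1' h2' le_rfl h).symm
    · exact H.alts e e' hne _ h ⟨_, h', hc⟩

end Asm

end Pool.Agent.Lib.MP_9bef39_co
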