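import Pool.Agent.Lib.MP_9bef39_co.Walk
import Pool.Agent.Lib.MP_9bef39_co.Tree
import Pool.Agent.Lib.MP_9bef39_co.BaseDataX

open Finset
open scoped Classical

namespace Pool.Agent.Lib.MP_9bef39_co

theorem data_of_base (B : BG) (k j s F : ℕ) (hj : 2 ≤ j) (hjk : j ≤ k) : ∃ q μ L1 : ℕ,
    ∀ (V : Type) [Fintype V] (G : SimpleGraph V) (c : Sym2 V → Sym2 V → Prop)
      (A : Finset (ℕ → V)) (L' : ℕ) (a : V) (v : B.W → V) (J : Finset (V × V)) (D E : Finset V),
      Conf s c → Fam G c j F A → L1 ≤ L' → Base G c A j q μ L' a v J D E →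
      ∃ y ψ π, Data B k G c y ψ π := by
  obtain ⟨d, rfl⟩ := Nat.exists_eq_add_of_le hjk
  set N := Fintype.card (BdN B d) with hN
  set nW := Fintype.card B.W with hnW
  set q := 2 * (N * 2 + nW * 2) with hq
  obtain ⟨M1, Lp, hpop⟩ := pop_hit s j F q hj
  obtain ⟨μ, htree⟩ := tree s (nW * M1) (d + 1) N (by omega)
  obtain ⟨s', hfree⟩ := hit2_free s j F hj
  obtain ⟨Ls, hsel⟩ := sel s' (Fintype.card B.E)
  refine ⟨q, μ, Lp + 2 * Ls, ?_⟩
  intro V _ G c A L' a v J D E hc hF hL hB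
  have hsub : ∀ v' w, endsA c A j a v' w ⊆ ends A j v' w := fun v' w => Finset.filter_subset _ _
  set Forb : V → Finset (Sym2 V) := fun w => univ.biUnion (fun m : B.W =>
    if Lp ≤ (endsA c A j a (v m) w).card then
      univ.filter (fun z => Popular (Hit c j) q (endsA c A j a (v m) w) z) else ∅) with hForb
  have hForbc : ∀ w, (Forb w).card ≤ nW * M1 := by
    intro w
    refine le_trans (Finset.card_biUnion_le_card_mul _ _ M1 ?_) (by simp [hnW])
    intro m _
    split_ifs with h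
    · exact hpop G c A hc hF (v m) w _ (hsub _ _) h _ (fun z hz => (Finset.mem_filter.1 hz).2)
    · simp
  obtain ⟨φ, t1, t2, t3, t4, t5⟩ := htree c J D E Forb (bdLev B d) (bdPar B d) hc le_rfl
    (fun p hp => ⟨(hB.memJ p hp).1, (hB.memJ p hp).2.1⟩) hB.big hForbc bdLev_le
    (fun x y hx hy => (bdLev_top x hx).trans (bdLev_top y hy).symm) bdLev_par
  have htri : ∀ x fx, (fx = true → bdLev B d x < d + 1) →
      ∃ p ∈ J, el φ (bdPar B d) x fx ∈ tri p := by
    intro x fx hx
    cases fx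
    · obtain ⟨p, hp, h⟩ := t3 x
      refine ⟨p, hp, ?_⟩
      rcases h with h | h <;> simp [el, tri, h]
    · by_cases he : Even (bdLev B d x)
      · refine ⟨_, t1 x (hx rfl) he, ?_⟩
        simp [el, tri, Sym2.eq_swap]
      · refine ⟨_, t2 x (hx rfl) he, ?_⟩
        simp [el, tri]
  have hleaf0 : ∀ e, bdLev B d (bdNode B d e (d + 1)) = 0 := fun e => by
    rw [bdLev_node e le_rfl, Nat.sub_self]
  have hleafJ : ∀ e, (φ (bdNode B d e (d + 1)), φ (bdPar B d (bdNode B d e (d + 1)))) ∈ J :=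
    fun e => t1 _ (by rw [hleaf0]; omega) (by rw [hleaf0]; exact Even.zero)
  set I : B.E → Finset (ℕ → V) := fun e =>
    endsA c A j a (v (B.hi e)) (φ (bdNode B d e (d + 1))) with hI
  have hIc : ∀ e, L' ≤ (I e).card := fun e => hB.many _ (hleafJ e) (B.hi e)
  set Z : B.E → Finset (Sym2 V) := fun e =>
    ((univ.filter (fun p : BdN B d × Bool => (p.2 = true → bdLev B d p.1 < d + 1) ∧
      ¬ (p.1 = bdNode B d e (d + 1) ∧ p.2 = false))).image
        (fun p => el φ (bdPar B d) p.1 p.2)) ∪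
    (univ.filter (fun m => m ≠ B.hi e)).biUnion (fun m => st a (v m)) with hZ
  have hZc : ∀ e, 2 * (Z e).card ≤ q := by
    intro e
    refine Nat.mul_le_mul_left 2 (le_trans (Finset.card_union_le _ _) (Nat.add_le_add ?_ ?_))
    · refine le_trans Finset.card_image_le (le_trans (Finset.card_filter_le _ _) ?_)
      rw [Finset.card_univ, Fintype.card_prod, Fintype.card_bool]
    · refine le_trans (Finset.card_biUnion_le_card_mul _ _ 2 ?_) ?_
      · intro m _
        exact Finset.card_le_two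
      · exact Nat.mul_le_mul_right 2 (le_trans (Finset.card_filter_le _ _) (by simp [hnW]))
  have hZp : ∀ e, ∀ z ∈ Z e, ¬ Popular (Hit c j) q (I e) z := by
    intro e z hz hp
    rcases Finset.mem_union.1 hz with h | h
    · obtain ⟨p, hp1, rfl⟩ := Finset.mem_image.1 h
      obtain ⟨-, hp2, hp3⟩ := Finset.mem_filter.1 hp1
      refine t5 _ p.1 p.2 (hleaf0 e) hp2 hp3 ?_
      refine Finset.mem_biUnion.2 ⟨B.hi e, Finset.mem_univ _, ?_⟩
      have hle : Lp ≤ (endsA c A j a (v (B.hi e)) (φ (bdNode B d e (d + 1)))).card :=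
        le_trans (by omega) (hIc e)
      rw [if_pos hle]
      exact Finset.mem_filter.2 ⟨Finset.mem_univ _, hp⟩
    · obtain ⟨m, hm, hz'⟩ := Finset.mem_biUnion.1 h
      exact hB.unpop _ (hleafJ e) (B.hi e) m (Finset.mem_filter.1 hm).2 z hz' hp
  obtain ⟨alt, halt, hbad⟩ := hsel
    (fun e => (I e).filter (fun x => ∀ z ∈ Z e, ¬ Hit c j z x))
    (fun e x e' x' => x ∈ ends A j (v (B.hi e)) (φ (bdNode B d e (d + 1))) ∧
      x' ∈ ends A j (v (B.hi e')) (φ (bdNode B d e' (d + 1))) ∧ ∃ z ∈ inner j x, Hit c j z x')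
    le_rfl
    (fun e => by
      have h1 := bd_half (Hit c j) q (I e) (Z e) (hZc e) (hZp e)
      have h2 := hIc e
      refine le_trans (Nat.le_of_mul_le_mul_left
        (le_trans (show 2 * Ls ≤ (I e).card by omega) h1) (by norm_num)) (Finset.card_le_card ?_)
      intro x hx
      simp only [Finset.mem_filter] at hx ⊢
      exact hx)
    (fun e e' _ => hfree G c A hc hF _ _ _ _)
  have hI' : ∀ e, alt e ∈ I e := fun e => (Finset.mem_filter.1 (halt e)).1
  have hZ' : ∀ e, ∀ z ∈ Z e, ¬ Hit c j z (alt e) := fun e => (Finset.mem_filter.1 (halt e)).2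
  have hE : ∀ e, alt e ∈ ends A j (v (B.hi e)) (φ (bdNode B d e (d + 1))) :=
    fun e => hsub _ _ (hI' e)
  have H : BdHyp B d j G c a v φ alt := by
    refine ⟨hc.symm, hB.adjv, hB.star, ?_, t4, ?_, ?_, ?_, ?_, ?_, ?_, ?_, ?_, ?_, ?_, ?_⟩
    · intro x hx
      by_cases he : Even (bdLev B d x)
      · exact (hB.memJ _ (t1 x hx he)).2.2.symm
      · exact (hB.memJ _ (t2 x hx he)).2.2
    · intro x fx hx
      obtain ⟨p, hp, h⟩ := htri x fx hx
      exact hB.apex p hp _ h
    · intro x fx hx m z hz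
      obtain ⟨p, hp, h⟩ := htri x fx hx
      exact hB.cross p hp _ h m z hz
    · exact fun e => (Finset.mem_filter.1 (hE e)).2.1
    · exact fun e => (Finset.mem_filter.1 (hE e)).2.2
    · exact fun e => hF.walk _ (Finset.mem_filter.1 (hE e)).1
    · exact fun e => hF.clean _ (Finset.mem_filter.1 (hE e)).1
    · exact fun e => (Finset.mem_filter.1 (hI' e)).2.1
    · exact fun e => (Finset.mem_filter.1 (hI' e)).2.2
    · intro e x fx h1 h2
      refine hZ' e _ (Finset.mem_union_left _ (Finset.mem_image.2 ⟨(x, fx), ?_, rfl⟩))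
      exact Finset.mem_filter.2 ⟨Finset.mem_univ _, h1, h2⟩
    · intro e m hm z hz
      refine hZ' e _ (Finset.mem_union_right _ (Finset.mem_biUnion.2 ⟨m, ?_, hz⟩))
      exact Finset.mem_filter.2 ⟨Finset.mem_univ _, hm⟩
    · intro e e' hne z hz hh
      exact hbad e e' hne ⟨hE e, hE e', z, hz, hh⟩
  exact ⟨_, _, _, bd_assemble H⟩

end Pool.Agent.Lib.MP_9bef39_co
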