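import Mathlib

/-!
Definitions for the proof that every rational in `(1,2)` is an induced Turan exponent.
-/

open Finset
open scoped Classical

namespace Pool.Agent.Lib.MP_9bef39_co

/-- The relation `r` contains no complete `s × s` box. -/
def Free {α β : Type} (s : ℕ) (r : α → β → Prop) : Prop :=
  ∀ (A : Finset α) (B : Finset β), A.card = s → B.card = s → ∃ a ∈ A, ∃ b ∈ B, ¬ r a b

/-- `z` is related to at least a `1/q` fraction of `I`. -/
def Popular {α β : Type} (r : α → β → Prop) (q : ℕ) (I : Finset β) (z : α) : Prop :=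
  I.card ≤ q * (I.filter (fun b => r z b)).card

/-- A conflict relation on the elements of a host: a vertex `v` is the element `s(v,v)`, an edge
`uv` is the element `s(u,v)`. -/
structure Conf {V : Type} (s : ℕ) (c : Sym2 V → Sym2 V → Prop) : Prop where
  refl : ∀ z, c z z
  symm : ∀ z z', c z z' → c z' z
  free : Free s c

def Near {W : Type} (H : SimpleGraph W) (a b : W) : Prop := a = b ∨ H.Adj a b

/-- A homomorphism whose only conflicts are inside one edge of `H`. -/
structure CleanHom {W V : Type} (H : SimpleGraph W) (G : SimpleGraph V)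
    (c : Sym2 V → Sym2 V → Prop) (φ : W → V) : Prop where
  adj : ∀ a b, H.Adj a b → G.Adj (φ a) (φ b)
  clean : ∀ a b a' b', Near H a b → Near H a' b' → c s(φ a, φ b) s(φ a', φ b') →
    Near H a a' ∧ Near H a b' ∧ Near H b a' ∧ Near H b b'

/-- Number of ordered adjacent pairs (twice the number of edges). -/
noncomputable def nd {V : Type} [Fintype V] (G : SimpleGraph V) : ℕ :=
  (univ.filter (fun p : V × V => G.Adj p.1 p.2)).card

/-- Neighbourhood as a finset. -/
noncomputable def nb {V : Type} [Fintype V] (G : SimpleGraph V) (x : V) : Finset V :=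
  univ.filter (fun y => G.Adj x y)

/-- The robust upper bound: every host with `C m^(1+α)` edges has a clean copy of `H`. -/
def Rob {W : Type} (H : SimpleGraph W) (α : ℝ) : Prop :=
  ∀ s : ℕ, ∃ C : ℝ, ∀ (V : Type) [Fintype V] [Nonempty V] (G : SimpleGraph V)
    (c : Sym2 V → Sym2 V → Prop), Conf s c →
    C * (Fintype.card V : ℝ) ^ (1 + α) ≤ (nd G : ℝ) → ∃ φ, CleanHom H G c φ

/-- A walk of length `i`, recorded as a function on `ℕ` that is constant from `i` on. -/
structure IsWalk {V : Type} (G : SimpleGraph V) (i : ℕ) (x : ℕ → V) : Prop where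
  adj : ∀ n, n < i → G.Adj (x n) (x (n + 1))
  const : ∀ n, i ≤ n → x n = x i

theorem finite_isWalk {V : Type} [Fintype V] (G : SimpleGraph V) (i : ℕ) :
    {x : ℕ → V | IsWalk G i x}.Finite := by
  refine Set.Finite.of_finite_image (f := fun x => fun n : Fin (i + 1) => x n) (Set.toFinite _) ?_
  intro x hx y hy h
  have h' : ∀ n, n ≤ i → x n = y n := fun n hn => congrFun h ⟨n, Nat.lt_succ_of_le hn⟩
  funext n
  rcases le_total n i with hn | hn
  · exact h' n hn
  · rw [IsWalk.const hx n hn, IsWalk.const hy n hn, h' i le_rfl]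

/-- All walks of length `i`. -/
noncomputable def walks {V : Type} [Fintype V] (G : SimpleGraph V) (i : ℕ) : Finset (ℕ → V) :=
  (finite_isWalk G i).toFinset

@[simp] theorem mem_walks {V : Type} [Fintype V] {G : SimpleGraph V} {i : ℕ} {x : ℕ → V} :
    x ∈ walks G i ↔ IsWalk G i x := by
  simp [walks]

/-- The window of length `l` starting at position `a`. -/
def win {V : Type} (a l : ℕ) (x : ℕ → V) : ℕ → V := fun n => x (a + min n l)

/-- A walk of length `i` all of whose conflicts are inside one of its edges. -/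
def CleanW {V : Type} (c : Sym2 V → Sym2 V → Prop) (i : ℕ) (x : ℕ → V) : Prop :=
  ∀ a a' b b', a ≤ a' → a' ≤ a + 1 → a' ≤ i → b ≤ b' → b' ≤ b + 1 → b' ≤ i →
    c s(x a, x a') s(x b, x b') → b' ≤ a + 1 ∧ a' ≤ b + 1

/-- The inner elements of a walk of length `i`: its interior vertices and all its edges. -/
noncomputable def inner {V : Type} (i : ℕ) (x : ℕ → V) : Finset (Sym2 V) :=
  (Ioo 0 i).image (fun n => s(x n, x n)) ∪ (range i).image (fun n => s(x n, x (n + 1)))

/-- The members of a family of walks of length `j` with given ends. -/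
noncomputable def ends {V : Type} (A : Finset (ℕ → V)) (j : ℕ) (v w : V) : Finset (ℕ → V) :=
  A.filter (fun x => x 0 = v ∧ x j = w)

/-- A family of clean walks of length `j` in which the two ends and one interior vertex
determine the walk up to `F` choices. -/
structure Fam {V : Type} (G : SimpleGraph V) (c : Sym2 V → Sym2 V → Prop) (j F : ℕ)
    (A : Finset (ℕ → V)) : Prop where
  walk : ∀ x ∈ A, IsWalk G j x
  clean : ∀ x ∈ A, CleanW c j x
  mult : ∀ v w z i, 0 < i → i < j → ((ends A j v w).filter (fun x => x i = z)).card ≤ F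

/-- The members of the family whose ends are joined by more than `L` members. -/
noncomputable def heavy {V : Type} (A : Finset (ℕ → V)) (j L : ℕ) : Finset (ℕ → V) :=
  A.filter (fun x => L < (ends A j (x 0) (x j)).card)

/-- `z` conflicts with an inner element of the walk `x`. -/
def Hit {V : Type} (c : Sym2 V → Sym2 V → Prop) (j : ℕ) (z : Sym2 V) (x : ℕ → V) : Prop :=
  ∃ z' ∈ inner j x, c z z'

/-- Members with ends `v, w` whose inner elements avoid the vertex `a` and the edge `av`. -/
noncomputable def endsA {V : Type} (c : Sym2 V → Sym2 V → Prop) (A : Finset (ℕ → V)) (j : ℕ)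
    (a v w : V) : Finset (ℕ → V) :=
  (ends A j v w).filter (fun x => ¬ Hit c j s(a, a) x ∧ ¬ Hit c j s(a, v) x)

/-- The two elements carried by a vertex `v` hanging from `a`. -/
noncomputable def st {V : Type} (a v : V) : Finset (Sym2 V) := {s(v, v), s(a, v)}

/-- The three elements of an edge. -/
noncomputable def tri {V : Type} (p : V × V) : Finset (Sym2 V) :=
  {s(p.1, p.1), s(p.2, p.2), s(p.1, p.2)}

/-- `a` may serve as the apex over `v` when `v` is joined to `w`. -/
structure Fine {V : Type} (c : Sym2 V → Sym2 V → Prop) (A : Finset (ℕ → V)) (j L' : ℕ)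
    (a v w : V) : Prop where
  many : L' ≤ (endsA c A j a v w).card
  n1 : ¬ c s(a, a) s(w, w)
  n2 : ¬ c s(a, v) s(w, w)

/-- A partition of part of every neighbourhood into groups of size `t`, each with an apex. -/
structure Grouping {V : Type} (G : SimpleGraph V) (t : ℕ) (cov : V → V → Prop)
    (S : V → V → Finset V) (ap : V → V → V) : Prop where
  self : ∀ x v, cov x v → v ∈ S x v
  card : ∀ x v, cov x v → (S x v).card = t
  same : ∀ x v v', cov x v → v' ∈ S x v → cov x v' ∧ S x v' = S x v ∧ ap x v' = ap x v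
  adj : ∀ x v, cov x v → G.Adj x v ∧ G.Adj (ap x v) v

/-- The base configuration found in the heavy case. -/
structure Base {V ι : Type} (G : SimpleGraph V) (c : Sym2 V → Sym2 V → Prop)
    (A : Finset (ℕ → V)) (j q μ L' : ℕ) (a : V) (v : ι → V) (J : Finset (V × V))
    (D E : Finset V) : Prop where
  adjv : ∀ m, G.Adj a (v m)
  star : ∀ m m', m ≠ m' → ∀ z ∈ st a (v m), ∀ z' ∈ st a (v m'), ¬ c z z'
  memJ : ∀ p ∈ J, p.1 ∈ D ∧ p.2 ∈ E ∧ G.Adj p.1 p.2
  big : μ * (D.card + E.card) < J.card
  apex : ∀ p ∈ J, ∀ z ∈ tri p, ¬ c s(a, a) z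
  cross : ∀ p ∈ J, ∀ z ∈ tri p, ∀ m, ∀ z' ∈ st a (v m), ¬ c z' z
  many : ∀ p ∈ J, ∀ m, L' ≤ (endsA c A j a (v m) p.1).card
  unpop : ∀ p ∈ J, ∀ m m', m' ≠ m → ∀ z ∈ st a (v m'),
    ¬ Popular (Hit c j) q (endsA c A j a (v m) p.1) z

/-- A finite connected bipartite graph with an explicit type of edges. -/
structure BG where
  W : Type
  E : Type
  fW : Fintype W
  fE : Fintype E
  lo : E → W
  hi : E → W
  col : W → Bool
  col_lo : ∀ e, col (lo e) = false
  col_hi : ∀ e, col (hi e) = true
  inj : ∀ e e', lo e = lo e' → hi e = hi e' → e = e'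
  inc : ∀ w, ∃ e, w = lo e ∨ w = hi e
  ne : Nonempty E
  conn : ∀ P : W → Prop, (∀ e, P (lo e) ↔ P (hi e)) → ∀ a b, P a → P b

instance (B : BG) : Fintype B.W := B.fW
instance (B : BG) : Fintype B.E := B.fE

def BG.graph (B : BG) : SimpleGraph B.W where
  Adj a b := ∃ e, (a = B.lo e ∧ b = B.hi e) ∨ (a = B.hi e ∧ b = B.lo e)
  symm := ⟨fun _ _ ⟨e, h⟩ => ⟨e, h.symm.imp And.symm And.symm⟩⟩
  loopless := ⟨fun a ⟨e, h⟩ => by
    have h1 := B.col_lo e
    have h2 := B.col_hi e
    rcases h with ⟨h, h'⟩ | ⟨h, h'⟩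
    · rw [← h] at h1; rw [← h'] at h2; simp [h1] at h2
    · rw [← h'] at h1; rw [← h] at h2; simp [h1] at h2⟩

/-- Vertices of `L_k(B)`: old vertices, `k - 1` new vertices on each edge, two apices. -/
abbrev LW (B : BG) (k : ℕ) : Type := B.W ⊕ (B.E × Fin (k - 1)) ⊕ Bool

/-- The extended thread of the edge `e`: apex, `lo e`, new vertices, `hi e`, apex. -/
def thr (B : BG) (k : ℕ) (e : B.E) (n : ℕ) : LW B k :=
  if n = 0 then Sum.inr (Sum.inr false)
  else if n = 1 then Sum.inl (B.lo e)
  else if h : 2 ≤ n ∧ n ≤ k then Sum.inr (Sum.inl (e, ⟨n - 2, by omega⟩))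
  else if n = k + 1 then Sum.inl (B.hi e)
  else Sum.inr (Sum.inr true)

/-- The graph `L_k(B)`. -/
def LG (B : BG) (k : ℕ) : SimpleGraph (LW B k) :=
  SimpleGraph.fromRel (fun a b => ∃ e n, n < k + 2 ∧ a = thr B k e n ∧ b = thr B k e (n + 1))

/-- Data from which a clean copy of `L_k(B)` is assembled. -/
structure Data (B : BG) (k : ℕ) {V : Type} (G : SimpleGraph V) (c : Sym2 V → Sym2 V → Prop)
    (y : Bool → V) (ψ : B.W → V) (π : B.E → ℕ → V) : Prop where
  p0 : ∀ e, π e 0 = y false
  p1 : ∀ e, π e 1 = ψ (B.lo e)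
  pk1 : ∀ e, π e (k + 1) = ψ (B.hi e)
  pk2 : ∀ e, π e (k + 2) = y true
  adj : ∀ e n, n < k + 2 → G.Adj (π e n) (π e (n + 1))
  clean : ∀ e, CleanW c (k + 2) (π e)
  vv : ∀ w w', w ≠ w' → ¬ B.graph.Adj w w' →
    ∀ z ∈ st (y (B.col w)) (ψ w), ∀ z' ∈ st (y (B.col w')) (ψ w'), ¬ c z z'
  ve : ∀ w e, w ≠ B.lo e → w ≠ B.hi e →
    ∀ z ∈ st (y (B.col w)) (ψ w), ∀ z' ∈ inner k (win 1 k (π e)), ¬ c z z'
  ee : ∀ e e', e ≠ e' →
    ∀ z ∈ inner k (win 1 k (π e)), ∀ z' ∈ inner k (win 1 k (π e')), ¬ c z z'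

/-- A power structure: `P` blocks with `u` vertices and `e` edges each, over at most `r` roots. -/
structure Pow (B : BG) (P r u e : ℕ) (β : B.W → Option (Fin P)) (γ : B.E → Option (Fin P)) :
    Prop where
  roots : (univ.filter (fun w => β w = none)).card ≤ r
  rootE : (univ.filter (fun f => γ f = none)).card ≤ r
  cardW : ∀ i, (univ.filter (fun w => β w = some i)).card = u
  cardE : ∀ i, (univ.filter (fun f => γ f = some i)).card = e
  lo_ok : ∀ f, β (B.lo f) = none ∨ β (B.lo f) = γ f
  hi_ok : ∀ f, β (B.hi f) = none ∨ β (B.hi f) = γ f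

end Pool.Agent.Lib.MP_9bef39_co
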