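import Pool.Agent.Lib.MP_9bef39_co.Group

open Finset
open scoped Classical

namespace Pool.Agent.Lib.MP_9bef39_co

/-- A group `S` under the apex `a`, with a dense graph `J` whose left ends are rich for `S`. -/
structure Dense {V : Type} (G : SimpleGraph V) (c : Sym2 V → Sym2 V → Prop)
    (A : Finset (ℕ → V)) (j t qγ L' μ0 μ1 Δ : ℕ) (a : V) (S : Finset V) (J : Finset (V × V))
    (D E : Finset V) : Prop where
  cardS : S.card = t
  adjS : ∀ v ∈ S, G.Adj a v
  memJ : ∀ p ∈ J, p.1 ∈ D ∧ p.2 ∈ E ∧ G.Adj p.1 p.2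
  apex : ∀ p ∈ J, ¬ c s(a, a) s(p.2, p.2) ∧ ¬ c s(a, a) s(p.1, p.2)
  rich : ∀ w ∈ D, t ≤ qγ * (S.filter (fun v => Fine c A j L' a v w)).card
  cardD : D.card ≤ Δ ^ (j - 1)
  cardE : μ0 * E.card ≤ J.card
  cardJ : μ1 * Δ ^ (j - 1) ≤ J.card

lemma dense_dc {α β : Type} (s : Finset α) (T : Finset β) (r : α → β → Prop)
    [∀ a b, Decidable (r a b)] (m q n : ℕ)
    (hm : ∀ a ∈ s, m ≤ (T.filter (fun b => r a b)).card)
    (hn : ∀ b ∈ T, q * (s.filter (fun a => r a b)).card ≤ n) : q * (s.card * m) ≤ T.card * n := by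
  have h1 : s.card * m ≤ ∑ a ∈ s, (T.filter (fun b => r a b)).card := by
    simpa using Finset.card_nsmul_le_sum s _ m hm
  have h2 : ∑ a ∈ s, (T.filter (fun b => r a b)).card
      = ∑ b ∈ T, (s.filter (fun a => r a b)).card := by
    simp only [Finset.card_filter]
    exact Finset.sum_comm
  calc q * (s.card * m) ≤ q * ∑ b ∈ T, (s.filter (fun a => r a b)).card := by
        rw [← h2]; exact Nat.mul_le_mul_left _ h1
    _ = ∑ b ∈ T, q * (s.filter (fun a => r a b)).card := Finset.mul_sum _ _ _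
    _ ≤ T.card * n := by simpa using Finset.sum_le_card_nsmul T _ n hn

lemma dense_sigma {α β : Type} (s : Finset α) (T : α → Finset β) (q m : ℕ)
    (h : ∀ a ∈ s, q * (T a).card ≤ m) :
    q * (s.sigma (fun a => T a) : Finset (Σ _ : α, β)).card ≤ s.card * m := by
  rw [Finset.card_sigma, Finset.mul_sum]
  simpa using Finset.sum_le_card_nsmul s _ m h

lemma dense_sigma' {α β : Type} (s : Finset α) (T : α → Finset β) (m : ℕ)
    (h : ∀ a ∈ s, (T a).card ≤ m) :
    (s.sigma (fun a => T a) : Finset (Σ _ : α, β)).card ≤ s.card * m := by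
  have := dense_sigma s T 1 m (by simpa using h)
  simpa using this

section
variable {V : Type} (c : Sym2 V → Sym2 V → Prop) (A : Finset (ℕ → V)) (j L' : ℕ)
  (cov : V → V → Prop) (ap : V → V → V)

/-- a covered walk starts with `v, x` and ends in `w` -/
def DRel (x v w : V) : Prop := ∃ p ∈ covered c A j L' cov ap, p 0 = v ∧ p 1 = x ∧ p j = w

variable [Fintype V] (G : SimpleGraph V) (S : V → V → Finset V) (t q μ0 : ℕ)

/-- the rich ends -/
noncomputable def DD (x v : V) : Finset V :=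
  univ.filter (fun w => t ≤ q * ((S x v).filter (fun v' => DRel c A j L' cov ap x v' w)).card)

noncomputable def DJ0 (x v : V) : Finset (V × V) :=
  univ.filter (fun p => p.1 ∈ DD c A j L' cov ap S t q x v ∧ G.Adj p.1 p.2 ∧
    ¬ c s(ap x v, ap x v) s(p.2, p.2) ∧ ¬ c s(ap x v, ap x v) s(p.1, p.2))

noncomputable def DE (x v : V) : Finset V :=
  univ.filter (fun u => μ0 ≤ ((DJ0 c A j L' cov ap G S t q x v).filter (fun p => p.2 = u)).card)

noncomputable def DJ (x v : V) : Finset (V × V) :=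
  (DJ0 c A j L' cov ap G S t q x v).filter (fun p => p.2 ∈ DE c A j L' cov ap G S t q μ0 x v)

/-- ends of walks of length `i` from `x` -/
noncomputable def DEnd (i : ℕ) (x : V) : Finset V :=
  ((walks G i).filter (fun y => y 0 = x)).image (fun y => y i)

end

section
variable {V : Type} {c : Sym2 V → Sym2 V → Prop} {A : Finset (ℕ → V)} {j L' F : ℕ}
  {cov : V → V → Prop} {ap : V → V → V}

lemma DRel.fine {x v w : V} (h : DRel c A j L' cov ap x v w) :
    cov x v ∧ Fine c A j L' (ap x v) v w := by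
  obtain ⟨p, hp, rfl, rfl, rfl⟩ := h
  exact (Finset.mem_filter.mp hp).2

variable [Fintype V] {G : SimpleGraph V} {S : V → V → Finset V} {t q μ0 Δ : ℕ}

lemma card_DEnd (hΔ : ∀ x, (nb G x).card ≤ Δ) (i : ℕ) (x : V) : (DEnd G i x).card ≤ Δ ^ i :=
  Finset.card_image_le.trans (card_walks_start hΔ i x)

lemma DRel.mem_end (hj : 2 ≤ j) (hA : Fam G c j F A) {x v w : V}
    (h : DRel c A j L' cov ap x v w) : w ∈ DEnd G (j - 1) x := by
  obtain ⟨p, hp, rfl, rfl, rfl⟩ := h
  have hw := hA.walk p (Finset.mem_filter.mp hp).1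
  refine Finset.mem_image.mpr ⟨win 1 (j - 1) p, Finset.mem_filter.mpr
    ⟨mem_walks.mpr (hw.win (by omega)), by simp [win]⟩, ?_⟩
  have : 1 + (j - 1) = j := by omega
  simp [win, this]

lemma card_DD (hj : 2 ≤ j) (ht : 0 < t) (hA : Fam G c j F A) (hΔ : ∀ x, (nb G x).card ≤ Δ)
    (x v : V) : (DD c A j L' cov ap S t q x v).card ≤ Δ ^ (j - 1) := by
  refine (Finset.card_le_card fun w hw => ?_).trans (card_DEnd hΔ (j - 1) x)
  have h1 := (Finset.mem_filter.mp hw).2
  have h2 : 0 < ((S x v).filter (fun v' => DRel c A j L' cov ap x v' w)).card :=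
    Nat.pos_of_mul_pos_left (lt_of_lt_of_le ht h1)
  obtain ⟨v', hv'⟩ := Finset.card_pos.mp h2
  exact (Finset.mem_filter.mp hv').2.mem_end hj hA

lemma dense_poor (ht : 0 < t) (hΔ : ∀ x, (nb G x).card ≤ Δ) (hg : Grouping G t cov S ap)
    (x w : V) : q * (univ.filter (fun v => DRel c A j L' cov ap x v w ∧
      w ∉ DD c A j L' cov ap S t q x v)).card ≤ Δ := by
  have h := dense_dc (univ.filter (fun v => DRel c A j L' cov ap x v w ∧
      w ∉ DD c A j L' cov ap S t q x v)) (nb G x) (fun v v' => v' ∈ S x v) t q t ?_ ?_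
  · rw [← mul_assoc] at h
    exact (Nat.le_of_mul_le_mul_right h ht).trans (hΔ x)
  · intro v hv
    have hc := (Finset.mem_filter.mp hv).2.1.fine.1
    refine (hg.card x v hc).symm.le.trans (Finset.card_le_card fun v' hv' => ?_)
    refine Finset.mem_filter.mpr ⟨?_, hv'⟩
    exact Finset.mem_filter.mpr ⟨Finset.mem_univ _, (hg.adj x v' (hg.same x v v' hc hv').1).1⟩
  · intro v' _
    rcases ((univ.filter (fun v => DRel c A j L' cov ap x v w ∧
      w ∉ DD c A j L' cov ap S t q x v)).filter (fun v => v' ∈ S x v)).eq_empty_or_nonempty with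
      h0 | ⟨v0, hv0⟩
    · rw [h0]; simp
    · obtain ⟨h1, h2⟩ := Finset.mem_filter.mp hv0
      obtain ⟨h3, h4⟩ := (Finset.mem_filter.mp h1).2
      have h5 : q * ((S x v0).filter (fun v' => DRel c A j L' cov ap x v' w)).card < t := by
        by_contra h
        exact h4 (Finset.mem_filter.mpr ⟨Finset.mem_univ _, not_lt.mp h⟩)
      refine le_trans (Nat.mul_le_mul_left _ (Finset.card_le_card fun v hv => ?_)) h5.le
      obtain ⟨h6, h7⟩ := Finset.mem_filter.mp hv
      have h8 := (Finset.mem_filter.mp h6).2.1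
      refine Finset.mem_filter.mpr ⟨?_, h8⟩
      rw [← (hg.same x v0 v' h3.fine.1 h2).2.1, (hg.same x v v' h8.fine.1 h7).2.1]
      exact hg.self x v h8.fine.1

lemma dense_card_poor (hj : 2 ≤ j) (ht : 0 < t) (hA : Fam G c j F A)
    (hΔ : ∀ x, (nb G x).card ≤ Δ) (hg : Grouping G t cov S ap) :
    q * ((covered c A j L' cov ap).filter
      (fun p => p j ∉ DD c A j L' cov ap S t q (p 1) (p 0))).card
      ≤ F * (Fintype.card V * Δ ^ j) := by
  set T : Finset (Σ _ : V, Σ _ : V, V) := univ.sigma (fun x => (DEnd G (j - 1) x).sigma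
    (fun w => univ.filter (fun v => DRel c A j L' cov ap x v w ∧
      w ∉ DD c A j L' cov ap S t q x v))) with hT
  have h1 : q * T.card ≤ Fintype.card V * Δ ^ j := by
    refine (dense_sigma _ _ q (Δ ^ j) fun x _ => ?_).trans (by simp)
    refine (dense_sigma _ _ q Δ fun w _ => dense_poor ht hΔ hg x w).trans ?_
    calc _ ≤ Δ ^ (j - 1) * Δ := Nat.mul_le_mul_right _ (card_DEnd hΔ _ _)
      _ = Δ ^ j := by rw [← pow_succ]; congr 1; omega
  have h2 : ((covered c A j L' cov ap).filter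
      (fun p => p j ∉ DD c A j L' cov ap S t q (p 1) (p 0))).card ≤ F * T.card := by
    refine Finset.card_le_mul_card_image_of_maps_to
      (f := fun p => (⟨p 1, ⟨p j, p 0⟩⟩ : Σ _ : V, Σ _ : V, V)) (fun p hp => ?_) F ?_
    · obtain ⟨hp1, hp2⟩ := Finset.mem_filter.mp hp
      have hr : DRel c A j L' cov ap (p 1) (p 0) (p j) := ⟨p, hp1, rfl, rfl, rfl⟩
      simp only [hT, Finset.mem_sigma, Finset.mem_univ, true_and, Finset.mem_filter]
      exact ⟨hr.mem_end hj hA, hr, hp2⟩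
    · rintro ⟨x, w, v⟩ _
      refine le_trans (Finset.card_le_card fun p hp => ?_) (hA.mult v w x 1 one_pos (by omega))
      obtain ⟨hp1, hp2⟩ := Finset.mem_filter.mp hp
      simp only [Sigma.mk.injEq, heq_eq_eq] at hp2
      exact Finset.mem_filter.mpr ⟨Finset.mem_filter.mpr
        ⟨(Finset.mem_filter.mp (Finset.mem_filter.mp hp1).1).1, hp2.2.2, hp2.2.1⟩, hp2.1⟩
  calc _ ≤ q * (F * T.card) := Nat.mul_le_mul_left _ h2
    _ = F * (q * T.card) := by ring
    _ ≤ _ := Nat.mul_le_mul_left _ h1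

lemma dense_mem_J0 (hj : 2 ≤ j) (hA : Fam G c j F A) {x v w : V} {p' : ℕ → V}
    (hw : w ∈ DD c A j L' cov ap S t q x v) (hp' : p' ∈ endsA c A j (ap x v) v w) :
    (w, p' (j - 1)) ∈ DJ0 c A j L' cov ap G S t q x v := by
  obtain ⟨h1, h2, _⟩ := Finset.mem_filter.mp hp'
  obtain ⟨h3, _, h5⟩ := Finset.mem_filter.mp h1
  have e : j - 1 + 1 = j := by omega
  have hadj := (hA.walk p' h3).adj (j - 1) (by omega)
  rw [e, h5] at hadj
  refine Finset.mem_filter.mpr ⟨Finset.mem_univ _, hw, hadj.symm, fun h => h2 ⟨_, ?_, h⟩,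
    fun h => h2 ⟨_, ?_, h⟩⟩
  · exact Finset.mem_union_left _ (Finset.mem_image.mpr
      ⟨j - 1, Finset.mem_Ioo.mpr ⟨by omega, by omega⟩, rfl⟩)
  · refine Finset.mem_union_right _ (Finset.mem_image.mpr
      ⟨j - 1, Finset.mem_range.mpr (by omega), ?_⟩)
    rw [e, h5, Sym2.eq_swap]

end

theorem exists_dense {V : Type} [Fintype V] [Nonempty V] {G : SimpleGraph V}
    {c : Sym2 V → Sym2 V → Prop} {A : Finset (ℕ → V)} {j F qε t L' μ0 μ1 Δ : ℕ}
    {cov : V → V → Prop} {S : V → V → Finset V} {ap : V → V → V} (hj : 2 ≤ j) (ht : 0 < t)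
    (hA : Fam G c j F A) (hΔ : ∀ x, (nb G x).card ≤ Δ) (hΔ1 : 1 ≤ Δ)
    (hg : Grouping G t cov S ap) (hL : 2 * qε * (μ0 * F + μ1 * F ^ 2) < L')
    (hbig : Fintype.card V * Δ ^ j ≤ qε * (covered c A j L' cov ap).card) :
    ∃ a S₀ J D E, Dense G c A j t (2 * qε * F) L' μ0 μ1 Δ a S₀ J D E := by
  set q := 2 * qε * F with hq
  by_contra hcon
  have hsmall : ∀ x v, cov x v →
      (DJ c A j L' cov ap G S t q μ0 x v).card ≤ μ1 * Δ ^ (j - 1) := by
    intro x v hc
    by_contra h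
    refine hcon ⟨ap x v, S x v, DJ c A j L' cov ap G S t q μ0 x v, DD c A j L' cov ap S t q x v,
      DE c A j L' cov ap G S t q μ0 x v, hg.card x v hc, fun v' hv' => ?_, fun p hp => ?_,
      fun p hp => ?_, fun w hw => ?_, card_DD hj ht hA hΔ x v, ?_, (not_le.mp h).le⟩
    · obtain ⟨h1, _, h3⟩ := hg.same x v v' hc hv'
      rw [← h3]
      exact (hg.adj x v' h1).2
    · obtain ⟨h1, h2⟩ := Finset.mem_filter.mp hp
      obtain ⟨h3, h4, _⟩ := (Finset.mem_filter.mp h1).2
      exact ⟨h3, h2, h4⟩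
    · exact (Finset.mem_filter.mp (Finset.mem_filter.mp hp).1).2.2.2
    · refine (Finset.mem_filter.mp hw).2.trans
        (Nat.mul_le_mul_left _ (Finset.card_le_card fun v' hv' => ?_))
      obtain ⟨h1, h2⟩ := Finset.mem_filter.mp hv'
      refine Finset.mem_filter.mpr ⟨h1, ?_⟩
      rw [← (hg.same x v v' hc h1).2.2]
      exact h2.fine.2
    · refine Finset.mul_card_image_le_card_of_maps_to (f := fun p : V × V => p.2)
        (s := DJ c A j L' cov ap G S t q μ0 x v) (t := DE c A j L' cov ap G S t q μ0 x v)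
        (fun p hp => (Finset.mem_filter.mp hp).2) μ0 fun u hu => ?_
      refine (Finset.mem_filter.mp hu).2.trans (Finset.card_le_card fun p hp => ?_)
      obtain ⟨h1, h2⟩ := Finset.mem_filter.mp hp
      exact Finset.mem_filter.mpr ⟨Finset.mem_filter.mpr ⟨h1, h2 ▸ hu⟩, h2⟩
  set N := Fintype.card V * Δ ^ j with hN
  have hNpos : 0 < N := Nat.mul_pos Fintype.card_pos (pow_pos hΔ1 j)
  have hpow : Δ ^ (j - 1) * Δ = Δ ^ j := by rw [← pow_succ]; congr 1; omega
  set Wr := (covered c A j L' cov ap).filter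
    (fun p => p j ∈ DD c A j L' cov ap S t q (p 1) (p 0)) with hWr
  have hF : 0 < F := by
    have h1 : 0 < (covered c A j L' cov ap).card := Nat.pos_of_mul_pos_left (hNpos.trans_le hbig)
    obtain ⟨p, hp⟩ := Finset.card_pos.mp h1
    refine lt_of_lt_of_le (Finset.card_pos.mpr ⟨p, ?_⟩)
      (hA.mult (p 0) (p j) (p 1) 1 one_pos (by omega))
    exact Finset.mem_filter.mpr ⟨Finset.mem_filter.mpr ⟨(Finset.mem_filter.mp hp).1, rfl, rfl⟩, rfl⟩
  have hrich : N ≤ 2 * qε * Wr.card := by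
    have h1 := dense_card_poor (L' := L') (q := q) hj ht hA hΔ hg
    have h2 := Finset.card_filter_add_card_filter_not (s := covered c A j L' cov ap)
      (fun p => p j ∈ DD c A j L' cov ap S t q (p 1) (p 0))
    rw [← hWr] at h2
    rw [← h2] at hbig
    generalize ((covered c A j L' cov ap).filter
      (fun p => p j ∉ DD c A j L' cov ap S t q (p 1) (p 0))).card = m at h1 hbig
    have h3 : 2 * qε * m ≤ N := by
      refine Nat.le_of_mul_le_mul_left ?_ hF
      calc F * (2 * qε * m) = q * m := by rw [hq]; ring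
        _ ≤ _ := h1
    nlinarith
  set P : Finset (Σ _ : ℕ → V, ℕ → V) :=
    Wr.sigma (fun p => endsA c A j (ap (p 1) (p 0)) (p 0) (p j)) with hP
  have hP0 : Wr.card * L' ≤ P.card := by
    rw [hP, Finset.card_sigma]
    simpa using Finset.card_nsmul_le_sum Wr _ L' fun p hp =>
      (Finset.mem_filter.mp (Finset.mem_filter.mp hp).1).2.2.many
  have hPm : ∀ z ∈ P, z.1 ∈ A ∧ cov (z.1 1) (z.1 0) ∧ z.2 ∈ A ∧ z.2 0 = z.1 0 ∧ z.2 j = z.1 j ∧
      (z.1 j, z.2 (j - 1)) ∈ DJ0 c A j L' cov ap G S t q (z.1 1) (z.1 0) := by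
    intro z hz
    obtain ⟨h1, h2⟩ := Finset.mem_sigma.mp hz
    obtain ⟨h3, h4⟩ := Finset.mem_filter.mp h1
    obtain ⟨h5, h6, _⟩ := Finset.mem_filter.mp h3
    obtain ⟨h7, h8, h9⟩ := Finset.mem_filter.mp (Finset.mem_filter.mp h2).1
    exact ⟨h5, h6, h7, h8, h9, dense_mem_J0 hj hA h4 h2⟩
  have hwin0 : ∀ y : ℕ → V, win 0 (j - 1) y 0 = y 0 := fun y => by simp [win]
  have hwin1 : ∀ y : ℕ → V, win 0 (j - 1) y (j - 1) = y (j - 1) := fun y => by simp [win]
  have hP1 : (P.filter (fun z =>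
      z.2 (j - 1) ∉ DE c A j L' cov ap G S t q μ0 (z.1 1) (z.1 0))).card ≤ F * (N * μ0) := by
    set T : Finset (Σ _ : ℕ → V, Σ _ : V, V × V) := (walks G (j - 1)).sigma
      (fun y => (nb G (y 0)).sigma (fun x => (DJ0 c A j L' cov ap G S t q x (y 0)).filter
        (fun p => p.2 = y (j - 1) ∧ y (j - 1) ∉ DE c A j L' cov ap G S t q μ0 x (y 0)))) with hT
    have h1 : T.card ≤ N * μ0 := by
      refine (dense_sigma' _ _ (Δ * μ0) fun y _ => ?_).trans ?_
      · refine (dense_sigma' _ _ μ0 fun x _ => ?_).trans (Nat.mul_le_mul_right _ (hΔ _))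
        by_cases h : y (j - 1) ∈ DE c A j L' cov ap G S t q μ0 x (y 0)
        · rw [Finset.filter_false_of_mem fun p _ hp => hp.2 h]
          simp
        · have h' : ((DJ0 c A j L' cov ap G S t q x (y 0)).filter
              (fun p => p.2 = y (j - 1))).card < μ0 := by
            by_contra h'
            exact h (Finset.mem_filter.mpr ⟨Finset.mem_univ _, not_lt.mp h'⟩)
          refine le_trans (Finset.card_le_card fun p hp => ?_) h'.le
          obtain ⟨h1, h2, _⟩ := Finset.mem_filter.mp hp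
          exact Finset.mem_filter.mpr ⟨h1, h2⟩
      · calc _ ≤ Fintype.card V * Δ ^ (j - 1) * (Δ * μ0) :=
              Nat.mul_le_mul_right _ (card_walks_le hΔ _)
          _ = N * μ0 := by rw [hN, ← hpow]; ring
    refine le_trans (Finset.card_le_mul_card_image_of_maps_to (t := T)
      (f := fun z => (⟨win 0 (j - 1) z.2, ⟨z.1 1, (z.1 j, z.2 (j - 1))⟩⟩ :
        Σ _ : ℕ → V, Σ _ : V, V × V)) (fun z hz => ?_) F ?_) (Nat.mul_le_mul_left _ h1)
    · obtain ⟨hz1, hz2⟩ := Finset.mem_filter.mp hz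
      obtain ⟨a1, a2, a3, a4, a5, a6⟩ := hPm z hz1
      simp only [hT, Finset.mem_sigma, Finset.mem_filter, hwin0, hwin1, a4, mem_walks, nb,
        Finset.mem_univ, true_and]
      exact ⟨(hA.walk _ a3).win (by omega), (hg.adj _ _ a2).1.symm, a6, hz2⟩
    · rintro ⟨y, x, w, u⟩ _
      refine le_trans (Finset.card_le_card_of_injOn (fun z => z.1) (fun z hz => ?_) ?_)
        (hA.mult (y 0) w x 1 one_pos (by omega))
      · obtain ⟨hz1, hz2⟩ := Finset.mem_filter.mp (Finset.mem_coe.mp hz)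
        obtain ⟨a1, a2, a3, a4, a5, a6⟩ := hPm z (Finset.mem_filter.mp hz1).1
        simp only [Sigma.mk.injEq, heq_eq_eq, Prod.mk.injEq] at hz2
        refine Finset.mem_coe.mpr (Finset.mem_filter.mpr
          ⟨Finset.mem_filter.mpr ⟨a1, ?_, hz2.2.2.1⟩, hz2.2.1⟩)
        rw [← hz2.1, hwin0, a4]
      · rintro ⟨p, p'⟩ hz ⟨r, r'⟩ hz' h
        obtain ⟨hz1, hz2⟩ := Finset.mem_filter.mp (Finset.mem_coe.mp hz)
        obtain ⟨a1, a2, a3, a4, a5, a6⟩ := hPm _ (Finset.mem_filter.mp hz1).1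
        obtain ⟨hz3, hz4⟩ := Finset.mem_filter.mp (Finset.mem_coe.mp hz')
        obtain ⟨b1, b2, b3, b4, b5, b6⟩ := hPm _ (Finset.mem_filter.mp hz3).1
        simp only [Sigma.mk.injEq, heq_eq_eq, Prod.mk.injEq] at hz2 hz4 h a3 b3 a5 b5 ⊢
        refine ⟨h, funext fun n => ?_⟩
        rcases le_or_gt j n with hn | hn
        · rw [(hA.walk _ a3).const n hn, (hA.walk _ b3).const n hn, a5, b5, h]
        · have := congrFun (hz2.1.trans hz4.1.symm) n
          have e : min n (j - 1) = n := by omega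
          simpa [win, e] using this
  have hP2 : (P.filter (fun z =>
      z.2 (j - 1) ∈ DE c A j L' cov ap G S t q μ0 (z.1 1) (z.1 0))).card
      ≤ F * F * (N * μ1) := by
    set T : Finset (Σ _ : V, Σ _ : V, V × V) := univ.sigma
      (fun v => ((nb G v).filter (fun x => cov x v)).sigma
        (fun x => DJ c A j L' cov ap G S t q μ0 x v)) with hT
    have h1 : T.card ≤ N * μ1 := by
      refine (dense_sigma' _ _ (Δ * (μ1 * Δ ^ (j - 1))) fun v _ => ?_).trans (le_of_eq ?_)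
      · refine (dense_sigma' _ _ _ fun x hx => hsmall x v (Finset.mem_filter.mp hx).2).trans
          (Nat.mul_le_mul_right _ ((Finset.card_filter_le _ _).trans (hΔ _)))
      · rw [hN, ← hpow, Finset.card_univ]; ring
    refine le_trans (Finset.card_le_mul_card_image_of_maps_to (t := T)
      (f := fun z => (⟨z.1 0, ⟨z.1 1, (z.1 j, z.2 (j - 1))⟩⟩ :
        Σ _ : V, Σ _ : V, V × V)) (fun z hz => ?_) (F * F) ?_) (Nat.mul_le_mul_left _ h1)
    · obtain ⟨hz1, hz2⟩ := Finset.mem_filter.mp hz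
      obtain ⟨a1, a2, a3, a4, a5, a6⟩ := hPm z hz1
      refine Finset.mem_sigma.mpr ⟨Finset.mem_univ _, Finset.mem_sigma.mpr
        ⟨Finset.mem_filter.mpr ⟨Finset.mem_filter.mpr ⟨Finset.mem_univ _, (hg.adj _ _ a2).1.symm⟩,
          a2⟩, Finset.mem_filter.mpr ⟨a6, hz2⟩⟩⟩
    · rintro ⟨v, x, w, u⟩ _
      refine le_trans (Finset.card_le_card_of_injOn
        (t := ((ends A j v w).filter (fun p => p 1 = x)) ×ˢ
          ((ends A j v w).filter (fun p => p (j - 1) = u)))
        (fun z => (z.1, z.2)) (fun z hz => ?_) ?_) ?_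
      · obtain ⟨hz1, hz2⟩ := Finset.mem_filter.mp (Finset.mem_coe.mp hz)
        obtain ⟨a1, a2, a3, a4, a5, a6⟩ := hPm z (Finset.mem_filter.mp hz1).1
        simp only [Sigma.mk.injEq, heq_eq_eq, Prod.mk.injEq] at hz2
        refine Finset.mem_coe.mpr (Finset.mem_product.mpr ⟨Finset.mem_filter.mpr
          ⟨Finset.mem_filter.mpr ⟨a1, hz2.1, hz2.2.2.1⟩, hz2.2.1⟩, Finset.mem_filter.mpr
          ⟨Finset.mem_filter.mpr ⟨a3, a4.trans hz2.1, a5.trans hz2.2.2.1⟩, hz2.2.2.2⟩⟩)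
      · rintro ⟨p, p'⟩ _ ⟨r, r'⟩ _ h
        simpa using h
      · rw [Finset.card_product]
        exact Nat.mul_le_mul (hA.mult v w x 1 one_pos (by omega))
          (hA.mult v w u (j - 1) (by omega) (by omega))
  have hsplit := Finset.card_filter_add_card_filter_not (s := P)
    (fun z => z.2 (j - 1) ∈ DE c A j L' cov ap G S t q μ0 (z.1 1) (z.1 0))
  have hWpos : 0 < Wr.card := Nat.pos_of_mul_pos_left (hNpos.trans_le hrich)
  have h1 : Wr.card * L' ≤ N * (μ0 * F + μ1 * F ^ 2) := by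
    calc Wr.card * L' ≤ F * F * (N * μ1) + F * (N * μ0) := by omega
      _ = _ := by ring
  have h2 : N * (μ0 * F + μ1 * F ^ 2) ≤ Wr.card * (2 * qε * (μ0 * F + μ1 * F ^ 2)) := by
    calc _ ≤ 2 * qε * Wr.card * (μ0 * F + μ1 * F ^ 2) := Nat.mul_le_mul_right _ hrich
      _ = _ := by ring
  exact absurd (Nat.le_of_mul_le_mul_left (h1.trans h2) hWpos) (not_le.mpr hL)

end Pool.Agent.Lib.MP_9bef39_co
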