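import Pool.Agent.Lib.MP_9bef39_co.Dense

open Finset
open scoped Classical

namespace Pool.Agent.Lib.MP_9bef39_co

lemma extract_card_mem {V : Type} [Fintype V] (z : Sym2 V) :
    (univ.filter (fun v => v ∈ z)).card ≤ 2 := by
  induction z using Sym2.ind with
  | h a b =>
    refine le_trans (Finset.card_le_card (t := {a, b}) fun v hv => ?_) Finset.card_le_two
    simpa using (Finset.mem_filter.mp hv).2

lemma extract_mem_of_st {V : Type} {a v : V} {z : Sym2 V} (h : z ∈ st a v) : v ∈ z := by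
  rcases Finset.mem_insert.mp h with rfl | h
  · exact Sym2.mem_mk_left _ _
  · rw [Finset.mem_singleton.mp h]
    exact Sym2.mem_mk_right _ _

lemma extract_card_st {V : Type} [Fintype V] (a : V) (Z : Finset (Sym2 V)) (T : Finset V)
    (h : ∀ v ∈ T, ∃ z ∈ st a v, z ∈ Z) : T.card ≤ 2 * Z.card := by
  refine le_trans (Finset.card_le_card (t := Z.biUnion (fun z => univ.filter (fun v => v ∈ z)))
    fun v hv => ?_) ?_
  · obtain ⟨z, h1, h2⟩ := h v hv
    exact Finset.mem_biUnion.mpr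
      ⟨z, h2, Finset.mem_filter.mpr ⟨Finset.mem_univ _, extract_mem_of_st h1⟩⟩
  · rw [mul_comm]
    exact Finset.card_biUnion_le_card_mul _ _ _ fun z _ => extract_card_mem z

lemma extract_card_tri {V : Type} [Fintype V] {G : SimpleGraph V} {Δ : ℕ}
    (hΔ : ∀ x, (nb G x).card ≤ Δ) (Z : Finset (Sym2 V)) (T : Finset (V × V))
    (h : ∀ p ∈ T, G.Adj p.1 p.2 ∧ ∃ z ∈ tri p, z ∈ Z) : T.card ≤ 4 * Δ * Z.card := by
  have key : ∀ v : V, (((nb G v).image (fun u => (v, u))) ∪ ((nb G v).image (fun u => (u, v)))).card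
      ≤ 2 * Δ := fun v => by
    have h1 := (Finset.card_image_le (s := nb G v) (f := fun u => (v, u))).trans (hΔ v)
    have h2 := (Finset.card_image_le (s := nb G v) (f := fun u => (u, v))).trans (hΔ v)
    have h3 := Finset.card_union_le ((nb G v).image (fun u => (v, u)))
      ((nb G v).image (fun u => (u, v)))
    omega
  refine le_trans (Finset.card_le_card (t := Z.biUnion (fun z =>
    (univ.filter (fun v => v ∈ z)).biUnion (fun v =>
      ((nb G v).image (fun u => (v, u))) ∪ ((nb G v).image (fun u => (u, v)))))) fun p hp => ?_) ?_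
  · obtain ⟨h0, z, h1, h2⟩ := h p hp
    have h3 : p.1 ∈ z ∨ p.2 ∈ z := by
      simp only [tri, Finset.mem_insert, Finset.mem_singleton] at h1
      rcases h1 with rfl | rfl | rfl
      · exact Or.inl (Sym2.mem_mk_left _ _)
      · exact Or.inr (Sym2.mem_mk_left _ _)
      · exact Or.inl (Sym2.mem_mk_left _ _)
    refine Finset.mem_biUnion.mpr ⟨z, h2, Finset.mem_biUnion.mpr ?_⟩
    rcases h3 with h3 | h3
    · exact ⟨p.1, Finset.mem_filter.mpr ⟨Finset.mem_univ _, h3⟩, Finset.mem_union_left _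
        (Finset.mem_image.mpr ⟨p.2, Finset.mem_filter.mpr ⟨Finset.mem_univ _, h0⟩, rfl⟩)⟩
    · exact ⟨p.2, Finset.mem_filter.mpr ⟨Finset.mem_univ _, h3⟩, Finset.mem_union_right _
        (Finset.mem_image.mpr ⟨p.1, Finset.mem_filter.mpr ⟨Finset.mem_univ _, h0.symm⟩, rfl⟩)⟩
  · rw [mul_comm]
    refine Finset.card_biUnion_le_card_mul _ _ _ fun z _ => ?_
    refine (Finset.card_biUnion_le_card_mul _ _ _ fun v _ => key v).trans ?_
    have := Nat.mul_le_mul_right (2 * Δ) (extract_card_mem z)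
    omega

lemma extract_card_tri_le {V : Type} (p : V × V) : (tri p).card ≤ 3 := Finset.card_le_three

/-- removing the elements related to one of three unpopular elements leaves many candidates -/
lemma extract_cand {α β : Type} (r : α → β → Prop) (S R : Finset β) (Y : Finset α) (qγ L : ℕ)
    (hRS : R ⊆ S) (hY : Y.card ≤ 3) (hR : S.card ≤ qγ * R.card) (hL : 2 * qγ * L < S.card)
    (hun : ∀ z ∈ Y, ¬ Popular r (6 * qγ) S z) :
    L ≤ (R.filter (fun v => ∀ z ∈ Y, ¬ r z v)).card := by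
  have h1 : R ⊆ R.filter (fun v => ∀ z ∈ Y, ¬ r z v)
      ∪ Y.biUnion (fun z => S.filter (fun v => r z v)) := by
    intro v hv
    by_cases h : ∀ z ∈ Y, ¬ r z v
    · exact Finset.mem_union_left _ (Finset.mem_filter.mpr ⟨hv, h⟩)
    · push Not at h
      obtain ⟨z, hz, h⟩ := h
      exact Finset.mem_union_right _
        (Finset.mem_biUnion.mpr ⟨z, hz, Finset.mem_filter.mpr ⟨hRS hv, h⟩⟩)
  have h2 := (Finset.card_le_card h1).trans (Finset.card_union_le _ _)
  have h3 : 6 * qγ * (Y.biUnion (fun z => S.filter (fun v => r z v))).card ≤ 3 * S.card := by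
    calc _ ≤ 6 * qγ * ∑ z ∈ Y, (S.filter (fun v => r z v)).card :=
          Nat.mul_le_mul_left _ Finset.card_biUnion_le
      _ = ∑ z ∈ Y, 6 * qγ * (S.filter (fun v => r z v)).card := Finset.mul_sum _ _ _
      _ ≤ Y.card * S.card := by
          simpa using Finset.sum_le_card_nsmul Y _ S.card fun z hz => (not_le.mp (hun z hz)).le
      _ ≤ _ := Nat.mul_le_mul_right _ hY
  generalize (R.filter (fun v => ∀ z ∈ Y, ¬ r z v)).card = m at h2 ⊢
  generalize (Y.biUnion (fun z => S.filter (fun v => r z v))).card = b at h2 h3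
  have h4 := Nat.mul_le_mul_left (6 * qγ) h2
  have h5 : 6 * qγ * L < 6 * qγ * m := by nlinarith
  exact (Nat.lt_of_mul_lt_mul_left h5).le

theorem base_of_dense (s j F qγ q μ N : ℕ) (hj : 2 ≤ j) : ∃ t μ0 μ1 L0 : ℕ, 0 < t ∧
    ∀ (V ι : Type) [Fintype V] [Fintype ι] (G : SimpleGraph V) (c : Sym2 V → Sym2 V → Prop)
      (A : Finset (ℕ → V)) (L' Δ : ℕ) (a : V) (S : Finset V) (J : Finset (V × V))
      (D E : Finset V), Conf s c → Fam G c j F A → (∀ x, (nb G x).card ≤ Δ) → 1 ≤ Δ →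
      Fintype.card ι ≤ N → L0 ≤ L' → Dense G c A j t qγ L' μ0 μ1 Δ a S J D E →
      ∃ (v : ι → V) (J' : Finset (V × V)), Base G c A j q μ L' a v J' D E := by
  obtain ⟨M1, L0, hpop⟩ := pop_hit s j F q hj
  obtain ⟨s1, hs1⟩ := free_st2 s
  obtain ⟨s', hs'⟩ := free_or s1 (2 * M1 + 1)
  obtain ⟨Ls, hsel⟩ := sel s' N
  obtain ⟨s2, hs2⟩ := free_st s
  obtain ⟨M2, L2, hpop2⟩ := pop s2 (6 * qγ)
  set t := L2 + 2 * qγ * Ls + 1 with ht
  have htpos : 0 < t := Nat.succ_pos _
  set K := 8 * (μ * t ^ N) + 8 * M2 + 1 with hK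
  refine ⟨t, K, K, L0, htpos, ?_⟩
  intro V ι _ _ G c A L' Δ a S J D E hc hA hΔ hΔ1 hι hL hD
  set T : V → V → Finset V := fun w v1 => univ.filter (fun v2 => L0 ≤ (endsA c A j a v1 w).card ∧
    ∃ z ∈ st a v2, Popular (Hit c j) q (endsA c A j a v1 w) z) with hT
  have hTc : ∀ w v1, (T w v1).card ≤ 2 * M1 := by
    intro w v1
    by_cases h : L0 ≤ (endsA c A j a v1 w).card
    · have h1 := hpop G c A hc hA v1 w (endsA c A j a v1 w) (Finset.filter_subset _ _) h
        (univ.filter (fun z => Popular (Hit c j) q (endsA c A j a v1 w) z))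
        (fun z hz => (Finset.mem_filter.mp hz).2)
      refine (extract_card_st a _ _ fun v hv => ?_).trans (Nat.mul_le_mul_left 2 h1)
      obtain ⟨z, h2, h3⟩ := (Finset.mem_filter.mp hv).2.2
      exact ⟨z, h2, Finset.mem_filter.mpr ⟨Finset.mem_univ _, h3⟩⟩
    · simp only [hT]
      rw [Finset.filter_false_of_mem fun v _ hv => h hv.1]
      simp
  set r : Sym2 V → V → Prop := fun z v => ∃ z' ∈ st a v, c z z' with hr
  set Z : Finset (Sym2 V) := univ.filter (fun z => Popular r (6 * qγ) S z) with hZ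
  have hZc : Z.card ≤ M2 := hpop2 r (hs2 c a hc.free) S (by rw [hD.cardS]; omega) Z
    fun z hz => (Finset.mem_filter.mp hz).2
  set J1 := J.filter (fun p => ∀ z ∈ tri p, z ∉ Z) with hJ1
  have hpow : 1 ≤ Δ ^ (j - 1) := Nat.one_le_pow _ _ hΔ1
  have hJ := hD.cardJ
  have hhalf : J.card ≤ 2 * J1.card := by
    have h1 := Finset.card_filter_add_card_filter_not (s := J) (fun p => ∀ z ∈ tri p, z ∉ Z)
    have h2 := extract_card_tri hΔ Z (J.filter (fun p => ¬ ∀ z ∈ tri p, z ∉ Z)) fun p hp => by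
      obtain ⟨h3, h4⟩ := Finset.mem_filter.mp hp
      push Not at h4
      exact ⟨(hD.memJ p h3).2.2, h4⟩
    rw [← hJ1] at h1
    have h3 : Δ ≤ Δ ^ (j - 1) := Nat.le_self_pow (by omega) Δ
    have h4 : 4 * Δ * Z.card ≤ 4 * Δ ^ (j - 1) * M2 :=
      Nat.mul_le_mul (Nat.mul_le_mul_left 4 h3) hZc
    have h5 : 8 * M2 * Δ ^ (j - 1) ≤ K * Δ ^ (j - 1) := Nat.mul_le_mul_right _ (by omega)
    nlinarith
  have hex : ∀ p ∈ J1, ∃ f : ι → V, (∀ m, f m ∈ S ∧ Fine c A j L' a (f m) p.1 ∧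
      ∀ z ∈ tri p, ¬ r z (f m)) ∧ ∀ m m', m ≠ m' →
      ¬ ((∃ z ∈ st a (f m), ∃ z' ∈ st a (f m'), c z z') ∨ f m' ∈ T p.1 (f m)) := by
    intro p hp
    obtain ⟨hp1, hp2⟩ := Finset.mem_filter.mp hp
    have h1 := extract_cand r S (S.filter (fun v => Fine c A j L' a v p.1)) (tri p) qγ Ls
      (Finset.filter_subset _ _) (extract_card_tri_le p)
      (by rw [hD.cardS]; exact hD.rich p.1 (hD.memJ p hp1).1) (by rw [hD.cardS]; omega)
      (fun z hz h => hp2 z hz (Finset.mem_filter.mpr ⟨Finset.mem_univ _, h⟩))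
    obtain ⟨f, hf1, hf2⟩ := hsel (ι := ι) (fun _ => (S.filter (fun v => Fine c A j L' a v p.1)).filter
        (fun v => ∀ z ∈ tri p, ¬ r z v))
      (fun _ v1 _ v2 => (∃ z ∈ st a v1, ∃ z' ∈ st a v2, c z z') ∨ v2 ∈ T p.1 v1) hι
      (fun _ => h1.trans (Finset.card_le_card fun v hv => by
        simp only [Finset.mem_filter] at hv ⊢
        exact hv))
      (fun _ _ _ => hs' _ _ (hs1 c a a hc.free) (free_mem (T p.1) (hTc p.1)).swap)
    refine ⟨f, fun m => ?_, hf2⟩
    obtain ⟨h2, h3⟩ := Finset.mem_filter.mp (hf1 m)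
    obtain ⟨h4, h5⟩ := Finset.mem_filter.mp h2
    exact ⟨h4, h5, h3⟩
  have : Nonempty (ι → V) := ⟨fun _ => a⟩
  choose! g hg1 hg2 using hex
  have hcount : (Fintype.piFinset (fun _ : ι => S)).card * (μ * (D.card + E.card)) < J1.card := by
    have h1 : (Fintype.piFinset (fun _ : ι => S)).card ≤ t ^ N := by
      rw [Fintype.card_piFinset, Finset.prod_const, hD.cardS, Finset.card_univ]
      exact Nat.pow_le_pow_right htpos hι
    have h2 := hD.cardE
    have h3 : K * D.card ≤ J.card := (Nat.mul_le_mul_left K hD.cardD).trans hJ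
    have h4 : 1 ≤ J.card := le_trans (Nat.mul_le_mul (by omega : 1 ≤ K) hpow) hJ
    have h5 : 8 * (μ * t ^ N) * (D.card + E.card) ≤ K * (D.card + E.card) :=
      Nat.mul_le_mul_right _ (by omega)
    have h6 := Nat.mul_le_mul_right (μ * (D.card + E.card)) h1
    generalize (Fintype.piFinset (fun _ : ι => S)).card * (μ * (D.card + E.card)) = X at h6 ⊢
    have h7 : 8 * (t ^ N * (μ * (D.card + E.card))) ≤ 4 * J1.card := by nlinarith
    omega
  obtain ⟨v, _, hv⟩ := Finset.exists_lt_card_fiber_of_mul_lt_card_of_maps_to (f := g)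
    (fun p hp => Fintype.mem_piFinset.mpr fun m => (hg1 p hp m).1) hcount
  have hmem : ∀ p ∈ J1.filter (fun p => g p = v), p ∈ J ∧ p ∈ J1 ∧ g p = v := fun p hp =>
    ⟨(Finset.mem_filter.mp (Finset.mem_filter.mp hp).1).1, Finset.mem_filter.mp hp⟩
  obtain ⟨p0, hp0⟩ := Finset.card_pos.mp (lt_of_le_of_lt (Nat.zero_le _) hv)
  obtain ⟨_, a2, a3⟩ := hmem p0 hp0
  refine ⟨v, J1.filter (fun p => g p = v), fun m => ?_, fun m m' hm z hz z' hz' h => ?_,
    fun p hp => hD.memJ p (hmem p hp).1, hv, fun p hp z hz => ?_,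
    fun p hp z hz m z' hz' h => ?_, fun p hp m => ?_, fun p hp m m' hm z hz h => ?_⟩
  · exact hD.adjS _ (a3 ▸ (hg1 p0 a2 m).1)
  · exact hg2 p0 a2 m m' hm (Or.inl (a3 ▸ ⟨z, hz, z', hz', h⟩))
  · have b1 := (hmem p hp).1
    simp only [tri, Finset.mem_insert, Finset.mem_singleton] at hz
    rcases hz with rfl | rfl | rfl
    · have h1 := hD.rich p.1 (hD.memJ p b1).1
      obtain ⟨v', hv'⟩ := Finset.card_pos.mp (Nat.pos_of_mul_pos_left (htpos.trans_le h1))
      exact (Finset.mem_filter.mp hv').2.n1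
    · exact (hD.apex p b1).1
    · exact (hD.apex p b1).2
  · obtain ⟨_, b2, b3⟩ := hmem p hp
    exact (hg1 p b2 m).2.2 z hz ⟨z', b3 ▸ hz', hc.symm _ _ h⟩
  · obtain ⟨_, b2, b3⟩ := hmem p hp
    exact b3 ▸ (hg1 p b2 m).2.1.many
  · obtain ⟨_, b2, b3⟩ := hmem p hp
    refine hg2 p b2 m m' hm.symm (Or.inr ?_)
    rw [b3]
    exact Finset.mem_filter.mpr ⟨Finset.mem_univ _,
      hL.trans (b3 ▸ (hg1 p b2 m).2.1.many), z, hz, h⟩

end Pool.Agent.Lib.MP_9bef39_co
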