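import Pool.Agent.Lib.MP_9bef39_co.Step
import Pool.Agent.Lib.MP_9bef39_co.BGL

open Finset
open scoped Classical

namespace Pool.Agent.Lib.MP_9bef39_co

theorem exists_family (q : ℕ) : ∀ p : ℕ, p < q → ∃ u e r : ℕ, 0 < u ∧ u ≤ e ∧
    (e - u) * q = p * e ∧ ∀ P, 1 ≤ P →
      ∃ (B : BG) (β : B.W → Option (Fin P)) (γ : B.E → Option (Fin P)),
        Pow B P r u e β γ ∧ Rob B.graph ((p : ℝ) / q) := by
  induction q using Nat.strong_induction_on with
  | _ q ih =>
  intro p hpq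
  rcases Nat.eq_zero_or_pos p with rfl | hp
  · refine ⟨1, 1, 1, one_pos, le_rfl, by simp, fun P hP => ?_⟩
    simpa using exists_star P hP
  -- `k + 1 = ⌈q / p⌉`, `p' = (k + 1) p - q`
  obtain ⟨k, p', hk, hp', hkq⟩ : ∃ k p' : ℕ, 1 ≤ k ∧ p' < p ∧ (k + 1) * p = q + p' := by
    have h1 := Nat.div_add_mod (q - 1) p
    have h2 := Nat.mod_lt (q - 1) hp
    refine ⟨(q - 1) / p, p - 1 - (q - 1) % p, ?_, by omega, ?_⟩
    · exact (Nat.le_div_iff_mul_le hp).mpr (by omega)
    · have : ((q - 1) / p + 1) * p = p * ((q - 1) / p) + p := by ring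
      omega
  obtain ⟨u, e, r, hu, hue, hrel, hfam⟩ := ih p hpq p' hp'
  refine ⟨u + (k - 1) * e, k * e + u, (k + 1) * r + 2, by omega, ?_, ?_, fun P hP => ?_⟩
  · have : (k - 1) * e ≤ k * e := Nat.mul_le_mul_right _ (Nat.sub_le _ _)
    omega
  · obtain ⟨k, rfl⟩ : ∃ k', k = k' + 1 := ⟨k - 1, by omega⟩
    obtain ⟨d, rfl⟩ : ∃ d, e = u + d := ⟨e - u, by omega⟩
    have h1 : (k + 1) * (u + d) + u - (u + (k + 1 - 1) * (u + d)) = u + d := by
      have : (k + 1) * (u + d) = k * (u + d) + (u + d) := by ring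
      simp only [Nat.add_sub_cancel]
      omega
    rw [h1]
    simp only [Nat.add_sub_cancel_left] at hrel
    have h2 : (u + d) * q + (u + d) * p' = (u + d) * ((k + 1 + 1) * p) := by
      rw [hkq]; ring
    nlinarith
  · obtain ⟨B, β, γ, hPow, hRob⟩ := hfam P hP
    obtain ⟨B', hB1, hB2⟩ := exists_L B k hk
    obtain ⟨β', γ', hPow'⟩ := hB2 P r u e β γ hPow
    refine ⟨B', β', γ', hPow', hB1 _ ?_⟩
    have hp0 : (0 : ℝ) < p := by exact_mod_cast hp
    have hlt : (p' : ℝ) / p < 1 := by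
      rw [div_lt_one hp0]; exact_mod_cast hp'
    have h := rob_L B k hk (by positivity) hlt hRob
    have hq : (q : ℝ) = (k + 1) * p - p' := by
      have : ((k + 1) * p : ℝ) = q + p' := by exact_mod_cast hkq
      linarith
    have hq0 : (0 : ℝ) < q := by exact_mod_cast (by omega : 0 < q)
    have heq : (p : ℝ) / q = 1 / ((k : ℝ) + 1 - (p' : ℝ) / p) := by
      have : (k : ℝ) + 1 - (p' : ℝ) / p = q / p := by
        rw [hq]; field_simp
      rw [this, one_div_div]
    rw [heq]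
    exact h

end Pool.Agent.Lib.MP_9bef39_co
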