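import Pool.Agent.Lib.MP_9bef39_co.LowerAX

open Finset Filter
open scoped Classical

namespace Pool.Agent.Lib.MP_9bef39_co

/-- The algebraic closure of the field with two elements. -/
abbrev kk : Type := AlgebraicClosure (ZMod 2)

/-- Evaluation of the polynomial with coefficients `co`, all exponents below `M`. -/
noncomputable def ev {K δ : Type} [CommRing K] [Fintype δ] {M : ℕ} (co : (δ → Fin M) → K) (z : δ → K) : K :=
  ∑ mon : δ → Fin M, co mon * ∏ l, z l ^ (mon l : ℕ)

/-- Incidence: the last `u` coordinates of `y` are polynomials in `x` and the first `a`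
coordinates of `y`. -/
def Inc {K : Type} [CommRing K] {a u M : ℕ}
    (co : Fin u → (((Fin a ⊕ Fin u) ⊕ Fin a) → Fin M) → K) (x y : Fin a ⊕ Fin u → K) : Prop :=
  ∀ i, y (Sum.inr i) = ev (co i) (Sum.elim x (fun l => y (Sum.inl l)))

/-- Many blocks, each of which raises the transcendence degree. -/
theorem exists_blocks {R k K D : Type} [Field R] [Countable R] [Field K] [Algebra R K] [Fintype D]
    (g : (ℕ → k) → K) (hg : Function.Surjective g)
    (hg' : ∀ f f', g f = g f' → ∀ᶠ n in hyperfilter ℕ, f n = f' n)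
    (b : ∀ n, Fin (n + 1) → D → k) (side : ∀ n, Fin (n + 1) → Bool)
    (hb : ∀ n, Function.Injective fun i => (side n i, b n i)) {S : Finset K}
    (hS : (AlgebraicIndependent.matroid R K).Indep S) (m : ℕ) :
    ∃ (σ : Fin m → ∀ n, Fin (n + 1)) (T : Finset K), (AlgebraicIndependent.matroid R K).Indep T ∧
      T.card = S.card + m ∧ (∀ i j, i ≠ j → ∀ᶠ n in hyperfilter ℕ, σ i n ≠ σ j n) ∧
      ∀ t ∈ T, t ∈ S ∨ ∃ i l, t = g fun n => b n (σ i n) l := by
  induction m with
  | zero => exact ⟨Fin.elim0, S, hS, rfl, fun i => i.elim0, fun t ht => Or.inl ht⟩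
  | succ m ih =>
    obtain ⟨σ, T, h1, h2, h3, h4⟩ := ih
    obtain ⟨τ, h5, l, h6⟩ := select g hg hg' b side hb (cl_countable (R := R) T.finite_toSet) σ
    have h7 : (g fun n => b n (τ n) l) ∉ T := fun h =>
      h6 (Matroid.subset_closure _ _ (Set.subset_univ _) h)
    refine ⟨Fin.cons τ σ, insert (g fun n => b n (τ n) l) T, ?_, ?_, fun i j hij => ?_,
      fun t ht => ?_⟩
    · rw [coe_insert]
      exact (h1.insert_indep_iff_of_notMem h7).2 ⟨trivial, h6⟩
    · rw [card_insert_of_notMem h7, h2, add_assoc]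
    · induction i using Fin.cases with
      | zero =>
        induction j using Fin.cases with
        | zero => exact absurd rfl hij
        | succ j => exact h5 j
      | succ i =>
        induction j using Fin.cases with
        | zero => exact (h5 i).mono fun n hn => hn.symm
        | succ j => exact h3 i j fun h => hij (congrArg _ h)
    · rcases mem_insert.1 ht with rfl | ht
      · exact Or.inr ⟨0, l, rfl⟩
      · exact (h4 t ht).imp_right fun ⟨i, l, h⟩ => ⟨i.succ, l, h⟩

/-- For suitable coefficients no `r` roots carry `P` disjoint blocks of `u` points and `a + u`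
incidences each. -/
theorem algA (a u r : ℕ) (hu : 0 < u) : ∃ (P M : ℕ)
    (co : Fin u → (((Fin a ⊕ Fin u) ⊕ Fin a) → Fin M) → kk), 1 ≤ P ∧
    ∀ (ρ : Fin r → Fin a ⊕ Fin u → kk) (b : Fin P → Fin u → Fin a ⊕ Fin u → kk)
      (side : Fin P → Bool) (x y : Fin P → Fin (a + u) → Fin a ⊕ Fin u → kk),
      Function.Injective (fun i => (side i, b i ⟨0, hu⟩)) →
      (∀ i l, x i l ∈ Set.range ρ ∪ Set.range (b i)) →
      (∀ i l, y i l ∈ Set.range ρ ∪ Set.range (b i)) →
      Function.Injective (fun p : Fin P × Fin (a + u) => (x p.1 p.2, y p.1 p.2)) →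
      (∀ i l, Inc co (x i l) (y i l)) → False := by
  by_contra hcon
  set N := r * (a + u) + u + 1 with hN
  set M := N * (a + u) with hM
  obtain ⟨co, hco⟩ := exists_generic (ZMod 2) kk (Fin u × (((Fin a ⊕ Fin u) ⊕ Fin a) → Fin M))
  push Not at hcon
  choose ρ b side x y h1 h2 h3 h4 h5 using
    fun n : ℕ => hcon (n + 1) M (fun i mon => co n (i, mon)) (by omega)
  obtain ⟨K, _, _, g, hg, hg'⟩ := exists_ultra (ZMod 2) kk
  have hind : AlgebraicIndependent (ZMod 2) fun p => g fun n => co n p := by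
    rw [algebraicIndependent_iff]
    intro f hf
    by_contra hne
    have e1 : MvPolynomial.aeval (fun p => g fun n => co n p) f =
        g fun n => MvPolynomial.aeval (co n) f := by
      rw [← MvPolynomial.comp_aeval_apply]
      congr 1
      funext n
      exact MvPolynomial.comp_aeval_apply (fun p n => co n p) (Pi.evalAlgHom (ZMod 2) _ n) f
    rw [e1, ← map_zero g, hg'] at hf
    obtain ⟨n, e2, e3⟩ := (hf.and ((hco f hne).filter_mono Nat.hyperfilter_le_atTop)).exists
    exact e3 e2
  obtain ⟨σ, T, t1, t2, t3, t4⟩ := exists_blocks (R := ZMod 2) g hg (fun f f' => (hg' f f').1)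
    (fun n i => b n i ⟨0, hu⟩) side h1 (S := univ.image fun p => g fun n => co n p)
    (by rw [coe_image, coe_univ, Set.image_univ]; exact hind.to_subtype_range) N
  rw [card_image_of_injective _ hind.injective, card_univ, Fintype.card_prod,
    Fintype.card_fin] at t2
  let G0 : Finset K := (univ.image fun p : Fin r × (Fin a ⊕ Fin u) => g fun n => ρ n p.1 p.2) ∪
    univ.image fun p : Fin N × Fin u × (Fin a ⊕ Fin u) => g fun n => b n (σ p.1 n) p.2.1 p.2.2
  have hG0 : G0.card ≤ r * (a + u) + u * M := by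
    refine (card_union_le _ _).trans (add_le_add (card_image_le.trans ?_) (card_image_le.trans ?_))
    · simp
    · simp only [card_univ, Fintype.card_prod, Fintype.card_fin, Fintype.card_sum, hM]
      exact le_of_eq (by ring)
  have hmem : ∀ (j : Fin N) (w : ℕ → Fin a ⊕ Fin u → kk),
      (∀ n, w n ∈ Set.range (ρ n) ∪ Set.range (b n (σ j n))) → ∀ l,
        (g fun n => w n l) ∈ clF (ZMod 2) (G0 : Set K) := by
    intro j w hw l
    refine Matroid.subset_closure _ _ (Set.subset_univ _) (mem_coe.2 ?_)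
    rcases Ultrafilter.eventually_or.1 (Eventually.of_forall (f := hyperfilter ℕ) hw) with h | h
    · obtain ⟨i, hi⟩ := Ultrafilter.eventually_exists_iff.1 h
      exact mem_union_left _ (mem_image.2 ⟨(i, l), mem_univ _,
        (hg' _ _).2 (hi.mono fun n hn => congrFun hn l)⟩)
    · obtain ⟨i, hi⟩ := Ultrafilter.eventually_exists_iff.1 h
      exact mem_union_right _ (mem_image.2 ⟨(j, i, l), mem_univ _,
        (hg' _ _).2 (hi.mono fun n hn => congrFun hn l)⟩)
  let X : Fin N × Fin (a + u) → Fin a ⊕ Fin u → clF (ZMod 2) (G0 : Set K) := fun p l =>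
    ⟨g fun n => x n (σ p.1 n) p.2 l, hmem p.1 _ (fun n => h2 n _ _) l⟩
  let Y : Fin N × Fin (a + u) → Fin a ⊕ Fin u → clF (ZMod 2) (G0 : Set K) := fun p l =>
    ⟨g fun n => y n (σ p.1 n) p.2 l, hmem p.1 _ (fun n => h3 n _ _) l⟩
  have hz : Function.Injective fun p => Sum.elim (X p) fun l => Y p (Sum.inl l) := by
    intro p q hpq
    have e1 : ∀ᶠ n in hyperfilter ℕ, ∀ l, x n (σ p.1 n) p.2 l = x n (σ q.1 n) q.2 l :=
      eventually_all.2 fun l => (hg' _ _).1 (congrArg Subtype.val (congrFun hpq (Sum.inl l)))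
    have e2 : ∀ᶠ n in hyperfilter ℕ,
        ∀ l, y n (σ p.1 n) p.2 (Sum.inl l) = y n (σ q.1 n) q.2 (Sum.inl l) :=
      eventually_all.2 fun l => (hg' _ _).1 (congrArg Subtype.val (congrFun hpq (Sum.inr l)))
    have e3 : ∀ᶠ n in hyperfilter ℕ, (σ p.1 n, p.2) = (σ q.1 n, q.2) := by
      filter_upwards [e1, e2] with n e1 e2
      refine h4 n (Prod.ext (funext e1) (funext fun l => ?_))
      cases l with
      | inl l => exact e2 l
      | inr l =>
        change y n _ _ _ = y n _ _ _
        rw [(h5 n).1 _ _ l, (h5 n).1 _ _ l, funext e1, funext e2]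
    refine Prod.ext ?_ (Prod.ext_iff.1 e3.exists.choose_spec).2
    by_contra hne
    obtain ⟨n, e4, e5⟩ := (e3.and (t3 _ _ hne)).exists
    exact e5 (Prod.ext_iff.1 e4).1
  have : Nonempty ((Fin a ⊕ Fin u) ⊕ Fin a) := ⟨Sum.inl (Sum.inr ⟨0, hu⟩)⟩
  have hli := mon_indep (M := M) (by simp [hM]) _ hz
  have hW := fun i : Fin u => span_small (fun mon => g fun n => co n (i, mon)) (1 : K) _ hli
    fun p => ⟨Y p (Sum.inr i), by
      have e1 : (fun n => y n (σ p.1 n) p.2 (Sum.inr i)) = ∑ mon, (fun n => co n (i, mon)) *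
          ∏ l, (fun n => Sum.elim (x n (σ p.1 n) p.2) (fun l => y n (σ p.1 n) p.2 (Sum.inl l)) l) ^
            (mon l : ℕ) := by
        funext n
        rw [(h5 n).1 _ _ i, ev]
        simp only [Finset.sum_apply, Pi.mul_apply, Finset.prod_apply, Pi.pow_apply]
        congr
        exact Subsingleton.elim _ _
      simp only [Subfield.smul_def, smul_eq_mul, mul_one, Y, e1, map_sum, map_mul, map_prod,
        map_pow, SubmonoidClass.coe_finsetProd, SubmonoidClass.coe_pow]
      refine sum_congr rfl fun mon _ => (mul_comm _ _).trans ?_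
      congr 1
      refine prod_congr rfl fun l _ => ?_
      cases l <;> rfl⟩
  choose W w1 w2 using hW
  have hsub : (T : Set K) ⊆
      (AlgebraicIndependent.matroid (ZMod 2) K).closure (G0 ∪ univ.biUnion W : Finset K) := by
    intro t ht
    rcases t4 t ht with h | ⟨i, l, rfl⟩
    · obtain ⟨⟨i, mon⟩, -, rfl⟩ := mem_image.1 h
      change _ ∈ clF (ZMod 2) _
      refine Submodule.span_induction (p := fun z _ => z ∈ clF (ZMod 2) _) (fun z hz => ?_)
        (zero_mem _) (fun _ _ _ _ => add_mem) (fun c z _ hz => mul_mem ?_ hz) (w2 i mon)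
      · exact Matroid.subset_closure _ _ (Set.subset_univ _)
          (mem_coe.2 (mem_union_right _ (mem_biUnion.2 ⟨i, mem_univ _, hz⟩)))
      · exact Matroid.closure_subset_closure _ (coe_subset.2 subset_union_left) c.2
    · exact Matroid.subset_closure _ _ (Set.subset_univ _) (mem_coe.2 (mem_union_left _
        (mem_union_right _ (mem_image.2 ⟨(i, ⟨0, hu⟩, l), mem_univ _, rfl⟩))))
  have c1 := t1.encard_le_eRk_of_subset hsub
  rw [Matroid.eRk_closure_eq] at c1
  have c2 := c1.trans (Matroid.eRk_le_encard _ _)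
  rw [Set.encard_coe_eq_coe_finsetCard, Set.encard_coe_eq_coe_finsetCard, Nat.cast_le] at c2
  have c3 := c2.trans ((card_union_le _ _).trans (add_le_add hG0 card_biUnion_le))
  have c4 := sum_le_sum fun i (_ : i ∈ univ) => w1 i
  simp only [sum_add_distrib, sum_const, card_univ, Fintype.card_fin, smul_eq_mul,
    Fintype.card_prod, ← hM, mul_one] at c4
  omega

end Pool.Agent.Lib.MP_9bef39_co
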