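import Pool.Agent.Lib.MP_9bef39_co.Defs
import Pool.Agent.Lib.MP_9bef39_co.LowerA

open Finset
open scoped Classical

namespace Pool.Agent.Lib.MP_9bef39_co

theorem lb_fix_mul {z : kk} {d : ℕ} (h : z ^ 2 ^ d = z) (t : ℕ) : z ^ 2 ^ (d * t) = z := by
  induction t with
  | zero => simp
  | succ t ih => rw [Nat.mul_succ, pow_add, pow_mul, ih, h]

theorem lb_exists_fix (z : kk) : ∃ d, 0 < d ∧ z ^ 2 ^ d = z := by
  have hz : IsIntegral (ZMod 2) z := Algebra.IsIntegral.isIntegral z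
  have := IntermediateField.adjoin.finiteDimensional hz
  have : Finite (IntermediateField.adjoin (ZMod 2) {z}) := Module.finite_of_finite (ZMod 2)
  have := Fintype.ofFinite (IntermediateField.adjoin (ZMod 2) {z})
  have hc : CharP (IntermediateField.adjoin (ZMod 2) {z}) 2 :=
    charP_of_injective_algebraMap (algebraMap (ZMod 2) _).injective 2
  obtain ⟨d, -, hd⟩ := FiniteField.card (IntermediateField.adjoin (ZMod 2) {z}) 2
  refine ⟨d, d.pos, ?_⟩
  have h := FiniteField.pow_card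
    (⟨z, IntermediateField.mem_adjoin_simple_self (ZMod 2) z⟩ :
      IntermediateField.adjoin (ZMod 2) {z})
  rw [hd] at h
  exact congrArg Subtype.val h

theorem lb_exists_fix_all {ι : Type} [Fintype ι] (f : ι → kk) :
    ∃ d, 0 < d ∧ ∀ i, f i ^ 2 ^ d = f i := by
  choose d hd hf using fun i => lb_exists_fix (f i)
  refine ⟨∏ i, d i, prod_pos fun i _ => hd i, fun i => ?_⟩
  obtain ⟨t, ht⟩ : d i ∣ ∏ i, d i := dvd_prod_of_mem d (mem_univ i)
  rw [ht]
  exact lb_fix_mul (hf i) t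

theorem lb_subfield (m : ℕ) (hm : m ≠ 0) :
    ∃ S : Finset kk, S.card = 2 ^ m ∧ ∀ z, z ∈ S ↔ z ^ 2 ^ m = z := by
  let g : Polynomial (ZMod 2) := Polynomial.X ^ 2 ^ m - Polynomial.X
  have hg : g ≠ 0 := FiniteField.X_pow_card_pow_sub_X_ne_zero _ hm one_lt_two
  have key : Fintype.card (g.rootSet kk) = g.natDegree :=
    Polynomial.card_rootSet_eq_natDegree (galois_poly_separable 2 _ (dvd_pow (dvd_refl 2) hm))
      (IsAlgClosed.splits _)
  have hdeg : g.natDegree = 2 ^ m :=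
    FiniteField.X_pow_card_pow_sub_X_natDegree_eq _ hm one_lt_two
  refine ⟨(g.rootSet kk).toFinset, by rw [Set.toFinset_card, key, hdeg], fun z => ?_⟩
  rw [Set.mem_toFinset, Polynomial.mem_rootSet_of_ne hg]
  simp [g, sub_eq_zero]

theorem lb_ev_fix {δ : Type} [Fintype δ] {M m : ℕ} (co : (δ → Fin M) → kk) (z : δ → kk)
    (h1 : ∀ mon, co mon ^ 2 ^ m = co mon) (h2 : ∀ l, z l ^ 2 ^ m = z l) :
    ev co z ^ 2 ^ m = ev co z := by
  have e : ∀ x : kk, x ^ 2 ^ m = iterateFrobenius kk 2 m x := fun x => rfl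
  rw [e]
  unfold ev
  rw [map_sum]
  refine sum_congr rfl fun mon _ => ?_
  rw [map_mul, map_prod, ← e, h1]
  congr 1
  refine prod_congr rfl fun l _ => ?_
  rw [map_pow, ← e, h2]

section Host

variable {a u M : ℕ}

/-- The incidence graph on the points with coordinates in `S`, placed on `Fin n`. -/
def lbHost (co : Fin u → (((Fin a ⊕ Fin u) ⊕ Fin a) → Fin M) → kk) (S : Finset kk) {n : ℕ}
    (emb : (Bool × (Fin a ⊕ Fin u → S)) ↪ Fin n) : SimpleGraph (Fin n) where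
  Adj i j := ∃ x y : Fin a ⊕ Fin u → S, Inc co (fun l => (x l : kk)) (fun l => (y l : kk)) ∧
    ((i = emb (true, x) ∧ j = emb (false, y)) ∨ (i = emb (false, y) ∧ j = emb (true, x)))
  symm := ⟨fun _ _ ⟨x, y, h, h'⟩ => ⟨x, y, h, h'.symm.imp And.symm And.symm⟩⟩
  loopless := ⟨fun _ ⟨x, y, _, h'⟩ => by
    rcases h' with ⟨h1, h2⟩ | ⟨h1, h2⟩
    · simpa using emb.injective (h1.symm.trans h2)
    · simpa using emb.injective (h1.symm.trans h2)⟩

theorem lb_host_nd (co : Fin u → (((Fin a ⊕ Fin u) ⊕ Fin a) → Fin M) → kk) (S : Finset kk)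
    {n m : ℕ} (emb : (Bool × (Fin a ⊕ Fin u → S)) ↪ Fin n) (hS : ∀ z, z ∈ S ↔ z ^ 2 ^ m = z)
    (hco : ∀ i mon, co i mon ^ 2 ^ m = co i mon) :
    S.card ^ (a + u + a) ≤ nd (lbHost co S emb) := by
  let Y : (Fin a ⊕ Fin u → S) × (Fin a → S) → Fin a ⊕ Fin u → S := fun p =>
    Sum.elim p.2 fun i => ⟨ev (co i) (Sum.elim (fun l => (p.1 l : kk)) fun l => (p.2 l : kk)),
      (hS _).2 (lb_ev_fix _ _ (hco i) (by
        rintro (l | l)
        · exact (hS _).1 (p.1 l).2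
        · exact (hS _).1 (p.2 l).2))⟩
  have hc : S.card ^ (a + u + a) =
      (univ : Finset ((Fin a ⊕ Fin u → S) × (Fin a → S))).card := by
    simp [pow_add]
  rw [hc]
  unfold nd
  refine card_le_card_of_injOn (fun p => (emb (true, p.1), emb (false, Y p))) ?_ ?_
  · intro p _
    refine mem_coe.2 (mem_filter.2 ⟨mem_univ _, p.1, Y p, fun i => rfl, Or.inl ⟨rfl, rfl⟩⟩)
  · intro p _ p' _ h
    have h1 := emb.injective (congrArg Prod.fst h)
    have h2 := emb.injective (congrArg Prod.snd h)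
    refine Prod.ext (congrArg Prod.snd h1) (funext fun l => ?_)
    exact congrFun (congrArg Prod.snd h2) (Sum.inl l)

theorem lb_host_free {r P : ℕ} (hu : 0 < u)
    (co : Fin u → (((Fin a ⊕ Fin u) ⊕ Fin a) → Fin M) → kk)
    (hA : ∀ (ρ : Fin r → Fin a ⊕ Fin u → kk) (b : Fin P → Fin u → Fin a ⊕ Fin u → kk)
      (side : Fin P → Bool) (x y : Fin P → Fin (a + u) → Fin a ⊕ Fin u → kk),
      Function.Injective (fun i => (side i, b i ⟨0, hu⟩)) →
      (∀ i l, x i l ∈ Set.range ρ ∪ Set.range (b i)) →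
      (∀ i l, y i l ∈ Set.range ρ ∪ Set.range (b i)) →
      Function.Injective (fun p : Fin P × Fin (a + u) => (x p.1 p.2, y p.1 p.2)) →
      (∀ i l, Inc co (x i l) (y i l)) → False)
    (S : Finset kk) {n : ℕ} (emb : (Bool × (Fin a ⊕ Fin u → S)) ↪ Fin n) (B : BG)
    (β : B.W → Option (Fin P)) (γ : B.E → Option (Fin P)) (h : Pow B P r u (a + u) β γ) :
    ¬ B.graph.IsContained (lbHost co S emb) := by
  rintro ⟨φ, hφ⟩
  have hadj : ∀ f, (lbHost co S emb).Adj (φ (B.lo f)) (φ (B.hi f)) := fun f =>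
    φ.map_adj ⟨f, Or.inl ⟨rfl, rfl⟩⟩
  have hr : ∀ w, ∃ v, φ w = emb v := by
    intro w
    obtain ⟨f, rfl | rfl⟩ := B.inc w
    · obtain ⟨x, y, -, h' | h'⟩ := hadj f
      · exact ⟨_, h'.1⟩
      · exact ⟨_, h'.1⟩
    · obtain ⟨x, y, -, h' | h'⟩ := hadj f
      · exact ⟨_, h'.2⟩
      · exact ⟨_, h'.2⟩
  choose ψ hψ using hr
  let pt : B.W → Fin a ⊕ Fin u → kk := fun w l => ((ψ w).2 l : kk)
  have hinj : ∀ w w', (ψ w).1 = (ψ w').1 → pt w = pt w' → w = w' := by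
    intro w w' h1 h2
    apply hφ
    rw [hψ, hψ]
    congr 1
    exact Prod.ext h1 (funext fun l => Subtype.ext (congrFun h2 l))
  have hE : ∀ f, ∃ p : B.W × B.W, ((p.1 = B.lo f ∧ p.2 = B.hi f) ∨ (p.1 = B.hi f ∧ p.2 = B.lo f)) ∧
      (ψ p.1).1 = true ∧ (ψ p.2).1 = false ∧ Inc co (pt p.1) (pt p.2) := by
    intro f
    obtain ⟨x, y, hI, h' | h'⟩ := hadj f
    · rw [hψ, hψ] at h'
      have e1 := emb.injective h'.1
      have e2 := emb.injective h'.2
      refine ⟨(B.lo f, B.hi f), Or.inl ⟨rfl, rfl⟩, by rw [e1], by rw [e2], ?_⟩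
      simp only [pt, e1, e2]
      exact hI
    · rw [hψ, hψ] at h'
      have e1 := emb.injective h'.1
      have e2 := emb.injective h'.2
      refine ⟨(B.hi f, B.lo f), Or.inr ⟨rfl, rfl⟩, by rw [e2], by rw [e1], ?_⟩
      simp only [pt, e1, e2]
      exact hI
  choose en hen hs1 hs2 hI using hE
  have hen_inj : ∀ f f', en f = en f' → f = f' := by
    intro f f' e
    have c1 := B.col_lo f
    have c2 := B.col_hi f'
    have c3 := B.col_hi f
    have c4 := B.col_lo f'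
    rcases hen f with ⟨a1, a2⟩ | ⟨a1, a2⟩ <;> rcases hen f' with ⟨b1, b2⟩ | ⟨b1, b2⟩ <;>
      rw [← e] at b1 b2
    · exact B.inj f f' (a1.symm.trans b1) (a2.symm.trans b2)
    · rw [← a1, b1, c2] at c1; exact absurd c1 (by simp)
    · rw [← a1, b1, c4] at c3; exact absurd c3 (by simp)
    · exact B.inj f f' (a2.symm.trans b2) (a1.symm.trans b1)
  obtain ⟨g⟩ : Nonempty ((univ.filter fun w => β w = none) ↪ Fin r) :=
    Function.Embedding.nonempty_of_card_le
      (by rw [Fintype.card_coe, Fintype.card_fin]; exact h.roots)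
  let ρ : Fin r → Fin a ⊕ Fin u → kk := Function.extend g (fun w => pt w) fun _ => 0
  let vb : Fin P → Fin u → B.W := fun i m => ((equivFinOfCardEq (h.cardW i)).symm m : B.W)
  let eb : Fin P → Fin (a + u) → B.E := fun i l => ((equivFinOfCardEq (h.cardE i)).symm l : B.E)
  have hvb : ∀ i m, β (vb i m) = some i := fun i m =>
    (mem_filter.1 ((equivFinOfCardEq (h.cardW i)).symm m).2).2
  have heb : ∀ i l, γ (eb i l) = some i := fun i l =>
    (mem_filter.1 ((equivFinOfCardEq (h.cardE i)).symm l).2).2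
  have hmem : ∀ i w, (β w = none ∨ β w = some i) →
      pt w ∈ Set.range ρ ∪ Set.range (fun m => pt (vb i m)) := by
    rintro i w (hw | hw)
    · refine Or.inl ⟨g ⟨w, mem_filter.2 ⟨mem_univ _, hw⟩⟩, ?_⟩
      exact g.injective.extend_apply _ _ _
    · refine Or.inr ⟨equivFinOfCardEq (h.cardW i) ⟨w, mem_filter.2 ⟨mem_univ _, hw⟩⟩, ?_⟩
      simp [vb]
  refine hA ρ (fun i m => pt (vb i m)) (fun i => (ψ (vb i ⟨0, hu⟩)).1)
    (fun i l => pt (en (eb i l)).1) (fun i l => pt (en (eb i l)).2) ?_ ?_ ?_ ?_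
    fun i l => hI _
  · intro i j hij
    have := hinj (vb i ⟨0, hu⟩) (vb j ⟨0, hu⟩) (Prod.ext_iff.1 hij).1 (Prod.ext_iff.1 hij).2
    have e := hvb i ⟨0, hu⟩
    rw [this, hvb] at e
    exact (Option.some.inj e).symm
  · intro i l
    apply hmem
    rw [← heb i l]
    rcases hen (eb i l) with ⟨a1, -⟩ | ⟨a1, -⟩ <;> rw [a1]
    · exact h.lo_ok _
    · exact h.hi_ok _
  · intro i l
    apply hmem
    rw [← heb i l]
    rcases hen (eb i l) with ⟨-, a1⟩ | ⟨-, a1⟩ <;> rw [a1]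
    · exact h.hi_ok _
    · exact h.lo_ok _
  · rintro ⟨i, l⟩ ⟨j, l'⟩ hij
    have e1 := hinj _ _ ((hs1 _).trans (hs1 _).symm) (congrArg Prod.fst hij)
    have e2 := hinj _ _ ((hs2 _).trans (hs2 _).symm) (congrArg Prod.snd hij)
    have e3 : eb i l = eb j l' := hen_inj _ _ (Prod.ext e1 e2)
    have e4 := heb i l
    rw [e3, heb] at e4
    obtain rfl : j = i := Option.some.inj e4
    obtain rfl : l = l' := (equivFinOfCardEq (h.cardE j)).symm.injective (Subtype.ext e3)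
    rfl

end Host

theorem lower (r u e : ℕ) (hu : 0 < u) (hue : u ≤ e) : ∃ (P : ℕ) (c : ℝ) (n0 : ℕ),
    1 ≤ P ∧ 0 < c ∧ ∀ (B : BG) (β : B.W → Option (Fin P)) (γ : B.E → Option (Fin P)),
      Pow B P r u e β γ → ∀ n, n0 ≤ n → ∃ G : SimpleGraph (Fin n),
        ¬ B.graph.IsContained G ∧ c * (n : ℝ) ^ (2 - (u : ℝ) / e) ≤ (nd G : ℝ) := by
  obtain ⟨a, rfl⟩ := Nat.exists_eq_add_of_le' hue
  obtain ⟨P, M, co, hP, hA⟩ := algA a u r hu
  obtain ⟨d, hd, hco⟩ := lb_exists_fix_all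
    (fun p : Fin u × ((((Fin a ⊕ Fin u) ⊕ Fin a) → Fin M)) => co p.1 p.2)
  set b0 : ℕ := 2 ^ (d * (a + u)) with hb0
  have hb1 : 1 < b0 := Nat.one_lt_two_pow (by positivity)
  set q : ℝ := 2 - (u : ℝ) / ((a + u : ℕ) : ℝ) with hq
  have he0 : (0 : ℝ) < ((a + u : ℕ) : ℝ) := by exact_mod_cast (by omega : 0 < a + u)
  have hq0 : 0 ≤ q := by
    have : (u : ℝ) / ((a + u : ℕ) : ℝ) ≤ 1 := by
      rw [div_le_one he0]; exact_mod_cast Nat.le_add_left u a
    linarith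
  have hb0r : (0 : ℝ) < 2 * b0 := by positivity
  refine ⟨P, ((2 * b0 : ℝ) ^ q)⁻¹, 2 * b0, hP, by positivity, fun B β γ h n hn => ?_⟩
  set j := Nat.log b0 (n / 2) with hj
  have hn2 : b0 ≤ n / 2 := by omega
  have hj1 : 0 < j := Nat.log_pos hb1 hn2
  have hlo : b0 ^ j ≤ n / 2 := Nat.pow_log_le_self b0 (by omega)
  have hhi : n / 2 < b0 ^ (j + 1) := Nat.lt_pow_succ_log_self hb1 _
  obtain ⟨S, hSc, hS⟩ := lb_subfield (d * j) (by positivity)
  have hpow : S.card ^ (a + u) = b0 ^ j := by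
    rw [hSc, hb0, ← pow_mul, ← pow_mul]
    congr 1
    ring
  obtain ⟨emb⟩ : Nonempty ((Bool × (Fin a ⊕ Fin u → S)) ↪ Fin n) := by
    apply Function.Embedding.nonempty_of_card_le
    simp only [Fintype.card_prod, Fintype.card_bool, Fintype.card_fun, Fintype.card_coe,
      Fintype.card_sum, Fintype.card_fin]
    rw [hpow]
    omega
  refine ⟨lbHost co S emb, lb_host_free hu co hA S emb B β γ h, ?_⟩
  have h1 := lb_host_nd co S emb hS fun i mon => lb_fix_mul (hco (i, mon)) j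
  have h2 : (n : ℝ) ≤ 2 * b0 * (S.card : ℝ) ^ (a + u) := by
    have : n ≤ 2 * b0 * S.card ^ (a + u) := by
      rw [hpow, mul_assoc, ← pow_succ']
      omega
    exact_mod_cast this
  have hS0 : (0 : ℝ) ≤ S.card := Nat.cast_nonneg _
  have h3 : ((S.card : ℝ) ^ (a + u)) ^ q = (S.card : ℝ) ^ (a + u + a) := by
    rw [← Real.rpow_natCast, ← Real.rpow_mul hS0, ← Real.rpow_natCast]
    congr 1
    rw [hq]
    field_simp
    push_cast
    ring
  have h4 : (n : ℝ) ^ q ≤ (2 * b0 : ℝ) ^ q * (S.card : ℝ) ^ (a + u + a) := by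
    rw [← h3, ← Real.mul_rpow hb0r.le (by positivity)]
    exact Real.rpow_le_rpow (Nat.cast_nonneg n) h2 hq0
  have h5 : (S.card : ℝ) ^ (a + u + a) ≤ nd (lbHost co S emb) := by exact_mod_cast h1
  rw [inv_mul_le_iff₀ (by positivity)]
  exact h4.trans (mul_le_mul_of_nonneg_left h5 (by positivity))

end Pool.Agent.Lib.MP_9bef39_co
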