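import Pool.Agent.Lib.MP_9bef39_co.Family
import Pool.Agent.Lib.MP_9bef39_co.LowerB

open Finset
open scoped Classical

namespace Pool.Agent.Lib.MP_9bef39_co

theorem nd_eq {V : Type} [Fintype V] (G : SimpleGraph V) : nd G = 2 * G.edgeSet.ncard := by
  have h := G.two_mul_card_edgeFinset
  rw [Set.ncard_eq_toFinset_card', ← SimpleGraph.edgeFinset, h, nd]

theorem free_adj {V : Type} {G : SimpleGraph V} {s : ℕ}
    (h : ¬ (completeBipartiteGraph (Fin s) (Fin s)).IsContained G) : Free s G.Adj := by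
  intro A B hA hB
  by_contra hno
  push Not at hno
  apply h
  have hdisj : ∀ a ∈ A, ∀ b ∈ B, a ≠ b := fun a ha b hb => (hno a ha b hb).ne
  let fA : Fin s → V := fun i => (A.equivFinOfCardEq hA).symm i
  let fB : Fin s → V := fun i => (B.equivFinOfCardEq hB).symm i
  have hfA : ∀ i, fA i ∈ A := fun i => ((A.equivFinOfCardEq hA).symm i).2
  have hfB : ∀ i, fB i ∈ B := fun i => ((B.equivFinOfCardEq hB).symm i).2
  have iA : Function.Injective fA :=
    Subtype.val_injective.comp (A.equivFinOfCardEq hA).symm.injective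
  have iB : Function.Injective fB :=
    Subtype.val_injective.comp (B.equivFinOfCardEq hB).symm.injective
  refine ⟨⟨⟨Sum.elim fA fB, ?_⟩, ?_⟩⟩
  · rintro (a | a) (b | b) hab
    · simp at hab
    · exact hno _ (hfA a) _ (hfB b)
    · exact (hno _ (hfA b) _ (hfB a)).symm
    · simp at hab
  · exact iA.sumElim iB (fun a b => hdisj _ (hfA a) _ (hfB b))

/-- The robust bound gives induced copies in `K_{s,s}`-free hosts. -/
theorem ind_of_rob {W : Type} {H : SimpleGraph W} {α : ℝ} (h : Rob H α) (s : ℕ) :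
    ∃ C : ℝ, ∀ (V : Type) [Fintype V] [Nonempty V] (G : SimpleGraph V),
      ¬ (completeBipartiteGraph (Fin s) (Fin s)).IsContained G →
      C * (Fintype.card V : ℝ) ^ (1 + α) ≤ (nd G : ℝ) → H.IsIndContained G := by
  obtain ⟨s', hs'⟩ := free_or 2 s
  obtain ⟨C, hC⟩ := h s'
  refine ⟨C, fun V _ _ G hG hnd => ?_⟩
  let r : Sym2 V → Sym2 V → Prop := fun p q => ∃ u v, p = s(u, u) ∧ q = s(v, v) ∧ G.Adj u v
  have hr : Free s r := by
    intro A B hA hB
    by_contra hno
    push Not at hno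
    rcases Nat.eq_zero_or_pos s with rfl | hs
    · exact hG ⟨⟨⟨fun x => (Sum.elim Fin.elim0 Fin.elim0 x), by rintro (a | a) <;> exact a.elim0⟩,
        by rintro (a | a) <;> exact a.elim0⟩⟩
    obtain ⟨a0, ha0⟩ : A.Nonempty := card_pos.mp (by omega)
    obtain ⟨b0, hb0⟩ : B.Nonempty := card_pos.mp (by omega)
    have hinj : Function.Injective (fun u : V => s(u, u)) := by
      intro u v huv
      simpa using huv
    have hA' : (univ.filter (fun u : V => s(u, u) ∈ A)).card = s := by
      rw [← hA]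
      refine card_bij (fun u _ => s(u, u)) (fun u hu => (mem_filter.mp hu).2)
        (fun u _ v _ h => hinj h) (fun z hz => ?_)
      obtain ⟨u, v, h1, -, -⟩ := hno z hz b0 hb0
      exact ⟨u, mem_filter.mpr ⟨mem_univ _, h1 ▸ hz⟩, h1.symm⟩
    have hB' : (univ.filter (fun u : V => s(u, u) ∈ B)).card = s := by
      rw [← hB]
      refine card_bij (fun u _ => s(u, u)) (fun u hu => (mem_filter.mp hu).2)
        (fun u _ v _ h => hinj h) (fun z hz => ?_)
      obtain ⟨u, v, -, h1, -⟩ := hno a0 ha0 z hz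
      exact ⟨v, mem_filter.mpr ⟨mem_univ _, h1 ▸ hz⟩, h1.symm⟩
    obtain ⟨u, hu, v, hv, huv⟩ := free_adj hG _ _ hA' hB'
    obtain ⟨u', v', h1, h2, h3⟩ := hno _ (mem_filter.mp hu).2 _ (mem_filter.mp hv).2
    rw [hinj h1, hinj h2] at huv
    exact huv h3
  have heq : Free 2 (fun p q : Sym2 V => p = q) :=
    (free_mem (M := 1) (fun q : Sym2 V => {q}) (fun _ => by simp)).sub
      (fun a b h => mem_singleton.mpr h)
  have hc : Conf s' (fun p q => p = q ∨ r p q) :=
    { refl := fun z => Or.inl rfl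
      symm := by
        rintro z z' (h | ⟨u, v, h1, h2, h3⟩)
        · exact Or.inl h.symm
        · exact Or.inr ⟨v, u, h2, h1, h3.symm⟩
      free := hs' _ _ heq hr }
  obtain ⟨φ, hφ⟩ := hC V G _ hc hnd
  refine ⟨⟨⟨φ, ?_⟩, ?_⟩⟩
  · intro a b hab
    have := (hφ.clean a a b b (Or.inl rfl) (Or.inl rfl) (Or.inl (by rw [hab]))).1
    rcases this with h | h
    · exact h
    · exact absurd hab (hφ.adj a b h).ne
  · intro a b
    refine ⟨fun hab => ?_, hφ.adj a b⟩
    have := (hφ.clean a a b b (Or.inl rfl) (Or.inl rfl) (Or.inr ⟨_, _, rfl, rfl, hab⟩)).1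
    rcases this with h | h
    · subst h
      exact absurd hab (G.loopless.irrefl _)
    · exact h

theorem BG.col_ne (B : BG) {a b : B.W} (h : B.graph.Adj a b) : B.col a ≠ B.col b := by
  obtain ⟨e, ⟨rfl, rfl⟩ | ⟨rfl, rfl⟩⟩ := h <;> simp [B.col_lo, B.col_hi]

theorem BG.contained_complete (B : BG) {s : ℕ} (hs : Fintype.card B.W ≤ s) :
    B.graph.IsContained (completeBipartiteGraph (Fin s) (Fin s)) := by
  obtain ⟨g⟩ : Nonempty (B.W ↪ Fin s) := by
    apply Function.Embedding.nonempty_of_card_le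
    simpa using hs
  refine ⟨⟨⟨fun w => if B.col w then Sum.inr (g w) else Sum.inl (g w), ?_⟩, ?_⟩⟩
  · intro a b hab
    have := B.col_ne hab
    cases ha : B.col a <;> cases hb : B.col b <;> simp_all
  · intro a b hab
    apply g.injective
    cases ha : B.col a <;> cases hb : B.col b <;> simp_all

theorem BG.colorable (B : BG) : B.graph.Colorable 2 := by
  have : B.graph.Coloring Bool := SimpleGraph.Coloring.mk B.col (fun h => B.col_ne h)
  simpa using this.colorable

theorem BG.connected (B : BG) : B.graph.Connected := by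
  obtain ⟨e⟩ := B.ne
  have : Nonempty B.W := ⟨B.lo e⟩
  refine ⟨fun a b => B.conn (fun w => B.graph.Reachable a w) (fun e => ?_) a b .rfl⟩
  have h : B.graph.Adj (B.lo e) (B.hi e) := ⟨e, Or.inl ⟨rfl, rfl⟩⟩
  exact ⟨fun h' => h'.trans h.reachable, fun h' => h'.trans h.symm.reachable⟩

end Pool.Agent.Lib.MP_9bef39_co
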