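import Pool.Agent.Lib.MP_9bef39_co.Defs

open Finset
open scoped Classical

namespace Pool.Agent.Lib.MP_9bef39_co

theorem Free.mono {α β : Type} {s s' : ℕ} {r : α → β → Prop} (h : Free s r) (hs : s ≤ s') :
    Free s' r := by
  intro A B hA hB
  obtain ⟨A', hA', hA''⟩ := exists_subset_card_eq (s := A) (n := s) (by omega)
  obtain ⟨B', hB', hB''⟩ := exists_subset_card_eq (s := B) (n := s) (by omega)
  obtain ⟨a, ha, b, hb, hab⟩ := h A' B' hA'' hB''
  exact ⟨a, hA' ha, b, hB' hb, hab⟩

theorem Free.sub {α β : Type} {s : ℕ} {r r' : α → β → Prop} (h : Free s r)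
    (hr : ∀ a b, r' a b → r a b) : Free s r' := by
  intro A B hA hB
  obtain ⟨a, ha, b, hb, hab⟩ := h A B hA hB
  exact ⟨a, ha, b, hb, fun h' => hab (hr a b h')⟩

theorem Free.swap {α β : Type} {s : ℕ} {r : α → β → Prop} (h : Free s r) :
    Free s (fun b a => r a b) := by
  intro B A hB hA
  obtain ⟨a, ha, b, hb, hab⟩ := h A B hA hB
  exact ⟨b, hb, a, ha, hab⟩

theorem Free.comap {α β α' β' : Type} {s : ℕ} {r : α → β → Prop} (h : Free s r) (g : α' → α)
    (k : β' → β) (hg : Function.Injective g) (hk : Function.Injective k) :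
    Free s (fun a b => r (g a) (k b)) := by
  intro A B hA hB
  obtain ⟨a, ha, b, hb, hab⟩ := h (A.map ⟨g, hg⟩) (B.map ⟨k, hk⟩) (by simpa using hA)
    (by simpa using hB)
  obtain ⟨a', ha', rfl⟩ := mem_map.1 ha
  obtain ⟨b', hb', rfl⟩ := mem_map.1 hb
  exact ⟨a', ha', b', hb', hab⟩

theorem free_mem {α β : Type} {M : ℕ} (T : β → Finset α) (h : ∀ b, (T b).card ≤ M) :
    Free (M + 1) (fun a b => a ∈ T b) := by
  intro A B hA hB
  obtain ⟨b, hb⟩ : B.Nonempty := card_pos.1 (by omega)
  by_contra hcon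
  push Not at hcon
  have : A ⊆ T b := fun a ha => hcon a ha b hb
  have := card_le_card this
  have := h b
  omega

/-- A free relation has no box with both sides of size at least `s`. -/
theorem Free.not_box {α β : Type} {s : ℕ} {r : α → β → Prop} (h : Free s r) (A : Finset α)
    (B : Finset β) (hA : s ≤ A.card) (hB : s ≤ B.card) (hr : ∀ a ∈ A, ∀ b ∈ B, r a b) : False := by
  obtain ⟨A', hA', hA''⟩ := exists_subset_card_eq (s := A) (n := s) hA
  obtain ⟨B', hB', hB''⟩ := exists_subset_card_eq (s := B) (n := s) hB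
  obtain ⟨a, ha, b, hb, hab⟩ := h A' B' hA'' hB''
  exact hab (hr a (hA' ha) b (hB' hb))

theorem pop (s q : ℕ) : ∃ M L : ℕ, ∀ {α β : Type} (r : α → β → Prop), Free s r →
    ∀ I : Finset β, L ≤ I.card → ∀ Z : Finset α, (∀ z ∈ Z, Popular r q I z) → Z.card ≤ M := by
  refine ⟨2 * q * s, 2 * q * (2 ^ (2 * q * s + 1) * s) + 1, ?_⟩
  intro α β r hr I hI Z hZ
  by_contra hcon
  obtain ⟨Z', hZ', hm⟩ := exists_subset_card_eq (s := Z) (n := 2 * q * s + 1) (by omega)
  set m := 2 * q * s + 1 with hmdef
  set H := I.filter (fun b => s ≤ (Z'.filter (fun z => r z b)).card) with hH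
  have h1 : m * I.card ≤ q * ∑ z ∈ Z', (I.filter (fun b => r z b)).card := by
    rw [mul_sum, ← hm, ← smul_eq_mul, ← sum_const]
    exact sum_le_sum fun z hz => hZ z (hZ' hz)
  have h2 : ∑ z ∈ Z', (I.filter (fun b => r z b)).card =
      ∑ b ∈ I, (Z'.filter (fun z => r z b)).card := by
    simp only [card_filter]
    exact sum_comm
  have h3 : ∑ b ∈ I, (Z'.filter (fun z => r z b)).card ≤ H.card * m + I.card * s := by
    calc ∑ b ∈ I, (Z'.filter (fun z => r z b)).card
        ≤ ∑ b ∈ I, ((if s ≤ (Z'.filter (fun z => r z b)).card then m else 0) + s) := by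
          refine sum_le_sum fun b _ => ?_
          split_ifs with hb
          · have := card_filter_le Z' (fun z => r z b)
            omega
          · omega
      _ = H.card * m + I.card * s := by
          rw [sum_add_distrib, ← sum_filter, sum_const, sum_const, smul_eq_mul, smul_eq_mul]
  have h4 : I.card ≤ 2 * q * H.card := by
    have h5 : m * I.card ≤ q * (H.card * m + I.card * s) :=
      h1.trans (by rw [h2]; exact Nat.mul_le_mul_left q h3)
    have h6 : m * I.card ≤ m * (2 * q * H.card) := by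
      have : 2 * q * s * I.card ≤ m * I.card := Nat.mul_le_mul_right _ (by omega)
      nlinarith
    exact Nat.le_of_mul_le_mul_left h6 (by omega)
  have h7 : Z'.powerset.card * s < H.card := by
    rw [card_powerset, hm]
    have : 2 * q * (2 ^ m * s) < 2 * q * H.card := by omega
    exact Nat.lt_of_mul_lt_mul_left this
  obtain ⟨T, _, hT⟩ := exists_lt_card_fiber_of_mul_lt_card_of_maps_to
    (f := fun b => Z'.filter (fun z => r z b)) (s := H) (t := Z'.powerset)
    (fun b _ => mem_powerset.2 (filter_subset _ _)) h7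
  obtain ⟨b0, hb0⟩ := card_pos.1 (lt_of_le_of_lt (Nat.zero_le _) hT)
  have hb0' := mem_filter.1 hb0
  have hTs : s ≤ T.card := by
    rw [← hb0'.2]
    exact (mem_filter.1 hb0'.1).2
  refine hr.not_box T _ hTs hT.le fun a ha b hb => ?_
  rw [← (mem_filter.1 hb).2] at ha
  exact (mem_filter.1 ha).2

theorem free_or (s₁ s₂ : ℕ) : ∃ s : ℕ, ∀ {α β : Type} (r₁ r₂ : α → β → Prop), Free s₁ r₁ →
    Free s₂ r₂ → Free s (fun a b => r₁ a b ∨ r₂ a b) := by
  obtain ⟨M1, L1, h1⟩ := pop s₁ 2
  obtain ⟨M2, L2, h2⟩ := pop s₂ 2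
  refine ⟨M1 + M2 + L1 + L2 + 1, ?_⟩
  intro α β r₁ r₂ hr1 hr2 A B hA hB
  by_contra hcon
  push Not at hcon
  have e1 := h1 r₁ hr1 B (by omega) (A.filter (Popular r₁ 2 B)) fun z hz => (mem_filter.1 hz).2
  have e2 := h2 r₂ hr2 B (by omega) (A.filter (Popular r₂ 2 B)) fun z hz => (mem_filter.1 hz).2
  have hsub : A ⊆ A.filter (Popular r₁ 2 B) ∪ A.filter (Popular r₂ 2 B) := by
    intro a ha
    have hB' : B ⊆ B.filter (fun b => r₁ a b) ∪ B.filter (fun b => r₂ a b) := by
      intro b hb
      rcases hcon a ha b hb with h | h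
      · exact mem_union_left _ (mem_filter.2 ⟨hb, h⟩)
      · exact mem_union_right _ (mem_filter.2 ⟨hb, h⟩)
    have hc := (card_le_card hB').trans (card_union_le _ _)
    by_cases hp : Popular r₁ 2 B a
    · exact mem_union_left _ (mem_filter.2 ⟨ha, hp⟩)
    · refine mem_union_right _ (mem_filter.2 ⟨ha, ?_⟩)
      unfold Popular at hp ⊢
      omega
  have := (card_le_card hsub).trans (card_union_le _ _)
  omega

theorem free_lab (s w μ : ℕ) : ∃ s' : ℕ, ∀ {α β β' : Type} (r : α → β → Prop) (dom : Finset β')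
    (lab : β' → Finset β), Free s r → (∀ b ∈ dom, (lab b).card ≤ w) →
    (∀ z, (dom.filter (fun b => z ∈ lab b)).card ≤ μ) →
    Free s' (fun a b => b ∈ dom ∧ ∃ z ∈ lab b, r a z) := by
  obtain ⟨M, L, h⟩ := pop s (w * μ)
  refine ⟨M + μ * L + 1, ?_⟩
  intro α β β' r dom lab hr hw hμ A B hA hB
  by_contra hcon
  push Not at hcon
  obtain ⟨a0, ha0⟩ : A.Nonempty := card_pos.1 (by omega)
  have hdom : ∀ b ∈ B, b ∈ dom := fun b hb => (hcon a0 ha0 b hb).1
  set I := B.biUnion lab with hI
  have h1 : I.card ≤ B.card * w :=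
    card_biUnion_le_card_mul _ _ _ fun b hb => hw b (hdom b hb)
  have h2 : ∀ a ∈ A, B.card ≤ (I.filter (fun z => r a z)).card * μ := by
    intro a ha
    have hsub : B ⊆ (I.filter (fun z => r a z)).biUnion
        (fun z => dom.filter (fun b => z ∈ lab b)) := by
      intro b hb
      obtain ⟨hbd, z, hz, hrz⟩ := hcon a ha b hb
      exact mem_biUnion.2 ⟨z, mem_filter.2 ⟨mem_biUnion.2 ⟨b, hb, hz⟩, hrz⟩,
        mem_filter.2 ⟨hbd, hz⟩⟩
    exact (card_le_card hsub).trans (card_biUnion_le_card_mul _ _ _ fun z _ => hμ z)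
  have h3 : L ≤ I.card := by
    have e1 := h2 a0 ha0
    have e2 : (I.filter (fun z => r a0 z)).card * μ ≤ I.card * μ :=
      Nat.mul_le_mul_right _ (card_filter_le _ _)
    have e3 : μ * L < μ * I.card := by rw [mul_comm μ I.card]; omega
    exact (Nat.lt_of_mul_lt_mul_left e3).le
  have h4 := h r hr I h3 A fun a ha => by
    unfold Popular
    calc I.card ≤ B.card * w := h1
      _ ≤ (I.filter (fun z => r a z)).card * μ * w := Nat.mul_le_mul_right _ (h2 a ha)
      _ = w * μ * (I.filter (fun z => r a z)).card := by ring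
  omega

theorem kst (s q : ℕ) : ∃ L : ℕ, ∀ {α β : Type} (r : α → β → Prop), Free s r →
    ∀ (A : Finset α) (B : Finset β), L ≤ A.card → L ≤ B.card →
    q * ((A ×ˢ B).filter (fun p => r p.1 p.2)).card ≤ A.card * B.card := by
  obtain ⟨M, L, h⟩ := pop s (2 * q)
  refine ⟨L + 2 * q * M, ?_⟩
  intro α β r hr A B hA hB
  set Z := A.filter (Popular r (2 * q) B) with hZ
  have h1 : Z.card ≤ M := h r hr B (by omega) Z fun z hz => (mem_filter.1 hz).2
  have h2 : ((A ×ˢ B).filter (fun p => r p.1 p.2)).card =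
      ∑ a ∈ A, (B.filter (fun b => r a b)).card := by
    simp only [card_filter]
    rw [sum_product]
  have h3 : 2 * q * ∑ a ∈ A, (B.filter (fun b => r a b)).card ≤
      Z.card * (2 * q * B.card) + A.card * B.card := by
    rw [mul_sum]
    calc ∑ a ∈ A, 2 * q * (B.filter (fun b => r a b)).card
        ≤ ∑ a ∈ A, ((if Popular r (2 * q) B a then 2 * q * B.card else 0) + B.card) := by
          refine sum_le_sum fun a _ => ?_
          split_ifs with ha
          · have := Nat.mul_le_mul_left (2 * q) (card_filter_le B (fun b => r a b))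
            omega
          · unfold Popular at ha
            omega
      _ = Z.card * (2 * q * B.card) + A.card * B.card := by
          rw [sum_add_distrib, ← sum_filter, sum_const, sum_const, smul_eq_mul, smul_eq_mul]
  have h4 : Z.card * (2 * q * B.card) ≤ A.card * B.card := by
    calc Z.card * (2 * q * B.card) ≤ M * (2 * q * B.card) := Nat.mul_le_mul_right _ h1
      _ = (2 * q * M) * B.card := by ring
      _ ≤ A.card * B.card := Nat.mul_le_mul_right _ (by omega)
  rw [h2]
  have h5 : 2 * (q * ∑ a ∈ A, (B.filter (fun b => r a b)).card) ≤ 2 * (A.card * B.card) := by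
    rw [← mul_assoc]
    omega
  omega

theorem sel_aux (s h : ℕ) : ∃ L : ℕ, ∀ {ι κ : Type} (_f0 : ι → κ) (S : Finset ι)
    (A : ι → Finset κ) (bad : ι → κ → ι → κ → Prop), S.card ≤ h → (∀ i ∈ S, L ≤ (A i).card) →
    (∀ i j, i ≠ j → Free s (fun a b => bad i a j b)) →
    ∃ f : ι → κ, (∀ i ∈ S, f i ∈ A i) ∧ ∀ i ∈ S, ∀ j ∈ S, i ≠ j → ¬ bad i (f i) j (f j) := by
  induction h with
  | zero =>
    refine ⟨0, ?_⟩
    intro ι κ f0 S A bad hS _ _
    have : S = ∅ := card_eq_zero.1 (by omega)
    subst this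
    exact ⟨f0, by simp, by simp⟩
  | succ h ih =>
    obtain ⟨L, hL⟩ := ih
    obtain ⟨M, Lp, hp⟩ := pop s 4
    refine ⟨2 * L + Lp + h * (2 * M) + 1, ?_⟩
    intro ι κ f0 S A bad hS hA hfree
    rcases S.eq_empty_or_nonempty with rfl | ⟨i0, hi0⟩
    · exact ⟨f0, by simp, by simp⟩
    set S' := S.erase i0 with hS'
    have hS'c : S'.card ≤ h := by rw [hS', card_erase_of_mem hi0]; omega
    set X : ι → Finset κ := fun j =>
      (A i0).filter (Popular (fun a b => bad i0 a j b) 4 (A j)) ∪
        (A i0).filter (Popular (fun a b => bad j b i0 a) 4 (A j)) with hX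
    have hXc : ∀ j ∈ S', (X j).card ≤ 2 * M := by
      intro j hj
      have hj' := mem_erase.1 hj
      have hAj := hA j hj'.2
      have e1 := hp (fun a b => bad i0 a j b) (hfree i0 j hj'.1.symm) (A j) (by omega)
        ((A i0).filter (Popular (fun a b => bad i0 a j b) 4 (A j)))
        fun z hz => (mem_filter.1 hz).2
      have e2 := hp (fun a b => bad j b i0 a) (hfree j i0 hj'.1).swap (A j) (by omega)
        ((A i0).filter (Popular (fun a b => bad j b i0 a) 4 (A j)))
        fun z hz => (mem_filter.1 hz).2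
      have := card_union_le ((A i0).filter (Popular (fun a b => bad i0 a j b) 4 (A j)))
        ((A i0).filter (Popular (fun a b => bad j b i0 a) 4 (A j)))
      simp only [hX]
      omega
    have hU : (S'.biUnion X).card < (A i0).card := by
      have e1 := card_biUnion_le_card_mul S' X (2 * M) hXc
      have e2 : S'.card * (2 * M) ≤ h * (2 * M) := Nat.mul_le_mul_right _ hS'c
      have := hA i0 hi0
      omega
    obtain ⟨a, ha, haX⟩ := exists_mem_notMem_of_card_lt_card hU
    set A' : ι → Finset κ := fun j =>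
      (A j).filter (fun b => ¬ bad i0 a j b ∧ ¬ bad j b i0 a) with hA'
    have hA'c : ∀ j ∈ S', L ≤ (A' j).card := by
      intro j hj
      have hj' := mem_erase.1 hj
      have hAj := hA j hj'.2
      have hn : a ∉ X j := fun hx => haX (mem_biUnion.2 ⟨j, hj, hx⟩)
      have n1 : ¬ Popular (fun a b => bad i0 a j b) 4 (A j) a := fun hx =>
        hn (mem_union_left _ (mem_filter.2 ⟨ha, hx⟩))
      have n2 : ¬ Popular (fun a b => bad j b i0 a) 4 (A j) a := fun hx =>
        hn (mem_union_right _ (mem_filter.2 ⟨ha, hx⟩))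
      have hsub : A j ⊆ A' j ∪ ((A j).filter (fun b => bad i0 a j b) ∪
          (A j).filter (fun b => bad j b i0 a)) := by
        intro b hb
        by_cases c1 : bad i0 a j b
        · exact mem_union_right _ (mem_union_left _ (mem_filter.2 ⟨hb, c1⟩))
        by_cases c2 : bad j b i0 a
        · exact mem_union_right _ (mem_union_right _ (mem_filter.2 ⟨hb, c2⟩))
        exact mem_union_left _ (mem_filter.2 ⟨hb, c1, c2⟩)
      have e1 := (card_le_card hsub).trans (card_union_le _ _)
      have e2 := card_union_le ((A j).filter (fun b => bad i0 a j b))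
        ((A j).filter (fun b => bad j b i0 a))
      unfold Popular at n1 n2
      beta_reduce at n1 n2
      omega
    obtain ⟨f, hf, hf'⟩ := hL f0 S' A' bad hS'c hA'c hfree
    refine ⟨Function.update f i0 a, fun i hi => ?_, fun i hi j hj hij => ?_⟩
    · by_cases e : i = i0
      · subst e
        rw [Function.update_self]
        exact ha
      · rw [Function.update_of_ne e]
        exact (mem_filter.1 (hf i (mem_erase.2 ⟨e, hi⟩))).1
    · by_cases e : i = i0
      · subst e
        rw [Function.update_self, Function.update_of_ne hij.symm]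
        exact (mem_filter.1 (hf j (mem_erase.2 ⟨hij.symm, hj⟩))).2.1
      · by_cases e' : j = i0
        · subst e'
          rw [Function.update_self, Function.update_of_ne e]
          exact (mem_filter.1 (hf i (mem_erase.2 ⟨e, hi⟩))).2.2
        · rw [Function.update_of_ne e, Function.update_of_ne e']
          exact hf' i (mem_erase.2 ⟨e, hi⟩) j (mem_erase.2 ⟨e', hj⟩) hij

theorem sel (s h : ℕ) : ∃ L : ℕ, ∀ {ι κ : Type} [Fintype ι] (A : ι → Finset κ)
    (bad : ι → κ → ι → κ → Prop), Fintype.card ι ≤ h → (∀ i, L ≤ (A i).card) →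
    (∀ i j, i ≠ j → Free s (fun a b => bad i a j b)) →
    ∃ f : ι → κ, (∀ i, f i ∈ A i) ∧ ∀ i j, i ≠ j → ¬ bad i (f i) j (f j) := by
  obtain ⟨L, hL⟩ := sel_aux s h
  refine ⟨L + 1, ?_⟩
  intro ι κ _ A bad hc hA hfree
  have hne : ∀ i, ∃ a, a ∈ A i := fun i => card_pos.1 (by have := hA i; omega)
  choose f0 _ using hne
  obtain ⟨f, hf, hf'⟩ := hL f0 univ A bad (by simpa using hc)
    (fun i _ => by have := hA i; omega) hfree
  exact ⟨f, fun i => hf i (mem_univ _), fun i j hij => hf' i (mem_univ _) j (mem_univ _) hij⟩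

theorem card_st_le {V : Type} (a v : V) : (st a v).card ≤ 2 := card_le_two

theorem card_mem_st_le {V : Type} [Fintype V] (a : V) (z : Sym2 V) :
    (univ.filter (fun v => z ∈ st a v)).card ≤ 2 := by
  have hsub : univ.filter (fun v => z ∈ st a v) ⊆
      univ.filter (fun v => s(v, v) = z) ∪ univ.filter (fun v => s(a, v) = z) := by
    intro v hv
    have := (mem_filter.1 hv).2
    simp only [st, mem_insert, mem_singleton] at this
    rcases this with h | h
    · exact mem_union_left _ (mem_filter.2 ⟨mem_univ _, h.symm⟩)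
    · exact mem_union_right _ (mem_filter.2 ⟨mem_univ _, h.symm⟩)
  have e1 : (univ.filter (fun v => s(v, v) = z)).card ≤ 1 := by
    refine card_le_one.2 fun v hv v' hv' => ?_
    have := (mem_filter.1 hv).2.trans (mem_filter.1 hv').2.symm
    rcases Sym2.eq_iff.1 this with h | h <;> exact h.1
  have e2 : (univ.filter (fun v => s(a, v) = z)).card ≤ 1 := by
    refine card_le_one.2 fun v hv v' hv' => ?_
    have := (mem_filter.1 hv).2.trans (mem_filter.1 hv').2.symm
    rcases Sym2.eq_iff.1 this with h | h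
    · exact h.2
    · exact h.2.trans h.1
  have := (card_le_card hsub).trans (card_union_le _ _)
  omega

/-- A relation seen through the two elements `st a v` on the right. -/
theorem free_st (s : ℕ) : ∃ s' : ℕ, ∀ {α V : Type} [Fintype V] (r : α → Sym2 V → Prop) (a : V),
    Free s r → Free s' (fun z v => ∃ z' ∈ st a v, r z z') := by
  obtain ⟨s', hs'⟩ := free_lab s 2 2
  refine ⟨s', ?_⟩
  intro α V _ r a hr
  have := hs' r univ (st a) hr (fun b _ => card_st_le a b) (fun z =>
    le_trans (card_le_card fun v hv => by simpa using hv) (card_mem_st_le a z))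
  exact this.sub fun z v h => ⟨mem_univ _, h⟩

/-- A relation seen through `st` on both sides. -/
theorem free_st2 (s : ℕ) : ∃ s' : ℕ, ∀ {V : Type} [Fintype V] (r : Sym2 V → Sym2 V → Prop)
    (a a' : V), Free s r → Free s' (fun v v' => ∃ z ∈ st a v, ∃ z' ∈ st a' v', r z z') := by
  obtain ⟨s1, h1⟩ := free_st s
  obtain ⟨s2, h2⟩ := free_st s1
  refine ⟨s2, ?_⟩
  intro V _ r a a' hr
  exact (h2 _ a (h1 r a' hr).swap).swap

end Pool.Agent.Lib.MP_9bef39_co
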