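import Pool.Agent.Lib.MP_9bef39_co.Heavy

open Finset
open scoped Classical

namespace Pool.Agent.Lib.MP_9bef39_co

/-- A family of clean walks of length `k + 2` with bounded multiplicities. -/
structure Sparse {V : Type} (G : SimpleGraph V) (c : Sym2 V → Sym2 V → Prop) (k f : ℕ)
    (T : Finset (ℕ → V)) : Prop where
  walk : ∀ x ∈ T, IsWalk G (k + 2) x
  clean : ∀ x ∈ T, CleanW c (k + 2) x
  mult1 : ∀ y u u' y', (T.filter (fun x => x 0 = y ∧ x 1 = u ∧ x (k + 1) = u' ∧
    x (k + 2) = y')).card ≤ f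
  mult2 : ∀ i, 2 ≤ i → i ≤ k → ∀ y z y',
    (T.filter (fun x => x 0 = y ∧ x i = z ∧ x (k + 2) = y')).card ≤ f

section
variable {V : Type}

theorem win_win {a l b m : ℕ} (x : ℕ → V) (h : a + l ≤ m) :
    win a l (win b m x) = win (b + a) l x := by
  funext n
  simp only [win]
  congr 1
  omega

theorem win_self {G : SimpleGraph V} {i : ℕ} {x : ℕ → V} (h : IsWalk G i x) : win 0 i x = x := by
  funext n
  simp only [win, zero_add]
  rcases le_total n i with hn | hn
  · rw [min_eq_left hn]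
  · rw [min_eq_right hn, h.const n hn]

theorem walk_ext {G : SimpleGraph V} {i : ℕ} {x y : ℕ → V} (hx : IsWalk G i x) (hy : IsWalk G i y)
    (h : ∀ n, n ≤ i → x n = y n) : x = y := by
  funext n
  rcases le_total n i with hn | hn
  · exact h n hn
  · rw [hx.const n hn, hy.const n hn, h i le_rfl]

theorem win_eq {a l : ℕ} {x y : ℕ → V} (h : win a l x = win a l y) {n : ℕ} (h1 : a ≤ n)
    (h2 : n ≤ a + l) : x n = y n := by
  have := congrFun h (n - a)
  simp only [win] at this
  rwa [min_eq_left (by omega), Nat.add_sub_cancel' h1] at this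

theorem cleanW_of_windows {c : Sym2 V → Sym2 V → Prop} (hs : ∀ z z', c z z' → c z' z) {m : ℕ}
    {x : ℕ → V} (h0 : CleanW c (m + 1) (win 0 (m + 1) x)) (h1 : CleanW c (m + 1) (win 1 (m + 1) x))
    (h : ¬ ∃ z ∈ st (x 1) (x 0), ∃ z' ∈ st (x (m + 1)) (x (m + 2)), c z z') :
    CleanW c (m + 2) x := by
  have e0 : ∀ a', a' ≤ 1 → s(x 0, x a') ∈ st (x 1) (x 0) := by
    intro a' ha
    obtain rfl | rfl : a' = 0 ∨ a' = 1 := by omega
    · simp [st]
    · simp [st]
  have e1 : ∀ b, m + 1 ≤ b → b ≤ m + 2 → s(x b, x (m + 2)) ∈ st (x (m + 1)) (x (m + 2)) := by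
    intro b hb hb'
    obtain rfl | rfl : b = m + 1 ∨ b = m + 2 := by omega
    · simp [st]
    · simp [st]
  intro a a' b b' i1 i2 i3 j1 j2 j3 hc
  by_cases c1 : a' ≤ m + 1 ∧ b' ≤ m + 1
  · refine h0 a a' b b' i1 i2 c1.1 j1 j2 c1.2 ?_
    simp only [win, zero_add]
    rwa [min_eq_left (by omega), min_eq_left c1.1, min_eq_left (by omega), min_eq_left c1.2]
  by_cases c2 : 1 ≤ a ∧ 1 ≤ b
  · have := h1 (a - 1) (a' - 1) (b - 1) (b' - 1) (by omega) (by omega) (by omega) (by omega)
      (by omega) (by omega) (by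
        simp only [win]
        rwa [min_eq_left (by omega), min_eq_left (by omega), min_eq_left (by omega),
          min_eq_left (by omega), Nat.add_sub_cancel' c2.1, Nat.add_sub_cancel' (by omega),
          Nat.add_sub_cancel' c2.2, Nat.add_sub_cancel' (by omega)])
    omega
  exfalso
  obtain ⟨rfl, rfl⟩ | ⟨rfl, rfl⟩ : (a = 0 ∧ b' = m + 2) ∨ (b = 0 ∧ a' = m + 2) := by omega
  · exact h ⟨_, e0 a' (by omega), _, e1 b (by omega) j1, hc⟩
  · exact h ⟨_, e0 b' (by omega), _, e1 a (by omega) i1, hs _ _ hc⟩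

/-- Walks with given ends and a given interior vertex are determined by two windows. -/
theorem card_two_win {G : SimpleGraph V} {T T₁ T₂ : Finset (ℕ → V)} {i j f : ℕ} (hij : i ≤ j)
    (hT : ∀ x ∈ T, IsWalk G j x ∧ win 0 i x ∈ T₁ ∧ win i (j - i) x ∈ T₂) (v z w : V)
    (h1 : (ends T₁ i v z).card ≤ f) (h2 : (ends T₂ (j - i) z w).card ≤ f) :
    (T.filter (fun x => x 0 = v ∧ x i = z ∧ x j = w)).card ≤ f * f := by
  refine le_trans ?_ (Nat.mul_le_mul h1 h2)
  rw [← card_product]
  refine card_le_card_of_injOn (fun x => (win 0 i x, win i (j - i) x)) ?_ ?_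
  · intro x hx
    simp only [coe_filter, Set.mem_ofPred_eq] at hx
    obtain ⟨hx, e1, e2, e3⟩ := hx
    simp only [coe_product, Set.mem_prod, mem_coe, ends, mem_filter]
    refine ⟨⟨(hT x hx).2.1, ?_, ?_⟩, (hT x hx).2.2, ?_, ?_⟩
    · simpa [win] using e1
    · simpa [win] using e2
    · simpa [win] using e2
    · simp only [win, min_self]
      rwa [Nat.add_sub_cancel' hij]
  · intro x hx y hy hxy
    simp only [coe_filter, Set.mem_ofPred_eq] at hx hy
    simp only [Prod.mk.injEq] at hxy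
    refine walk_ext (hT x hx.1).1 (hT y hy.1).1 fun n hn => ?_
    rcases le_total n i with h | h
    · exact win_eq hxy.1 (Nat.zero_le _) (by omega)
    · exact win_eq hxy.2 h (by omega)

end

/-- Few walks have a conflict between their two ends. -/
theorem card_unclean (s q : ℕ) : ∃ L : ℕ, ∀ (V : Type) [Fintype V] (G : SimpleGraph V)
    (c : Sym2 V → Sym2 V → Prop) (Δ m : ℕ), Conf s c →
    (∀ x, L ≤ (nb G x).card ∧ (nb G x).card ≤ Δ) →
    q * ((walks G (m + 2)).filter (fun x =>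
      ∃ z ∈ st (x 1) (x 0), ∃ z' ∈ st (x (m + 1)) (x (m + 2)), c z z')).card ≤
      Fintype.card V * Δ ^ (m + 2) := by
  obtain ⟨s', hs'⟩ := free_st2 s
  obtain ⟨L, hL⟩ := kst s' q
  refine ⟨L, fun V _ G c Δ m hc hd => ?_⟩
  set U := (walks G (m + 2)).filter (fun x =>
      ∃ z ∈ st (x 1) (x 0), ∃ z' ∈ st (x (m + 1)) (x (m + 2)), c z z') with hU
  have hmap : ∀ x ∈ U, win 1 m x ∈ walks G m := fun x hx =>
    mem_walks.2 ((mem_walks.1 (mem_filter.1 hx).1).win (by omega))
  rw [card_eq_sum_card_fiberwise hmap, mul_sum]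
  have hfib : ∀ p ∈ walks G m, q * (U.filter (fun x => win 1 m x = p)).card ≤ Δ * Δ := by
    intro p _
    refine le_trans ?_ (Nat.mul_le_mul (hd (p 0)).2 (hd (p m)).2)
    refine le_trans (Nat.mul_le_mul_left q ?_)
      (hL _ (hs' c (p 0) (p m) hc.free) _ _ (hd (p 0)).1 (hd (p m)).1)
    refine card_le_card_of_injOn (fun x => (x 0, x (m + 2))) ?_ ?_
    · intro x hx
      simp only [coe_filter, Set.mem_ofPred_eq, hU, mem_filter, mem_walks] at hx
      obtain ⟨⟨hw, hz⟩, rfl⟩ := hx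
      have e0 : win 1 m x 0 = x 1 := by simp [win]
      have e1 : win 1 m x m = x (m + 1) := by simp [win, add_comm]
      simp only [coe_filter, Set.mem_ofPred_eq, mem_product, nb, mem_filter, mem_univ, true_and,
        e0, e1]
      exact ⟨⟨(hw.adj 0 (by omega)).symm, hw.adj (m + 1) (by omega)⟩, hz⟩
    · intro x hx y hy hxy
      simp only [coe_filter, Set.mem_ofPred_eq, hU, mem_filter, mem_walks] at hx hy
      simp only [Prod.mk.injEq] at hxy
      refine walk_ext hx.1.1 hy.1.1 fun n hn => ?_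
      rcases Nat.eq_zero_or_pos n with rfl | h0
      · exact hxy.1
      rcases hn.eq_or_lt with rfl | h1
      · exact hxy.2
      · exact win_eq (hx.2.trans hy.2.symm) h0 (by omega)
  calc _ ≤ ∑ _p ∈ walks G m, Δ * Δ := sum_le_sum hfib
    _ = (walks G m).card * (Δ * Δ) := by rw [sum_const, smul_eq_mul]
    _ ≤ Fintype.card V * Δ ^ m * (Δ * Δ) :=
      Nat.mul_le_mul_right _ (card_walks_le (fun x => (hd x).2) m)
    _ = _ := by ring

/-- Families of good walks of all lengths up to `m`. -/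
structure GoodFam {V : Type} [Fintype V] (G : SimpleGraph V) (c : Sym2 V → Sym2 V → Prop)
    (k q f Δ m : ℕ) (g : ℕ → Finset (ℕ → V)) : Prop where
  walk : ∀ i ≤ m, ∀ x ∈ g i, IsWalk G i x
  clean : ∀ i ≤ m, ∀ x ∈ g i, CleanW c i x
  wins : ∀ i ≤ m, ∀ x ∈ g i, ∀ a l, a + l ≤ i → win a l x ∈ g l
  mult : ∀ i ≤ m, 1 ≤ i → i ≤ k → ∀ v w, (ends (g i) i v w).card ≤ f
  count : q * (walks G m \ g m).card ≤ 4 ^ m * (Fintype.card V * Δ ^ m)

theorem goodFam_one {V : Type} [Fintype V] (G : SimpleGraph V) (c : Sym2 V → Sym2 V → Prop)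
    (k q Δ : ℕ) : GoodFam G c k q 1 Δ 1 (walks G) where
  walk _ _ _ hx := mem_walks.1 hx
  clean i hi x _ a a' b b' i1 i2 i3 j1 j2 j3 _ := by omega
  wins _ _ _ hx _ _ h := mem_walks.2 ((mem_walks.1 hx).win h)
  mult i hi h1 _ v w := by
    obtain rfl : i = 1 := le_antisymm hi h1
    refine card_le_one.2 fun x hx y hy => ?_
    simp only [ends, mem_filter, mem_walks] at hx hy
    refine walk_ext hx.1 hy.1 fun n hn => ?_
    obtain rfl | rfl : n = 0 ∨ n = 1 := by omega
    · exact hx.2.1.trans hy.2.1.symm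
    · exact hx.2.2.trans hy.2.2.symm
  count := by simp

/-- The candidates for the next level. -/
noncomputable def cand {V : Type} [Fintype V] (G : SimpleGraph V) (c : Sym2 V → Sym2 V → Prop)
    (m : ℕ) (T : Finset (ℕ → V)) : Finset (ℕ → V) :=
  (walks G (m + 2)).filter (fun x => win 0 (m + 1) x ∈ T ∧ win 1 (m + 1) x ∈ T ∧ CleanW c (m + 2) x)

section
variable {V : Type} [Fintype V] {G : SimpleGraph V} {c : Sym2 V → Sym2 V → Prop}
  {k q f Δ m : ℕ} {g : ℕ → Finset (ℕ → V)}

theorem GoodFam.cand_wins (h : GoodFam G c k q f Δ (m + 1) g) {x : ℕ → V}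
    (hx : x ∈ cand G c m (g (m + 1))) {a l : ℕ} (hal : a + l ≤ m + 2) (hl : l ≤ m + 1) :
    win a l x ∈ g l := by
  obtain ⟨-, h0, h1, -⟩ := mem_filter.1 hx
  by_cases ha : a + l ≤ m + 1
  · have := h.wins _ le_rfl _ h0 a l ha
    rwa [win_win x ha, zero_add] at this
  · have := h.wins _ le_rfl _ h1 (a - 1) l (by omega)
    rwa [win_win x (by omega), Nat.add_sub_cancel' (by omega)] at this

theorem GoodFam.fam (h : GoodFam G c k q f Δ (m + 1) g) (hk : m + 2 ≤ k) :
    Fam G c (m + 2) (f * f) (cand G c m (g (m + 1))) where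
  walk x hx := mem_walks.1 (mem_filter.1 hx).1
  clean x hx := (mem_filter.1 hx).2.2.2
  mult v w z i h0 h1 := by
    refine le_trans (card_le_card fun x hx => ?_) (card_two_win (G := G) (j := m + 2)
      (T := cand G c m (g (m + 1))) (T₁ := g i) (T₂ := g (m + 2 - i)) h1.le (fun x hx =>
        ⟨mem_walks.1 (mem_filter.1 hx).1, h.cand_wins hx (by omega) (by omega),
          h.cand_wins hx (by omega) (by omega)⟩) v z w
      (h.mult i (by omega) h0 (by omega) _ _) (h.mult _ (by omega) (by omega) (by omega) _ _))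
    simp only [ends, mem_filter] at hx ⊢
    exact ⟨hx.1.1, hx.1.2.1, hx.2, hx.1.2.2⟩

theorem GoodFam.step (h : GoodFam G c k q f Δ (m + 1) g) (hs : ∀ z z', c z z' → c z' z)
    (hΔ : ∀ x, (nb G x).card ≤ Δ)
    (hU : q * ((walks G (m + 2)).filter (fun x =>
      ∃ z ∈ st (x 1) (x 0), ∃ z' ∈ st (x (m + 1)) (x (m + 2)), c z z')).card ≤
      Fintype.card V * Δ ^ (m + 2))
    (H : Finset (ℕ → V)) (hH : q * H.card ≤ Fintype.card V * Δ ^ (m + 2)) (f' : ℕ) (hf : f ≤ f')
    (hm : m + 2 ≤ k → ∀ v w, (ends (cand G c m (g (m + 1)) \ H) (m + 2) v w).card ≤ f') :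
    GoodFam G c k q f' Δ (m + 2)
      (fun i => if i = m + 2 then cand G c m (g (m + 1)) \ H else g i) where
  walk i hi x hx := by
    by_cases e : i = m + 2
    · subst e
      rw [if_pos rfl] at hx
      exact mem_walks.1 (mem_filter.1 (mem_sdiff.1 hx).1).1
    · rw [if_neg e] at hx
      exact h.walk i (by omega) x hx
  clean i hi x hx := by
    by_cases e : i = m + 2
    · subst e
      rw [if_pos rfl] at hx
      exact (mem_filter.1 (mem_sdiff.1 hx).1).2.2.2
    · rw [if_neg e] at hx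
      exact h.clean i (by omega) x hx
  wins i hi x hx a l hal := by
    by_cases e : i = m + 2
    · subst e
      rw [if_pos rfl] at hx
      by_cases e' : l = m + 2
      · obtain rfl : a = 0 := by omega
        subst e'
        rw [if_pos rfl, win_self (mem_walks.1 (mem_filter.1 (mem_sdiff.1 hx).1).1)]
        exact hx
      · rw [if_neg e']
        exact h.cand_wins (mem_sdiff.1 hx).1 hal (by omega)
    · rw [if_neg e] at hx
      rw [if_neg (by omega)]
      exact h.wins i (by omega) x hx a l hal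
  mult i hi h1 h2 v w := by
    by_cases e : i = m + 2
    · subst e
      rw [if_pos rfl]
      exact hm h2 v w
    · rw [if_neg e]
      exact (h.mult i (by omega) h1 h2 v w).trans hf
  count := by
    rw [if_pos rfl]
    set b := walks G (m + 1) \ g (m + 1) with hb
    set U := (walks G (m + 2)).filter (fun x =>
      ∃ z ∈ st (x 1) (x 0), ∃ z' ∈ st (x (m + 1)) (x (m + 2)), c z z') with hUdef
    have hsub : walks G (m + 2) \ (cand G c m (g (m + 1)) \ H) ⊆
        (((walks G (m + 1 + 1)).filter (fun x => win 0 (m + 1) x ∈ b) ∪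
          (walks G (m + 1 + 1)).filter (fun x => win 1 (m + 1) x ∈ b)) ∪ U) ∪ H := by
      intro x hx
      obtain ⟨hw, hn⟩ := mem_sdiff.1 hx
      have hw' := mem_walks.1 hw
      by_contra hc
      simp only [mem_union, not_or, mem_filter, hb, mem_sdiff, hUdef, hw, true_and, not_and,
        not_not] at hc
      obtain ⟨⟨⟨c0, c1⟩, c2⟩, c3⟩ := hc
      have d0 := c0 (mem_walks.2 (hw'.win (by omega)))
      have d1 := c1 (mem_walks.2 (hw'.win (by omega)))
      exact hn (mem_sdiff.2 ⟨mem_filter.2 ⟨hw, d0, d1,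
        cleanW_of_windows hs (h.clean _ le_rfl _ d0) (h.clean _ le_rfl _ d1) c2⟩, c3⟩)
    have h1 := (card_le_card hsub).trans ((card_union_le _ _).trans (Nat.add_le_add_right
      ((card_union_le _ _).trans (Nat.add_le_add_right ((card_union_le _ _).trans
        (Nat.add_le_add (card_ext_last hΔ (m + 1) b) (card_ext_first hΔ (m + 1) b))) _)) _))
    have h2 := Nat.mul_le_mul_right Δ h.count
    have h3 : 1 ≤ 4 ^ (m + 1) := Nat.one_le_pow _ _ (by norm_num)
    have h4 := Nat.mul_le_mul_right (Fintype.card V * Δ ^ (m + 2)) h3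
    have h5 := Nat.mul_le_mul_left q h1
    rw [← hb] at h2
    have e1 : 4 ^ (m + 1) * (Fintype.card V * Δ ^ (m + 1)) * Δ =
        4 ^ (m + 1) * (Fintype.card V * Δ ^ (m + 2)) := by ring
    have e2 : 4 ^ (m + 2) * (Fintype.card V * Δ ^ (m + 2)) =
        4 * (4 ^ (m + 1) * (Fintype.card V * Δ ^ (m + 2))) := by ring
    have e3 : q * (b.card * Δ + b.card * Δ + U.card + H.card) =
        2 * (q * b.card * Δ) + q * U.card + q * H.card := by ring
    omega

end

theorem goodFam_or_data (B : BG) (k s q m : ℕ) : ∃ f δ0 : ℕ,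
    ∀ (V : Type) [Fintype V] [Nonempty V] (G : SimpleGraph V) (c : Sym2 V → Sym2 V → Prop)
      (Δ : ℕ), Conf s c → (∀ x, δ0 ≤ (nb G x).card ∧ (nb G x).card ≤ Δ) →
      (∃ y ψ π, Data B k G c y ψ π) ∨ ∃ g, GoodFam G c k q f Δ (m + 1) g := by
  induction m with
  | zero => exact ⟨1, 0, fun V _ _ G c Δ _ _ => Or.inr ⟨_, goodFam_one G c k q Δ⟩⟩
  | succ m ih =>
    obtain ⟨f, δ0, ih⟩ := ih
    obtain ⟨L, hL⟩ := card_unclean s q
    by_cases hk : m + 2 ≤ k
    · obtain ⟨L', δ1, hh⟩ := heavy_case B k (m + 2) s (f * f) q (by omega) hk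
      refine ⟨f + L', δ0 + L + δ1, fun V _ _ G c Δ hc hd => ?_⟩
      rcases ih V G c Δ hc (fun x => ⟨by have := (hd x).1; omega, (hd x).2⟩) with h | ⟨g, h⟩
      · exact Or.inl h
      by_cases hv : Fintype.card V * Δ ^ (m + 2) ≤
          q * (heavy (cand G c m (g (m + 1))) (m + 2) L').card
      · exact Or.inl (hh V G c _ Δ hc (h.fam hk)
          (fun x => ⟨by have := (hd x).1; omega, (hd x).2⟩) hv)
      · refine Or.inr ⟨_, h.step hc.symm (fun x => (hd x).2)
          (hL V G c Δ m hc fun x => ⟨by have := (hd x).1; omega, (hd x).2⟩) _ (not_le.1 hv).le _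
          (Nat.le_add_right _ _) fun _ v w => ?_⟩
        rcases (ends (cand G c m (g (m + 1)) \ heavy (cand G c m (g (m + 1))) (m + 2) L')
          (m + 2) v w).eq_empty_or_nonempty with h0 | ⟨x, hx⟩
        · rw [h0]
          exact Nat.zero_le _
        · obtain ⟨hx1, rfl, rfl⟩ := mem_filter.1 hx
          obtain ⟨hx2, hx3⟩ := mem_sdiff.1 hx1
          have h4 : ¬ L' < (ends (cand G c m (g (m + 1))) (m + 2) (x 0) (x (m + 2))).card :=
            fun h4 => hx3 (mem_filter.2 ⟨hx2, h4⟩)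
          refine le_trans (card_le_card ?_) ((not_lt.1 h4).trans (Nat.le_add_left _ _))
          exact filter_subset_filter _ sdiff_subset
    · refine ⟨f, δ0 + L, fun V _ _ G c Δ hc hd => ?_⟩
      rcases ih V G c Δ hc (fun x => ⟨by have := (hd x).1; omega, (hd x).2⟩) with h | ⟨g, h⟩
      · exact Or.inl h
      · exact Or.inr ⟨_, h.step hc.symm (fun x => (hd x).2)
          (hL V G c Δ m hc fun x => ⟨by have := (hd x).1; omega, (hd x).2⟩) ∅ (by simp) f le_rfl
          fun h => absurd h hk⟩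

theorem good_or_data (B : BG) (k s K : ℕ) (hk : 1 ≤ k) : ∃ f δ0 : ℕ,
    ∀ (V : Type) [Fintype V] [Nonempty V] (G : SimpleGraph V) (c : Sym2 V → Sym2 V → Prop)
      (δ : ℕ), Conf s c → (∀ x, δ ≤ (nb G x).card ∧ (nb G x).card ≤ K * δ) → δ0 ≤ δ →
      (∃ y ψ π, Data B k G c y ψ π) ∨
        ∃ T, Sparse G c k f T ∧ Fintype.card V * δ ^ (k + 2) ≤ 2 * T.card := by
  obtain ⟨f, δ0, h⟩ := goodFam_or_data B k s (2 * (4 ^ (k + 2) * K ^ (k + 2))) (k + 1)
  refine ⟨f + f * f, δ0 + 1, fun V _ _ G c δ hc hd hδ => ?_⟩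
  rcases h V G c (K * δ) hc (fun x => ⟨by have := (hd x).1; omega, (hd x).2⟩) with h | ⟨g, h⟩
  · exact Or.inl h
  refine Or.inr ⟨g (k + 2), ⟨h.walk _ le_rfl, h.clean _ le_rfl, fun y u u' y' => ?_,
    fun i h1 h2 y z y' => ?_⟩, ?_⟩
  · refine le_trans ?_ ((h.mult k (by omega) hk le_rfl u u').trans (Nat.le_add_right _ _))
    refine card_le_card_of_injOn (win 1 k) ?_ ?_
    · intro x hx
      simp only [coe_filter, Set.mem_ofPred_eq] at hx
      obtain ⟨hx, -, e1, e2, -⟩ := hx
      simp only [ends, coe_filter, Set.mem_ofPred_eq]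
      refine ⟨h.wins _ le_rfl x hx 1 k (by omega), ?_, ?_⟩
      · simpa [win] using e1
      · simpa [win, add_comm] using e2
    · intro x hx x' hx' e
      simp only [coe_filter, Set.mem_ofPred_eq] at hx hx'
      refine walk_ext (h.walk _ le_rfl x hx.1) (h.walk _ le_rfl x' hx'.1) fun n hn => ?_
      rcases Nat.eq_zero_or_pos n with rfl | h0
      · exact hx.2.1.trans hx'.2.1.symm
      rcases hn.eq_or_lt with rfl | h1
      · exact hx.2.2.2.2.trans hx'.2.2.2.2.symm
      · exact win_eq e h0 (by omega)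
  · refine le_trans ?_ (Nat.le_add_left _ _)
    exact card_two_win (G := G) (T₁ := g i) (T₂ := g (k + 2 - i)) (by omega) (fun x hx =>
      ⟨h.walk _ le_rfl x hx, h.wins _ le_rfl x hx 0 i (by omega),
        h.wins _ le_rfl x hx i _ (by omega)⟩) y z y' (h.mult i (by omega) (by omega) h2 _ _)
      (h.mult _ (by omega) (by omega) (by omega) _ _)
  · have hK : 0 < K := by
      obtain ⟨x⟩ := ‹Nonempty V›
      rcases Nat.eq_zero_or_pos K with rfl | h0
      · have := hd x
        omega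
      · exact h0
    have h1 := card_walks_ge (fun x => (hd x).1) (k + 2)
    have h2 : (walks G (k + 2)).card ≤ (walks G (k + 2) \ g (k + 2)).card + (g (k + 2)).card :=
      card_le_card_sdiff_add_card
    have h3 : 4 ^ (k + 2) * K ^ (k + 2) * (2 * (walks G (k + 2) \ g (k + 2)).card) ≤
        4 ^ (k + 2) * K ^ (k + 2) * (Fintype.card V * δ ^ (k + 2)) := by
      have := h.count
      calc _ = 2 * (4 ^ (k + 2) * K ^ (k + 2)) * (walks G (k + 2) \ g (k + 2)).card := by ring
        _ ≤ _ := this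
        _ = _ := by ring
    have h4 := Nat.le_of_mul_le_mul_left h3 (by positivity)
    omega

end Pool.Agent.Lib.MP_9bef39_co
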