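import Pool.Agent.Lib.MP_9bef39_co.Walk

open Finset
open scoped Classical

namespace Pool.Agent.Lib.MP_9bef39_co

/-- Members of `A` whose first edge is covered by the grouping and whose apex is fine. -/
noncomputable def covered {V : Type} (c : Sym2 V → Sym2 V → Prop) (A : Finset (ℕ → V))
    (j L' : ℕ) (cov : V → V → Prop) (ap : V → V → V) : Finset (ℕ → V) :=
  A.filter (fun x => cov (x 1) (x 0) ∧ Fine c A j L' (ap (x 1) (x 0)) (x 0) (x j))

/-- The greedy grouping inside one finite set. -/
theorem grouping_aux {V : Type} (t : ℕ) (ht : 0 < t) (u : V → V → Prop) (n : ℕ) :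
    ∀ U : Finset V, U.card ≤ n →
    ∃ (cov : V → Prop) (S : V → Finset V) (ap : V → V),
      (∀ v, cov v → v ∈ U ∧ v ∈ S v ∧ (S v).card = t ∧ u (ap v) v ∧
        ∀ v' ∈ S v, cov v' ∧ S v' = S v ∧ ap v' = ap v) ∧
      ∀ a, (U.filter (fun v => ¬ cov v ∧ u a v)).card < t := by
  induction n with
  | zero =>
    intro U hU
    have hU0 : U = ∅ := Finset.card_eq_zero.mp (Nat.le_zero.mp hU)
    refine ⟨fun _ => False, fun _ => ∅, fun v => v, fun v hv => hv.elim, fun a => ?_⟩
    subst hU0
    simpa using ht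
  | succ n ih =>
    intro U hU
    by_cases h : ∃ a, t ≤ (U.filter (fun v => u a v)).card
    · obtain ⟨a, ha⟩ := h
      obtain ⟨S0, hS0, hcard⟩ := Finset.exists_subset_card_eq ha
      have hS0U : S0 ⊆ U := fun v hv => (Finset.mem_filter.mp (hS0 hv)).1
      have hlt : (U \ S0).card ≤ n := by
        rw [Finset.card_sdiff_of_subset hS0U]; omega
      obtain ⟨cov, S, ap, h1, h2⟩ := ih (U \ S0) hlt
      have hnot : ∀ v, cov v → v ∉ S0 := fun v hv => (Finset.mem_sdiff.mp (h1 v hv).1).2
      refine ⟨fun v => v ∈ S0 ∨ cov v, fun v => if v ∈ S0 then S0 else S v,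
        fun v => if v ∈ S0 then a else ap v, ?_, ?_⟩
      · intro v hv
        by_cases hv0 : v ∈ S0
        · simp only [hv0, if_true]
          refine ⟨hS0U hv0, trivial, hcard, (Finset.mem_filter.mp (hS0 hv0)).2, ?_⟩
          intro v' hv'
          simp [hv']
        · have hc : cov v := hv.resolve_left hv0
          obtain ⟨k1, k2, k3, k4, k5⟩ := h1 v hc
          simp only [hv0, if_false]
          refine ⟨(Finset.mem_sdiff.mp k1).1, k2, k3, k4, ?_⟩
          intro v' hv'
          obtain ⟨m1, m2, m3⟩ := k5 v' hv'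
          have hn := hnot v' m1
          simp only [hn, if_false]
          exact ⟨Or.inr m1, m2, m3⟩
      · intro a'
        refine lt_of_le_of_lt (Finset.card_le_card ?_) (h2 a')
        intro v hv
        simp only [Finset.mem_filter] at hv
        obtain ⟨m1, m2, m3⟩ := hv
        exact Finset.mem_filter.mpr ⟨Finset.mem_sdiff.mpr ⟨m1, fun h0 => m2 (Or.inl h0)⟩,
          fun h0 => m2 (Or.inr h0), m3⟩
    · refine ⟨fun _ => False, fun _ => ∅, fun v => v, fun v hv => hv.elim, fun a => ?_⟩
      have ha : (U.filter (fun v => u a v)).card < t := lt_of_not_ge (fun h0 => h ⟨a, h0⟩)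
      refine lt_of_le_of_lt (Finset.card_le_card ?_) ha
      intro v hv
      simp only [Finset.mem_filter] at hv
      obtain ⟨m1, _, m3⟩ := hv
      exact Finset.mem_filter.mpr ⟨m1, m3⟩

/-- A maximal family of disjoint `t`-sets in each neighbourhood, each usable for one apex. -/
theorem exists_grouping {V : Type} [Fintype V] (G : SimpleGraph V) (t : ℕ) (ht : 0 < t)
    (use : V → V → V → Prop) (huse : ∀ x a v, use x a v → G.Adj x v ∧ G.Adj a v) :
    ∃ cov S ap, Grouping G t cov S ap ∧ (∀ x v, cov x v → use x (ap x v) v) ∧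
      ∀ x a, (univ.filter (fun v => ¬ cov x v ∧ use x a v)).card < t := by
  have h := fun x => grouping_aux t ht (use x) (univ : Finset V).card univ le_rfl
  choose cov S ap h1 h2 using h
  refine ⟨cov, S, ap, ⟨?_, ?_, ?_, ?_⟩, ?_, h2⟩
  · intro x v hv; exact (h1 x v hv).2.1
  · intro x v hv; exact (h1 x v hv).2.2.1
  · intro x v v' hv hv'; exact (h1 x v hv).2.2.2.2 v' hv'
  · intro x v hv; exact huse _ _ _ (h1 x v hv).2.2.2.1
  · intro x v hv; exact (h1 x v hv).2.2.2.1

/-- Walks with prescribed first two vertices. -/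
theorem card_walks_two {V : Type} [Fintype V] {G : SimpleGraph V} {Δ : ℕ}
    (hΔ : ∀ x, (nb G x).card ≤ Δ) (i : ℕ) (v a : V) :
    ((walks G (i + 1)).filter (fun x => x 0 = v ∧ x 1 = a)).card ≤ Δ ^ i := by
  refine le_trans ?_ (card_walks_start hΔ i a)
  refine Finset.card_le_card_of_injOn (win 1 i) ?_ ?_
  · intro x hx
    obtain ⟨h1, _, h3⟩ := Finset.mem_filter.mp (Finset.mem_coe.mp hx)
    refine Finset.mem_coe.mpr (Finset.mem_filter.mpr ⟨mem_walks.mpr ?_, ?_⟩)
    · exact (mem_walks.mp h1).win (by omega)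
    · simpa [win] using h3
  · intro x hx y hy hxy
    obtain ⟨h1, h2, _⟩ := Finset.mem_filter.mp (Finset.mem_coe.mp hx)
    obtain ⟨k1, k2, _⟩ := Finset.mem_filter.mp (Finset.mem_coe.mp hy)
    have key : ∀ n, n ≤ i + 1 → x n = y n := by
      intro n hn
      rcases Nat.eq_zero_or_pos n with h0 | h0
      · rw [h0, h2, k2]
      · have := congrFun hxy (n - 1)
        simp only [win] at this
        have e : 1 + min (n - 1) i = n := by omega
        rwa [e] at this
    funext n
    rcases le_total n (i + 1) with hn | hn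
    · exact key n hn
    · rw [(mem_walks.mp h1).const n hn, (mem_walks.mp k1).const n hn, key _ le_rfl]

/-- If neither element of the apex is popular, many members avoid both. -/
theorem many_of_unpop {V : Type} (c : Sym2 V → Sym2 V → Prop) (A : Finset (ℕ → V)) (j : ℕ)
    (a v w : V) (h1 : ¬ Popular (Hit c j) 4 (ends A j v w) s(a, a))
    (h2 : ¬ Popular (Hit c j) 4 (ends A j v w) s(a, v)) :
    (ends A j v w).card ≤ 2 * (endsA c A j a v w).card := by
  unfold Popular at h1 h2
  have hsub : ends A j v w ⊆ endsA c A j a v w ∪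
      ((ends A j v w).filter (fun b => Hit c j s(a, a) b) ∪
        (ends A j v w).filter (fun b => Hit c j s(a, v) b)) := by
    intro x hx
    by_cases p1 : Hit c j s(a, a) x
    · exact Finset.mem_union_right _ (Finset.mem_union_left _ (Finset.mem_filter.mpr ⟨hx, p1⟩))
    · by_cases p2 : Hit c j s(a, v) x
      · exact Finset.mem_union_right _ (Finset.mem_union_right _ (Finset.mem_filter.mpr ⟨hx, p2⟩))
      · exact Finset.mem_union_left _ (Finset.mem_filter.mpr ⟨hx, p1, p2⟩)
  have hc := Finset.card_le_card hsub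
  have hu := Finset.card_union_le (endsA c A j a v w)
    ((ends A j v w).filter (fun b => Hit c j s(a, a) b) ∪
        (ends A j v w).filter (fun b => Hit c j s(a, v) b))
  have hu2 := Finset.card_union_le ((ends A j v w).filter (fun b => Hit c j s(a, a) b))
    ((ends A j v w).filter (fun b => Hit c j s(a, v) b))
  omega

/-- The exceptional members over one heavy pair of ends. -/
theorem card_exc_fiber {V : Type} [Fintype V] {G : SimpleGraph V} {c : Sym2 V → Sym2 V → Prop}
    {A : Finset (ℕ → V)} {j F M : ℕ} (hj : 2 ≤ j) (hA : Fam G c j F A) (v w : V)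
    (hM : ∀ Z : Finset (Sym2 V), (∀ z ∈ Z, Popular (Hit c j) 4 (ends A j v w) z) → Z.card ≤ M) :
    ((ends A j v w).filter (fun x => Popular (Hit c j) 4 (ends A j v w) s(x 1, x 1) ∨
      Popular (Hit c j) 4 (ends A j v w) s(x 1, v))).card ≤ 2 * M * F := by
  set P1 : Finset V := univ.filter (fun a => Popular (Hit c j) 4 (ends A j v w) s(a, a)) with hP1
  set P2 : Finset V := univ.filter (fun a => Popular (Hit c j) 4 (ends A j v w) s(a, v)) with hP2
  have c1 : P1.card ≤ M := by
    have hinj : Function.Injective (fun a : V => s(a, a)) := by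
      intro a b hab
      simpa using hab
    rw [← Finset.card_image_of_injective P1 hinj]
    refine hM _ ?_
    intro z hz
    obtain ⟨a, ha, rfl⟩ := Finset.mem_image.mp hz
    exact (Finset.mem_filter.mp ha).2
  have c2 : P2.card ≤ M := by
    have hinj : Function.Injective (fun a : V => s(a, v)) := by
      intro a b hab
      exact Sym2.congr_left.mp hab
    rw [← Finset.card_image_of_injective P2 hinj]
    refine hM _ ?_
    intro z hz
    obtain ⟨a, ha, rfl⟩ := Finset.mem_image.mp hz
    exact (Finset.mem_filter.mp ha).2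
  have hsub : (ends A j v w).filter (fun x => Popular (Hit c j) 4 (ends A j v w) s(x 1, x 1) ∨
      Popular (Hit c j) 4 (ends A j v w) s(x 1, v)) ⊆
      (P1 ∪ P2).biUnion (fun a => (ends A j v w).filter (fun x => x 1 = a)) := by
    intro x hx
    obtain ⟨h1, h2⟩ := Finset.mem_filter.mp hx
    refine Finset.mem_biUnion.mpr ⟨x 1, ?_, Finset.mem_filter.mpr ⟨h1, rfl⟩⟩
    rcases h2 with h2 | h2
    · exact Finset.mem_union_left _ (Finset.mem_filter.mpr ⟨Finset.mem_univ _, h2⟩)
    · exact Finset.mem_union_right _ (Finset.mem_filter.mpr ⟨Finset.mem_univ _, h2⟩)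
  refine le_trans (Finset.card_le_card hsub) ?_
  refine le_trans (Finset.card_biUnion_le_card_mul _ _ F
    (fun a _ => hA.mult v w a 1 (by omega) (by omega))) ?_
  have := Finset.card_union_le P1 P2
  exact Nat.mul_le_mul_right _ (by omega)

theorem grp_three (s j F qε t L' : ℕ) (hj : 3 ≤ j) (ht : 0 < t) : ∃ L δ0 : ℕ,
    ∀ (V : Type) [Fintype V] (G : SimpleGraph V) (c : Sym2 V → Sym2 V → Prop)
      (A : Finset (ℕ → V)) (Δ : ℕ), Conf s c → Fam G c j F A →
      (∀ x, δ0 ≤ (nb G x).card ∧ (nb G x).card ≤ Δ) →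
      Fintype.card V * Δ ^ j ≤ qε * (heavy A j L).card →
      ∃ cov S ap, Grouping G t cov S ap ∧
        Fintype.card V * Δ ^ j ≤ 2 * qε * (covered c A j L' cov ap).card := by
  obtain ⟨M, L1, hpop⟩ := pop_hit s j F 4 (by omega)
  refine ⟨L1 + 2 * L' + 8 * M * F, 4 * qε * t, ?_⟩
  intro V _ G c A Δ hc hA hdeg hheavy
  set L := L1 + 2 * L' + 8 * M * F with hL
  obtain ⟨cov, S, ap, hG, huse, hunc⟩ := exists_grouping G t ht
    (fun x a v => a = x ∧ G.Adj x v) (fun x a v h => ⟨h.2, h.1 ▸ h.2⟩)
  refine ⟨cov, S, ap, hG, ?_⟩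
  rcases isEmpty_or_nonempty V with hV | hV
  · simp
  obtain ⟨x0⟩ := hV
  have hΔ : 4 * qε * t ≤ Δ := le_trans (hdeg x0).1 (hdeg x0).2
  obtain ⟨i, rfl⟩ : ∃ i, j = i + 1 := ⟨j - 1, by omega⟩
  set H := heavy A (i + 1) L with hH
  set Exc := H.filter (fun x =>
    Popular (Hit c (i + 1)) 4 (ends A (i + 1) (x 0) (x (i + 1))) s(x 1, x 1) ∨
    Popular (Hit c (i + 1)) 4 (ends A (i + 1) (x 0) (x (i + 1))) s(x 1, x 0)) with hExc
  set Unc := A.filter (fun x => ¬ cov (x 1) (x 0)) with hUnc
  -- the three classes cover the heavy members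
  have hsplit : H ⊆ covered c A (i + 1) L' cov ap ∪ (Exc ∪ Unc) := by
    intro x hx
    obtain ⟨hxA, hxL⟩ := Finset.mem_filter.mp hx
    by_cases hcov : cov (x 1) (x 0)
    · by_cases hp : Popular (Hit c (i + 1)) 4 (ends A (i + 1) (x 0) (x (i + 1))) s(x 1, x 1) ∨
          Popular (Hit c (i + 1)) 4 (ends A (i + 1) (x 0) (x (i + 1))) s(x 1, x 0)
      · exact Finset.mem_union_right _ (Finset.mem_union_left _ (Finset.mem_filter.mpr ⟨hx, hp⟩))
      · refine Finset.mem_union_left _ (Finset.mem_filter.mpr ⟨hxA, hcov, ?_⟩)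
        have hap : ap (x 1) (x 0) = x 1 := (huse _ _ hcov).1
        rw [hap]
        have hcl := hA.clean x hxA
        refine ⟨?_, ?_, ?_⟩
        · have := many_of_unpop c A (i + 1) (x 1) (x 0) (x (i + 1))
            (fun h => hp (Or.inl h)) (fun h => hp (Or.inr h))
          omega
        · intro h
          have := hcl 1 1 (i + 1) (i + 1) le_rfl (by omega) (by omega) le_rfl (by omega) le_rfl h
          omega
        · intro h
          rw [Sym2.eq_swap (a := x 1) (b := x 0)] at h
          have := hcl 0 1 (i + 1) (i + 1) (by omega) (by omega) (by omega) le_rfl (by omega)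
            le_rfl h
          omega
    · exact Finset.mem_union_right _ (Finset.mem_union_right _ (Finset.mem_filter.mpr ⟨hxA, hcov⟩))
  -- exceptional members
  have hexc : 4 * Exc.card ≤ H.card := by
    rw [Finset.card_eq_sum_card_fiberwise (s := Exc) (t := (univ : Finset (V × V)))
        (f := fun x => (x 0, x (i + 1))) (fun _ _ => Finset.mem_coe.mpr (Finset.mem_univ _)),
      Finset.card_eq_sum_card_fiberwise (s := H) (t := (univ : Finset (V × V)))
        (f := fun x => (x 0, x (i + 1))) (fun _ _ => Finset.mem_coe.mpr (Finset.mem_univ _)),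
      Finset.mul_sum]
    refine Finset.sum_le_sum ?_
    rintro ⟨v, w⟩ _
    by_cases hbig : L < (ends A (i + 1) v w).card
    · have e1 : (ends A (i + 1) v w).card ≤
          (H.filter (fun x => (x 0, x (i + 1)) = (v, w))).card := by
        refine Finset.card_le_card ?_
        intro x hx
        obtain ⟨h1, h2, h3⟩ := Finset.mem_filter.mp hx
        refine Finset.mem_filter.mpr ⟨Finset.mem_filter.mpr ⟨h1, ?_⟩, ?_⟩
        · rw [h2, h3]; exact hbig
        · rw [h2, h3]
      have e2 := card_exc_fiber (M := M) (by omega) hA v w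
        (fun Z hZ => hpop G c A hc hA v w _ (fun _ h => h) (by omega) Z hZ)
      have e3 : (Exc.filter (fun x => (x 0, x (i + 1)) = (v, w))).card ≤ 2 * M * F := by
        refine le_trans (Finset.card_le_card ?_) e2
        intro x hx
        obtain ⟨h1, h2⟩ := Finset.mem_filter.mp hx
        obtain ⟨h3, h4⟩ := Finset.mem_filter.mp h1
        obtain ⟨h5, h6⟩ := Prod.mk.inj h2
        rw [h5, h6] at h4
        exact Finset.mem_filter.mpr
          ⟨Finset.mem_filter.mpr ⟨(Finset.mem_filter.mp h3).1, h5, h6⟩, h4⟩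
      have e4 : 8 * M * F = 4 * (2 * M * F) := by ring
      omega
    · have e0 : Exc.filter (fun x => (x 0, x (i + 1)) = (v, w)) = ∅ := by
        refine Finset.eq_empty_of_forall_notMem ?_
        intro x hx
        obtain ⟨h1, h2⟩ := Finset.mem_filter.mp hx
        obtain ⟨h3, _⟩ := Finset.mem_filter.mp h1
        obtain ⟨h5, h6⟩ := Prod.mk.inj h2
        have h7 := (Finset.mem_filter.mp h3).2
        rw [h5, h6] at h7
        exact hbig h7
      rw [e0]; simp
  -- uncovered members
  have hunc' : Unc.card ≤ Fintype.card V * (t * Δ ^ i) := by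
    have hsub : Unc ⊆ (univ : Finset V).biUnion (fun a =>
        (univ.filter (fun v => ¬ cov a v ∧ (a = a ∧ G.Adj a v))).biUnion (fun v =>
          (walks G (i + 1)).filter (fun x => x 0 = v ∧ x 1 = a))) := by
      intro x hx
      obtain ⟨h1, h2⟩ := Finset.mem_filter.mp hx
      have hw := hA.walk x h1
      refine Finset.mem_biUnion.mpr ⟨x 1, Finset.mem_univ _, Finset.mem_biUnion.mpr ⟨x 0, ?_, ?_⟩⟩
      · exact Finset.mem_filter.mpr ⟨Finset.mem_univ _, h2, rfl, (hw.adj 0 (by omega)).symm⟩
      · exact Finset.mem_filter.mpr ⟨mem_walks.mpr hw, rfl, rfl⟩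
    refine le_trans (Finset.card_le_card hsub) ?_
    refine le_trans (Finset.card_biUnion_le_card_mul _ _ (t * Δ ^ i) ?_) (by simp)
    intro a _
    refine le_trans (Finset.card_biUnion_le_card_mul _ _ (Δ ^ i)
      (fun v _ => card_walks_two (fun x => (hdeg x).2) i v a)) ?_
    refine Nat.mul_le_mul_right _ (le_trans (Finset.card_le_card ?_) (le_of_lt (hunc a a)))
    intro v hv
    simp only [Finset.mem_filter] at hv ⊢
    exact hv
  have hc1 := Finset.card_le_card hsplit
  have hc2 := Finset.card_union_le (covered c A (i + 1) L' cov ap) (Exc ∪ Unc)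
  have hc3 := Finset.card_union_le Exc Unc
  have h4 : 3 * H.card ≤ 4 * (covered c A (i + 1) L' cov ap).card + 4 * Unc.card := by omega
  have h5 : qε * (4 * Unc.card) ≤ Fintype.card V * Δ ^ (i + 1) := by
    calc qε * (4 * Unc.card) ≤ qε * (4 * (Fintype.card V * (t * Δ ^ i))) :=
          Nat.mul_le_mul_left _ (Nat.mul_le_mul_left _ hunc')
      _ = Fintype.card V * ((4 * qε * t) * Δ ^ i) := by ring
      _ ≤ Fintype.card V * (Δ * Δ ^ i) :=
          Nat.mul_le_mul_left _ (Nat.mul_le_mul_right _ hΔ)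
      _ = Fintype.card V * Δ ^ (i + 1) := by ring
  have h6 := Nat.mul_le_mul_left qε h4
  have h7 : qε * (3 * H.card) = 3 * (qε * H.card) := by ring
  have h8 : qε * (4 * (covered c A (i + 1) L' cov ap).card + 4 * Unc.card) =
      2 * (2 * qε * (covered c A (i + 1) L' cov ap).card) + qε * (4 * Unc.card) := by ring
  omega

end Pool.Agent.Lib.MP_9bef39_co
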