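import Pool.Agent.Lib.MP_9bef39_co.Group

open Finset
open scoped Classical

namespace Pool.Agent.Lib.MP_9bef39_co

theorem g2_two {V : Type} [Fintype V] {M : ℕ} (Q : Sym2 V → Prop)
    (h : ∀ Z : Finset (Sym2 V), (∀ z ∈ Z, Q z) → Z.card ≤ M) (v : V) :
    ∃ X : Finset V, X.card ≤ 2 * M ∧ ∀ a, (∃ z ∈ st v a, Q z) → a ∈ X := by
  have k : ∀ f : V → Sym2 V, Function.Injective f → (univ.filter (fun a => Q (f a))).card ≤ M :=
    fun f hf => by
      rw [← card_image_of_injective _ hf]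
      refine h _ fun z hz => ?_
      obtain ⟨a, ha, rfl⟩ := mem_image.1 hz
      exact (mem_filter.1 ha).2
  have k1 := k (fun a => s(a, a)) fun a b e => by simpa using e
  have k2 := k (fun a => s(v, a)) fun a b e => Sym2.congr_right.1 e
  refine ⟨_, (card_union_le _ _).trans ((add_le_add k1 k2).trans_eq (two_mul M).symm),
    fun a ha => ?_⟩
  simpa [st] using ha

theorem g2_unpop {V β : Type} {r : Sym2 V → β → Prop} {q : ℕ} {I X : Finset β} {v a : V}
    (h : ∀ z ∈ st v a, ¬ Popular r q I z) (hX : ∀ b ∈ X, b ∈ I ∧ ∃ z ∈ st v a, r z b) :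
    q * X.card ≤ 2 * I.card := by
  have k1 := not_le.1 (h s(a, a) (by simp [st]))
  have k2 := not_le.1 (h s(v, a) (by simp [st]))
  have k3 : X.card ≤
      (I.filter (fun b => r s(a, a) b)).card + (I.filter (fun b => r s(v, a) b)).card :=
    le_trans (card_le_card fun b hb => by simpa [st, and_or_left] using hX b hb) (card_union_le _ _)
  have := Nat.mul_le_mul_left q k3
  rw [mul_add] at this
  omega

theorem g2_endsA {V : Type} {c : Sym2 V → Sym2 V → Prop} {A : Finset (ℕ → V)} {a v w : V}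
    (h : ∀ z ∈ st v a, ¬ Popular (Hit c 2) 8 (ends A 2 v w) z) :
    3 * (ends A 2 v w).card ≤ 4 * (endsA c A 2 a v w).card := by
  have k1 := g2_unpop (X := (ends A 2 v w).filter (fun b => ∃ z ∈ st v a, Hit c 2 z b)) h
    fun b hb => mem_filter.1 hb
  have k2 : (ends A 2 v w).card ≤ (endsA c A 2 a v w).card +
      ((ends A 2 v w).filter (fun b => ∃ z ∈ st v a, Hit c 2 z b)).card := by
    refine le_trans (card_le_card fun b hb => ?_) (card_union_le _ _)
    simp only [endsA, mem_union, mem_filter, hb, true_and, st, mem_insert, mem_singleton,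
      exists_eq_or_imp, exists_eq_left, Sym2.eq_swap (a := v)]
    tauto
  omega

theorem g2_inner {V : Type} {p : ℕ → V} {z : Sym2 V} :
    z ∈ inner 2 p ↔ z ∈ st (p 0) (p 1) ∨ z = s(p 1, p 2) := by
  have : Ioo 0 2 = {1} := by decide
  simp [inner, st, this, range_add_one]
  tauto

theorem g2_ext {V : Type} {G : SimpleGraph V} {p p' : ℕ → V} (h : IsWalk G 2 p) (h' : IsWalk G 2 p')
    (h0 : p 0 = p' 0) (h1 : p 1 = p' 1) (h2 : p 2 = p' 2) : p = p' := by
  funext n
  rcases n with _ | _ | n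
  exacts [h0, h1, by rw [h.const _ (by omega), h'.const _ (by omega), h2]]

theorem g2_fiber {V : Type} [Fintype V] {A X : Finset (ℕ → V)} {L k : ℕ} (hX : X ⊆ heavy A 2 L)
    (h : ∀ v w, L < (ends A 2 v w).card → k * (ends X 2 v w).card ≤ (ends A 2 v w).card) :
    k * X.card ≤ (heavy A 2 L).card := by
  rw [card_eq_sum_card_fiberwise (f := fun p => (p 0, p 2)) (s := X) (t := univ) (by simp),
    card_eq_sum_card_fiberwise (f := fun p => (p 0, p 2)) (s := heavy A 2 L) (t := univ) (by simp),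
    mul_sum]
  refine sum_le_sum fun ⟨v, w⟩ _ => ?_
  rcases (X.filter (fun p => (p 0, p 2) = (v, w))).eq_empty_or_nonempty with e | ⟨p, hp⟩
  · rw [e]
    simp
  obtain ⟨h1, h2⟩ := mem_filter.1 hp
  have h3 := (mem_filter.1 (hX h1)).2
  simp only [Prod.mk.injEq] at h2 ⊢
  rw [h2.1, h2.2] at h3
  refine (h v w h3).trans (card_le_card fun p' hp' => ?_)
  obtain ⟨h4, h5⟩ := mem_filter.1 hp'
  exact mem_filter.2 ⟨mem_filter.2 ⟨h4, by rwa [h5.1, h5.2]⟩, h5⟩

theorem grp_two (s F qε t L' : ℕ) (ht : 0 < t) : ∃ L δ0 : ℕ,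
    ∀ (V : Type) [Fintype V] (G : SimpleGraph V) (c : Sym2 V → Sym2 V → Prop)
      (A : Finset (ℕ → V)) (Δ : ℕ), Conf s c → Fam G c 2 F A →
      (∀ x, δ0 ≤ (nb G x).card ∧ (nb G x).card ≤ Δ) →
      Fintype.card V * Δ ^ 2 ≤ qε * (heavy A 2 L).card →
      ∃ cov S ap, Grouping G t cov S ap ∧
        Fintype.card V * Δ ^ 2 ≤ 2 * qε * (covered c A 2 L' cov ap).card := by
  obtain ⟨s1, hs1⟩ := free_st s
  obtain ⟨M1, L1, hp1⟩ := pop s1 (16 * qε)
  obtain ⟨M, Lp, hp⟩ := pop_hit s 2 F 8 le_rfl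
  obtain ⟨L, l1, l2, l3, l4, l5⟩ : ∃ L, 16 * qε * t ≤ L ∧ 8 * M1 ≤ L ∧ 8 * (2 * M * L' + 2 * M) ≤ L ∧
      2 * L' ≤ L ∧ Lp ≤ L :=
    ⟨16 * qε * t + 8 * M1 + 8 * (2 * M * L' + 2 * M) + 2 * L' + Lp, by omega⟩
  refine ⟨L, L1, fun V _ G c A Δ hc hA hd hh => ?_⟩
  let r : V → Sym2 V → V → Prop := fun x z w => ∃ z' ∈ st x w, c z z'
  let use : V → V → V → Prop := fun x a v => (G.Adj x v ∧ G.Adj a v) ∧
    (∀ z ∈ st v a, ¬ Popular (r x) (16 * qε) (nb G x) z) ∧ ∀ z ∈ st v a, ∀ z' ∈ st v x, ¬ c z z'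
  obtain ⟨cov, S, ap, hg, hu, hmax⟩ := exists_grouping G t ht use fun _ _ _ h => h.1
  refine ⟨cov, S, ap, hg, ?_⟩
  set H := heavy A 2 L with hH
  have hw : ∀ p ∈ H, IsWalk G 2 p := fun p hp => hA.walk p (mem_filter.1 hp).1
  let P : V → V → V → Prop := fun v w a => ∃ z ∈ st v a, Popular (Hit c 2) 8 (ends A 2 v w) z
  let Q : V → V → V → Prop := fun x v w => cov x v ∧ ∃ z ∈ st v (ap x v), r x z w
  let C1 := H.filter fun p => Q (p 1) (p 0) (p 2)
  let C2 := H.filter fun p => P (p 0) (p 2) (p 1) ∨ ∃ a, P (p 0) (p 2) a ∧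
    p ∈ endsA c A 2 a (p 0) (p 2) ∧ (endsA c A 2 a (p 0) (p 2)).card < L'
  let C3 := H.filter fun p => ¬ cov (p 1) (p 0) ∧ ¬ P (p 0) (p 2) (p 1)
  have b0 : H.card ≤ (covered c A 2 L' cov ap).card + C1.card + C2.card + C3.card := by
    refine le_trans (card_le_card fun p hp => ?_) ((card_union_le _ _).trans (Nat.add_le_add_right
      ((card_union_le _ _).trans (Nat.add_le_add_right (card_union_le _ _) _)) _))
    obtain ⟨h1, h2⟩ := mem_filter.1 hp
    simp only [mem_union, covered, C1, C2, C3, Q, mem_filter, hp, h1, true_and]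
    by_contra h
    push Not at h
    obtain ⟨⟨⟨g1, g2⟩, g3, g4⟩, g5⟩ := h
    have g6 : cov (p 1) (p 0) := by_contra fun e => g3 (g5 e)
    obtain ⟨-, -, g7⟩ := hu _ _ g6
    have g8 := g2 g6
    generalize ap (p 1) (p 0) = a at g1 g7 g8
    have m1 : s(a, a) ∈ st (p 0) a := by simp [st]
    have m2 : s(a, p 0) ∈ st (p 0) a := by simp [st]
    have g9 : ∀ z ∈ st (p 0) a, ¬ Hit c 2 z p := by
      rintro z hz ⟨z', h3, h4⟩
      rcases g2_inner.1 h3 with h3 | rfl
      · exact g7 z hz z' h3 h4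
      · exact g8 z hz ⟨_, by simp [st], h4⟩
    refine g1 g6 ⟨?_, fun e => g8 _ m1 ⟨_, by simp [st], e⟩, fun e => g8 _ m2 ⟨_, by simp [st], e⟩⟩
    by_cases e : P (p 0) (p 2) a
    · exact g4 a e (mem_filter.2 ⟨mem_filter.2 ⟨h1, rfl, rfl⟩, g9 _ m1, g9 _ m2⟩)
    · have := g2_endsA fun z hz h => e ⟨z, hz, h⟩
      omega
  have b1 : 16 * qε * C1.card ≤ Fintype.card V * (Δ * (2 * Δ)) := by
    have k : C1.card ≤ (univ.sigma fun x => (nb G x).sigma fun v => (nb G x).filter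
        (Q x v)).card := by
      refine card_le_card_of_injOn (fun p => ⟨p 1, p 0, p 2⟩) (fun p hp => ?_) fun p hp p' hp' e => ?_
      · obtain ⟨h1, h2⟩ := mem_filter.1 hp
        simp only [mem_coe, mem_sigma, mem_filter, mem_univ, nb, true_and]
        exact ⟨((hw p h1).adj 0 (by omega)).symm, (hw p h1).adj 1 (by omega), h2⟩
      · simp only [Sigma.mk.injEq, heq_eq_eq] at e
        exact g2_ext (hw p (mem_filter.1 hp).1) (hw p' (mem_filter.1 hp').1) e.2.1 e.1 e.2.2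
    refine (Nat.mul_le_mul_left _ k).trans ?_
    rw [card_sigma, mul_sum]
    refine (sum_le_card_nsmul _ _ _ fun x _ => ?_).trans_eq (smul_eq_mul _ _)
    rw [card_sigma, mul_sum]
    refine (sum_le_card_nsmul _ _ (2 * Δ) fun v _ => ?_).trans (Nat.mul_le_mul_right _ (hd x).2)
    by_cases e : cov x v
    · exact (g2_unpop (hu x v e).2.1 fun b hb => ⟨(mem_filter.1 hb).1, (mem_filter.1 hb).2.2⟩).trans
        (Nat.mul_le_mul_left _ (hd x).2)
    · simp [Q, e]
  have b2 : 8 * C2.card ≤ H.card := by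
    refine g2_fiber (filter_subset _ _) fun v w h => le_trans ?_ (l3.trans h.le)
    obtain ⟨X, k, k'⟩ := g2_two _ (hp G c A hc hA v w _ Subset.rfl (by omega)) v
    have k1 : ((ends A 2 v w).filter fun p => P v w (p 1)).card ≤ 2 * M := by
      refine le_trans (card_le_card_of_injOn (fun p => p 1) (fun p hp => ?_) fun p hp p' hp' e => ?_) k
      · exact k' _ (mem_filter.1 hp).2
      · obtain ⟨h1, h2, h3⟩ := mem_filter.1 (mem_filter.1 hp).1
        obtain ⟨h4, h5, h6⟩ := mem_filter.1 (mem_filter.1 hp').1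
        exact g2_ext (hA.walk p h1) (hA.walk p' h4) (h2.trans h5.symm) e (h3.trans h6.symm)
    have k2 : (X.biUnion fun a =>
        if (endsA c A 2 a v w).card < L' then endsA c A 2 a v w else ∅).card ≤ 2 * M * L' := by
      refine (card_biUnion_le_card_mul _ _ L' fun a _ => ?_).trans (Nat.mul_le_mul_right _ k)
      split_ifs with e
      exacts [e.le, by simp]
    refine Nat.mul_le_mul_left _ (le_trans (card_le_card fun p hp => ?_) ((card_union_le _ _).trans
      (add_le_add k2 k1)))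
    obtain ⟨h1, rfl, rfl⟩ := mem_filter.1 hp
    obtain ⟨h2, h3 | ⟨a, h3, h4, h5⟩⟩ := mem_filter.1 h1
    · exact mem_union_right _ (mem_filter.2 ⟨mem_filter.2 ⟨(mem_filter.1 h2).1, rfl, rfl⟩, h3⟩)
    · exact mem_union_left _ (mem_biUnion.2 ⟨a, k' _ h3, by rwa [if_pos h5]⟩)
  have b3 : C3.card * L ≤ 2 * (Fintype.card V * (Δ * (Δ * t))) := by
    let Y : (ℕ → V) → Finset V := fun p => (nb G (p 2)).filter fun a => use (p 1) a (p 0)
    have k1 : ∀ p ∈ C3, L ≤ 2 * (Y p).card := fun p hp => by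
      obtain ⟨h1, -, h2⟩ := mem_filter.1 hp
      have h3 := (mem_filter.1 h1).2
      have h4 := g2_endsA fun z hz h => h2 ⟨z, hz, h⟩
      obtain ⟨X, h5, k'⟩ := g2_two _ (hp1 (r (p 1)) (hs1 c _ hc.free) _ (hd (p 1)).1) (p 0)
      have h6 : (endsA c A 2 (p 1) (p 0) (p 2)).card ≤ (Y p).card + 2 * M1 := by
        refine le_trans (card_le_card_of_injOn (fun p' => p' 1) (fun p' hp' => ?_)
          fun p' hp' p'' hp'' e => ?_) ((card_union_le _ _).trans (Nat.add_le_add_left h5 _))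
        · obtain ⟨g1, g2, g3⟩ := mem_filter.1 hp'
          obtain ⟨g4, g5, g6⟩ := mem_filter.1 g1
          have g7 := hA.walk p' g4
          rw [mem_coe, mem_union, or_iff_not_imp_right]
          refine fun e => mem_filter.2 ⟨mem_filter.2 ⟨mem_univ _, g6 ▸ (g7.adj 1 (by omega)).symm⟩,
            ⟨((hw p h1).adj 0 (by omega)).symm, g5 ▸ (g7.adj 0 (by omega)).symm⟩,
            fun z hz e' => e (k' _ ⟨z, hz, e'⟩), fun z hz z' hz' e' => ?_⟩
          have g8 : Hit c 2 z' p' := ⟨z, g2_inner.2 (Or.inl (g5 ▸ hz)), hc.symm _ _ e'⟩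
          simp only [st, mem_insert, mem_singleton] at hz'
          rcases hz' with rfl | rfl
          · exact g2 g8
          · exact g3 (Sym2.eq_swap ▸ g8)
        · obtain ⟨g1, g2, g3⟩ := mem_filter.1 (mem_filter.1 hp').1
          obtain ⟨g4, g5, g6⟩ := mem_filter.1 (mem_filter.1 hp'').1
          exact g2_ext (hA.walk _ g1) (hA.walk _ g4) (g2.trans g5.symm) e (g3.trans g6.symm)
      omega
    have k2 : (C3.sigma Y).card ≤ (univ.sigma fun x => (nb G x).sigma fun w => (nb G w).sigma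
        fun a => univ.filter fun v => ¬ cov x v ∧ use x a v).card := by
      refine card_le_card_of_injOn (fun y => ⟨y.1 1, y.1 2, y.2, y.1 0⟩) (fun y hy => ?_)
        fun y hy y' hy' e => ?_
      · obtain ⟨h1, h2⟩ := mem_sigma.1 hy
        obtain ⟨h3, h4, -⟩ := mem_filter.1 h1
        obtain ⟨h5, h6⟩ := mem_filter.1 h2
        exact mem_sigma.2 ⟨mem_univ _, mem_sigma.2 ⟨mem_filter.2 ⟨mem_univ _, (hw _ h3).adj 1 (by omega)⟩,
          mem_sigma.2 ⟨h5, mem_filter.2 ⟨mem_univ _, h4, h6⟩⟩⟩⟩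
      · simp only [Sigma.mk.injEq, heq_eq_eq] at e
        exact Sigma.ext (g2_ext (hw _ (mem_filter.1 (mem_sigma.1 hy).1).1)
          (hw _ (mem_filter.1 (mem_sigma.1 hy').1).1) e.2.2.2 e.1 e.2.1) (heq_of_eq e.2.2.1)
    refine (card_nsmul_le_sum _ _ _ k1).trans ?_
    rw [← mul_sum, ← card_sigma]
    refine Nat.mul_le_mul_left _ (k2.trans ?_)
    rw [card_sigma]
    refine (sum_le_card_nsmul _ _ _ fun x _ => ?_).trans_eq (smul_eq_mul _ _)
    rw [card_sigma]
    refine (sum_le_card_nsmul _ _ (Δ * t) fun w _ => ?_).trans (Nat.mul_le_mul_right _ (hd x).2)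
    rw [card_sigma]
    refine (sum_le_card_nsmul _ _ t fun a _ => le_trans (card_le_card fun v hv => ?_)
      (hmax x a).le).trans (Nat.mul_le_mul_right _ (hd w).2)
    simpa only [mem_filter] using hv
  have b4 : 16 * qε * C3.card ≤ 2 * (Fintype.card V * Δ ^ 2) := by
    refine Nat.le_of_mul_le_mul_right ?_ ht
    have := Nat.mul_le_mul_left C3.card l1
    nlinarith
  have b5 := Nat.mul_le_mul_left qε b0
  have b6 := Nat.mul_le_mul_left qε b2
  nlinarith

end Pool.Agent.Lib.MP_9bef39_co
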