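import Pool.Agent.Lib.MP_9bef39_co.Group2
import Pool.Agent.Lib.MP_9bef39_co.Extract
import Pool.Agent.Lib.MP_9bef39_co.BaseData

open Finset
open scoped Classical

namespace Pool.Agent.Lib.MP_9bef39_co

theorem heavy_case (B : BG) (k j s F qε : ℕ) (hj : 2 ≤ j) (hjk : j ≤ k) : ∃ L δ0 : ℕ,
    ∀ (V : Type) [Fintype V] [Nonempty V] (G : SimpleGraph V) (c : Sym2 V → Sym2 V → Prop)
      (A : Finset (ℕ → V)) (Δ : ℕ), Conf s c → Fam G c j F A →
      (∀ x, δ0 ≤ (nb G x).card ∧ (nb G x).card ≤ Δ) →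
      Fintype.card V * Δ ^ j ≤ qε * (heavy A j L).card → ∃ y ψ π, Data B k G c y ψ π := by
  obtain ⟨q, μ, L1, h1⟩ := data_of_base B k j s F hj hjk
  obtain ⟨t, μ0, μ1, L0, ht, h2⟩ :=
    base_of_dense s j F (2 * (2 * qε) * F) q μ (Fintype.card B.W) hj
  set L' := L0 + L1 + (2 * (2 * qε) * (μ0 * F + μ1 * F ^ 2) + 1) with hL'
  have h3 : ∃ L δ0 : ℕ,
    ∀ (V : Type) [Fintype V] (G : SimpleGraph V) (c : Sym2 V → Sym2 V → Prop)
      (A : Finset (ℕ → V)) (Δ : ℕ), Conf s c → Fam G c j F A →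
      (∀ x, δ0 ≤ (nb G x).card ∧ (nb G x).card ≤ Δ) →
      Fintype.card V * Δ ^ j ≤ qε * (heavy A j L).card →
      ∃ cov S ap, Grouping G t cov S ap ∧
        Fintype.card V * Δ ^ j ≤ 2 * qε * (covered c A j L' cov ap).card := by
    rcases Nat.lt_or_ge 2 j with h | h
    · exact grp_three s j F qε t L' h ht
    · obtain rfl : j = 2 := le_antisymm h hj
      exact grp_two s F qε t L' ht
  obtain ⟨L, δ0, h3⟩ := h3
  refine ⟨L, δ0 + 1, ?_⟩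
  intro V _ _ G c A Δ hc hA hd hh
  obtain ⟨cov, S, ap, hg, hcov⟩ :=
    h3 V G c A Δ hc hA (fun x => ⟨(Nat.le_succ _).trans (hd x).1, (hd x).2⟩) hh
  have hΔ1 : 1 ≤ Δ := by
    obtain ⟨x⟩ := ‹Nonempty V›
    have := hd x
    omega
  obtain ⟨a, S₀, J, D, E, hD⟩ := exists_dense (μ0 := μ0) (μ1 := μ1) hj ht hA
    (fun x => (hd x).2) hΔ1 hg (by omega) hcov
  obtain ⟨v, J', hB⟩ := h2 V B.W G c A L' Δ a S₀ J D E hc hA (fun x => (hd x).2) hΔ1 le_rfl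
    (by omega) hD
  exact h1 V G c A L' a v J' D E hc hA (by omega) hB

end Pool.Agent.Lib.MP_9bef39_co
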