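import Pool.Agent.Lib.MP_9bef39_co.Good

open Finset
open scoped Classical

namespace Pool.Agent.Lib.MP_9bef39_co

namespace LightX

variable {V : Type}

/-- The reversed walk. -/
def rev (m : ℕ) (x : ℕ → V) : ℕ → V := fun n => x (m - n)

theorem rev_adj {G : SimpleGraph V} {m : ℕ} {x : ℕ → V} (h : IsWalk G m x) (n : ℕ)
    (hn : n < m) : G.Adj (rev m x n) (rev m x (n + 1)) := by
  have h1 := h.adj (m - (n + 1)) (by omega)
  have e : m - (n + 1) + 1 = m - n := by omega
  rw [e] at h1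
  exact h1.symm

theorem rev_clean {c : Sym2 V → Sym2 V → Prop} {m : ℕ} {x : ℕ → V} (h : CleanW c m x) :
    CleanW c m (rev m x) := by
  intro a a' b b' h1 h2 h3 h4 h5 h6 hc
  unfold rev at hc
  rw [Sym2.eq_swap (a := x (m - a)), Sym2.eq_swap (a := x (m - b))] at hc
  have := h (m - a') (m - a) (m - b') (m - b) (by omega) (by omega) (by omega) (by omega)
    (by omega) (by omega) hc
  omega

theorem rev_inner {k : ℕ} {x : ℕ → V} {z : Sym2 V}
    (hz : z ∈ inner k (win 1 k (rev (k + 2) x))) : z ∈ inner k (win 1 k x) := by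
  unfold inner at hz ⊢
  rcases Finset.mem_union.mp hz with h | h
  · obtain ⟨n, hn, rfl⟩ := Finset.mem_image.mp h
    rw [Finset.mem_Ioo] at hn
    refine Finset.mem_union_left _ (Finset.mem_image.mpr ⟨k - n, ?_, ?_⟩)
    · rw [Finset.mem_Ioo]; omega
    · have e : 1 + min (k - n) k = k + 2 - (1 + min n k) := by omega
      simp only [win, rev, e]
  · obtain ⟨n, hn, rfl⟩ := Finset.mem_image.mp h
    rw [Finset.mem_range] at hn
    refine Finset.mem_union_right _ (Finset.mem_image.mpr ⟨k - 1 - n, ?_, ?_⟩)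
    · rw [Finset.mem_range]; omega
    · have e1 : 1 + min (k - 1 - n) k = k + 2 - (1 + min (n + 1) k) := by omega
      have e2 : 1 + min (k - 1 - n + 1) k = k + 2 - (1 + min n k) := by omega
      simp only [win, rev, e1, e2]
      exact Sym2.eq_swap

theorem col_ne {B : BG} {a b : B.W} (h : B.graph.Adj a b) : B.col a ≠ B.col b := by
  obtain ⟨e, h | h⟩ := h
  · rw [h.1, h.2, B.col_lo, B.col_hi]; decide
  · rw [h.1, h.2, B.col_lo, B.col_hi]; decide

theorem adj_lo_hi (B : BG) (e : B.E) : B.graph.Adj (B.lo e) (B.hi e) :=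
  ⟨e, Or.inl ⟨rfl, rfl⟩⟩

theorem eq_of_near {B : BG} {a b : B.W} (h : Near B.graph a b) (hc : B.col a = B.col b) :
    a = b := h.resolve_right (fun h' => col_ne h' hc)

/-- From a clean copy of `B` in the auxiliary host to the data for `L_k(B)`. -/
theorem core (B : BG) (k : ℕ) {A : Type} {G : SimpleGraph V} {c : Sym2 V → Sym2 V → Prop}
    (G' : SimpleGraph A) (side : A → Bool) (val : A → V) (Y : Bool → V) (P : A → A → ℕ → V)
    (lab : Sym2 A → Finset (Sym2 V))
    (hs : ∀ a b, G'.Adj a b → side a ≠ side b)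
    (h0 : ∀ a b, G'.Adj a b → P a b 0 = Y (side a))
    (h1 : ∀ a b, G'.Adj a b → P a b 1 = val a)
    (h2 : ∀ a b, G'.Adj a b → P a b (k + 1) = val b)
    (h3 : ∀ a b, G'.Adj a b → P a b (k + 2) = Y (side b))
    (hadj : ∀ a b, G'.Adj a b → ∀ n, n < k + 2 → G.Adj (P a b n) (P a b (n + 1)))
    (hcl : ∀ a b, G'.Adj a b → CleanW c (k + 2) (P a b))
    (hl1 : ∀ a, ∀ z ∈ st (Y (side a)) (val a), z ∈ lab s(a, a))
    (hl2 : ∀ a b, G'.Adj a b → ∀ z ∈ inner k (win 1 k (P a b)), z ∈ lab s(a, b))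
    {φ : B.W → A}
    (hφ : CleanHom B.graph G' (fun ζ ζ' => ζ = ζ' ∨ ∃ z ∈ lab ζ, ∃ z' ∈ lab ζ', c z z') φ) :
    ∃ y ψ π, Data B k G c y ψ π := by
  have hE : ∀ e, G'.Adj (φ (B.lo e)) (φ (B.hi e)) := fun e => hφ.adj _ _ (adj_lo_hi B e)
  have hconn : ∀ a b, side (φ a) = B.col a → side (φ b) = B.col b := by
    refine B.conn (fun w => side (φ w) = B.col w) ?_
    intro e
    have := hs _ _ (hE e)
    rw [B.col_lo, B.col_hi]
    revert this
    cases side (φ (B.lo e)) <;> cases side (φ (B.hi e)) <;> simp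
  obtain ⟨σ, hσ⟩ : ∃ σ : Bool → Bool, ∀ w, side (φ w) = σ (B.col w) := by
    by_cases h : ∃ a, side (φ a) = B.col a
    · obtain ⟨a, ha⟩ := h
      exact ⟨id, fun w => hconn a w ha⟩
    · refine ⟨fun b => !b, fun w => ?_⟩
      have : side (φ w) ≠ B.col w := fun h' => h ⟨w, h'⟩
      revert this
      cases side (φ w) <;> cases B.col w <;> simp
  refine ⟨fun b => Y (σ b), fun w => val (φ w), fun e => P (φ (B.lo e)) (φ (B.hi e)), ?_⟩
  refine ⟨?_, ?_, ?_, ?_, ?_, ?_, ?_, ?_, ?_⟩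
  · intro e
    rw [h0 _ _ (hE e), hσ, B.col_lo]
  · intro e
    exact h1 _ _ (hE e)
  · intro e
    exact h2 _ _ (hE e)
  · intro e
    rw [h3 _ _ (hE e), hσ, B.col_hi]
  · intro e
    exact hadj _ _ (hE e)
  · intro e
    exact hcl _ _ (hE e)
  · intro w w' hne hna z hz z' hz' hc
    rw [← hσ] at hz hz'
    have := (hφ.clean w w w' w' (Or.inl rfl) (Or.inl rfl)
      (Or.inr ⟨z, hl1 _ z hz, z', hl1 _ z' hz', hc⟩)).1
    rcases this with h | h
    · exact hne h
    · exact hna h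
  · intro w e hlo hhi z hz z' hz' hc
    rw [← hσ] at hz
    have := hφ.clean w w (B.lo e) (B.hi e) (Or.inl rfl) (Or.inr (adj_lo_hi B e))
      (Or.inr ⟨z, hl1 _ z hz, z', hl2 _ _ (hE e) z' hz', hc⟩)
    have ha := col_ne (this.1.resolve_left hlo)
    have hb := col_ne (this.2.1.resolve_left hhi)
    rw [B.col_lo] at ha
    rw [B.col_hi] at hb
    revert ha hb
    cases B.col w <;> simp
  · intro e e' hne z hz z' hz' hc
    have := hφ.clean (B.lo e) (B.hi e) (B.lo e') (B.hi e') (Or.inr (adj_lo_hi B e))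
      (Or.inr (adj_lo_hi B e'))
      (Or.inr ⟨z, hl2 _ _ (hE e) z hz, z', hl2 _ _ (hE e') z' hz', hc⟩)
    exact hne (B.inj e e' (eq_of_near this.1 (by rw [B.col_lo, B.col_lo]))
      (eq_of_near this.2.2.2 (by rw [B.col_hi, B.col_hi])))

theorem free_lab_univ (s w μ : ℕ) : ∃ s' : ℕ, ∀ {α β β' : Type} [Fintype β']
    (r : α → β → Prop) (lab : β' → Finset β), Free s r → (∀ b, (lab b).card ≤ w) →
    (∀ z (S : Finset β'), (∀ b ∈ S, z ∈ lab b) → S.card ≤ μ) →
    Free s' (fun a b => ∃ z ∈ lab b, r a z) := by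
  obtain ⟨s1, hs1⟩ := free_lab s w μ
  refine ⟨s1, ?_⟩
  intro α β β' _ r lab hr hw hμ
  refine (hs1 r univ lab hr (fun b _ => hw b)
    (fun z => hμ z _ (fun b hb => (Finset.mem_filter.mp hb).2))).sub ?_
  intro a b h
  exact ⟨mem_univ _, h⟩

/-- The conflict relation seen through labels is again a conflict relation. -/
theorem conf_lab (s w μ : ℕ) : ∃ s' : ℕ, ∀ {V A : Type} [Fintype A]
    (c : Sym2 V → Sym2 V → Prop) (lab : Sym2 A → Finset (Sym2 V)), Conf s c →
    (∀ ζ, (lab ζ).card ≤ w) →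
    (∀ z (S : Finset (Sym2 A)), (∀ ζ ∈ S, z ∈ lab ζ) → S.card ≤ μ) →
    Conf s' (fun ζ ζ' => ζ = ζ' ∨ ∃ z ∈ lab ζ, ∃ z' ∈ lab ζ', c z z') := by
  obtain ⟨s1, hs1⟩ := free_lab_univ s w μ
  obtain ⟨s2, hs2⟩ := free_lab_univ s1 w μ
  obtain ⟨s3, hs3⟩ := free_or (1 + 1) s2
  refine ⟨s3, ?_⟩
  intro V A _ c lab hc hw hμ
  refine ⟨fun _ => Or.inl rfl, ?_, ?_⟩
  · rintro ζ ζ' (h | ⟨z, hz, z', hz', h⟩)
    · exact Or.inl h.symm
    · exact Or.inr ⟨z', hz', z, hz, hc.symm _ _ h⟩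
  · have a1 := hs1 c lab hc.free hw hμ
    have a2 := hs2 _ lab a1.swap hw hμ
    refine hs3 _ _ ?_ a2.swap
    refine (free_mem (M := 1) (fun b : Sym2 A => ({b} : Finset (Sym2 A))) ?_).sub ?_
    · intro b; simp
    · intro a b h; simp [h]

/-- Few members of a sparse family with fixed ends carry a given inner element. -/
theorem card_inner_mult {G : SimpleGraph V} {c : Sym2 V → Sym2 V → Prop} {k f : ℕ} (hk : 1 ≤ k)
    {T : Finset (ℕ → V)} (hT : Sparse G c k f T) {y y' : V}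
    (hy : ∀ x ∈ T, x 0 = y ∧ x (k + 2) = y') (z : Sym2 V) (S : Finset (ℕ → V))
    (hS : ∀ x ∈ S, x ∈ T ∧ z ∈ inner k (win 1 k x)) : S.card ≤ (2 * k + 4) * f := by
  induction z using Sym2.ind with
  | _ p q =>
  have hpq : ({p, q} : Finset V).card ≤ 2 := Finset.card_le_two
  rcases Nat.lt_or_ge k 2 with h | h
  · obtain rfl : k = 1 := by omega
    have hsub : S ⊆ (({p, q} : Finset V) ×ˢ ({p, q} : Finset V)).biUnion
        (fun u => T.filter (fun x => x 0 = y ∧ x 1 = u.1 ∧ x (1 + 1) = u.2 ∧ x (1 + 2) = y')) := by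
      intro x hx
      obtain ⟨hxT, hz⟩ := hS x hx
      have hz' : s(x 1, x 2) = s(p, q) := by
        unfold inner at hz
        rcases Finset.mem_union.mp hz with h' | h'
        · obtain ⟨n, hn, -⟩ := Finset.mem_image.mp h'
          rw [Finset.mem_Ioo] at hn
          omega
        · obtain ⟨n, hn, he⟩ := Finset.mem_image.mp h'
          rw [Finset.mem_range] at hn
          obtain rfl : n = 0 := by omega
          simpa [win] using he
      have m1 : x 1 ∈ s(p, q) := by rw [← hz']; exact Sym2.mem_mk_left _ _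
      have m2 : x 2 ∈ s(p, q) := by rw [← hz']; exact Sym2.mem_mk_right _ _
      rw [Sym2.mem_iff] at m1 m2
      refine Finset.mem_biUnion.mpr ⟨(x 1, x 2), ?_, ?_⟩
      · simp only [Finset.mem_product, Finset.mem_insert, Finset.mem_singleton]
        exact ⟨m1, m2⟩
      · exact Finset.mem_filter.mpr ⟨hxT, (hy x hxT).1, rfl, rfl, (hy x hxT).2⟩
    refine (Finset.card_le_card hsub).trans ?_
    refine (Finset.card_biUnion_le_card_mul _ _ f (fun u _ => hT.mult1 y u.1 u.2 y')).trans ?_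
    rw [Finset.card_product]
    refine Nat.mul_le_mul_right _ ?_
    nlinarith
  · have hsub : S ⊆ ((Ioo 0 k) ×ˢ ({p, q} : Finset V)).biUnion
        (fun u => T.filter (fun x => x 0 = y ∧ x (u.1 + 1) = u.2 ∧ x (k + 2) = y')) := by
      intro x hx
      obtain ⟨hxT, hz⟩ := hS x hx
      obtain ⟨n, hn0, hnk, hm⟩ := exists_interior_of_mem_inner h hz
      have e : win 1 k x n = x (n + 1) := by
        have : 1 + min n k = n + 1 := by omega
        simp only [win, this]
      rw [e, Sym2.mem_iff] at hm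
      refine Finset.mem_biUnion.mpr ⟨(n, x (n + 1)), ?_, ?_⟩
      · simp only [Finset.mem_product, Finset.mem_insert, Finset.mem_singleton, Finset.mem_Ioo]
        exact ⟨⟨hn0, hnk⟩, hm⟩
      · exact Finset.mem_filter.mpr ⟨hxT, (hy x hxT).1, rfl, (hy x hxT).2⟩
    refine (Finset.card_le_card hsub).trans ?_
    refine (Finset.card_biUnion_le_card_mul _ _ f (fun u hu => ?_)).trans ?_
    · have := Finset.mem_Ioo.mp (Finset.mem_product.mp hu).1
      exact hT.mult2 (u.1 + 1) (by omega) (by omega) y u.2 y'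
    · rw [Finset.card_product, Nat.card_Ioo]
      refine Nat.mul_le_mul_right _ ?_
      have : (k - 0 - 1) * ({p, q} : Finset V).card ≤ k * 2 :=
        Nat.mul_le_mul (by omega) hpq
      omega

/-- Vertices of the auxiliary host: neighbours of the two apices. -/
def AV (G : SimpleGraph V) (Y : Bool → V) : Type := {p : Bool × V // G.Adj (Y p.1) p.2}

noncomputable instance [Fintype V] (G : SimpleGraph V) (Y : Bool → V) : Fintype (AV G Y) :=
  Subtype.fintype _

theorem card_AV [Fintype V] {G : SimpleGraph V} {Δ : ℕ} (hΔ : ∀ x, (nb G x).card ≤ Δ)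
    (Y : Bool → V) : Fintype.card (AV G Y) ≤ 2 * Δ := by
  have h : (univ : Finset (AV G Y)).card ≤
      ((univ : Finset Bool).biUnion (fun b => (nb G (Y b)).image (fun v => (b, v)))).card := by
    refine Finset.card_le_card_of_injOn (fun a => a.1) ?_ ?_
    · intro a _
      refine Finset.mem_coe.mpr (Finset.mem_biUnion.mpr ⟨a.1.1, mem_univ _, ?_⟩)
      refine Finset.mem_image.mpr ⟨a.1.2, ?_, rfl⟩
      exact Finset.mem_filter.mpr ⟨mem_univ _, a.2⟩
    · intro a _ b _ hab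
      exact Subtype.ext hab
  rw [Finset.card_univ] at h
  refine h.trans ((Finset.card_biUnion_le_card_mul _ _ Δ (fun b _ => ?_)).trans ?_)
  · exact Finset.card_image_le.trans (hΔ _)
  · simp

/-- `a` on the first side and `b` on the second side are joined through a member of `T`. -/
def Rl {G : SimpleGraph V} {Y : Bool → V} (k : ℕ) (T : Finset (ℕ → V)) (a b : AV G Y) : Prop :=
  a.1.1 = false ∧ b.1.1 = true ∧ ∃ x ∈ T, x 1 = a.1.2 ∧ x (k + 1) = b.1.2

/-- The auxiliary host. -/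
def AG (G : SimpleGraph V) (Y : Bool → V) (k : ℕ) (T : Finset (ℕ → V)) :
    SimpleGraph (AV G Y) where
  Adj a b := Rl k T a b ∨ Rl k T b a
  symm := ⟨fun _ _ h => h.symm⟩
  loopless := ⟨fun a h => by
    rcases h with h | h
    · exact absurd (h.1.symm.trans h.2.1) (by decide)
    · exact absurd (h.1.symm.trans h.2.1) (by decide)⟩

/-- The chosen walk through a joined pair. -/
noncomputable def ch {G : SimpleGraph V} {Y : Bool → V} (k : ℕ) (T : Finset (ℕ → V))
    (a b : AV G Y) : ℕ → V :=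
  if h : Rl k T a b then Classical.choose h.2.2 else fun _ => a.1.2

theorem ch_spec {G : SimpleGraph V} {Y : Bool → V} {k : ℕ} {T : Finset (ℕ → V)}
    {a b : AV G Y} (h : Rl k T a b) :
    ch k T a b ∈ T ∧ ch k T a b 1 = a.1.2 ∧ ch k T a b (k + 1) = b.1.2 := by
  unfold ch
  rw [dif_pos h]
  exact Classical.choose_spec h.2.2

/-- The label of an ordered pair. -/
noncomputable def labo {G : SimpleGraph V} {Y : Bool → V} (k : ℕ) (T : Finset (ℕ → V))
    (a b : AV G Y) : Finset (Sym2 V) :=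
  if a = b then st (Y a.1.1) a.1.2
  else if Rl k T a b then inner k (win 1 k (ch k T a b)) else ∅

/-- The label of an element of the auxiliary host. -/
noncomputable def lab {G : SimpleGraph V} {Y : Bool → V} (k : ℕ) (T : Finset (ℕ → V)) :
    Sym2 (AV G Y) → Finset (Sym2 V) :=
  Sym2.lift ⟨fun a b => labo k T a b ∪ labo k T b a, fun _ _ => Finset.union_comm _ _⟩

theorem card_labo {G : SimpleGraph V} {Y : Bool → V} (k : ℕ) (T : Finset (ℕ → V))
    (a b : AV G Y) : (labo k T a b).card ≤ 2 * k + 2 := by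
  unfold labo
  split_ifs
  · have : (st (Y a.1.1) a.1.2).card ≤ 2 := Finset.card_le_two
    omega
  · exact (card_inner_le _ _).trans (by omega)
  · simp

theorem card_lab {G : SimpleGraph V} {Y : Bool → V} (k : ℕ) (T : Finset (ℕ → V))
    (ζ : Sym2 (AV G Y)) : (lab k T ζ).card ≤ 4 * k + 4 := by
  induction ζ using Sym2.ind with
  | _ a b =>
  have h1 := card_labo k T a b
  have h2 := card_labo k T b a
  have h3 : (lab k T s(a, b)).card ≤ (labo k T a b).card + (labo k T b a).card :=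
    Finset.card_union_le _ _
  omega

theorem Rl.ne {G : SimpleGraph V} {Y : Bool → V} {k : ℕ} {T : Finset (ℕ → V)}
    {a b : AV G Y} (h : Rl k T a b) : a ≠ b := by
  rintro rfl
  exact absurd (h.1.symm.trans h.2.1) (by decide)

theorem mem_lab_of_rl {G : SimpleGraph V} {Y : Bool → V} {k : ℕ} {T : Finset (ℕ → V)}
    {a b : AV G Y} (h : Rl k T a b) {z : Sym2 V} (hz : z ∈ inner k (win 1 k (ch k T a b))) :
    z ∈ lab k T s(a, b) := by
  refine Finset.mem_union_left _ ?_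
  unfold labo
  rw [if_neg h.ne, if_pos h]
  exact hz

theorem mult_labo {G : SimpleGraph V} {c : Sym2 V → Sym2 V → Prop} {k f : ℕ} (hk : 1 ≤ k)
    {T : Finset (ℕ → V)} (hT : Sparse G c k f T) {Y : Bool → V}
    (hy : ∀ x ∈ T, x 0 = Y false ∧ x (k + 2) = Y true) (z : Sym2 V)
    (S : Finset (AV G Y × AV G Y)) (hS : ∀ p ∈ S, z ∈ labo k T p.1 p.2) :
    S.card ≤ 4 + (2 * k + 4) * f := by
  rw [← Finset.card_filter_add_card_filter_not (s := S) (fun p => p.1 = p.2)]
  refine Nat.add_le_add ?_ ?_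
  · induction z using Sym2.ind with
    | _ p q =>
    have h : (S.filter (fun p => p.1 = p.2)).card ≤
        ((univ : Finset Bool) ×ˢ ({p, q} : Finset V)).card := by
      refine Finset.card_le_card_of_injOn (fun u => u.1.1) ?_ ?_
      · intro u hu
        obtain ⟨hu1, hu2⟩ := Finset.mem_filter.mp (Finset.mem_coe.mp hu)
        have := hS u hu1
        unfold labo at this
        rw [if_pos hu2] at this
        have hm : u.1.1.2 ∈ s(p, q) := by
          unfold st at this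
          rcases Finset.mem_insert.mp this with h | h
          · rw [h]; exact Sym2.mem_mk_right _ _
          · rw [Finset.mem_singleton.mp h]; exact Sym2.mem_mk_right _ _
        rw [Sym2.mem_iff] at hm
        refine Finset.mem_coe.mpr (Finset.mem_product.mpr ⟨mem_univ _, ?_⟩)
        simpa using hm
      · intro u hu u' hu' h
        have e1 := (Finset.mem_filter.mp (Finset.mem_coe.mp hu)).2
        have e2 := (Finset.mem_filter.mp (Finset.mem_coe.mp hu')).2
        have e3 : u.1 = u'.1 := Subtype.ext h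
        exact Prod.ext e3 (by rw [← e1, ← e2, e3])
    refine h.trans ?_
    rw [Finset.card_product]
    have : ({p, q} : Finset V).card ≤ 2 := Finset.card_le_two
    simp only [Finset.card_univ, Fintype.card_bool]
    omega
  · have key : ∀ u ∈ S.filter (fun p => ¬ p.1 = p.2),
        Rl k T u.1 u.2 ∧ z ∈ inner k (win 1 k (ch k T u.1 u.2)) := by
      intro u hu
      obtain ⟨hu1, hu2⟩ := Finset.mem_filter.mp hu
      have := hS u hu1
      unfold labo at this
      rw [if_neg hu2] at this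
      by_cases hr : Rl k T u.1 u.2
      · rw [if_pos hr] at this
        exact ⟨hr, this⟩
      · rw [if_neg hr] at this
        exact absurd this (Finset.notMem_empty _)
    rw [← Finset.card_image_of_injOn (f := fun u : AV G Y × AV G Y => ch k T u.1 u.2)]
    · refine card_inner_mult hk hT hy z _ ?_
      intro x hx
      obtain ⟨u, hu, rfl⟩ := Finset.mem_image.mp hx
      exact ⟨(ch_spec (key u hu).1).1, (key u hu).2⟩
    · intro u hu u' hu' h
      have r1 := (key u (Finset.mem_coe.mp hu)).1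
      have r2 := (key u' (Finset.mem_coe.mp hu')).1
      have s1 := ch_spec r1
      have s2 := ch_spec r2
      have h' : ch k T u.1 u.2 = ch k T u'.1 u'.2 := h
      refine Prod.ext (Subtype.ext (Prod.ext ?_ ?_)) (Subtype.ext (Prod.ext ?_ ?_))
      · rw [r1.1, r2.1]
      · rw [← s1.2.1, ← s2.2.1, h']
      · rw [r1.2.1, r2.2.1]
      · rw [← s1.2.2, ← s2.2.2, h']

theorem mult_lab {G : SimpleGraph V} {c : Sym2 V → Sym2 V → Prop} {k f : ℕ} (hk : 1 ≤ k)
    {T : Finset (ℕ → V)} (hT : Sparse G c k f T) {Y : Bool → V}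
    (hy : ∀ x ∈ T, x 0 = Y false ∧ x (k + 2) = Y true) (z : Sym2 V)
    (S : Finset (Sym2 (AV G Y))) (hS : ∀ ζ ∈ S, z ∈ lab k T ζ) :
    S.card ≤ 4 + (2 * k + 4) * f := by
  have h : ∀ ζ : Sym2 (AV G Y), ∃ p : AV G Y × AV G Y,
      s(p.1, p.2) = ζ ∧ (z ∈ lab k T ζ → z ∈ labo k T p.1 p.2) := by
    intro ζ
    induction ζ using Sym2.ind with
    | _ a b =>
    by_cases hz : z ∈ labo k T a b
    · exact ⟨(a, b), rfl, fun _ => hz⟩
    · refine ⟨(b, a), Sym2.eq_swap, fun h => ?_⟩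
      exact (Finset.mem_union.mp h).resolve_left hz
  choose g hg using h
  rw [← Finset.card_image_of_injOn (f := g)]
  · refine mult_labo hk hT hy z _ ?_
    intro p hp
    obtain ⟨ζ, hζ, rfl⟩ := Finset.mem_image.mp hp
    exact (hg ζ).2 (hS ζ hζ)
  · intro ζ _ ζ' _ h
    rw [← (hg ζ).1, ← (hg ζ').1, h]

theorem rl_of_mem {G : SimpleGraph V} {c : Sym2 V → Sym2 V → Prop} {k f : ℕ}
    {T : Finset (ℕ → V)} (hT : Sparse G c k f T) {Y : Bool → V}
    (hy : ∀ x ∈ T, x 0 = Y false ∧ x (k + 2) = Y true) {x : ℕ → V} (hx : x ∈ T) :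
    ∃ a b : AV G Y, Rl k T a b ∧ a.1.2 = x 1 ∧ b.1.2 = x (k + 1) := by
  have h1 : G.Adj (Y false) (x 1) := by
    rw [← (hy x hx).1]
    exact (hT.walk x hx).adj 0 (by omega)
  have h2 : G.Adj (Y true) (x (k + 1)) := by
    rw [← (hy x hx).2]
    exact ((hT.walk x hx).adj (k + 1) (by omega)).symm
  exact ⟨⟨(false, x 1), h1⟩, ⟨(true, x (k + 1)), h2⟩, ⟨rfl, rfl, x, hx, rfl, rfl⟩, rfl, rfl⟩

theorem card_le_nd [Fintype V] {G : SimpleGraph V} {c : Sym2 V → Sym2 V → Prop} {k f : ℕ}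
    {T : Finset (ℕ → V)} (hT : Sparse G c k f T) {Y : Bool → V}
    (hy : ∀ x ∈ T, x 0 = Y false ∧ x (k + 2) = Y true) : T.card ≤ f * nd (AG G Y k T) := by
  have h1 : T.card ≤ f * (T.image (fun x => (x 1, x (k + 1)))).card := by
    refine Finset.card_le_mul_card_image T f ?_
    intro u _
    refine le_trans (Finset.card_le_card ?_) (hT.mult1 (Y false) u.1 u.2 (Y true))
    intro x hx
    obtain ⟨hx1, hx2⟩ := Finset.mem_filter.mp hx
    refine Finset.mem_filter.mpr ⟨hx1, (hy x hx1).1, ?_, ?_, (hy x hx1).2⟩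
    · rw [← hx2]
    · rw [← hx2]
  refine h1.trans (Nat.mul_le_mul_left _ ?_)
  unfold nd
  refine le_trans (Finset.card_le_card ?_) (Finset.card_image_le
    (f := fun p : AV G Y × AV G Y => (p.1.1.2, p.2.1.2)))
  intro u hu
  obtain ⟨x, hx, rfl⟩ := Finset.mem_image.mp hu
  obtain ⟨a, b, hr, ha, hb⟩ := rl_of_mem hT hy hx
  refine Finset.mem_image.mpr ⟨(a, b), Finset.mem_filter.mpr ⟨mem_univ _, Or.inl hr⟩, ?_⟩
  rw [← ha, ← hb]

/-- The oriented walk through an adjacent pair. -/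
noncomputable def PP {G : SimpleGraph V} {Y : Bool → V} (k : ℕ) (T : Finset (ℕ → V))
    (a b : AV G Y) : ℕ → V :=
  if Rl k T a b then ch k T a b else rev (k + 2) (ch k T b a)

theorem data_of_hom (B : BG) {G : SimpleGraph V} {c : Sym2 V → Sym2 V → Prop} {k f : ℕ}
    {T : Finset (ℕ → V)} (hT : Sparse G c k f T) {Y : Bool → V}
    (hy : ∀ x ∈ T, x 0 = Y false ∧ x (k + 2) = Y true) {φ : B.W → AV G Y}
    (hφ : CleanHom B.graph (AG G Y k T)
      (fun ζ ζ' => ζ = ζ' ∨ ∃ z ∈ lab k T ζ, ∃ z' ∈ lab k T ζ', c z z') φ) :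
    ∃ y ψ π, Data B k G c y ψ π := by
  have cases : ∀ a b, (AG G Y k T).Adj a b →
      (Rl k T a b ∧ PP k T a b = ch k T a b) ∨
        (Rl k T b a ∧ PP k T a b = rev (k + 2) (ch k T b a)) := by
    intro a b h
    unfold PP
    by_cases hr : Rl k T a b
    · exact Or.inl ⟨hr, if_pos hr⟩
    · exact Or.inr ⟨Or.resolve_left h hr, if_neg hr⟩
  refine core B k (AG G Y k T) (fun a => a.1.1) (fun a => a.1.2) Y (PP k T) (lab k T)
    ?_ ?_ ?_ ?_ ?_ ?_ ?_ ?_ ?_ hφ
  · rintro a b (h | h)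
    · rw [h.1, h.2.1]; decide
    · rw [h.1, h.2.1]; decide
  · intro a b h
    rcases cases a b h with ⟨hr, e⟩ | ⟨hr, e⟩
    · rw [e, hr.1]; exact (hy _ (ch_spec hr).1).1
    · rw [e, hr.2.1]; exact (hy _ (ch_spec hr).1).2
  · intro a b h
    rcases cases a b h with ⟨hr, e⟩ | ⟨hr, e⟩
    · rw [e]; exact (ch_spec hr).2.1
    · rw [e]; exact (ch_spec hr).2.2
  · intro a b h
    rcases cases a b h with ⟨hr, e⟩ | ⟨hr, e⟩
    · rw [e]; exact (ch_spec hr).2.2
    · rw [e]
      have : k + 2 - (k + 1) = 1 := by omega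
      simp only [rev, this]
      exact (ch_spec hr).2.1
  · intro a b h
    rcases cases a b h with ⟨hr, e⟩ | ⟨hr, e⟩
    · rw [e, hr.2.1]; exact (hy _ (ch_spec hr).1).2
    · rw [e, hr.1]
      simp only [rev, Nat.sub_self]
      exact (hy _ (ch_spec hr).1).1
  · intro a b h n hn
    rcases cases a b h with ⟨hr, e⟩ | ⟨hr, e⟩
    · rw [e]; exact (hT.walk _ (ch_spec hr).1).adj n hn
    · rw [e]; exact rev_adj (hT.walk _ (ch_spec hr).1) n hn
  · intro a b h
    rcases cases a b h with ⟨hr, e⟩ | ⟨hr, e⟩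
    · rw [e]; exact hT.clean _ (ch_spec hr).1
    · rw [e]; exact rev_clean (hT.clean _ (ch_spec hr).1)
  · intro a z hz
    refine Finset.mem_union_left _ ?_
    unfold labo
    rw [if_pos rfl]
    exact hz
  · intro a b h z hz
    rcases cases a b h with ⟨hr, e⟩ | ⟨hr, e⟩
    · rw [e] at hz
      exact mem_lab_of_rl hr hz
    · rw [e] at hz
      rw [Sym2.eq_swap]
      exact mem_lab_of_rl hr (rev_inner hz)

end LightX

open LightX in
theorem data_of_sparse (B : BG) (k s f : ℕ) (hk : 1 ≤ k) {α : ℝ} (hα : 0 ≤ α)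
    (hR : Rob B.graph α) : ∃ C : ℝ, ∀ (V : Type) [Fintype V] (G : SimpleGraph V)
      (c : Sym2 V → Sym2 V → Prop) (Δ : ℕ) (y y' : V) (T : Finset (ℕ → V)), Conf s c →
      (∀ x, (nb G x).card ≤ Δ) → 1 ≤ Δ → Sparse G c k f T →
      (∀ x ∈ T, x 0 = y ∧ x (k + 2) = y') → C * (Δ : ℝ) ^ (1 + α) ≤ (T.card : ℝ) →
      ∃ y ψ π, Data B k G c y ψ π := by
  obtain ⟨s', hs'⟩ := conf_lab s (4 * k + 4) (4 + (2 * k + 4) * f)
  obtain ⟨C1, hC1⟩ := hR s'
  refine ⟨f * (max C1 0 * 2 ^ (1 + α)) + 1, ?_⟩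
  intro V _ G c Δ y y' T hc hΔ hΔ1 hT hy hC
  set Y : Bool → V := fun b => if b then y' else y with hY
  have hy' : ∀ x ∈ T, x 0 = Y false ∧ x (k + 2) = Y true := hy
  have hm : 0 ≤ max C1 0 := le_max_right _ _
  have hΔr : (1 : ℝ) ≤ Δ := by exact_mod_cast hΔ1
  have hp : (1 : ℝ) ≤ (Δ : ℝ) ^ (1 + α) := Real.one_le_rpow hΔr (by linarith)
  have h2 : (0 : ℝ) ≤ 2 ^ (1 + α) := Real.rpow_nonneg (by norm_num) _
  have hM : (0 : ℝ) ≤ max C1 0 * 2 ^ (1 + α) := mul_nonneg hm h2
  have hf0 : (0 : ℝ) ≤ f := Nat.cast_nonneg _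
  have hT1 : (f : ℝ) * (max C1 0 * 2 ^ (1 + α) * (Δ : ℝ) ^ (1 + α)) < T.card := by
    nlinarith
  have hTpos : 0 < T.card := by
    have : (0 : ℝ) ≤ (f : ℝ) * (max C1 0 * 2 ^ (1 + α) * (Δ : ℝ) ^ (1 + α)) := by positivity
    exact_mod_cast this.trans_lt hT1
  obtain ⟨x0, hx0⟩ := Finset.card_pos.mp hTpos
  obtain ⟨a0, -, -⟩ := rl_of_mem hT hy' hx0
  have : Nonempty (AV G Y) := ⟨a0⟩
  have hnd : (T.card : ℝ) ≤ f * nd (AG G Y k T) := by exact_mod_cast card_le_nd hT hy'
  have hnd' : max C1 0 * 2 ^ (1 + α) * (Δ : ℝ) ^ (1 + α) ≤ nd (AG G Y k T) :=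
    (lt_of_mul_lt_mul_left (hT1.trans_le hnd) hf0).le
  have hcard : (Fintype.card (AV G Y) : ℝ) ≤ 2 * Δ := by exact_mod_cast card_AV hΔ Y
  obtain ⟨φ, hφ⟩ := hC1 (AV G Y) (AG G Y k T) _
    (hs' c (lab k T) hc (card_lab k T) (mult_lab hk hT hy')) (by
      refine le_trans ?_ hnd'
      have e1 : (Fintype.card (AV G Y) : ℝ) ^ (1 + α) ≤ (2 * (Δ : ℝ)) ^ (1 + α) :=
        Real.rpow_le_rpow (Nat.cast_nonneg _) hcard (by linarith)
      rw [Real.mul_rpow (by norm_num) (by linarith)] at e1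
      have e2 : (0 : ℝ) ≤ (Fintype.card (AV G Y) : ℝ) ^ (1 + α) :=
        Real.rpow_nonneg (Nat.cast_nonneg _) _
      calc C1 * (Fintype.card (AV G Y) : ℝ) ^ (1 + α)
          ≤ max C1 0 * (Fintype.card (AV G Y) : ℝ) ^ (1 + α) :=
            mul_le_mul_of_nonneg_right (le_max_left _ _) e2
        _ ≤ max C1 0 * (2 ^ (1 + α) * (Δ : ℝ) ^ (1 + α)) := mul_le_mul_of_nonneg_left e1 hm
        _ = _ := by ring)
  exact data_of_hom B hT hy' hφ

end Pool.Agent.Lib.MP_9bef39_co
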