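import Mathlib

/-!
Auxiliary facts on linear and algebraic independence.
-/

open Finset Filter
open scoped Classical

namespace Pool.Agent.Lib.MP_9bef39_co

/-- The monomial vectors of distinct points are linearly independent. -/
theorem mon_indep {L δ Q : Type} [Field L] [Fintype δ] [Nonempty δ] [Fintype Q] {M : ℕ}
    (hM : Fintype.card Q ≤ M) (z : Q → δ → L) (hz : Function.Injective z) :
    LinearIndependent L fun p (mon : δ → Fin M) => ∏ l, z p l ^ (mon l : ℕ) := by
  rw [Fintype.linearIndependent_iff]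
  intro c hc p0
  have hl : ∀ p : Q, p ≠ p0 → ∃ l, z p0 l ≠ z p l := fun p hp =>
    Function.ne_iff.1 (hz.ne hp.symm)
  choose! l hl using hl
  set f : MvPolynomial δ L :=
    ∏ p ∈ univ.erase p0, (MvPolynomial.X (l p) - MvPolynomial.C (z p (l p))) with hf
  have hdeg : f.totalDegree < M := by
    refine (MvPolynomial.totalDegree_finsetProd _ _).trans_lt ?_
    refine (sum_le_card_nsmul _ _ 1 fun p _ => ?_).trans_lt ?_
    · refine (MvPolynomial.totalDegree_sub _ _).trans ?_
      simp
    · have : 0 < Fintype.card Q := Fintype.card_pos_iff.2 ⟨p0⟩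
      rw [card_erase_of_mem (mem_univ _), card_univ, smul_eq_mul]
      omega
  have h1 : ∑ p, c p * MvPolynomial.eval (z p) f = 0 := by
    simp only [MvPolynomial.eval_eq', mul_sum]
    rw [sum_comm]
    refine sum_eq_zero fun d hd => ?_
    have hd' : ∀ i, d i < M := fun i =>
      ((MvPolynomial.monomial_le_degreeOf i hd).trans
        (MvPolynomial.degreeOf_le_totalDegree f i)).trans_lt hdeg
    have := congrFun hc fun i => ⟨d i, hd' i⟩
    simp only [Finset.sum_apply, Pi.smul_apply, smul_eq_mul, Pi.zero_apply] at this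
    rw [← mul_zero (MvPolynomial.coeff d f), ← this, mul_sum]
    exact sum_congr rfl fun p _ => by ring
  rw [sum_eq_single p0 (fun p _ hp => ?_) (by simp)] at h1
  · refine (mul_eq_zero.1 h1).resolve_right ?_
    rw [hf, map_prod]
    refine prod_ne_zero_iff.2 fun p hp => ?_
    simpa [sub_eq_zero] using hl p (ne_of_mem_erase hp)
  · rw [hf, map_prod, prod_eq_zero (mem_erase.2 ⟨hp, mem_univ _⟩) (by simp), mul_zero]

/-- Independent linear relations cut down the span. -/
theorem span_small {L K J Q : Type} [Field L] [AddCommGroup K] [Module L K] [Fintype J]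
    [Fintype Q] (co : J → K) (o : K) (A : Q → J → L) (hA : LinearIndependent L A)
    (h : ∀ p, ∃ μ : L, ∑ j, A p j • co j = μ • o) :
    ∃ W : Finset K, W.card + Fintype.card Q ≤ Fintype.card J + 1 ∧
      ∀ j, co j ∈ Submodule.span L (W : Set K) := by
  choose μ hμ using h
  let Φ : (J → L) × L →ₗ[L] K :=
    (Fintype.linearCombination L co).coprod (-LinearMap.toSpanSingleton L K o)
  have hk : ∀ p, (A p, μ p) ∈ LinearMap.ker Φ := fun p => by
    simp [Φ, Fintype.linearCombination_apply, hμ]
  have h1 : LinearIndependent L fun p => (⟨(A p, μ p), hk p⟩ : LinearMap.ker Φ) :=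
    LinearIndependent.of_comp ((LinearMap.fst L _ _).comp (LinearMap.ker Φ).subtype) hA
  have h2 := h1.fintype_card_le_finrank
  have h3 := Φ.finrank_range_add_finrank_ker
  rw [Module.finrank_prod, Module.finrank_fintype_fun_eq_card, Module.finrank_self] at h3
  let b := Module.finBasis L (LinearMap.range Φ)
  refine ⟨univ.image fun i => (b i : K), ?_, fun j => ?_⟩
  · have := card_image_le (s := univ) (f := fun i => (b i : K))
    rw [card_univ, Fintype.card_fin] at this
    omega
  · have h4 : co j ∈ LinearMap.range Φ := ⟨(Pi.single j 1, 0), by simp [Φ]⟩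
    have h5 := congrArg Subtype.val (b.sum_repr ⟨co j, h4⟩)
    simp only [AddSubmonoidClass.coe_finsetSum, SetLike.val_smul] at h5
    rw [← h5]
    exact Submodule.sum_mem _ fun i _ => Submodule.smul_mem _ _ (Submodule.subset_span (by simp))

section

variable {R K : Type} [Field R] [Field K] [Algebra R K]

theorem mem_cl {S : Set K} {x : K} : x ∈ (AlgebraicIndependent.matroid R K).closure S ↔
    IsAlgebraic (Algebra.adjoin R S) x := by
  rw [AlgebraicIndependent.matroid_closure_eq]; rfl

variable (R) in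
/-- The algebraic closure of a set as a subfield. -/
def clF (S : Set K) : Subfield K where
  carrier := (AlgebraicIndependent.matroid R K).closure S
  mul_mem' ha hb := mem_cl.2 ((mem_cl.1 ha).mul (mem_cl.1 hb))
  one_mem' := mem_cl.2 isAlgebraic_one
  add_mem' ha hb := mem_cl.2 ((mem_cl.1 ha).add (mem_cl.1 hb))
  zero_mem' := mem_cl.2 isAlgebraic_zero
  neg_mem' ha := mem_cl.2 (mem_cl.1 ha).neg
  inv_mem' _ ha := mem_cl.2 (mem_cl.1 ha).inv

theorem cl_countable [Countable R] {S : Set K} (hS : S.Finite) :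
    ((AlgebraicIndependent.matroid R K).closure S).Countable := by
  have : Countable (Algebra.adjoin R S) := by
    rw [← Cardinal.mk_le_aleph0_iff]
    refine (Algebra.cardinalMk_adjoin_le R S).trans ?_
    have := hS.countable.to_subtype
    simp
  exact (Algebraic.countable (Algebra.adjoin R S) K).mono fun x hx => mem_cl.1 hx

end

/-- An ultrapower of a field. -/
theorem exists_ultra (R k : Type) [Field R] [Field k] [Algebra R k] :
    ∃ (K : Type) (_ : Field K) (_ : Algebra R K) (g : (ℕ → k) →ₐ[R] K), Function.Surjective g ∧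
      ∀ f f', g f = g f' ↔ ∀ᶠ n in hyperfilter ℕ, f n = f' n := by
  let g := Germ.coeRingHom (R := k) (hyperfilter ℕ : Filter ℕ)
  let _ : Algebra R (Germ (hyperfilter ℕ : Filter ℕ) k) :=
    (g.comp (algebraMap R (ℕ → k))).toAlgebra
  exact ⟨Germ (hyperfilter ℕ : Filter ℕ) k, inferInstance, inferInstance, ⟨g, fun _ => rfl⟩,
    fun x => Germ.inductionOn x fun f => ⟨f, rfl⟩, fun f f' => Germ.coe_eq⟩

/-- Generic coefficients along an ultrafilter. -/
theorem exists_generic (R k I : Type) [Field R] [Countable R] [Field k] [Infinite k] [Algebra R k]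
    [Finite I] : ∃ co : ℕ → I → k, ∀ f : MvPolynomial I R, f ≠ 0 →
      ∀ᶠ n in atTop, MvPolynomial.aeval (co n) f ≠ 0 := by
  have : Countable (MvPolynomial I R) := AddMonoidAlgebra.coeff_injective.countable
  obtain ⟨F, hF⟩ := exists_surjective_nat (MvPolynomial I R)
  have h : ∀ n, ∃ c : I → k, ∀ j < n, F j ≠ 0 → MvPolynomial.aeval c (F j) ≠ 0 := by
    intro n
    have h1 : MvPolynomial.map (algebraMap R k) (∏ j ∈ (range n).filter (F · ≠ 0), F j) ≠ 0 := by
      rw [map_ne_zero_iff _ (MvPolynomial.map_injective _ (algebraMap R k).injective)]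
      exact prod_ne_zero_iff.2 fun j hj => (mem_filter.1 hj).2
    by_contra hc
    push Not at hc
    refine h1 (MvPolynomial.funext fun c => ?_)
    obtain ⟨j, h2, h3, h4⟩ := hc c
    rw [MvPolynomial.eval_map, ← MvPolynomial.aeval_def, map_prod, map_zero]
    exact prod_eq_zero (mem_filter.2 ⟨mem_range.2 h2, h3⟩) h4
  choose co hco using h
  refine ⟨co, fun f hf => ?_⟩
  obtain ⟨j, rfl⟩ := hF f
  exact (eventually_gt_atTop j).mono fun n hn => hco n j hn hf

/-- A new block with a coordinate outside a countable set. -/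
theorem select {k K D : Type} [Fintype D] (g : (ℕ → k) → K) (hg : Function.Surjective g)
    (hg' : ∀ f f', g f = g f' → ∀ᶠ n in hyperfilter ℕ, f n = f' n) [Nonempty K]
    (b : ∀ n, Fin (n + 1) → D → k) (side : ∀ n, Fin (n + 1) → Bool)
    (hb : ∀ n, Function.Injective fun i => (side n i, b n i)) {C : Set K} (hC : C.Countable)
    {m : ℕ} (σ : Fin m → ∀ n, Fin (n + 1)) : ∃ τ : ∀ n, Fin (n + 1),
      (∀ j, ∀ᶠ n in hyperfilter ℕ, τ n ≠ σ j n) ∧ ∃ l, g (fun n => b n (τ n) l) ∉ C := by
  obtain ⟨c, hc⟩ := Set.countable_iff_exists_subset_range.1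
    (Set.countable_univ_pi fun _ : D => hC)
  choose c' hc' using fun i l => hg (c i l)
  have h : ∀ n, ∃ τ : Fin (n + 1), m ≤ n → (∀ j, τ ≠ σ j n) ∧
      ∀ i < (n - m) / 2, b n τ ≠ fun l => c' i l n := by
    intro n
    by_cases hn : m ≤ n
    swap
    · exact ⟨0, fun h => absurd h hn⟩
    have h1 : (univ.image fun j => σ j n).card ≤ m := card_image_le.trans (by simp)
    have h2 : (univ.filter fun τ => ∃ i < (n - m) / 2, b n τ = fun l => c' i l n).card ≤
        ((univ : Finset Bool) ×ˢ (range ((n - m) / 2)).image fun i l => c' i l n).card := by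
      refine card_le_card_of_injOn (fun i => (side n i, b n i)) (fun τ hτ => ?_) (hb n).injOn
      obtain ⟨i, h3, h4⟩ := (mem_filter.1 hτ).2
      exact mem_product.2 ⟨mem_univ _, mem_image.2 ⟨i, mem_range.2 h3, h4.symm⟩⟩
    have h3 := card_image_le (s := range ((n - m) / 2)) (f := fun i l => c' i l n)
    rw [card_product, card_univ, Fintype.card_bool] at h2
    rw [card_range] at h3
    obtain ⟨τ, -, hτ⟩ := exists_mem_notMem_of_card_lt_card (t := univ)
      ((card_union_le (univ.image fun j => σ j n) _).trans_lt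
        (show _ + (univ.filter fun τ => ∃ i < (n - m) / 2, b n τ = fun l => c' i l n).card < _ by
          rw [card_univ, Fintype.card_fin]; omega))
    simp only [mem_union, mem_image, mem_univ, true_and, mem_filter, not_or, not_exists,
      not_and] at hτ
    exact ⟨τ, fun _ => ⟨fun j hj => hτ.1 j hj.symm, hτ.2⟩⟩
  choose τ hτ using h
  refine ⟨τ, fun j => ((eventually_ge_atTop m).filter_mono Nat.hyperfilter_le_atTop).mono
    fun n hn => (hτ n hn).1 j, ?_⟩
  by_contra hcon
  push Not at hcon
  obtain ⟨i, hi⟩ := hc (show (fun l => g fun n => b n (τ n) l) ∈ _ from fun l _ => hcon l)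
  have h1 : ∀ᶠ n in hyperfilter ℕ, ∀ l, b n (τ n) l = c' i l n :=
    eventually_all.2 fun l => hg' _ _ (by rw [hc', hi])
  obtain ⟨n, h2, h3⟩ :=
    (h1.and ((eventually_ge_atTop (m + 2 * i + 2)).filter_mono Nat.hyperfilter_le_atTop)).exists
  exact (hτ n (by omega)).2 i (by omega) (funext h2)

end Pool.Agent.Lib.MP_9bef39_co
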