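import Pool.Agent.Lib.MP_9bef39_co.Free

open Finset
open scoped Classical

namespace Pool.Agent.Lib.MP_9bef39_co

/-- The robust bound for almost regular hosts. -/
def RobReg {W : Type} (H : SimpleGraph W) (α : ℝ) : Prop :=
  ∀ s K : ℕ, ∃ C : ℝ, ∀ (V : Type) [Fintype V] [Nonempty V] (G : SimpleGraph V)
    (c : Sym2 V → Sym2 V → Prop) (δ : ℕ), Conf s c →
    (∀ x, δ ≤ (nb G x).card ∧ (nb G x).card ≤ K * δ) →
    C * (Fintype.card V : ℝ) ^ α ≤ (δ : ℝ) → ∃ φ, CleanHom H G c φ

/-- Ordered adjacent pairs from `A` to `B`. -/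
noncomputable def regE {V : Type} (G : SimpleGraph V) (A B : Finset V) : ℕ :=
  ((A ×ˢ B).filter (fun p : V × V => G.Adj p.1 p.2)).card

/-- Degree of `x` into `B`. -/
noncomputable def regD {V : Type} (G : SimpleGraph V) (B : Finset V) (x : V) : ℕ :=
  (B.filter (fun y => G.Adj x y)).card

theorem regE_mono {V : Type} (G : SimpleGraph V) {A A' B B' : Finset V} (hA : A ⊆ A')
    (hB : B ⊆ B') : regE G A B ≤ regE G A' B' := by
  apply card_le_card
  intro p hp
  simp only [mem_filter, mem_product] at hp ⊢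
  exact ⟨⟨hA hp.1.1, hB hp.1.2⟩, hp.2⟩

theorem regE_symm {V : Type} (G : SimpleGraph V) (A B : Finset V) : regE G A B = regE G B A := by
  unfold regE
  apply card_bij (fun p _ => p.swap)
  · intro p hp
    simp only [mem_filter, mem_product, Prod.fst_swap, Prod.snd_swap] at hp ⊢
    exact ⟨⟨hp.1.2, hp.1.1⟩, hp.2.symm⟩
  · intro p _ q _ h
    exact Prod.swap_injective h
  · intro p hp
    refine ⟨p.swap, ?_, Prod.swap_swap p⟩
    simp only [mem_filter, mem_product, Prod.fst_swap, Prod.snd_swap] at hp ⊢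
    exact ⟨⟨hp.1.2, hp.1.1⟩, hp.2.symm⟩

theorem regE_cover {V : Type} (G : SimpleGraph V) {A B B₁ B₂ : Finset V}
    (h : ∀ y ∈ B, y ∈ B₁ ∨ y ∈ B₂) : regE G A B ≤ regE G A B₁ + regE G A B₂ := by
  unfold regE
  refine le_trans (card_le_card ?_) (card_union_le _ _)
  intro p hp
  simp only [mem_filter, mem_product, mem_union] at hp ⊢
  rcases h _ hp.1.2 with h1 | h1
  · exact Or.inl ⟨⟨hp.1.1, h1⟩, hp.2⟩
  · exact Or.inr ⟨⟨hp.1.1, h1⟩, hp.2⟩

theorem regE_sum {V : Type} (G : SimpleGraph V) (A B : Finset V) :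
    regE G A B = ∑ x ∈ A, regD G B x := by
  unfold regE regD
  rw [card_filter, sum_product]
  refine sum_congr rfl fun x _ => ?_
  rw [card_filter]

theorem regE_le_sq {V : Type} (G : SimpleGraph V) (A : Finset V) :
    regE G A A ≤ A.card * A.card := by
  unfold regE
  refine le_trans (card_filter_le _ _) ?_
  rw [card_product]

theorem regD_mono {V : Type} (G : SimpleGraph V) {B B' : Finset V} (h : B ⊆ B') (x : V) :
    regD G B x ≤ regD G B' x :=
  card_le_card (filter_subset_filter _ h)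

/-- Removing a set `T` loses at most twice the pairs starting in `T`. -/
theorem regE_sdiff {V : Type} (G : SimpleGraph V) (U T : Finset V) :
    regE G U U ≤ regE G (U \ T) (U \ T) + 2 * regE G T U := by
  have hc : ∀ y ∈ U, y ∈ U \ T ∨ y ∈ T := by
    intro y hy
    by_cases h : y ∈ T
    · exact Or.inr h
    · exact Or.inl (mem_sdiff.2 ⟨hy, h⟩)
  have h1 : regE G U U ≤ regE G U (U \ T) + regE G U T := regE_cover G hc
  have h2 : regE G (U \ T) U ≤ regE G (U \ T) (U \ T) + regE G (U \ T) T := regE_cover G hc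
  have h3 : regE G (U \ T) T ≤ regE G U T := regE_mono G sdiff_subset Subset.rfl
  rw [regE_symm G U (U \ T)] at h1
  rw [regE_symm G U T] at h1 h3
  omega

/-- Pairs from `T` into a set covered by `p` parts of size `m`. -/
theorem regE_parts {V : Type} (G : SimpleGraph V) (T : Finset V) (m : ℕ) (b : ℝ)
    (hb : ∀ W : Finset V, W.card ≤ T.card + m → (regE G W W : ℝ) ≤ b) (p : ℕ) :
    ∀ U : Finset V, U.card ≤ p * m → (regE G T U : ℝ) ≤ p * b := by
  induction p with
  | zero =>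
    intro U hU
    have : U = ∅ := card_eq_zero.1 (by omega)
    subst this
    simp [regE]
  | succ p ih =>
    intro U hU
    obtain ⟨P, hPU, hP⟩ := exists_subset_card_eq (s := U) (n := min m U.card) (min_le_right _ _)
    have hc : ∀ y ∈ U, y ∈ P ∨ y ∈ U \ P := by
      intro y hy
      by_cases h : y ∈ P
      · exact Or.inl h
      · exact Or.inr (mem_sdiff.2 ⟨hy, h⟩)
    have h1 : regE G T U ≤ regE G T P + regE G T (U \ P) := regE_cover G hc
    have h2 : regE G T P ≤ regE G (T ∪ P) (T ∪ P) :=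
      regE_mono G subset_union_left subset_union_right
    have h3 := hb (T ∪ P) (le_trans (card_union_le _ _) (by rw [hP]; omega))
    have h4 : (U \ P).card ≤ p * m := by
      rw [card_sdiff_of_subset hPU, hP]
      rw [Nat.succ_mul] at hU
      omega
    have h5 := ih _ h4
    have h1' : (regE G T U : ℝ) ≤ regE G T P + regE G T (U \ P) := by exact_mod_cast h1
    have h2' : (regE G T P : ℝ) ≤ regE G (T ∪ P) (T ∪ P) := by exact_mod_cast h2
    push_cast
    linarith

/-- Minimum degree cleaning. -/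
theorem reg_clean {V : Type} (G : SimpleGraph V) (d : ℝ) (hd : 0 < d) (U : Finset V)
    (hne : U.Nonempty) (hU : d * U.card ≤ regE G U U) :
    ∃ U' ⊆ U, U'.Nonempty ∧ ∀ x ∈ U', d / 2 ≤ regD G U' x := by
  obtain ⟨U', hU', hmin⟩ := exists_min_image
    (U.powerset.filter (fun W => W.Nonempty ∧ d * W.card ≤ regE G W W)) card
    ⟨U, by simp only [mem_filter, mem_powerset]; exact ⟨Subset.rfl, hne, hU⟩⟩
  simp only [mem_filter, mem_powerset] at hU' hmin
  refine ⟨U', hU'.1, hU'.2.1, fun x hx => ?_⟩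
  have h1 := regE_sdiff G U' {x}
  rw [regE_sum G {x}, sum_singleton] at h1
  have hc : (U' \ {x}).card + 1 = U'.card := by
    rw [card_sdiff_of_subset (singleton_subset_iff.2 hx), card_singleton]
    have := card_pos.2 hU'.2.1
    omega
  have h2 : (regE G (U' \ {x}) (U' \ {x}) : ℝ) ≤ d * (U' \ {x}).card := by
    by_cases he : (U' \ {x}).Nonempty
    · by_contra hlt
      have := hmin (U' \ {x}) ⟨sdiff_subset.trans hU'.1, he, (not_le.1 hlt).le⟩
      omega
    · rw [not_nonempty_iff_eq_empty.1 he]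
      simp [regE]
  have h1' : (regE G U' U' : ℝ) ≤ regE G (U' \ {x}) (U' \ {x}) + 2 * regD G U' x := by
    exact_mod_cast h1
  have hc' : ((U' \ {x}).card : ℝ) + 1 = U'.card := by exact_mod_cast hc
  have h3 := hU'.2.2
  rw [← hc'] at h3
  linarith

theorem reg_exists_p {α : ℝ} (hα : 0 < α) :
    ∃ p : ℕ, 1 ≤ p ∧ 4 * (3 : ℝ) ^ (1 + α) ≤ (p : ℝ) ^ α := by
  have h := (tendsto_rpow_atTop hα).comp (tendsto_natCast_atTop_atTop (R := ℝ))
  obtain ⟨p, hp⟩ := ((h.eventually_ge_atTop (4 * (3 : ℝ) ^ (1 + α))).and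
    (Filter.eventually_ge_atTop 1)).exists
  exact ⟨p, hp.2, hp.1⟩

theorem reg_alg (p l t u a b : ℝ) (hp : p ≠ 0) (hb : b ≠ 0) :
    p * (l * (t * (u * a / (p * b)))) = l * a * u * (t / b) := by
  field_simp

/-- The regularisation step: an almost regular dense induced piece. -/
theorem reg_core {α : ℝ} (hα : 0 < α) (p : ℕ) (hp1 : 1 ≤ p)
    (hp : 4 * (3 : ℝ) ^ (1 + α) ≤ (p : ℝ) ^ α) {V : Type} [Fintype V] [Nonempty V]
    (G : SimpleGraph V) (C : ℝ) (hC : (p : ℝ) ≤ C)
    (hG : C * (Fintype.card V : ℝ) ^ (1 + α) ≤ (nd G : ℝ)) :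
    ∃ U' : Finset V, U'.Nonempty ∧ ∃ d : ℝ, C * (U'.card : ℝ) ^ α ≤ d ∧
      ∀ x ∈ U', d / 4 ≤ regD G U' x ∧ (regD G U' x : ℝ) ≤ p * d := by
  have hp0 : (0 : ℝ) < p := by exact_mod_cast hp1
  have hC0 : 0 < C := lt_of_lt_of_le hp0 hC
  obtain ⟨U, hU, hmax⟩ := exists_max_image (univ.filter (fun W : Finset V => W.Nonempty))
    (fun W => (regE G W W : ℝ) / (W.card : ℝ) ^ (1 + α))
    ⟨univ, by simp only [mem_filter, mem_univ, true_and]; exact univ_nonempty⟩
  simp only [mem_filter, mem_univ, true_and] at hU hmax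
  obtain ⟨lam, hlam⟩ : ∃ lam : ℝ, lam = (regE G U U : ℝ) / (U.card : ℝ) ^ (1 + α) := ⟨_, rfl⟩
  rw [← hlam] at hmax
  have hu1 : (1 : ℝ) ≤ U.card := by exact_mod_cast card_pos.2 hU
  have hu0 : (0 : ℝ) < U.card := by linarith
  have hnd : regE G univ univ = nd G := by
    unfold regE nd
    rw [univ_product_univ]
  have hn0 : (0 : ℝ) < Fintype.card V := by exact_mod_cast Fintype.card_pos
  have hlamC : C ≤ lam := by
    refine le_trans ?_ (hmax univ univ_nonempty)
    rw [hnd, card_univ, le_div_iff₀ (Real.rpow_pos_of_pos hn0 _)]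
    exact hG
  have hlam0 : 0 < lam := lt_of_lt_of_le hC0 hlamC
  have hall : ∀ (W : Finset V) (M : ℝ), (W.card : ℝ) ≤ M → (regE G W W : ℝ) ≤ lam * M ^ (1 + α) := by
    intro W M hM
    have hM0 : 0 ≤ M := le_trans (Nat.cast_nonneg _) hM
    by_cases he : W.Nonempty
    · have hw0 : (0 : ℝ) < W.card := by exact_mod_cast card_pos.2 he
      have h1 := hmax W he
      rw [div_le_iff₀ (Real.rpow_pos_of_pos hw0 _)] at h1
      refine le_trans h1 (mul_le_mul_of_nonneg_left ?_ hlam0.le)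
      exact Real.rpow_le_rpow hw0.le hM (by linarith)
    · rw [not_nonempty_iff_eq_empty.1 he]
      have : 0 ≤ lam * M ^ (1 + α) := mul_nonneg hlam0.le (Real.rpow_nonneg hM0 _)
      simpa [regE] using this
  obtain ⟨d, hd⟩ : ∃ d : ℝ, d = lam * (U.card : ℝ) ^ α := ⟨_, rfl⟩
  have hua : (1 : ℝ) ≤ (U.card : ℝ) ^ α := Real.one_le_rpow hu1 hα.le
  have hd0 : 0 < d := by rw [hd]; positivity
  have he : (regE G U U : ℝ) = d * U.card := by
    rw [hd, hlam, Real.rpow_add hu0, Real.rpow_one]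
    field_simp
  have hup : (p : ℝ) ≤ U.card := by
    have h1 : (regE G U U : ℝ) ≤ U.card * U.card := by exact_mod_cast regE_le_sq G U
    rw [he] at h1
    have h2 : d ≤ U.card := le_of_mul_le_mul_right h1 hu0
    have h3 : lam ≤ d := by rw [hd]; nlinarith
    linarith
  obtain ⟨T, hT⟩ : ∃ T, T = U.filter (fun x => (p : ℝ) * d < regD G U x) := ⟨_, rfl⟩
  have hTU : T ⊆ U := by rw [hT]; exact filter_subset _ _
  have hTc : (T.card : ℝ) ≤ U.card / p := by
    have h1 : regE G T U ≤ regE G U U := regE_mono G hTU Subset.rfl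
    have h1' : (regE G T U : ℝ) ≤ regE G U U := by exact_mod_cast h1
    have h2 : (T.card : ℝ) * (p * d) ≤ regE G T U := by
      rw [regE_sum, Nat.cast_sum, ← nsmul_eq_mul]
      refine card_nsmul_le_sum _ _ _ fun x hx => ?_
      rw [hT] at hx
      exact (mem_filter.1 hx).2.le
    rw [le_div_iff₀ hp0]
    rw [he] at h1'
    have h3 : (T.card * p) * d ≤ U.card * d := by nlinarith
    exact le_of_mul_le_mul_right h3 hd0
  have hone : (1 : ℝ) ≤ U.card / p := by rw [le_div_iff₀ hp0]; linarith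
  have hparts := regE_parts G T (U.card / p + 1) (lam * (3 * (U.card / p)) ^ (1 + α)) (by
    intro W hW
    apply hall
    have h1 : (W.card : ℝ) ≤ T.card + (((U.card / p : ℕ) : ℝ) + 1) := by exact_mod_cast hW
    have h2 : ((U.card / p : ℕ) : ℝ) ≤ U.card / p := Nat.cast_div_le
    linarith) p U (by
    have := Nat.lt_mul_div_succ U.card (show 0 < p by omega)
    omega)
  have hkey : (p : ℝ) * (lam * (3 * (U.card / p)) ^ (1 + α)) ≤ d * U.card / 4 := by
    have hpa : (0 : ℝ) < (p : ℝ) ^ α := Real.rpow_pos_of_pos hp0 _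
    rw [Real.mul_rpow (by norm_num) (div_pos hu0 hp0).le, Real.div_rpow hu0.le hp0.le,
      Real.rpow_add hu0, Real.rpow_add hp0, Real.rpow_one, Real.rpow_one, hd]
    have h4 : (p : ℝ) * (lam * ((3 : ℝ) ^ (1 + α) * (U.card * (U.card : ℝ) ^ α / (p * (p : ℝ) ^ α))))
        = lam * (U.card : ℝ) ^ α * U.card * ((3 : ℝ) ^ (1 + α) / (p : ℝ) ^ α) :=
      reg_alg _ _ _ _ _ _ hp0.ne' hpa.ne'
    rw [h4]
    have h5 : (3 : ℝ) ^ (1 + α) / (p : ℝ) ^ α ≤ 1 / 4 := by
      rw [div_le_div_iff₀ hpa (by norm_num)]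
      linarith
    have h6 : 0 ≤ lam * (U.card : ℝ) ^ α * U.card :=
      mul_nonneg (mul_nonneg hlam0.le (le_trans zero_le_one hua)) hu0.le
    nlinarith
  have hsd : (regE G U U : ℝ) ≤ regE G (U \ T) (U \ T) + 2 * regE G T U := by
    exact_mod_cast regE_sdiff G U T
  have hbig : d * U.card / 2 ≤ regE G (U \ T) (U \ T) := by linarith
  have hne : (U \ T).Nonempty := by
    by_contra h0
    rw [not_nonempty_iff_eq_empty.1 h0] at hbig
    have : 0 < d * U.card / 2 := half_pos (mul_pos hd0 hu0)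
    simp only [regE, product_empty, filter_empty, card_empty, Nat.cast_zero] at hbig
    linarith
  have hsc : ((U \ T).card : ℝ) ≤ U.card := by exact_mod_cast card_le_card sdiff_subset
  obtain ⟨U', hU'1, hU'2, hU'3⟩ := reg_clean G (d / 2) (half_pos hd0) (U \ T) hne (by nlinarith)
  refine ⟨U', hU'2, d, ?_, fun x hx => ⟨?_, ?_⟩⟩
  · rw [hd]
    have h1 : (U'.card : ℝ) ≤ U.card := by
      exact_mod_cast card_le_card (hU'1.trans sdiff_subset)
    exact mul_le_mul hlamC (Real.rpow_le_rpow (Nat.cast_nonneg _) h1 hα.le)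
      (Real.rpow_nonneg (Nat.cast_nonneg _) _) hlam0.le
  · have := hU'3 x hx
    linarith
  · have h1 := mem_sdiff.1 (hU'1 hx)
    have h2 : ¬ ((p : ℝ) * d < regD G U x) := by
      intro h
      exact h1.2 (by rw [hT]; exact mem_filter.2 ⟨h1.1, h⟩)
    have h3 : (regD G U' x : ℝ) ≤ regD G U x := by
      exact_mod_cast regD_mono G (hU'1.trans sdiff_subset) x
    linarith [not_lt.1 h2]

theorem rob_of_reg {W : Type} (H : SimpleGraph W) {α : ℝ} (hα : 0 < α) (h : RobReg H α) :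
    Rob H α := by
  intro s
  obtain ⟨p, hp1, hp⟩ := reg_exists_p hα
  obtain ⟨C₁, hC₁⟩ := h s (4 * p)
  refine ⟨4 * |C₁| + p, fun V _ _ G c hc hG => ?_⟩
  obtain ⟨U, hU, d, hd, hdeg⟩ := reg_core hα p hp1 hp G (4 * |C₁| + p)
    (by have := abs_nonneg C₁; linarith) hG
  have : Nonempty U := hU.to_subtype
  have hnb : ∀ x : U, (nb (G.comap (Subtype.val : U → V)) x).card = regD G U x := by
    intro x
    unfold nb regD
    refine card_bij (fun (y : U) _ => (y : V)) ?_ ?_ ?_
    · intro y hy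
      simp only [mem_filter, mem_univ, true_and, SimpleGraph.comap_adj] at hy ⊢
      exact ⟨y.2, hy⟩
    · intro y _ y' _ hyy
      exact Subtype.ext hyy
    · intro y hy
      simp only [mem_filter] at hy
      refine ⟨⟨y, hy.1⟩, ?_, rfl⟩
      simp only [mem_filter, mem_univ, true_and, SimpleGraph.comap_adj]
      exact hy.2
  have hconf : Conf s (fun z z' : Sym2 U =>
      c (Sym2.map (Subtype.val : U → V) z) (Sym2.map (Subtype.val : U → V) z')) :=
    ⟨fun z => hc.refl _, fun z z' hz => hc.symm _ _ hz,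
      hc.free.comap _ _ (Sym2.map.injective Subtype.val_injective)
        (Sym2.map.injective Subtype.val_injective)⟩
  have hceil : d / 4 ≤ (⌈d / 4⌉₊ : ℝ) := Nat.le_ceil _
  obtain ⟨φ, hφ⟩ := hC₁ U (G.comap (Subtype.val : U → V)) _ ⌈d / 4⌉₊ hconf (by
    intro x
    rw [hnb]
    refine ⟨Nat.ceil_le.2 (hdeg x x.2).1, ?_⟩
    have h1 := (hdeg x x.2).2
    have h2 : (regD G U x : ℝ) ≤ ((4 * p * ⌈d / 4⌉₊ : ℕ) : ℝ) := by
      push_cast
      have hp0 : (0 : ℝ) ≤ p := Nat.cast_nonneg _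
      nlinarith
    exact_mod_cast h2) (by
    rw [Fintype.card_coe]
    have h1 : 0 ≤ (U.card : ℝ) ^ α := Real.rpow_nonneg (Nat.cast_nonneg _) _
    have h2 := le_abs_self C₁
    have hp0 : (0 : ℝ) ≤ p := Nat.cast_nonneg _
    nlinarith)
  exact ⟨fun w => (φ w : V), ⟨fun a b hab => hφ.adj a b hab,
    fun a b a' b' h1 h2 h3 => hφ.clean a b a' b' h1 h2 h3⟩⟩

end Pool.Agent.Lib.MP_9bef39_co
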