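import Pool.Agent.Lib.MP_9bef39_co.Light
import Pool.Agent.Lib.MP_9bef39_co.Reg
import Pool.Agent.Lib.MP_9bef39_co.Asm

open Finset
open scoped Classical

namespace Pool.Agent.Lib.MP_9bef39_co

theorem Sparse.subset {V : Type} {G : SimpleGraph V} {c : Sym2 V → Sym2 V → Prop} {k f : ℕ}
    {T T' : Finset (ℕ → V)} (h : Sparse G c k f T) (hT : T' ⊆ T) : Sparse G c k f T' where
  walk x hx := h.walk x (hT hx)
  clean x hx := h.clean x (hT hx)
  mult1 y u u' y' := (card_le_card (filter_subset_filter _ hT)).trans (h.mult1 y u u' y')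
  mult2 i h1 h2 y z y' :=
    (card_le_card (filter_subset_filter _ hT)).trans (h.mult2 i h1 h2 y z y')

theorem robReg_L (B : BG) (k : ℕ) (hk : 1 ≤ k) {α : ℝ} (hα : 0 ≤ α) (hα1 : α < 1)
    (hR : Rob B.graph α) : RobReg (LG B k) (1 / ((k : ℝ) + 1 - α)) := by
  intro s K
  obtain ⟨f, δ0, hgood⟩ := good_or_data B k s K hk
  obtain ⟨C1, hsp⟩ := data_of_sparse B k s f hk hα hR
  set A : ℝ := 2 * max C1 1 * (K : ℝ) ^ (1 + α) + 1 with hA
  have hA1 : 1 ≤ A := by
    have : 0 ≤ 2 * max C1 1 * (K : ℝ) ^ (1 + α) := by positivity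
    linarith
  refine ⟨max ((δ0 : ℝ) + 1) A, ?_⟩
  intro V _ _ G c δ hc hd hδ
  set β : ℝ := (k : ℝ) + 1 - α with hβ
  have hk' : (1 : ℝ) ≤ k := by exact_mod_cast hk
  have hβ1 : 1 ≤ β := by rw [hβ]; linarith
  have hβ0 : 0 < β := by linarith
  set n : ℝ := (Fintype.card V : ℝ) with hn
  have hn1 : 1 ≤ n := by rw [hn]; exact_mod_cast Fintype.card_pos
  have hnr : 1 ≤ n ^ (1 / β) := Real.one_le_rpow hn1 (by positivity)
  have hC0 : 0 ≤ max ((δ0 : ℝ) + 1) A := le_trans (by linarith) (le_max_right _ _)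
  have hδ1 : (δ0 : ℝ) + 1 ≤ δ := by
    have := le_max_left ((δ0 : ℝ) + 1) A
    nlinarith
  have hδ1' : δ0 + 1 ≤ δ := by exact_mod_cast hδ1
  have hδpos : (0 : ℝ) < δ := by
    have : (0 : ℝ) ≤ δ0 := Nat.cast_nonneg _
    linarith
  have hAδ : A * n ≤ (δ : ℝ) ^ β := by
    have h1 : A * n ^ (1 / β) ≤ δ :=
      le_trans (mul_le_mul_of_nonneg_right (le_max_right _ _) (by linarith)) hδ
    have h2 : (A * n ^ (1 / β)) ^ β ≤ (δ : ℝ) ^ β :=
      Real.rpow_le_rpow (by positivity) h1 hβ0.le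
    rw [Real.mul_rpow (by linarith) (by linarith), ← Real.rpow_mul (by linarith),
      one_div_mul_cancel hβ0.ne', Real.rpow_one] at h2
    have h3 : A ≤ A ^ β := by
      conv_lhs => rw [← Real.rpow_one A]
      exact Real.rpow_le_rpow_of_exponent_le hA1 hβ1
    nlinarith
  have hK : 1 ≤ K * δ := by
    obtain ⟨x⟩ := ‹Nonempty V›
    have := hd x
    omega
  have key : ∃ y ψ π, Data B k G c y ψ π := by
    rcases hgood V G c δ hc hd (by omega) with h | ⟨T, hT, hcard⟩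
    · exact h
    by_contra hno
    have hfib : ∀ p : V × V,
        ((T.filter (fun x => (x 0, x (k + 2)) = p)).card : ℝ) ≤
          max C1 1 * ((K * δ : ℕ) : ℝ) ^ (1 + α) := by
      intro p
      by_contra hlt
      push Not at hlt
      apply hno
      refine hsp V G c (K * δ) p.1 p.2 _ hc (fun x => (hd x).2) hK
        (hT.subset (filter_subset (fun x => (x 0, x (k + 2)) = p) T)) ?_ ?_
      · intro x hx
        have := (mem_filter.mp hx).2
        rw [← this]
        exact ⟨rfl, rfl⟩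
      · refine le_trans ?_ hlt.le
        exact mul_le_mul_of_nonneg_right (le_max_left _ _) (by positivity)
    have hsum : (T.card : ℝ) ≤ n * n * (max C1 1 * ((K * δ : ℕ) : ℝ) ^ (1 + α)) := by
      have h1 : T.card = ∑ p : V × V, (T.filter (fun x => (x 0, x (k + 2)) = p)).card :=
        card_eq_sum_card_fiberwise (fun _ _ => mem_coe.mpr (mem_univ _))
      rw [h1]
      push_cast
      refine (sum_le_card_nsmul _ _ (max C1 1 * ((K : ℝ) * δ) ^ (1 + α)) ?_).trans ?_
      · intro p _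
        simpa using hfib p
      · simp [hn]
    have hcard' : n * (δ : ℝ) ^ (k + 2) ≤ 2 * T.card := by
      rw [hn]; exact_mod_cast hcard
    have hsplit : (δ : ℝ) ^ (k + 2) = (δ : ℝ) ^ β * (δ : ℝ) ^ (1 + α) := by
      rw [← Real.rpow_add hδpos, ← Real.rpow_natCast]
      congr 1
      rw [hβ]; push_cast; ring
    have hmul : ((K * δ : ℕ) : ℝ) ^ (1 + α) = (K : ℝ) ^ (1 + α) * (δ : ℝ) ^ (1 + α) := by
      push_cast
      exact Real.mul_rpow (Nat.cast_nonneg _) hδpos.le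
    rw [hmul] at hsum
    rw [hsplit] at hcard'
    have hp : 0 < (δ : ℝ) ^ (1 + α) := Real.rpow_pos_of_pos hδpos _
    set X := (δ : ℝ) ^ (1 + α)
    set Y := (δ : ℝ) ^ β
    set Z := max C1 1 * (K : ℝ) ^ (1 + α) with hZ
    have h1 : n * (Y * X) ≤ 2 * (n * n * (Z * X)) := by
      have : max C1 1 * ((K : ℝ) ^ (1 + α) * X) = Z * X := by rw [hZ]; ring
      rw [this] at hsum
      linarith
    have h2 : A = 2 * Z + 1 := by rw [hA, hZ]; ring
    rw [h2] at hAδ
    have h3 : n * X * ((2 * Z + 1) * n) ≤ n * X * Y :=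
      mul_le_mul_of_nonneg_left hAδ (by positivity)
    have h4 : 0 < n * X * n := by positivity
    nlinarith
  obtain ⟨y, ψ, π, hD⟩ := key
  exact asm B hk hc hD

theorem rob_L (B : BG) (k : ℕ) (hk : 1 ≤ k) {α : ℝ} (hα : 0 ≤ α) (hα1 : α < 1)
    (hR : Rob B.graph α) : Rob (LG B k) (1 / ((k : ℝ) + 1 - α)) := by
  refine rob_of_reg _ ?_ (robReg_L B k hk hα hα1 hR)
  have : (1 : ℝ) ≤ k := by exact_mod_cast hk
  apply one_div_pos.mpr
  linarith

end Pool.Agent.Lib.MP_9bef39_co
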