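import Pool.Agent.Lib.MP_9bef39_co.Free

open Finset
open scoped Classical

namespace Pool.Agent.Lib.MP_9bef39_co

variable {V : Type}

theorem IsWalk.win {G : SimpleGraph V} {i a l : ℕ} {x : ℕ → V} (h : IsWalk G i x)
    (hal : a + l ≤ i) : IsWalk G l (win a l x) := by
  refine ⟨fun n hn => ?_, fun n hn => ?_⟩
  · have h1 : min n l = n := min_eq_left hn.le
    have h2 : min (n + 1) l = n + 1 := min_eq_left hn
    show G.Adj (x (a + min n l)) (x (a + min (n + 1) l))
    rw [h1, h2, ← add_assoc]
    exact h.adj _ (by omega)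
  · show x (a + min n l) = x (a + min l l)
    rw [min_eq_right hn, min_self]

theorem CleanW.win {c : Sym2 V → Sym2 V → Prop} {i a l : ℕ} {x : ℕ → V} (h : CleanW c i x)
    (hal : a + l ≤ i) : CleanW c l (win a l x) := by
  intro p p' b b' h1 h2 h3 h4 h5 h6 hc
  have e1 : min p l = p := min_eq_left (h1.trans h3)
  have e2 : min p' l = p' := min_eq_left h3
  have e3 : min b l = b := min_eq_left (h4.trans h6)
  have e4 : min b' l = b' := min_eq_left h6
  have hc' : c s(x (a + p), x (a + p')) s(x (a + b), x (a + b')) := by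
    have : c s(x (a + min p l), x (a + min p' l)) s(x (a + min b l), x (a + min b' l)) := hc
    rwa [e1, e2, e3, e4] at this
  have := h (a + p) (a + p') (a + b) (a + b') (by omega) (by omega) (by omega) (by omega)
    (by omega) (by omega) hc'
  omega

theorem card_inner_le (i : ℕ) (x : ℕ → V) : (inner i x).card ≤ 2 * i := by
  unfold inner
  refine (card_union_le _ _).trans ?_
  have h1 := card_image_le (s := Ioo 0 i) (f := fun n => s(x n, x n))
  have h2 := card_image_le (s := range i) (f := fun n => s(x n, x (n + 1)))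
  rw [Nat.card_Ioo] at h1
  rw [card_range] at h2
  omega

/-- For `2 ≤ i` every inner element contains an interior vertex. -/
theorem exists_interior_of_mem_inner {i : ℕ} (hi : 2 ≤ i) {x : ℕ → V} {z : Sym2 V}
    (hz : z ∈ inner i x) : ∃ n, 0 < n ∧ n < i ∧ x n ∈ z := by
  unfold inner at hz
  rcases mem_union.1 hz with h | h
  · obtain ⟨n, hn, rfl⟩ := mem_image.1 h
    rw [mem_Ioo] at hn
    exact ⟨n, hn.1, hn.2, Sym2.mem_mk_left _ _⟩
  · obtain ⟨n, hn, rfl⟩ := mem_image.1 h
    rw [mem_range] at hn
    rcases Nat.eq_zero_or_pos n with h0 | h0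
    · exact ⟨n + 1, by omega, by omega, Sym2.mem_mk_right _ _⟩
    · exact ⟨n, h0, hn, Sym2.mem_mk_left _ _⟩

theorem IsWalk.ext_le {G : SimpleGraph V} {i : ℕ} {x y : ℕ → V} (hx : IsWalk G i x)
    (hy : IsWalk G i y) (h : ∀ n, n ≤ i → x n = y n) : x = y := by
  funext n
  rcases le_total n i with hn | hn
  · exact h n hn
  · rw [hx.const n hn, hy.const n hn, h i le_rfl]

theorem win_apply_le {a l n : ℕ} (x : ℕ → V) (hn : n ≤ l) : win a l x n = x (a + n) := by
  show x (a + min n l) = x (a + n)
  rw [min_eq_left hn]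

variable [Fintype V] {G : SimpleGraph V}

theorem walk_mem_nb {x y : V} : y ∈ nb G x ↔ G.Adj x y := by
  simp [nb]

theorem card_ext_last {Δ : ℕ} (hΔ : ∀ x, (nb G x).card ≤ Δ) (i : ℕ) (T : Finset (ℕ → V)) :
    ((walks G (i + 1)).filter (fun x => win 0 i x ∈ T)).card ≤ T.card * Δ := by
  have h1 : ((walks G (i + 1)).filter (fun x => win 0 i x ∈ T)).card ≤
      (T.sigma (fun p => nb G (p i))).card := by
    refine card_le_card_of_injOn (fun x => ⟨win 0 i x, x (i + 1)⟩) ?_ ?_
    · intro x hx
      rw [coe_filter] at hx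
      obtain ⟨hw, hT⟩ := hx
      rw [mem_walks] at hw
      rw [mem_coe, mem_sigma]
      refine ⟨hT, ?_⟩
      show x (i + 1) ∈ nb G (win 0 i x i)
      rw [walk_mem_nb, win_apply_le x le_rfl, zero_add]
      exact hw.adj i (by omega)
    · intro x hx y hy hxy
      rw [coe_filter] at hx hy
      have hx' := mem_walks.1 hx.1
      have hy' := mem_walks.1 hy.1
      simp only [Sigma.mk.injEq, heq_eq_eq] at hxy
      refine hx'.ext_le hy' fun n hn => ?_
      rcases Nat.lt_or_ge n (i + 1) with h | h
      · have := congrFun hxy.1 n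
        rwa [win_apply_le x (by omega), win_apply_le y (by omega), zero_add] at this
      · have : n = i + 1 := by omega
        rw [this]; exact hxy.2
  refine h1.trans ?_
  rw [card_sigma]
  exact (sum_le_card_nsmul _ _ Δ fun p _ => hΔ _).trans (by simp)

theorem card_ext_first {Δ : ℕ} (hΔ : ∀ x, (nb G x).card ≤ Δ) (i : ℕ) (T : Finset (ℕ → V)) :
    ((walks G (i + 1)).filter (fun x => win 1 i x ∈ T)).card ≤ T.card * Δ := by
  have h1 : ((walks G (i + 1)).filter (fun x => win 1 i x ∈ T)).card ≤
      (T.sigma (fun p => nb G (p 0))).card := by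
    refine card_le_card_of_injOn (fun x => ⟨win 1 i x, x 0⟩) ?_ ?_
    · intro x hx
      rw [coe_filter] at hx
      obtain ⟨hw, hT⟩ := hx
      rw [mem_walks] at hw
      rw [mem_coe, mem_sigma]
      refine ⟨hT, ?_⟩
      show x 0 ∈ nb G (win 1 i x 0)
      rw [walk_mem_nb, win_apply_le x (Nat.zero_le _)]
      exact (hw.adj 0 (by omega)).symm
    · intro x hx y hy hxy
      rw [coe_filter] at hx hy
      have hx' := mem_walks.1 hx.1
      have hy' := mem_walks.1 hy.1
      simp only [Sigma.mk.injEq, heq_eq_eq] at hxy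
      refine hx'.ext_le hy' fun n hn => ?_
      rcases Nat.eq_zero_or_pos n with h | h
      · rw [h]; exact hxy.2
      · have := congrFun hxy.1 (n - 1)
        rw [win_apply_le x (by omega), win_apply_le y (by omega)] at this
        have e : 1 + (n - 1) = n := by omega
        rwa [e] at this
  refine h1.trans ?_
  rw [card_sigma]
  exact (sum_le_card_nsmul _ _ Δ fun p _ => hΔ _).trans (by simp)

theorem card_walks_start {Δ : ℕ} (hΔ : ∀ x, (nb G x).card ≤ Δ) (i : ℕ) (x0 : V) :
    ((walks G i).filter (fun x => x 0 = x0)).card ≤ Δ ^ i := by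
  induction i with
  | zero =>
    rw [pow_zero]
    refine card_le_one.2 fun x hx y hy => ?_
    rw [mem_filter, mem_walks] at hx hy
    refine hx.1.ext_le hy.1 fun n hn => ?_
    have : n = 0 := by omega
    rw [this, hx.2, hy.2]
  | succ i ih =>
    have h := card_ext_last hΔ i ((walks G i).filter (fun x => x 0 = x0))
    refine le_trans (card_le_card fun x hx => ?_) (h.trans ?_)
    · rw [mem_filter, mem_walks] at hx
      rw [mem_filter, mem_filter, mem_walks, mem_walks]
      refine ⟨hx.1, hx.1.win (by omega), ?_⟩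
      rw [win_apply_le x (Nat.zero_le _)]
      exact hx.2
    · rw [pow_succ]
      exact Nat.mul_le_mul_right _ ih

theorem card_walks_le {Δ : ℕ} (hΔ : ∀ x, (nb G x).card ≤ Δ) (i : ℕ) :
    (walks G i).card ≤ Fintype.card V * Δ ^ i := by
  have h := card_le_mul_card_image_of_maps_to (s := walks G i) (t := (univ : Finset V))
    (f := fun x => x 0) (fun _ _ => mem_univ _) (Δ ^ i) (fun b _ => card_walks_start hΔ i b)
  rw [card_univ, mul_comm] at h
  exact h

theorem card_walks_ge {δ : ℕ} (hδ : ∀ x, δ ≤ (nb G x).card) (i : ℕ) :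
    Fintype.card V * δ ^ i ≤ (walks G i).card := by
  induction i with
  | zero =>
    rw [pow_zero, mul_one, ← card_univ]
    refine card_le_card_of_injOn (fun v _ => v) ?_ ?_
    · intro v _
      rw [mem_coe, mem_walks]
      exact ⟨fun n hn => absurd hn (Nat.not_lt_zero n), fun _ _ => rfl⟩
    · intro v _ w _ h
      exact congrFun h 0
  | succ i ih =>
    have h1 : ((walks G i).sigma (fun p => nb G (p i))).card ≤ (walks G (i + 1)).card := by
      refine card_le_card_of_injOn (fun p n => if n ≤ i then p.1 n else p.2) ?_ ?_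
      · intro p hp
        rw [mem_coe, mem_sigma, mem_walks, walk_mem_nb] at hp
        rw [mem_coe, mem_walks]
        refine ⟨fun n hn => ?_, fun n hn => ?_⟩
        · have h1 : n ≤ i := by omega
          rcases Nat.lt_or_ge n i with h | h
          · have h2 : n + 1 ≤ i := h
            simp only [h1, h2, if_true]
            exact hp.1.adj n h
          · have h2 : ¬ n + 1 ≤ i := by omega
            have h3 : n = i := by omega
            simp only [h1, h2, if_true, if_false]
            rw [h3]
            exact hp.2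
        · have h1 : ¬ n ≤ i := by omega
          have h2 : ¬ i + 1 ≤ i := by omega
          simp only [h1, h2, if_false]
      · intro p hp p' hp' h
        rw [mem_coe, mem_sigma, mem_walks] at hp hp'
        have e1 : p.1 = p'.1 := by
          refine hp.1.ext_le hp'.1 fun n hn => ?_
          have := congrFun h n
          simpa only [hn, if_true] using this
        have e2 : p.2 = p'.2 := by
          have := congrFun h (i + 1)
          have h2 : ¬ i + 1 ≤ i := by omega
          simpa only [h2, if_false] using this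
        obtain ⟨a, b⟩ := p
        obtain ⟨a', b'⟩ := p'
        simp only at e1 e2
        subst e1
        subst e2
        rfl
    refine le_trans ?_ h1
    rw [card_sigma, pow_succ, ← mul_assoc]
    refine (Nat.mul_le_mul_right _ ih).trans ?_
    have := card_nsmul_le_sum (walks G i) (fun p => (nb G (p i)).card) δ fun p _ => hδ _
    simpa using this

omit [Fintype V] G in
theorem card_hit_inner_le {G : SimpleGraph V} {c : Sym2 V → Sym2 V → Prop} {j F : ℕ} (hj : 2 ≤ j)
    {A : Finset (ℕ → V)} (hA : Fam G c j F A) (v w : V) (z : Sym2 V) :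
    ((ends A j v w).filter (fun x => z ∈ inner j x)).card ≤ 2 * j * F := by
  induction z using Sym2.ind with
  | _ a b =>
    have hsub : (ends A j v w).filter (fun x => s(a, b) ∈ inner j x) ⊆
        (Ioo 0 j).biUnion (fun n => (ends A j v w).filter (fun x => x n = a) ∪
          (ends A j v w).filter (fun x => x n = b)) := by
      intro x hx
      rw [mem_filter] at hx
      obtain ⟨n, h0, hn, hm⟩ := exists_interior_of_mem_inner hj hx.2
      rw [mem_biUnion]
      refine ⟨n, mem_Ioo.2 ⟨h0, hn⟩, ?_⟩
      rw [mem_union, mem_filter, mem_filter]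
      rcases Sym2.mem_iff.1 hm with h | h
      · exact Or.inl ⟨hx.1, h⟩
      · exact Or.inr ⟨hx.1, h⟩
    refine (card_le_card hsub).trans (card_biUnion_le.trans ?_)
    refine (sum_le_card_nsmul _ _ (2 * F) fun n hn => ?_).trans ?_
    · rw [mem_Ioo] at hn
      refine (card_union_le _ _).trans ?_
      have h1 := hA.mult v w a n hn.1 hn.2
      have h2 := hA.mult v w b n hn.1 hn.2
      omega
    · rw [Nat.card_Ioo, smul_eq_mul]
      have : (j - 0 - 1) * (2 * F) ≤ j * (2 * F) := Nat.mul_le_mul_right _ (by omega)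
      calc (j - 0 - 1) * (2 * F) ≤ j * (2 * F) := this
        _ = 2 * j * F := by ring

omit [Fintype V] G in
theorem card_filter_inst {α : Type} (s : Finset α) (p : α → Prop) (d₁ d₂ : DecidablePred p) :
    (@Finset.filter α p d₁ s).card = (@Finset.filter α p d₂ s).card := by
  have : d₁ = d₂ := Subsingleton.elim _ _
  rw [this]

omit [Fintype V] G in
theorem hit_free (s j F : ℕ) (hj : 2 ≤ j) : ∃ s' : ℕ, ∀ {V : Type} (G : SimpleGraph V)
    (c : Sym2 V → Sym2 V → Prop) (A : Finset (ℕ → V)), Conf s c → Fam G c j F A → ∀ v w,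
    Free s' (fun z x => x ∈ ends A j v w ∧ Hit c j z x) := by
  obtain ⟨s', hs'⟩ := free_lab s (2 * j) (2 * j * F)
  refine ⟨s', fun G c A hc hA v w => ?_⟩
  exact hs' c (ends A j v w) (inner j) hc.free (fun b _ => card_inner_le j b)
    (fun z => (card_filter_inst _ _ _ _).trans_le (card_hit_inner_le hj hA v w z))

omit [Fintype V] G in
theorem pop_hit (s j F q : ℕ) (hj : 2 ≤ j) : ∃ M L : ℕ, ∀ {V : Type} (G : SimpleGraph V)
    (c : Sym2 V → Sym2 V → Prop) (A : Finset (ℕ → V)), Conf s c → Fam G c j F A → ∀ v w,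
    ∀ I ⊆ ends A j v w, L ≤ I.card → ∀ Z : Finset (Sym2 V),
    (∀ z ∈ Z, Popular (Hit c j) q I z) → Z.card ≤ M := by
  obtain ⟨s', hs'⟩ := hit_free s j F hj
  obtain ⟨M, L, hML⟩ := pop s' q
  refine ⟨M, L, fun G c A hc hA v w I hI hL Z hZ => ?_⟩
  refine hML _ (hs' G c A hc hA v w) I hL Z fun z hz => ?_
  have h := hZ z hz
  unfold Popular at h ⊢
  refine h.trans (Nat.mul_le_mul_left _ (card_le_card fun x hx => ?_))
  simp only [mem_filter] at hx ⊢
  exact ⟨hx.1, hI hx.1, hx.2⟩

omit [Fintype V] G in
theorem hit2_free (s j F : ℕ) (hj : 2 ≤ j) : ∃ s' : ℕ, ∀ {V : Type} (G : SimpleGraph V)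
    (c : Sym2 V → Sym2 V → Prop) (A : Finset (ℕ → V)), Conf s c → Fam G c j F A → ∀ v w v' w',
    Free s' (fun x x' => x ∈ ends A j v w ∧ x' ∈ ends A j v' w' ∧
      ∃ z ∈ inner j x, Hit c j z x') := by
  obtain ⟨s₁, hs₁⟩ := hit_free s j F hj
  obtain ⟨s', hs'⟩ := free_lab s₁ (2 * j) (2 * j * F)
  refine ⟨s', fun G c A hc hA v w v' w' => ?_⟩
  have h := hs' _ (ends A j v w) (inner j) (hs₁ G c A hc hA v' w').swap
    (fun b _ => card_inner_le j b) (fun z => (card_filter_inst _ _ _ _).trans_le (card_hit_inner_le hj hA v w z))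
  refine h.swap.sub fun x x' hx => ?_
  obtain ⟨h1, h2, z, hz, h3⟩ := hx
  exact ⟨h1, z, hz, h2, h3⟩

end Pool.Agent.Lib.MP_9bef39_co
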